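import Pool.Agent.Lib_MP_1209e6_ql.Defs

/-! Linear changes of coordinates and the only line of a quartic surface (for `quartic_one'`). -/

set_option autoImplicit false

open MvPolynomial

noncomputable section

namespace Pool.Agent.QX

/-- evaluation after a linear change of coordinates -/
theorem comp_eval13 {A : Type} [CommRing A] [Algebra ℂ A] (F : MvPolynomial (Fin 4) ℂ)
    (E : Fin 4 → Fin 4 → ℂ) (p : Fin 4 → A) :
    aeval p (aeval (fun j => ∑ i, C (E i j) * (X i : MvPolynomial (Fin 4) ℂ)) F) =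
      aeval (fun j => ∑ i, algebraMap ℂ A (E i j) * p i) F := by
  rw [comp_aeval_apply]
  congr 2
  ext j
  simp [map_sum, map_mul]

/-- the coordinates of the only line -/
theorem oneLine_comp13 {F : MvPolynomial (Fin 4) ℂ} (a b c d : Fin 4 → ℂ)
    (hE : LinearIndependent ℂ ![a, b, c, d])
    (hon : ∀ s t : ℂ, aeval (fun j => s * a j + t * b j) F = 0)
    (honly : ∀ a' b' : Fin 4 → ℂ, LinearIndependent ℂ ![a', b'] →
      (∀ s t : ℂ, aeval (fun j => s * a' j + t * b' j) F = 0) →
      a' ∈ Submodule.span ℂ {a, b} ∧ b' ∈ Submodule.span ℂ {a, b}) :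
    OneLine (aeval (fun j => ∑ i, C (![a, b, c, d] i j) * (X i : MvPolynomial (Fin 4) ℂ)) F) := by
  classical
  have key : ∀ p : Fin 4 → ℂ, (∑ i, p i • (![a, b, c, d] : Fin 4 → Fin 4 → ℂ) i) ∈
      Submodule.span ℂ {a, b} → p 2 = 0 ∧ p 3 = 0 := by
    intro p hp
    obtain ⟨s, t, hst⟩ := Submodule.mem_span_pair.1 hp
    have h0 := Fintype.linearIndependent_iff.1 hE ![p 0 - s, p 1 - t, p 2, p 3] (by
      rw [Fin.sum_univ_four] at hst ⊢
      simp only [Matrix.cons_val_zero, Matrix.cons_val_one, Matrix.cons_val] at hst ⊢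
      rw [sub_smul, sub_smul]
      linear_combination (exp := 1) -hst)
    exact ⟨by simpa using h0 2, by simpa using h0 3⟩
  have hinj : ∀ p : Fin 4 → ℂ, (∑ i, p i • (![a, b, c, d] : Fin 4 → Fin 4 → ℂ) i) = 0 → p = 0 :=
    fun p hp => funext (Fintype.linearIndependent_iff.1 hE p hp)
  have hcomb : ∀ p : Fin 4 → ℂ, (fun j => ∑ i, algebraMap ℂ ℂ (![a, b, c, d] i j) * p i) =
      ∑ i, p i • (![a, b, c, d] : Fin 4 → Fin 4 → ℂ) i := by
    intro p
    ext j
    simp [Finset.sum_apply, mul_comm]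
  constructor
  · intro p h2 h3
    rw [comp_eval13, hcomb]
    rw [← hon (p 0) (p 1)]
    congr 2
    rw [Fin.sum_univ_four]
    ext j
    simp [h2, h3]
  · intro a' b' hab' h'
    set a'' := ∑ i, a' i • (![a, b, c, d] : Fin 4 → Fin 4 → ℂ) i with ha''
    set b'' := ∑ i, b' i • (![a, b, c, d] : Fin 4 → Fin 4 → ℂ) i with hb''
    have hlin : ∀ s t : ℂ, s • a'' + t • b'' =
        ∑ i, (s • a' + t • b') i • (![a, b, c, d] : Fin 4 → Fin 4 → ℂ) i := by
      intro s t
      rw [ha'', hb'', Finset.smul_sum, Finset.smul_sum, ← Finset.sum_add_distrib]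
      refine Finset.sum_congr rfl fun i _ => ?_
      rw [Pi.add_apply, Pi.smul_apply, Pi.smul_apply, add_smul, smul_assoc, smul_assoc]
    have hind : LinearIndependent ℂ ![a'', b''] := by
      rw [LinearIndependent.pair_iff]
      intro s t hst
      rw [hlin] at hst
      exact LinearIndependent.pair_iff.1 hab' s t (hinj _ hst)
    obtain ⟨h1, h2⟩ := honly a'' b'' hind (by
      intro s t
      have h3 := h' s t
      rw [comp_eval13, hcomb] at h3
      have h4 : (fun j => s * a'' j + t * b'' j) =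
          ∑ i, (fun j => s * a' j + t * b' j) i • (![a, b, c, d] : Fin 4 → Fin 4 → ℂ) i := hlin s t
      rw [h4]
      exact h3)
    exact ⟨(key a' h1).1, (key a' h1).2, (key b' h2).1, (key b' h2).2⟩

/-- two independent vectors are part of a basis -/
theorem exists_ext13 (a b : Fin 4 → ℂ) (hab : LinearIndependent ℂ ![a, b]) :
    ∃ c d : Fin 4 → ℂ, LinearIndependent ℂ ![a, b, c, d] := by
  obtain ⟨c, hc⟩ := exists_linearIndependent_snoc_of_lt_finrank hab (by simp)
  obtain ⟨d, hd⟩ := exists_linearIndependent_snoc_of_lt_finrank hc (by simp)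
  refine ⟨c, d, ?_⟩
  have h1 : (![a, b, c, d] : Fin 4 → Fin 4 → ℂ) = Fin.snoc (α := fun _ => Fin 4 → ℂ)
      (Fin.snoc (α := fun _ => Fin 4 → ℂ) ![a, b] c) d := by
    ext i
    fin_cases i <;> rfl
  rw [h1]
  exact hd

end Pool.Agent.QX
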