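import Pool.Agent.Lib_MP_1209e6_ds.Defs

/-! Smoothness of a hypersurface is invariant under linear changes of coordinates. -/

set_option autoImplicit false

open MvPolynomial

noncomputable section

namespace Pool.Agent.QX

theorem x85_chain {σ τ : Type} [Fintype σ] (g : σ → MvPolynomial τ ℂ) (i : τ) (F : MvPolynomial σ ℂ) :
    pderiv i (aeval g F) = ∑ j, aeval g (pderiv j F) * pderiv i (g j) := by
  classical
  induction F using MvPolynomial.induction_on with
  | C a => simp
  | add p q hp hq => simp only [map_add, hp, hq, add_mul, Finset.sum_add_distrib]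
  | mul_X p k hp =>
    rw [map_mul, Derivation.leibniz, hp, aeval_X]
    have h1 : ∀ j, aeval g (pderiv j (p * X k)) * pderiv i (g j) =
        g k * (aeval g (pderiv j p) * pderiv i (g j)) +
          (if k = j then aeval g p * pderiv i (g k) else 0) := by
      intro j
      rw [Derivation.leibniz, map_add, smul_eq_mul, smul_eq_mul, map_mul, map_mul, aeval_X, pderiv_X,
        add_mul]
      by_cases hk : k = j
      · subst hk
        simp
        ring
      · rw [if_neg hk, Pi.single_eq_of_ne hk, map_zero, mul_zero, zero_mul]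
        ring
    rw [Finset.sum_congr rfl fun j _ => h1 j, Finset.sum_add_distrib, ← Finset.mul_sum, Finset.sum_ite_eq,
      if_pos (Finset.mem_univ _), smul_eq_mul, smul_eq_mul]
    ring

/-- smoothness is invariant -/
theorem x85_smooth_comp {F : MvPolynomial (Fin 4) ℂ}
    (hs : Pool.Agent.DS.Smooth F) (E : Fin 4 → Fin 4 → ℂ) (hE : LinearIndependent ℂ E) :
    Pool.Agent.DS.Smooth (aeval (fun j => ∑ i, C (E i j) * (X i : MvPolynomial (Fin 4) ℂ)) F) := by
  classical
  intro p hp
  set g : Fin 4 → MvPolynomial (Fin 4) ℂ := fun j => ∑ i, C (E i j) * X i with hg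
  set y : Fin 4 → ℂ := fun j => ∑ i, E i j * p i with hy
  have hgy : ∀ j, aeval p (g j) = y j := by
    intro j
    simp [hg, hy]
  have hcomp : ∀ G : MvPolynomial (Fin 4) ℂ, aeval p (aeval g G) = aeval y G := by
    intro G
    rw [← AlgHom.comp_apply, comp_aeval]
    congr 2
    funext j
    exact hgy j
  have hpd : ∀ i j, pderiv i (g j) = C (E i j) := by
    intro i j
    rw [hg]
    simp only [map_sum, Derivation.leibniz, pderiv_X, pderiv_C, smul_eq_mul]
    rw [Finset.sum_eq_single i]
    · simp
    · intro b _ hb
      rw [Pi.single_eq_of_ne hb, mul_zero, mul_zero, add_zero]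
    · simp
  have hE' : IsUnit (Matrix.of E) := by
    rw [← Matrix.linearIndependent_rows_iff_isUnit]
    exact hE
  have h1 : (Matrix.of E).mulVec (fun j => aeval y (pderiv j F)) = 0 := by
    funext i
    have h2 := hp i
    rw [x85_chain, map_sum] at h2
    rw [Matrix.mulVec, dotProduct, Pi.zero_apply, ← h2]
    refine Finset.sum_congr rfl fun j _ => ?_
    rw [map_mul, hcomp, hpd, aeval_C, Matrix.of_apply]
    simp [mul_comm]
  have h3 : (fun j => aeval y (pderiv j F)) = 0 := by
    have h4 := congrArg (fun v => (Matrix.of E)⁻¹.mulVec v) h1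
    simp only [Matrix.mulVec_mulVec, Matrix.mulVec_zero] at h4
    rwa [Matrix.nonsing_inv_mul _ ((Matrix.isUnit_iff_isUnit_det _).1 hE'), Matrix.one_mulVec] at h4
  have h5 : y = 0 := hs y fun j => congrFun h3 j
  have h6 : ∑ i, p i • E i = 0 := by
    funext j
    have h7 := congrFun h5 j
    rw [Finset.sum_apply]
    simpa [hy, mul_comm] using h7
  funext i
  exact Fintype.linearIndependent_iff.1 hE p h6 i

end Pool.Agent.QX
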