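import Pool.Agent.Lib_MP_1209e6_qx.X86

/-! Linear change of coordinates of a smooth quartic surface. -/

set_option autoImplicit false

open MvPolynomial

noncomputable section

namespace Pool.Agent.QX

/-- the linear forms of a change of coordinates -/
def x86_lin (E : Fin 4 → Fin 4 → ℂ) : Fin 4 → MvPolynomial (Fin 4) ℂ :=
  fun j => ∑ i, C (E i j) * (X i : MvPolynomial (Fin 4) ℂ)

theorem x86_aeval_lin {R : Type} [CommRing R] [Algebra ℂ R] (E : Fin 4 → Fin 4 → ℂ) (y : Fin 4 → R)
    (F : MvPolynomial (Fin 4) ℂ) :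
    aeval y (aeval (x86_lin E) F) = aeval (fun j => ∑ i, algebraMap ℂ R (E i j) * y i) F := by
  rw [← AlgHom.comp_apply, comp_aeval]
  congr 2
  funext j
  simp [x86_lin, map_sum]

theorem x86_lin_hom (E : Fin 4 → Fin 4 → ℂ) {F : MvPolynomial (Fin 4) ℂ} {d : ℕ} (hF : F.IsHomogeneous d) :
    (aeval (x86_lin E) F).IsHomogeneous d := by
  have h1 : ∀ j, (x86_lin E j).IsHomogeneous 1 := by
    intro j
    refine IsHomogeneous.sum _ _ _ fun i _ => ?_
    have h2 := (isHomogeneous_C (Fin 4) (E i j)).mul (isHomogeneous_X ℂ i)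
    simpa using h2
  have h2 := hF.aeval (x86_lin E) h1
  simpa using h2

theorem x86_inv (E : Fin 4 → Fin 4 → ℂ) (hE : LinearIndependent ℂ E) :
    ∃ D : Fin 4 → Fin 4 → ℂ, (∀ l j, ∑ i, D l i * E i j = if l = j then 1 else 0) ∧
      ∀ l j, ∑ i, E l i * D i j = if l = j then 1 else 0 := by
  have h1 : IsUnit (Matrix.of E) := Matrix.linearIndependent_rows_iff_isUnit.1 hE
  obtain ⟨D, hD1, hD2⟩ := h1.exists_left_inv.imp fun D hD => (⟨hD, mul_eq_one_comm.1 hD⟩ : _ ∧ _)
  refine ⟨D, fun l j => ?_, fun l j => ?_⟩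
  · have h2 := congrFun (congrFun hD1 l) j
    rw [Matrix.mul_apply, Matrix.one_apply] at h2
    exact h2
  · have h2 := congrFun (congrFun hD2 l) j
    rw [Matrix.mul_apply, Matrix.one_apply] at h2
    exact h2

theorem x86_smooth_comp {F : MvPolynomial (Fin 4) ℂ}
    (hs : Pool.Agent.DS.Smooth F) (E : Fin 4 → Fin 4 → ℂ) (hE : LinearIndependent ℂ E) :
    Pool.Agent.DS.Smooth (aeval (x86_lin E) F) := by
  obtain ⟨D, hD1, hD2⟩ := x86_inv E hE
  intro p hp
  set q : Fin 4 → ℂ := fun j => ∑ i, algebraMap ℂ ℂ (E i j) * p i with hq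
  have h1 : ∀ i, ∑ j, E i j * aeval q (pderiv j F) = 0 := by
    intro i
    have h2 := hp i
    rw [Pool.Agent.DS.chain (pderiv i) (x86_lin E) F, map_sum] at h2
    rw [← h2]
    refine Finset.sum_congr rfl fun j _ => ?_
    have h3 : pderiv i (x86_lin E j) = C (E i j) := by
      rw [x86_lin, map_sum, Finset.sum_eq_single i]
      · simp
      · intro b _ hb
        rw [pderiv_C_mul, pderiv_X_of_ne hb, mul_zero]
      · intro h
        exact absurd (Finset.mem_univ i) h
    rw [h3, map_mul, x86_aeval_lin]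
    simp [hq]
  have h2 : ∀ j, aeval q (pderiv j F) = 0 := by
    intro l
    have h3 : ∑ i, D l i * ∑ j, E i j * aeval q (pderiv j F) = aeval q (pderiv l F) := by
      simp only [Finset.mul_sum]
      rw [Finset.sum_comm]
      rw [Finset.sum_eq_single l]
      · simp only [← mul_assoc]
        rw [← Finset.sum_mul, hD1, if_pos rfl, one_mul]
      · intro j _ hj
        simp only [← mul_assoc]
        rw [← Finset.sum_mul, hD1, if_neg (Ne.symm hj), zero_mul]
      · intro h
        exact absurd (Finset.mem_univ l) h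
    rw [← h3]
    simp only [h1, mul_zero, Finset.sum_const_zero]
  have h3 : q = 0 := hs q h2
  funext l
  have h4 : ∑ j, (∑ i, E i j * p i) * D j l = p l := by
    simp only [Finset.sum_mul]
    rw [Finset.sum_comm, Finset.sum_eq_single l]
    · have : ∀ j, E l j * p l * D j l = p l * (E l j * D j l) := fun j => by ring
      simp only [this]
      rw [← Finset.mul_sum, hD2, if_pos rfl, mul_one]
    · intro i _ hi
      have : ∀ j, E i j * p i * D j l = p i * (E i j * D j l) := fun j => by ring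
      simp only [this]
      rw [← Finset.mul_sum, hD2, if_neg hi, mul_zero]
    · intro h
      exact absurd (Finset.mem_univ l) h
  rw [← h4]
  have h5 : ∀ j, ∑ i, E i j * p i = 0 := fun j => by
    have := congrFun h3 j
    simpa [hq] using this
  simp [h5]

theorem x86_isQuartic_comp {K : Type} [Field K] [Algebra ℂ K] {F : MvPolynomial (Fin 4) ℂ}
    (hF : F.IsHomogeneous 4) (hs : Pool.Agent.DS.Smooth F) (E : Fin 4 → Fin 4 → ℂ)
    (hE : LinearIndependent ℂ E) (h : IsQuartic K F) : IsQuartic K (aeval (x86_lin E) F) := by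
  obtain ⟨D, hD1, hD2⟩ := x86_inv E hE
  obtain ⟨z, hz, ⟨i₀, j₀, hij⟩, hgen⟩ := h
  set x : Fin 4 → K := Fin.cons 1 z with hx
  set y : Fin 4 → K := fun i => ∑ j, algebraMap ℂ K (D j i) * x j with hy
  have hyx : ∀ j, ∑ i, algebraMap ℂ K (E i j) * y i = x j := by
    intro j
    simp only [hy, Finset.mul_sum]
    rw [Finset.sum_comm, Finset.sum_eq_single j]
    · have : ∀ i, algebraMap ℂ K (E i j) * (algebraMap ℂ K (D j i) * x j) =
          algebraMap ℂ K (D j i * E i j) * x j := fun i => by rw [map_mul]; ring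
      simp only [this]
      rw [← Finset.sum_mul, ← map_sum, hD1, if_pos rfl, map_one, one_mul]
    · intro l _ hl
      have : ∀ i, algebraMap ℂ K (E i j) * (algebraMap ℂ K (D l i) * x l) =
          algebraMap ℂ K (D l i * E i j) * x l := fun i => by rw [map_mul]; ring
      simp only [this]
      rw [← Finset.sum_mul, ← map_sum, hD1, if_neg hl, map_zero, zero_mul]
    · intro h
      exact absurd (Finset.mem_univ j) h
  have hy0 : aeval y (aeval (x86_lin E) F) = 0 := by
    rw [x86_aeval_lin]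
    have h1 : (fun j => ∑ i, algebraMap ℂ K (E i j) * y i) = x := funext hyx
    rw [h1]
    exact hz
  -- some coordinate is not zero
  have hex : ∃ i, y i ≠ 0 := by
    by_contra hcon
    push Not at hcon
    have h1 := hyx 0
    simp only [hcon, mul_zero, Finset.sum_const_zero] at h1
    rw [hx, Fin.cons_zero] at h1
    exact one_ne_zero h1.symm
  -- the field of the quotients
  have hmemx : ∀ (S : IntermediateField ℂ K) (c : K), c ≠ 0 → (∀ i, y i / c ∈ S) → ∀ j, x j / c ∈ S := by
    intro S c _ h j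
    have h1 : x j / c = ∑ i, algebraMap ℂ K (E i j) * (y i / c) := by
      rw [← hyx j, Finset.sum_div]
      refine Finset.sum_congr rfl fun i _ => ?_
      rw [mul_div_assoc]
    rw [h1]
    exact sum_mem fun i _ => mul_mem (S.algebraMap_mem _) (h i)
  have hmemz : ∀ (S : IntermediateField ℂ K) (c : K), c ≠ 0 → (∀ i, y i / c ∈ S) → ∀ j, z j ∈ S := by
    intro S c hc h j
    have h1 := hmemx S c hc h 0
    have h2 := hmemx S c hc h j.succ
    have h3 : z j = (x j.succ / c) / (x 0 / c) := by
      rw [hx, Fin.cons_zero, Fin.cons_succ]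
      field_simp
    rw [h3]
    exact div_mem h2 h1
  obtain ⟨i, hi⟩ := hex
  have hgy : Gen y := by
    have hmem : ∀ a, y a / y i ∈ IntermediateField.adjoin ℂ (Set.range fun s : Fin 3 => y (i.succAbove s) / y i) := by
      intro a
      rcases Fin.eq_self_or_eq_succAbove i a with h | ⟨s, h⟩
      · rw [h, div_self hi]
        exact one_mem _
      · rw [h]
        exact IntermediateField.subset_adjoin ℂ _ ⟨s, rfl⟩
    have h1 := hmemz _ (y i) hi hmem
    obtain ⟨s, t, hst⟩ := x86_pair (fun s : Fin 3 => y (i.succAbove s) / y i) _ _ (h1 i₀) (h1 j₀) hij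
    exact ⟨i, i.succAbove s, i.succAbove t, hi, hst⟩
  obtain ⟨h0, s, t, hst⟩ := x86_norm_gen (x86_lin_hom E hF) (x86_smooth_comp hs E hE) y hy0 hgy
  refine ⟨fun s => y s.succ / y 0, ?_, ⟨s, t, hst⟩, ?_⟩
  · have h1 : (Fin.cons 1 (fun s => y s.succ / y 0) : Fin 4 → K) = fun j => (y 0)⁻¹ * y j := by
      funext j
      refine Fin.cases ?_ (fun s => ?_) j
      · rw [Fin.cons_zero, inv_mul_cancel₀ h0]
      · rw [Fin.cons_succ, div_eq_inv_mul]
    rw [h1, x86_scale (x86_lin_hom E hF), hy0, mul_zero]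
  · rw [eq_top_iff, ← hgen, IntermediateField.adjoin_le_iff]
    rintro _ ⟨j, rfl⟩
    refine hmemz _ (y 0) h0 (fun a => ?_) j
    refine Fin.cases ?_ (fun s => ?_) a
    · rw [div_self h0]
      exact one_mem _
    · exact IntermediateField.subset_adjoin ℂ _ ⟨s, rfl⟩

end Pool.Agent.QX
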