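import Pool.Agent.Lib_MP_1209e6_ql.Main1
import Pool.Agent.Lib_MP_1209e6_ql.X13
import Pool.Agent.Lib_MP_1209e6_ql.X85
import Pool.Agent.Lib_MP_1209e6_ql.X86q

/-! PIECE ALL: change of coordinates and all smooth quartic surfaces. -/

set_option autoImplicit false

open MvPolynomial Pool.Agent.Campana Pool.Agent.CampanaFlow

noncomputable section

namespace Pool.Agent.QX

/-- linear change of coordinates: the function field of `F ∘ E` is that of `F` (`norm_gen` for `F ∘ E` shows that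
the first coordinate of `E⁻¹ (1, z)` is not zero) -/
theorem isQuartic_comp {K : Type} [Field K] [Algebra ℂ K] {F : MvPolynomial (Fin 4) ℂ} (hF : F.IsHomogeneous 4)
    (hs : Pool.Agent.DS.Smooth F) (E : Fin 4 → Fin 4 → ℂ) (hE : LinearIndependent ℂ E) (h : IsQuartic K F) :
    IsQuartic K (aeval (fun j => ∑ i, C (E i j) * (X i : MvPolynomial (Fin 4) ℂ)) F) :=
  x86_isQuartic_comp hF hs E hE h

/-- smoothness is invariant -/
theorem smooth_comp {F : MvPolynomial (Fin 4) ℂ} (hF : F.IsHomogeneous 4)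
    (hs : Pool.Agent.DS.Smooth F) (E : Fin 4 → Fin 4 → ℂ) (hE : LinearIndependent ℂ E) :
    Pool.Agent.DS.Smooth (aeval (fun j => ∑ i, C (E i j) * (X i : MvPolynomial (Fin 4) ℂ)) F) :=
  x85_smooth_comp hs E hE

/-- exactly one line, in arbitrary position: `E 0 = a`, `E 1 = b` -/
theorem quartic_one' {F : MvPolynomial (Fin 4) ℂ} (hF : F.IsHomogeneous 4) (hs : Pool.Agent.DS.Smooth F)
    (a b : Fin 4 → ℂ) (hab : LinearIndependent ℂ ![a, b])
    (hon : ∀ s t : ℂ, aeval (fun j => s * a j + t * b j) F = 0)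
    (honly : ∀ a' b' : Fin 4 → ℂ, LinearIndependent ℂ ![a', b'] →
      (∀ s t : ℂ, aeval (fun j => s * a' j + t * b' j) F = 0) →
      a' ∈ Submodule.span ℂ {a, b} ∧ b' ∈ Submodule.span ℂ {a, b})
    {n : ℕ} (P : Ideal (MvPolynomial (Fin (n + 1)) ℂ)) [P.IsPrime] (hP : IsVariety P)
    (hK : IsQuartic (FunField P) F) : SpecialField (FunField P) ∧ BrodySpecial P := by
  obtain ⟨c, d, hE⟩ := exists_ext13 a b hab
  have hG : (aeval (fun j => ∑ i, C ((![a, b, c, d] : Fin 4 → Fin 4 → ℂ) i j) *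
      (X i : MvPolynomial (Fin 4) ℂ)) F).IsHomogeneous 4 := by
    have h := hF.aeval (fun j => ∑ i, C ((![a, b, c, d] : Fin 4 → Fin 4 → ℂ) i j) *
      (X i : MvPolynomial (Fin 4) ℂ)) (n := 1)
      (fun j => IsHomogeneous.sum _ _ _ fun i _ => by
        have := (isHomogeneous_C (Fin 4) ((![a, b, c, d] : Fin 4 → Fin 4 → ℂ) i j)).mul
          (isHomogeneous_X ℂ i)
        simpa using this)
    rw [one_mul] at h
    exact h
  exact quartic_one hG (smooth_comp hF hs _ hE) (oneLine_comp13 a b c d hE hon honly) P hP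
    (isQuartic_comp hF hs _ hE hK)

end Pool.Agent.QX
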