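import Pool.Agent.Lib_MP_1209e6_ds.Coef
import Pool.Agent.Lib_MP_1209e6_ds.SmoothUp
import Pool.Agent.Lib_MP_1209e6_qx.Pencil

/-!
# A smooth quartic surface contains no moving line

`MP_1209e6_ag`, QX-D, Lemma 1 of the two lines theorem.
-/

set_option autoImplicit false

open MvPolynomial

noncomputable section

namespace Pool.Agent.QX

variable {Ω : Type} [Field Ω] [Algebra ℂ Ω]

theorem tw_eval {n : ℕ} (q : Fin n → Polynomial Ω) (G : MvPolynomial (Fin n) ℂ) (y : Ω) :
    (aeval q G).eval y = aeval (fun i => (q i).eval y) G := by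
  have h := (MvPolynomial.comp_aeval (R := ℂ) q
    ((Polynomial.aeval y : Polynomial Ω →ₐ[Ω] Ω).restrictScalars ℂ))
  have h2 := congrArg (fun φ => φ G) h
  simp only [AlgHom.comp_apply, AlgHom.coe_restrictScalars', Polynomial.coe_aeval_eq_eval] at h2
  exact h2

theorem tw_scale {A : Type} [CommRing A] [Algebra ℂ A] {n d : ℕ} {G : MvPolynomial (Fin n) ℂ}
    (hG : G.IsHomogeneous d) (s : A) (p : Fin n → A) :
    aeval (fun i => s * p i) G = s ^ d * aeval p G := by
  rw [aeval_def, eval₂_eq', aeval_def, eval₂_eq', Finset.mul_sum]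
  refine Finset.sum_congr rfl fun t ht => ?_
  have h2 : ∑ i, t i = d := by
    have h3 := hG (mem_support_iff.1 ht)
    rw [Finsupp.weight_apply, Finsupp.sum_fintype] at h3
    · simpa using h3
    · simp
  simp only [mul_pow, Finset.prod_mul_distrib, Finset.prod_pow_eq_pow_sum, h2]
  ring

/-- the point at infinity of the line `(X, m + s X, 1, t)` -/
theorem tw_inf (s m t : Ω) {G : MvPolynomial (Fin 4) ℂ} (hG : G.IsHomogeneous 3) [Infinite Ω]
    (hdeg : (aeval (Pool.Agent.DS.lp ![s, 0, 0] ![m, 1, t]) G).natDegree ≤ 1) :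
    aeval (![1, s, 0, 0] : Fin 4 → Ω) G = 0 := by
  set g : Polynomial Ω := aeval (Pool.Agent.DS.lp ![s, 0, 0] ![m, 1, t]) G with hg
  have hg1 := Polynomial.eq_X_add_C_of_natDegree_le_one hdeg
  set q : Fin 4 → Polynomial Ω := ![1, Polynomial.C s + Polynomial.X * Polynomial.C m, Polynomial.X,
    Polynomial.X * Polynomial.C t] with hq
  have hid : Polynomial.X * aeval q G = Polynomial.X * (Polynomial.C (g.coeff 1) * Polynomial.X ^ 2 +
      Polynomial.C (g.coeff 0) * Polynomial.X ^ 3) := by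
    refine Polynomial.funext fun y => ?_
    rw [Polynomial.eval_mul, Polynomial.eval_mul, Polynomial.eval_X, tw_eval]
    by_cases hy : y = 0
    · rw [hy, zero_mul, zero_mul]
    have h1 : g.eval y⁻¹ = aeval (Pool.Agent.DS.pt ![s, 0, 0] ![m, 1, t] y⁻¹) G :=
      Pool.Agent.DS.eval_line G _ _ _
    have h2 : (Pool.Agent.DS.pt ![s, 0, 0] ![m, 1, t] y⁻¹ : Fin 4 → Ω) =
        fun i => y⁻¹ * (fun i => (q i).eval y) i := by
      funext i
      fin_cases i
      · simp [Pool.Agent.DS.pt, hq]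
      · have : (Pool.Agent.DS.pt ![s, 0, 0] ![m, 1, t] y⁻¹ : Fin 4 → Ω) 1 = m + y⁻¹ * s := rfl
        show (Pool.Agent.DS.pt ![s, 0, 0] ![m, 1, t] y⁻¹ : Fin 4 → Ω) 1 = y⁻¹ * (q 1).eval y
        rw [this]
        simp only [hq, Matrix.cons_val_one, Matrix.cons_val_zero, Polynomial.eval_add, Polynomial.eval_C,
          Polynomial.eval_mul, Polynomial.eval_X]
        field_simp
        ring
      · have : (Pool.Agent.DS.pt ![s, 0, 0] ![m, 1, t] y⁻¹ : Fin 4 → Ω) 2 = 1 + y⁻¹ * 0 := rfl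
        show (Pool.Agent.DS.pt ![s, 0, 0] ![m, 1, t] y⁻¹ : Fin 4 → Ω) 2 = y⁻¹ * (q 2).eval y
        rw [this]
        have h3 : q 2 = Polynomial.X := rfl
        rw [h3, Polynomial.eval_X]
        field_simp
        ring
      · have : (Pool.Agent.DS.pt ![s, 0, 0] ![m, 1, t] y⁻¹ : Fin 4 → Ω) 3 = t + y⁻¹ * 0 := rfl
        show (Pool.Agent.DS.pt ![s, 0, 0] ![m, 1, t] y⁻¹ : Fin 4 → Ω) 3 = y⁻¹ * (q 3).eval y
        rw [this]
        have h3 : q 3 = Polynomial.X * Polynomial.C t := rfl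
        rw [h3, Polynomial.eval_mul, Polynomial.eval_X, Polynomial.eval_C]
        field_simp
        ring
    rw [h2, tw_scale hG] at h1
    rw [hg1] at h1
    simp only [Polynomial.eval_add, Polynomial.eval_mul, Polynomial.eval_C, Polynomial.eval_X,
      Polynomial.eval_pow] at h1 ⊢
    have h4 : y ^ 3 * (y⁻¹ ^ 3 * aeval (fun i => (q i).eval y) G) = aeval (fun i => (q i).eval y) G := by
      rw [← mul_assoc, ← mul_pow, mul_inv_cancel₀ hy, one_pow, one_mul]
    rw [← h4, ← h1]
    field_simp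
  have hid2 := mul_left_cancel₀ Polynomial.X_ne_zero hid
  have h5 := congrArg (Polynomial.eval 0) hid2
  rw [tw_eval] at h5
  have h6 : (fun i => (q i).eval 0) = (![1, s, 0, 0] : Fin 4 → Ω) := by
    funext i
    fin_cases i <;> simp [hq]
  rw [h6] at h5
  rw [h5]
  simp

/-- LEMMA 1: no line over `Ω` with a moving direction `(·, ·, 1, t)` lies in a smooth quartic surface -/
theorem no_moving_line_der [IsAlgClosed Ω] {F : MvPolynomial (Fin 4) ℂ} (hF : F.IsHomogeneous 4)
    (hs : Pool.Agent.DS.Smooth F) (s m t : Ω) (D : Derivation ℂ Ω Ω) (ht : D t ≠ 0)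
    (h : aeval (Pool.Agent.DS.lp ![s, 0, 0] ![m, 1, t]) F = 0) : False := by
  haveI : Infinite Ω := IsAlgClosed.instInfinite
  obtain ⟨Δ, hX, hC⟩ := Pool.Agent.DS.exists_coef D
  have e1 := Pool.Agent.DS.deriv_line F ![s, 0, 0] ![m, 1, t]
  have e2 := Pool.Agent.DS.euler_line hF ![s, 0, 0] ![m, 1, t]
  have e3 := Pool.Agent.DS.der_line F ![s, 0, 0] ![m, 1, t] D Δ hX hC
  rw [h] at e1 e2 e3
  set f0 := aeval (Pool.Agent.DS.lp ![s, 0, 0] ![m, 1, t]) (pderiv 0 F) with hf0
  set f1 := aeval (Pool.Agent.DS.lp ![s, 0, 0] ![m, 1, t]) (pderiv 1 F) with hf1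
  set f2 := aeval (Pool.Agent.DS.lp ![s, 0, 0] ![m, 1, t]) (pderiv 2 F) with hf2
  set f3 := aeval (Pool.Agent.DS.lp ![s, 0, 0] ![m, 1, t]) (pderiv 3 F) with hf3
  have k1 : Pool.Agent.DS.Phi F ![s, 0, 0] ![m, 1, t] (fun j => Polynomial.C ((![s, 0, 0] : Fin 3 → Ω) j)) =
      Polynomial.C s * f1 + Polynomial.C 0 * f2 + Polynomial.C 0 * f3 := Fin.sum_univ_three _
  have k2 : Pool.Agent.DS.Phi F ![s, 0, 0] ![m, 1, t] (fun j => Polynomial.C ((![m, 1, t] : Fin 3 → Ω) j)) =
      Polynomial.C m * f1 + Polynomial.C 1 * f2 + Polynomial.C t * f3 := Fin.sum_univ_three _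
  have k3 : Pool.Agent.DS.Phi F ![s, 0, 0] ![m, 1, t] (fun j => Polynomial.C (D ((![m, 1, t] : Fin 3 → Ω) j)) +
      Polynomial.X * Polynomial.C (D ((![s, 0, 0] : Fin 3 → Ω) j))) =
      (Polynomial.C (D m) + Polynomial.X * Polynomial.C (D s)) * f1 +
      (Polynomial.C (D 1) + Polynomial.X * Polynomial.C (D 0)) * f2 +
      (Polynomial.C (D t) + Polynomial.X * Polynomial.C (D 0)) * f3 := Fin.sum_univ_three _
  rw [k1] at e1
  rw [k2] at e2
  rw [k3] at e3
  simp only [map_zero, map_one, zero_mul, mul_zero, add_zero, Derivation.map_one_eq_zero, one_mul, zero_add,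
    sub_zero] at e1 e2 e3
  have g0 : f0 = - (Polynomial.C s * f1) := by linear_combination -e1
  have g3 : f3 = - (Polynomial.C (D t)⁻¹ * (Polynomial.C (D m) + Polynomial.X * Polynomial.C (D s)) * f1) := by
    have h1 : Polynomial.C (D t)⁻¹ * Polynomial.C (D t) = 1 := by
      rw [← Polynomial.C_mul, inv_mul_cancel₀ ht, Polynomial.C_1]
    linear_combination (-f3) * h1 - Polynomial.C (D t)⁻¹ * e3
  have g2 : f2 = - (Polynomial.C m * f1) - Polynomial.C t * f3 := by linear_combination e2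
  by_cases hd : f1.degree = 0
  · -- constant
    have hn1 : f1.natDegree = 0 := Polynomial.natDegree_eq_of_degree_eq_some hd
    obtain ⟨a, ha⟩ := Polynomial.natDegree_eq_zero.1 hn1
    have d0 : f0.natDegree ≤ 1 := by
      rw [g0, ← ha, ← Polynomial.C_mul, Polynomial.natDegree_neg, Polynomial.natDegree_C]
      exact zero_le_one
    have d1 : f1.natDegree ≤ 1 := by
      rw [hn1]
      exact zero_le_one
    have d3 : f3.natDegree ≤ 1 := by
      rw [g3, ← ha]
      compute_degree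
    have d2 : f2.natDegree ≤ 1 := by
      rw [g2]
      refine (Polynomial.natDegree_sub_le _ _).trans (max_le ?_ ?_)
      · rw [← ha, ← Polynomial.C_mul, Polynomial.natDegree_neg, Polynomial.natDegree_C]
        exact zero_le_one
      · exact (Polynomial.natDegree_C_mul_le _ _).trans d3
    have hall : ∀ j, aeval (![1, s, 0, 0] : Fin 4 → Ω) (pderiv j F) = 0 := by
      intro j
      refine tw_inf s m t hF.pderiv ?_
      fin_cases j
      · exact d0
      · exact d1
      · exact d2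
      · exact d3
    have := congrFun (hs.up _ hall) 0
    simp at this
  · obtain ⟨c, hc⟩ := IsAlgClosed.exists_root f1 hd
    have hall : ∀ j, aeval (Pool.Agent.DS.pt ![s, 0, 0] ![m, 1, t] c) (pderiv j F) = 0 := by
      intro j
      rw [← Pool.Agent.DS.eval_line]
      have hc1 : f1.eval c = 0 := hc
      have hc3 : f3.eval c = 0 := by
        rw [g3]
        simp [hc1]
      fin_cases j
      · show f0.eval c = 0
        rw [g0]
        simp [hc1]
      · exact hc1
      · show f2.eval c = 0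
        rw [g2]
        simp [hc1, hc3]
      · exact hc3
    have := congrFun (hs.up _ hall) 2
    have h7 : (Pool.Agent.DS.pt ![s, 0, 0] ![m, 1, t] c : Fin 4 → Ω) 2 = 1 + c * 0 := rfl
    rw [h7] at this
    simp at this

/-- LEMMA 1, with `t` transcendental -/
theorem no_moving_line {F : MvPolynomial (Fin 4) ℂ} (hF : F.IsHomogeneous 4) (hs : Pool.Agent.DS.Smooth F)
    {Ω : Type} [Field Ω] [Algebra ℂ Ω] [IsAlgClosed Ω] (s m t : Ω) (ht : Transcendental ℂ t) :
    aeval (Pool.Agent.DS.lp ![s, 0, 0] ![m, 1, t]) F ≠ 0 := by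
  intro h
  by_cases hD : ∀ δ : Derivation ℂ Ω Ω, δ t = 0
  · obtain ⟨c, hc⟩ := pn_const t hD
    apply ht
    rw [hc]
    exact isAlgebraic_algebraMap c
  · push Not at hD
    obtain ⟨D, hD⟩ := hD
    exact no_moving_line_der hF hs s m t D hD h

end Pool.Agent.QX
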