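import Pool.Agent.Lib_MP_1209e6_qx.Xh51
import Pool.Agent.Lib_MP_1209e6_qx.Emb

/-! Two lines: exchange, and change of coordinates of the generic point. -/

set_option autoImplicit false

open MvPolynomial

noncomputable section

namespace Pool.Agent.QX

/-- exchange -/
theorem two_exch {M : Type} [Field M] [Algebra ℂ M] {u t : M}
    (h : IsAlgebraic (IntermediateField.adjoin ℂ ({t} : Set M)) u) (hu : Transcendental ℂ u) :
    IsAlgebraic (IntermediateField.adjoin ℂ ({u} : Set M)) t := by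
  have h1 : u ∈ (AlgebraicIndependent.matroid ℂ M).closure {t} := by
    rw [AlgebraicIndependent.matroid_closure_eq]
    exact (Subalgebra.mem_algebraicClosure _ _).2 (IntermediateField.isAlgebraic_adjoin_iff.1 h)
  have h2 : u ∉ (AlgebraicIndependent.matroid ℂ M).closure ∅ := by
    intro h3
    rw [AlgebraicIndependent.matroid_closure_eq] at h3
    have h5 : IsAlgebraic (Algebra.adjoin ℂ (∅ : Set M)) u := (Subalgebra.mem_algebraicClosure _ _).1 h3
    have hb : Algebra.IsAlgebraic ℂ (Algebra.adjoin ℂ (∅ : Set M)) := by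
      rw [← Subalgebra.isAlgebraic_iff]
      intro y hy
      rw [Algebra.adjoin_empty, Algebra.mem_bot] at hy
      obtain ⟨r, rfl⟩ := hy
      exact isAlgebraic_algebraMap r
    exact hu (IsAlgebraic.restrictScalars ℂ h5)
  have h3 := (AlgebraicIndependent.matroid ℂ M).closure_exchange (e := u) (f := t) (X := ∅)
    ⟨by simpa using h1, h2⟩
  have h4 : t ∈ (AlgebraicIndependent.matroid ℂ M).closure {u} := by simpa using h3.1
  rw [AlgebraicIndependent.matroid_closure_eq] at h4
  exact IntermediateField.isAlgebraic_adjoin_iff.2 ((Subalgebra.mem_algebraicClosure _ _).1 h4)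

theorem two_const {M : Type} [Field M] [Algebra ℂ M] {u : M} (h : IsAlgebraic ℂ u) :
    ∃ c : ℂ, u = algebraMap ℂ M c := by
  have h4 := IsAlgClosed.degree_eq_one_of_irreducible ℂ (minpoly.irreducible h.isIntegral)
  obtain ⟨c, hc⟩ := minpoly.mem_range_of_degree_eq_one ℂ u h4
  exact ⟨c, hc.symm⟩

/-- the evaluation of the form in new coordinates -/
theorem two_eval {M : Type} [CommRing M] [Algebra ℂ M] (F : MvPolynomial (Fin 4) ℂ) (E : Fin 4 → Fin 4 → ℂ)
    (p : Fin 4 → M) :
    aeval p (aeval (fun j => ∑ i, C (E i j) * (X i : MvPolynomial (Fin 4) ℂ)) F) =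
      aeval (fun j => ∑ i, p i * algebraMap ℂ M (E i j)) F := by
  rw [← AlgHom.comp_apply, comp_aeval]
  congr 2
  funext j
  rw [map_sum]
  refine Finset.sum_congr rfl fun i _ => ?_
  rw [map_mul, aeval_X, aeval_C, mul_comm]

/-- smoothness is invariant -/
theorem two_smooth {F : MvPolynomial (Fin 4) ℂ} 
    (hs : Pool.Agent.DS.Smooth F) (E : Fin 4 → Fin 4 → ℂ) (hE : LinearIndependent ℂ E) :
    Pool.Agent.DS.Smooth (aeval (fun j => ∑ i, C (E i j) * (X i : MvPolynomial (Fin 4) ℂ)) F) := by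
  classical
  intro p hp
  have h1 : ∀ i, ∑ j, E i j * aeval (fun j => ∑ i, p i * E i j) (pderiv j F) = 0 := by
    intro i
    rw [← hp i, Pool.Agent.DS.chain (pderiv i) _ F, map_sum]
    refine Finset.sum_congr rfl fun j _ => ?_
    rw [map_mul, two_eval]
    congr 1
    rw [map_sum, map_sum, Finset.sum_eq_single i]
    · simp
    · intro b _ hb
      simp [pderiv_X_of_ne hb]
    · intro hc
      exact absurd (Finset.mem_univ i) hc
  have hdet : IsUnit (Matrix.of E : Matrix (Fin 4) (Fin 4) ℂ) :=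
    Matrix.linearIndependent_rows_iff_isUnit.1 hE
  have h2 : ∀ j, aeval (fun j => ∑ i, p i * E i j) (pderiv j F) = 0 := by
    have h3 : (Matrix.of E : Matrix (Fin 4) (Fin 4) ℂ).mulVec
        (fun j => aeval (fun j => ∑ i, p i * E i j) (pderiv j F)) = 0 := by
      funext i
      exact h1 i
    have h4 := (Matrix.mulVec_injective_iff_isUnit.2 hdet) (h3.trans (Matrix.mulVec_zero _).symm)
    intro j
    exact congrFun h4 j
  have h3 := hs _ h2
  have h4 := Fintype.linearIndependent_iff.1 hE p (by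
    funext j
    have := congrFun h3 j
    simpa [Finset.sum_apply] using this)
  funext i
  exact h4 i

theorem two_hom {F : MvPolynomial (Fin 4) ℂ} (hF : F.IsHomogeneous 4) (E : Fin 4 → Fin 4 → ℂ) :
    (aeval (fun j => ∑ i, C (E i j) * (X i : MvPolynomial (Fin 4) ℂ)) F).IsHomogeneous 4 := by
  have h1 := hF.aeval (fun j => ∑ i, C (E i j) * (X i : MvPolynomial (Fin 4) ℂ)) (n := 1) (by
    intro j
    refine IsHomogeneous.sum _ _ _ fun i _ => ?_
    have := (isHomogeneous_C (Fin 4) (E i j)).mul (isHomogeneous_X ℂ i)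
    simpa using this)
  simpa using h1

/-- the generic point in new coordinates -/
theorem two_point {F : MvPolynomial (Fin 4) ℂ} (hF : F.IsHomogeneous 4) (hs : Pool.Agent.DS.Smooth F)
    (E : Fin 4 → Fin 4 → ℂ) (hE : LinearIndependent ℂ E) {K : Type} [Field K] [Algebra ℂ K]
    (z : Fin 3 → K) (hz : IntermediateField.adjoin ℂ (Set.range z) = ⊤)
    (hFz : aeval (Fin.cons 1 z : Fin 4 → K) F = 0) (htr : ∃ i j, AlgebraicIndependent ℂ ![z i, z j]) :
    ∃ (c : K) (w : Fin 3 → K), c ≠ 0 ∧ IntermediateField.adjoin ℂ (Set.range w) = ⊤ ∧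
      aeval (Fin.cons 1 w : Fin 4 → K) (aeval (fun j => ∑ i, C (E i j) * (X i : MvPolynomial (Fin 4) ℂ)) F) = 0 ∧
      (∃ i j, AlgebraicIndependent ℂ ![w i, w j]) ∧
      ∀ j, (Fin.cons 1 z : Fin 4 → K) j = c * ∑ i, (Fin.cons 1 w : Fin 4 → K) i * algebraMap ℂ K (E i j) := by
  classical
  have hdet : IsUnit (Matrix.of E : Matrix (Fin 4) (Fin 4) ℂ) :=
    Matrix.linearIndependent_rows_iff_isUnit.1 hE
  obtain ⟨B, hB⟩ := hdet.exists_left_inv
  set Z : Fin 4 → K := fun i => ∑ l, (Fin.cons 1 z : Fin 4 → K) l * algebraMap ℂ K (B l i) with hZ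
  have hZE : ∀ j, (Fin.cons 1 z : Fin 4 → K) j = ∑ i, Z i * algebraMap ℂ K (E i j) := by
    intro j
    have h1 : ∀ l, ∑ i, algebraMap ℂ K (B l i) * algebraMap ℂ K (E i j) = if l = j then 1 else 0 := by
      intro l
      have h2 := congrFun (congrFun hB l) j
      rw [Matrix.mul_apply, Matrix.one_apply] at h2
      have h3 := congrArg (algebraMap ℂ K) h2
      rw [map_sum] at h3
      simp only [map_mul, Matrix.of_apply] at h3
      rw [h3]
      split_ifs <;> simp
    have h4 : ∑ i, Z i * algebraMap ℂ K (E i j) =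
        ∑ l, (Fin.cons 1 z : Fin 4 → K) l * ∑ i, algebraMap ℂ K (B l i) * algebraMap ℂ K (E i j) := by
      simp only [hZ, Finset.sum_mul, Finset.mul_sum]
      rw [Finset.sum_comm]
      refine Finset.sum_congr rfl fun l _ => Finset.sum_congr rfl fun i _ => ?_
      ring
    rw [h4]
    simp only [h1]
    simp
  have hZne : ∃ i, Z i ≠ 0 := by
    by_contra hcon
    push Not at hcon
    have h1 := hZE 0
    rw [Fin.cons_zero] at h1
    simp only [hcon, zero_mul, Finset.sum_const_zero] at h1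
    exact one_ne_zero h1
  obtain ⟨a, ha⟩ := hZne
  have hmemz : ∀ (S : IntermediateField ℂ K), (∀ i, Z i / Z a ∈ S) → ∀ i, z i ∈ S := by
    intro S hS i
    have h1 : ∀ j, (Fin.cons 1 z : Fin 4 → K) j / Z a ∈ S := by
      intro j
      rw [hZE j, Finset.sum_div]
      refine S.toSubfield.toSubring.toSubsemiring.toAddSubmonoid.sum_mem fun l _ => ?_
      have h2 : Z l * algebraMap ℂ K (E l j) / Z a = (Z l / Z a) * algebraMap ℂ K (E l j) := by ring
      rw [h2]
      exact S.mul_mem (hS l) (S.algebraMap_mem _)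
    have h2 := h1 0
    have h3 := h1 i.succ
    rw [Fin.cons_zero] at h2
    rw [Fin.cons_succ] at h3
    have h4 : z i = (z i / Z a) / (1 / Z a) := by
      field_simp
    rw [h4]
    exact S.div_mem h3 h2
  have htop : ∀ (S : IntermediateField ℂ K), (∀ i, Z i / Z a ∈ S) → S = ⊤ := by
    intro S hS
    rw [eq_top_iff, ← hz, IntermediateField.adjoin_le_iff]
    rintro _ ⟨i, rfl⟩
    exact hmemz S hS i
  have hgen : Gen Z := by
    obtain ⟨i, j, hij⟩ := htr
    have hadj : IntermediateField.adjoin ℂ (Set.range fun s : Fin 3 => Z (a.succAbove s) / Z a) = ⊤ := by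
      apply htop
      intro l
      by_cases hl : l = a
      · rw [hl, div_self ha]
        exact one_mem _
      · obtain ⟨s, rfl⟩ := Fin.exists_succAbove_eq hl
        exact IntermediateField.subset_adjoin ℂ _ ⟨s, rfl⟩
    obtain ⟨s, t, hst⟩ := x86_pair (fun s : Fin 3 => Z (a.succAbove s) / Z a) (z i) (z j)
      (by rw [hadj]; trivial) (by rw [hadj]; trivial) hij
    exact ⟨a, a.succAbove s, a.succAbove t, ha, hst⟩
  have hFZ : aeval Z (aeval (fun j => ∑ i, C (E i j) * (X i : MvPolynomial (Fin 4) ℂ)) F) = 0 := by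
    rw [two_eval]
    have h1 : (fun j => ∑ i, Z i * algebraMap ℂ K (E i j)) = (Fin.cons 1 z : Fin 4 → K) := by
      funext j
      exact (hZE j).symm
    rw [h1, hFz]
  obtain ⟨hZ0, i₁, j₁, hij₁⟩ := norm_gen (two_hom hF E) (two_smooth hs E hE) Z hFZ hgen
  have hcons : (Fin.cons 1 (fun s : Fin 3 => Z s.succ / Z 0) : Fin 4 → K) = fun l => (Z 0)⁻¹ * Z l := by
    funext l
    refine Fin.cases ?_ (fun s => ?_) l
    · rw [Fin.cons_zero, inv_mul_cancel₀ hZ0]
    · rw [Fin.cons_succ]
      ring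
  refine ⟨Z 0, fun s => Z s.succ / Z 0, hZ0, ?_, ?_, ⟨i₁, j₁, hij₁⟩, ?_⟩
  · apply htop
    intro l
    have h1 : ∀ l, Z l / Z 0 ∈ IntermediateField.adjoin ℂ (Set.range fun s : Fin 3 => Z s.succ / Z 0) := by
      intro l
      refine Fin.cases ?_ (fun s => ?_) l
      · rw [div_self hZ0]
        exact one_mem _
      · exact IntermediateField.subset_adjoin ℂ _ ⟨s, rfl⟩
    have h2 : Z l / Z a = (Z l / Z 0) / (Z a / Z 0) := by
      field_simp
    rw [h2]
    exact div_mem (h1 l) (h1 a)
  · rw [hcons, x86_scale (two_hom hF E), hFZ, mul_zero]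
  · intro j
    rw [hZE j, hcons, Finset.mul_sum]
    refine Finset.sum_congr rfl fun i _ => ?_
    field_simp

end Pool.Agent.QX
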