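import Pool.Agent.Lib_MP_1209e6_ql.Pencil1
import Pool.Agent.Lib_MP_1209e6_ql.Two1
import Pool.Agent.Lib_MP_1209e6_ql.TwoExch
import Pool.Agent.Lib_MP_1209e6_ql.X13
import Pool.Agent.Lib_MP_1209e6_nt.End
import Pool.Agent.Lib_MP_1209e6_k3.Special

/-! Smooth quartic surfaces with two lines. -/

set_option autoImplicit false

open MvPolynomial Pool.Agent.Campana Pool.Agent.CampanaFlow

noncomputable section

namespace Pool.Agent.QX

/-- the constants of a derivation -/
def tlConst {K : Type} [Field K] [Algebra ℂ K] (E : Derivation ℂ K K) : IntermediateField ℂ K where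
  carrier := {a | E a = 0}
  mul_mem' := by
    intro a b ha hb
    show E (a * b) = 0
    rw [Derivation.leibniz, show E a = 0 from ha, show E b = 0 from hb, smul_zero, smul_zero, add_zero]
  add_mem' := by
    intro a b ha hb
    show E (a + b) = 0
    rw [map_add, show E a = 0 from ha, show E b = 0 from hb, add_zero]
  algebraMap_mem' := fun r => Derivation.map_algebraMap E r
  inv_mem' := by
    intro a ha
    show E a⁻¹ = 0
    rw [Derivation.leibniz_inv, show E a = 0 from ha, smul_zero]

theorem tl_moving {F : MvPolynomial (Fin 4) ℂ} (hF : F.IsHomogeneous 4) (hs : Pool.Agent.DS.Smooth F)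
    {K : Type} [Field K] [Algebra ℂ K] (E : Derivation ℂ K K) (s m t y : K) (hsE : s ∈ tlConst E)
    (hmE : m ∈ tlConst E) (htE : t ∈ tlConst E) (ht : Transcendental ℂ t)
    (hy : aeval (![y, m + y * s, 1, t] : Fin 4 → K) F = 0) : y ∈ tlConst E := by
  let M := AlgebraicClosure K
  let H : Polynomial (tlConst E) :=
    aeval (Pool.Agent.DS.lp (Ω := tlConst E) (m := 2) ![⟨s, hsE⟩, 0, 0] ![⟨m, hmE⟩, 1, ⟨t, htE⟩]) F
  have ht' : Transcendental ℂ (algebraMap K M t) := by
    intro h
    exact ht ((isAlgebraic_algebraMap_iff (algebraMap K M).injective).1 h)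
  have hne : H ≠ 0 := by
    intro h
    apply no_moving_line hF hs (algebraMap K M s) (algebraMap K M m) (algebraMap K M t) ht'
    have h1 := congrArg (Polynomial.mapAlgHom ((IsScalarTower.toAlgHom ℂ K M).comp (tlConst E).val)) h
    rw [map_zero] at h1
    rw [← h1]
    show _ = Polynomial.mapAlgHom _ (aeval _ F)
    rw [MvPolynomial.comp_aeval_apply]
    refine congrArg (fun q => aeval q F) ?_
    funext j
    refine Fin.cases ?_ (fun j => ?_) j
    · simp [Pool.Agent.DS.lp]
    · simp only [Pool.Agent.DS.lp, Fin.cons_succ]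
      fin_cases j <;> simp
  have hroot : Polynomial.aeval y H = 0 := by
    rw [← hy]
    show ((Polynomial.aeval y : Polynomial (tlConst E) →ₐ[tlConst E] K).restrictScalars ℂ) (aeval _ F) = _
    rw [MvPolynomial.comp_aeval_apply]
    refine congrArg (fun q => aeval q F) ?_
    funext j
    refine Fin.cases ?_ (fun j => ?_) j
    · simp [Pool.Agent.DS.lp]
    · simp only [Pool.Agent.DS.lp, Fin.cons_succ]
      fin_cases j
      · show Polynomial.aeval y (Polynomial.C (⟨m, hmE⟩ : tlConst E) +
          Polynomial.X * Polynomial.C (⟨s, hsE⟩ : tlConst E)) = m + y * s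
        rw [map_add, map_mul, Polynomial.aeval_C, Polynomial.aeval_C, Polynomial.aeval_X]
        rfl
      · show Polynomial.aeval y (Polynomial.C (1 : tlConst E) +
          Polynomial.X * Polynomial.C (0 : tlConst E)) = 1
        simp
      · show Polynomial.aeval y (Polynomial.C (⟨t, htE⟩ : tlConst E) +
          Polynomial.X * Polynomial.C (0 : tlConst E)) = t
        rw [map_add, map_mul, Polynomial.aeval_C, Polynomial.aeval_C, Polynomial.aeval_X, map_zero,
          mul_zero, add_zero]
        rfl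
  exact Pool.Agent.DP.der_alg (tlConst E) E (fun a ha => ha) ⟨H, hne, hroot⟩

/-- a derivation which kills `t` but not both of `a`, `b` -/
theorem tl_der2 {K : Type} [Field K] [Algebra ℂ K] (a b t : K) (hab : AlgebraicIndependent ℂ ![a, b]) :
    ∃ E : Derivation ℂ K K, E t = 0 ∧ (E a ≠ 0 ∨ E b ≠ 0) := by
  obtain ⟨D1, h1⟩ := Pool.Agent.Campana.exists_derivation ![a, b] hab ![1, 0]
  obtain ⟨D2, h2⟩ := Pool.Agent.Campana.exists_derivation ![a, b] hab ![0, 1]
  have h1b : D1 b = 0 := h1 1
  have h1a : D1 a = 1 := h1 0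
  have h2b : D2 b = 1 := h2 1
  by_cases h : D1 t = 0
  · exact ⟨D1, h, Or.inl (by rw [h1a]; exact one_ne_zero)⟩
  · refine ⟨D2 t • D1 - D1 t • D2, ?_, Or.inr ?_⟩
    · rw [Derivation.sub_apply, Derivation.smul_apply, Derivation.smul_apply, smul_eq_mul, smul_eq_mul]
      ring
    · rw [Derivation.sub_apply, Derivation.smul_apply, Derivation.smul_apply, h1b, h2b, smul_zero,
        smul_eq_mul, mul_one, zero_sub]
      exact neg_ne_zero.2 h

theorem tl_on {F : MvPolynomial (Fin 4) ℂ} (E : Fin 4 → Fin 4 → ℂ)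
    (hon : ∀ s t : ℂ, aeval (fun j => s * E 0 j + t * E 1 j) F = 0) :
    ∀ a : Fin 4 → ℂ, a 2 = 0 → a 3 = 0 →
      aeval a (aeval (fun j => ∑ i, C (E i j) * (X i : MvPolynomial (Fin 4) ℂ)) F) = 0 := by
  intro v h2 h3
  rw [two_eval, ← hon (v 0) (v 1)]
  refine congrArg (fun q => aeval q F) ?_
  funext j
  rw [Fin.sum_univ_four, h2, h3]
  simp

theorem two_core {F : MvPolynomial (Fin 4) ℂ} (hF : F.IsHomogeneous 4) (hs : Pool.Agent.DS.Smooth F)
    (a b a' b' : Fin 4 → ℂ) (hab : LinearIndependent ℂ ![a, b])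
    (hon : ∀ s t : ℂ, aeval (fun j => s * a j + t * b j) F = 0) (hab' : LinearIndependent ℂ ![a', b'])
    (hon' : ∀ s t : ℂ, aeval (fun j => s * a' j + t * b' j) F = 0)
    (hb : b ∉ Submodule.span ℂ {a', b'})
    {n : ℕ} (P : Ideal (MvPolynomial (Fin (n + 1)) ℂ)) [P.IsPrime] (hP : IsVariety P)
    (hK : IsQuartic (FunField P) F) : SpecialField (FunField P) ∧ BrodySpecial P := by
  classical
  obtain ⟨z, hFz, htr, hgen⟩ := hK
  obtain ⟨c, d, hE⟩ := exists_ext13 a b hab
  obtain ⟨c', d', hE'⟩ := exists_ext13 a' b' hab'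
  obtain ⟨A, hA⟩ : ∃ A : Fin 4 → Fin 4 → ℂ, A = ![a, b, c, d] := ⟨_, rfl⟩
  obtain ⟨A', hA'⟩ : ∃ A : Fin 4 → Fin 4 → ℂ, A = ![a', b', c', d'] := ⟨_, rfl⟩
  rw [← hA] at hE
  rw [← hA'] at hE'
  obtain ⟨r, w, hr, hw, hFw, ⟨i, j, hij⟩, hzw⟩ := two_point hF hs A hE z hgen hFz htr
  obtain ⟨r', w', hr', hw', hFw', ⟨i', j', hij'⟩, hzw'⟩ := two_point hF hs A' hE' z hgen hFz htr
  obtain ⟨hw1, ht1, N, x, hx⟩ := pencil_ah (two_hom hF A) (two_smooth hs A hE)
    (tl_on A (by rw [hA]; exact hon)) w hw hFw ⟨i, j, hij⟩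
  obtain ⟨hw1', ht2, N', x', hx'⟩ := pencil_ah (two_hom hF A') (two_smooth hs A' hE')
    (tl_on A' (by rw [hA']; exact hon')) w' hw' hFw' ⟨i', j', hij'⟩
  set t₁ := w 2 / w 1 with ht₁
  set t₂ := w' 2 / w' 1 with ht₂
  have hc : ∀ u : FunField P, IsAlgebraic (IntermediateField.adjoin ℂ {t₁}) u →
      IsAlgebraic (IntermediateField.adjoin ℂ {t₂}) u → ∃ c : ℂ, u = algebraMap ℂ (FunField P) c := by
    intro u hu1 hu2
    by_contra hcon
    have hut : Transcendental ℂ u := fun h => hcon (two_const h)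
    have h1 := two_exch hu1 hut
    have h2 := two_exch hu2 hut
    obtain ⟨E, hEu, hE0⟩ := tl_der2 (w i) (w j) u hij
    have hk1 : t₁ ∈ tlConst E := Pool.Agent.DP.der_alg _ E (tl_kill u E hEu) h1
    have hk2 : t₂ ∈ tlConst E := Pool.Agent.DP.der_alg _ E (tl_kill u E hEu) h2
    -- the dual basis of `A'`
    have hdet : IsUnit (Matrix.of A' : Matrix (Fin 4) (Fin 4) ℂ) :=
      Matrix.linearIndependent_rows_iff_isUnit.1 hE'
    obtain ⟨G, hG⟩ := hdet.exists_right_inv
    have hG' : G * Matrix.of A' = 1 := mul_eq_one_comm.1 hG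
    obtain ⟨n₀, hn₀⟩ : ∃ n₀ : Fin 4 → Fin 4 → ℂ, n₀ = fun i l => ∑ j, A i j * G j l := ⟨_, rfl⟩
    have hW' : ∀ l, r' * (Fin.cons 1 w' : Fin 4 → FunField P) l =
        r * ∑ i, (Fin.cons 1 w : Fin 4 → FunField P) i * algebraMap ℂ (FunField P) (n₀ i l) := by
      intro l
      have e1 : ∑ j, (Fin.cons 1 z : Fin 4 → FunField P) j * algebraMap ℂ (FunField P) (G j l) =
          r' * (Fin.cons 1 w' : Fin 4 → FunField P) l := by
        have h3 : ∀ i, ∑ j, algebraMap ℂ (FunField P) (A' i j) * algebraMap ℂ (FunField P) (G j l) =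
            if i = l then 1 else 0 := by
          intro i
          have h4 := congrFun (congrFun hG i) l
          rw [Matrix.mul_apply, Matrix.one_apply] at h4
          have h5 := congrArg (algebraMap ℂ (FunField P)) h4
          rw [map_sum] at h5
          simp only [map_mul, Matrix.of_apply] at h5
          rw [h5]
          split_ifs <;> simp
        have h4 : ∑ j, (Fin.cons 1 z : Fin 4 → FunField P) j * algebraMap ℂ (FunField P) (G j l) =
            r' * ∑ i, (Fin.cons 1 w' : Fin 4 → FunField P) i *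
              ∑ j, algebraMap ℂ (FunField P) (A' i j) * algebraMap ℂ (FunField P) (G j l) := by
          simp only [hzw', Finset.sum_mul, Finset.mul_sum]
          rw [Finset.sum_comm]
          refine Finset.sum_congr rfl fun i _ => Finset.sum_congr rfl fun j _ => ?_
          ring
        rw [h4]
        simp only [h3]
        simp
      have e2 : ∑ j, (Fin.cons 1 z : Fin 4 → FunField P) j * algebraMap ℂ (FunField P) (G j l) =
          r * ∑ i, (Fin.cons 1 w : Fin 4 → FunField P) i * algebraMap ℂ (FunField P) (n₀ i l) := by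
        simp only [hzw, hn₀, Finset.sum_mul, Finset.mul_sum, map_sum, map_mul]
        rw [Finset.sum_comm]
        refine Finset.sum_congr rfl fun i _ => Finset.sum_congr rfl fun j _ => ?_
        ring
      rw [← e1, e2]
    have hb' : n₀ 1 2 ≠ 0 ∨ n₀ 1 3 ≠ 0 := by
      by_contra h
      push Not at h
      apply hb
      have h3 : b = n₀ 1 0 • a' + n₀ 1 1 • b' := by
        funext j
        have h4 : b j = ∑ l, n₀ 1 l * A' l j := by
          have h5 : ∀ m, ∑ l, G m l * A' l j = if m = j then 1 else 0 := by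
            intro m
            have h6 := congrFun (congrFun hG' m) j
            rw [Matrix.mul_apply, Matrix.one_apply] at h6
            simpa using h6
          have h7 : ∑ l, n₀ 1 l * A' l j = ∑ m, A 1 m * ∑ l, G m l * A' l j := by
            simp only [hn₀, Finset.sum_mul, Finset.mul_sum]
            rw [Finset.sum_comm]
            refine Finset.sum_congr rfl fun i _ => Finset.sum_congr rfl fun j _ => ?_
            ring
          rw [h7]
          simp only [h5]
          simp [hA]
        rw [h4, Fin.sum_univ_four, h.1, h.2, hA']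
        simp
      rw [h3]
      exact add_mem (Submodule.smul_mem _ _ (Submodule.subset_span (by simp)))
        (Submodule.smul_mem _ _ (Submodule.subset_span (by simp)))
    -- the relation
    have hcC : ∀ c : ℂ, algebraMap ℂ (FunField P) c ∈ tlConst E := fun c => (tlConst E).algebraMap_mem c
    obtain ⟨α, hα⟩ : ∃ α : Fin 4 → FunField P, α = fun i => algebraMap ℂ (FunField P) (n₀ i 3) -
      t₂ * algebraMap ℂ (FunField P) (n₀ i 2) := ⟨_, rfl⟩
    have hαm : ∀ i, α i ∈ tlConst E := by
      intro i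
      rw [hα]
      exact sub_mem (hcC _) (mul_mem hk2 (hcC _))
    have hα1 : α 1 ≠ 0 := by
      intro h
      rw [hα] at h
      have h3 : algebraMap ℂ (FunField P) (n₀ 1 3) = t₂ * algebraMap ℂ (FunField P) (n₀ 1 2) :=
        sub_eq_zero.1 h
      by_cases h4 : n₀ 1 2 = 0
      · rw [h4, map_zero, mul_zero] at h3
        exact hb'.elim (fun h5 => h5 h4) (fun h5 => h5 ((map_eq_zero _).1 h3))
      · apply ht2
        have h5 : t₂ = algebraMap ℂ (FunField P) (n₀ 1 3 / n₀ 1 2) := by
          rw [map_div₀, h3, mul_div_assoc, div_self ((map_ne_zero _).2 h4), mul_one]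
        rw [h5]
        exact isAlgebraic_algebraMap _
    have hw3' : (Fin.cons 1 w' : Fin 4 → FunField P) 3 = t₂ * (Fin.cons 1 w' : Fin 4 → FunField P) 2 := by
      show w' 2 = t₂ * w' 1
      rw [ht₂, div_mul_cancel₀ _ hw1']
    have hrel : α 0 + w 0 * α 1 + w 1 * (α 2 + t₁ * α 3) = 0 := by
      have h3 := hW' 3
      have h4 := hW' 2
      rw [hw3'] at h3
      have h5 : r * (∑ i, (Fin.cons 1 w : Fin 4 → FunField P) i * algebraMap ℂ (FunField P) (n₀ i 3) -
          t₂ * ∑ i, (Fin.cons 1 w : Fin 4 → FunField P) i * algebraMap ℂ (FunField P) (n₀ i 2)) = 0 := by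
        linear_combination t₂ * h4 - h3
      have h6 := (mul_eq_zero.1 h5).resolve_left hr
      rw [Fin.sum_univ_four, Fin.sum_univ_four] at h6
      have e0 : (Fin.cons 1 w : Fin 4 → FunField P) 0 = 1 := rfl
      have e1 : (Fin.cons 1 w : Fin 4 → FunField P) 1 = w 0 := rfl
      have e2 : (Fin.cons 1 w : Fin 4 → FunField P) 2 = w 1 := rfl
      have e3 : (Fin.cons 1 w : Fin 4 → FunField P) 3 = t₁ * w 1 := by
        show w 2 = t₁ * w 1
        rw [ht₁, div_mul_cancel₀ _ hw1]
      rw [e0, e1, e2, e3] at h6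
      rw [hα]
      linear_combination h6
    obtain ⟨s, hs'⟩ : ∃ s, s = -α 0 / α 1 := ⟨_, rfl⟩
    obtain ⟨m, hm'⟩ : ∃ m, m = -(α 2 + t₁ * α 3) / α 1 := ⟨_, rfl⟩
    have hsm : s ∈ tlConst E := by
      rw [hs']
      exact div_mem (neg_mem (hαm 0)) (hαm 1)
    have hmm : m ∈ tlConst E := by
      rw [hm']
      exact div_mem (neg_mem (add_mem (hαm 2) (mul_mem hk1 (hαm 3)))) (hαm 1)
    have hw0 : w 0 = s + m * w 1 := by
      rw [hs', hm']
      field_simp
      linear_combination hrel
    have hy : (w 1)⁻¹ ∈ tlConst E := by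
      refine tl_moving (two_hom hF A) (two_smooth hs A hE) E s m t₁ (w 1)⁻¹ hsm hmm hk1 ht1 ?_
      have h3 := x86_scale (two_hom hF A) (w 1)⁻¹ (Fin.cons 1 w : Fin 4 → FunField P)
      rw [hFw, mul_zero] at h3
      rw [← h3]
      refine congrArg (fun q => aeval q _) ?_
      funext l
      fin_cases l
      · show (w 1)⁻¹ = (w 1)⁻¹ * 1
        rw [mul_one]
      · show m + (w 1)⁻¹ * s = (w 1)⁻¹ * w 0
        rw [hw0]
        field_simp
        ring
      · show 1 = (w 1)⁻¹ * w 1
        rw [inv_mul_cancel₀ hw1]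
      · show t₁ = (w 1)⁻¹ * w 2
        rw [ht₁, div_eq_inv_mul]
    have hall : ∀ l, w l ∈ tlConst E := by
      have h1 : w 1 ∈ tlConst E := by
        have := inv_mem hy
        rwa [inv_inv] at this
      intro l
      fin_cases l
      · show w 0 ∈ _
        rw [hw0]
        exact add_mem hsm (mul_mem hmm h1)
      · exact h1
      · show w 2 ∈ _
        have : w 2 = t₁ * w 1 := by rw [ht₁, div_mul_cancel₀ _ hw1]
        rw [this]
        exact mul_mem hk1 h1
    exact hE0.elim (fun h => h (hall i)) (fun h => h (hall j))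
  obtain ⟨T, hT⟩ : ∃ T : Fin 2 → FunField P, T = ![t₁, t₂] := ⟨_, rfl⟩
  obtain ⟨Nx, hNx⟩ : ∃ Nx : ∀ i : Fin 2, Σ N : ℕ, Fin (N + 1) → FunField P,
      ∀ i, AlmostHomogeneous (IntermediateField.adjoin ℂ {T i}) (Nx i).2 := by
    refine ⟨![⟨N, x⟩, ⟨N', x'⟩], ?_⟩
    intro i
    rw [hT]
    fin_cases i
    · exact hx
    · exact hx'
  have hc' : ∀ u : FunField P, (∀ i : Fin 2, IsAlgebraic (IntermediateField.adjoin ℂ {T i})
      (algebraMap (FunField P) (FunField P) u)) → ∃ c : ℂ, u = algebraMap ℂ (FunField P) c := by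
    intro u hu
    have h0 := hu 0
    have h1 := hu 1
    rw [hT] at h0 h1
    exact hc u h0 h1
  exact ⟨Pool.Agent.K3.special_covers (funField_fg P) (fun _ => FunField P)
      (fun i => IntermediateField.adjoin ℂ {T i}) (fun i => (Nx i).1) (fun i => (Nx i).2) hNx hc',
    Pool.Agent.CampanaNT.brody_covers P hP (fun _ => FunField P)
      (fun i => IntermediateField.adjoin ℂ {T i}) (fun i => (Nx i).1) (fun i => (Nx i).2) hNx hc'⟩

/-- smooth quartic surfaces with two different lines -/
theorem quartic_two {F : MvPolynomial (Fin 4) ℂ} (hF : F.IsHomogeneous 4) (hs : Pool.Agent.DS.Smooth F)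
    (a b a' b' : Fin 4 → ℂ) (hab : LinearIndependent ℂ ![a, b])
    (hon : ∀ s t : ℂ, aeval (fun j => s * a j + t * b j) F = 0) (hab' : LinearIndependent ℂ ![a', b'])
    (hon' : ∀ s t : ℂ, aeval (fun j => s * a' j + t * b' j) F = 0)
    (hne : ¬ (a' ∈ Submodule.span ℂ {a, b} ∧ b' ∈ Submodule.span ℂ {a, b}))
    {n : ℕ} (P : Ideal (MvPolynomial (Fin (n + 1)) ℂ)) [P.IsPrime] (hP : IsVariety P)
    (hK : IsQuartic (FunField P) F) : SpecialField (FunField P) ∧ BrodySpecial P := by
  by_cases hb : b ∈ Submodule.span ℂ {a', b'}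
  · by_cases ha : a ∈ Submodule.span ℂ {a', b'}
    · exfalso
      apply hne
      have hle : Submodule.span ℂ {a, b} ≤ Submodule.span ℂ {a', b'} := by
        rw [Submodule.span_le]
        rintro v (hv | hv)
        · rw [hv]; exact ha
        · rw [Set.mem_singleton_iff.1 hv]; exact hb
      have hr : ∀ x y : Fin 4 → ℂ, LinearIndependent ℂ ![x, y] →
          Module.finrank ℂ (Submodule.span ℂ {x, y}) = 2 := by
        intro x y h
        have h1 := finrank_span_eq_card h
        rw [Matrix.range_cons, Matrix.range_cons, Matrix.range_empty, Set.union_empty,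
          Set.singleton_union] at h1
        simpa using h1
      have heq := Submodule.eq_of_le_of_finrank_eq hle ((hr a b hab).trans (hr a' b' hab').symm)
      rw [heq]
      exact ⟨Submodule.subset_span (by simp), Submodule.subset_span (by simp)⟩
    · refine two_core hF hs b a a' b' ?_ ?_ hab' hon' ha P hP hK
      · have h1 := hab.comp (Equiv.swap (0 : Fin 2) 1) (Equiv.injective _)
        have h2 : (![a, b] : Fin 2 → Fin 4 → ℂ) ∘ (Equiv.swap (0 : Fin 2) 1) = ![b, a] := by
          funext i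
          fin_cases i <;> rfl
        rwa [h2] at h1
      · intro s t
        rw [← hon t s]
        refine congrArg (fun q => aeval q F) ?_
        funext j
        ring
  · exact two_core hF hs a b a' b' hab hon hab' hon' hb P hP hK

end Pool.Agent.QX
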