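import Pool.Agent.Lib_MP_1209e6_ql.All1
import Pool.Agent.Lib_MP_1209e6_ql.Two

/-! All smooth quartic surfaces. -/

set_option autoImplicit false

open MvPolynomial Pool.Agent.Campana Pool.Agent.CampanaFlow

noncomputable section

namespace Pool.Agent.QX

/-- Every smooth quartic surface is special and Brody-special. -/
theorem quartic_smooth {F : MvPolynomial (Fin 4) ℂ} (hF : F.IsHomogeneous 4) (hs : Pool.Agent.DS.Smooth F)
    {n : ℕ} (P : Ideal (MvPolynomial (Fin (n + 1)) ℂ)) [P.IsPrime] (hP : IsVariety P)
    (hK : IsQuartic (FunField P) F) : SpecialField (FunField P) ∧ BrodySpecial P := by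
  by_cases hl : NoLine F
  · exact quartic hF hs hl P hP hK
  · unfold NoLine at hl
    push Not at hl
    obtain ⟨a, b, hab, h⟩ := hl
    by_cases honly : ∀ a' b' : Fin 4 → ℂ, LinearIndependent ℂ ![a', b'] →
      (∀ s t : ℂ, aeval (fun j => s * a' j + t * b' j) F = 0) →
      a' ∈ Submodule.span ℂ {a, b} ∧ b' ∈ Submodule.span ℂ {a, b}
    · exact quartic_one' hF hs a b hab h honly P hP hK
    · push Not at honly
      obtain ⟨a', b', hab', h', hne⟩ := honly
      exact quartic_two hF hs a b a' b' hab h hab' h' (fun hc => hne hc.1 hc.2) P hP hK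

end Pool.Agent.QX
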