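import Pool.Agent.Lib_MP_1209e6_ag.Defs
import Pool.Agent.Lib_MP_1209e6_ag.Der
import Pool.Agent.Lib_MP_1209e6_ds.SmoothUp

/-! CONES (2a), helper4: a variety with a dominant map to a smooth plane curve of degree `≥ 4` is not special. -/

set_option autoImplicit false

open MvPolynomial Pool.Agent.Campana

noncomputable section

namespace Pool.Agent.QX

/-- the cross product -/
def cr {K : Type} [Field K] (u v : Fin 3 → K) : Fin 3 → K :=
  ![u 1 * v 2 - u 2 * v 1, u 2 * v 0 - u 0 * v 2, u 0 * v 1 - u 1 * v 0]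

theorem cr_prop {K : Type} [Field K] {u v g : Fin 3 → K} (h1 : ∑ l, g l * u l = 0) (h2 : ∑ l, g l * v l = 0)
    (c c' : Fin 3) : cr u v c * g c' = cr u v c' * g c := by
  rw [Fin.sum_univ_three] at h1 h2
  fin_cases c <;> fin_cases c' <;>
    simp only [cr, Fin.zero_eta, Fin.mk_one, Fin.reduceFinMk, Matrix.cons_val_zero, Matrix.cons_val_one,
      Matrix.cons_val]
  · linear_combination v 2 * h1 - u 2 * h2
  · linear_combination u 1 * h2 - v 1 * h1
  · linear_combination u 2 * h2 - v 2 * h1
  · linear_combination v 0 * h1 - u 0 * h2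
  · linear_combination v 1 * h1 - u 1 * h2
  · linear_combination u 0 * h2 - v 0 * h1

/-- chain rule -/
theorem der_aeval4 {K : Type} [Field K] [Algebra ℂ K] {n : ℕ} (D : Derivation ℂ K K) (z : Fin n → K)
    (p : MvPolynomial (Fin n) ℂ) : D (aeval z p) = ∑ l, aeval z (pderiv l p) * D (z l) := by
  induction p using MvPolynomial.induction_on with
  | C a => simp
  | add p q hp hq =>
    rw [map_add, map_add, hp, hq, ← Finset.sum_add_distrib]
    exact Finset.sum_congr rfl fun l _ => by rw [map_add, map_add]; ring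
  | mul_X p i hp =>
    rw [map_mul, D.leibniz, hp, aeval_X, smul_eq_mul, smul_eq_mul, Finset.mul_sum]
    have h1 : ∀ l, aeval z (pderiv l (p * X i)) * D (z l) =
        z i * (aeval z (pderiv l p) * D (z l)) + (if l = i then aeval z p * D (z l) else 0) := by
      intro l
      rw [pderiv_mul, pderiv_X, map_add, map_mul, map_mul, aeval_X]
      by_cases h : l = i
      · subst h
        simp
        ring
      · rw [if_neg h, Pi.single_eq_of_ne (Ne.symm h)]
        simp
        ring
    rw [Finset.sum_congr rfl fun l _ => h1 l, Finset.sum_add_distrib, Finset.sum_ite_eq' Finset.univ i]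
    simp
    ring

theorem aeval_scale3 {K : Type} [Field K] [Algebra ℂ K] {n : ℕ} {F : MvPolynomial (Fin n) ℂ} {d : ℕ}
    (hF : F.IsHomogeneous d) (s : K) (z : Fin n → K) :
    aeval (fun l => s * z l) F = s ^ d * aeval z F := by
  rw [aeval_def, aeval_def, eval₂_eq', eval₂_eq', Finset.mul_sum]
  refine Finset.sum_congr rfl fun m hm => ?_
  have h1 : ∏ i, (s * z i) ^ m i = s ^ d * ∏ i, z i ^ m i := by
    have h2 : m.degree = d := by
      by_contra h
      exact mem_support_iff.1 hm (hF.coeff_eq_zero h)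
    rw [← h2, Finsupp.degree_eq_sum, ← Finset.prod_pow_eq_pow_sum, ← Finset.prod_mul_distrib]
    exact Finset.prod_congr rfl fun i _ => mul_pow _ _ _
  rw [h1]
  ring

theorem euler3 {K : Type} [Field K] [Algebra ℂ K] {n : ℕ} {F : MvPolynomial (Fin n) ℂ} {d : ℕ}
    (hF : F.IsHomogeneous d) (z : Fin n → K) (hz : aeval z F = 0) :
    ∑ l, aeval z (pderiv l F) * z l = 0 := by
  have h1 := congrArg (aeval z) hF.sum_X_mul_pderiv
  rw [map_sum, map_nsmul, hz, smul_zero] at h1
  rw [← h1]
  exact Finset.sum_congr rfl fun l _ => by rw [map_mul, aeval_X, mul_comm]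

variable {K : Type} [Field K] [Algebra ℂ K]

theorem not_special_cone {G : MvPolynomial (Fin 3) ℂ} {d : ℕ} (hd : 4 ≤ d) (hG : G.IsHomogeneous d)
    (hs : ∀ p : Fin 3 → ℂ, (∀ j, aeval p (pderiv j G) = 0) → p = 0) (y : Fin 3 → K) (hy : aeval y G = 0)
    (i j : Fin 3) (hi : y i ≠ 0) (htr : Transcendental ℂ (y j / y i)) : ¬ SpecialField K := by
  have hsm : Pool.Agent.DS.Smooth (n := 2) G := hs
  let x : Fin 3 → K := fun l => (y i)⁻¹ * y l
  have hxi : x i = 1 := inv_mul_cancel₀ hi
  have hxj : x j = y j / y i := (div_eq_inv_mul _ _).symm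
  have hx : aeval x G = 0 := by
    show aeval (fun l => (y i)⁻¹ * y l) G = 0
    rw [aeval_scale3 hG, hy, mul_zero]
  have htx : Transcendental ℂ (x j) := by rw [hxj]; exact htr
  -- a nonzero partial derivative
  obtain ⟨c, hc⟩ : ∃ c, aeval x (pderiv c G) ≠ 0 := by
    by_contra h
    push Not at h
    have h1 := hsm.up x h
    have h2 := congrFun h1 i
    rw [hxi] at h2
    exact one_ne_zero h2
  -- the form
  let ℓ : Derivation ℂ K K →ₗ[K] K :=
    { toFun := fun D => cr x (fun l => D (x l)) c / aeval x (pderiv c G)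
      map_add' := by
        intro D E
        rw [← add_div]
        congr 1
        fin_cases c <;> simp [cr] <;> ring
      map_smul' := by
        intro a D
        rw [RingHom.id_apply, smul_eq_mul, ← mul_div_assoc]
        congr 1
        fin_cases c <;> simp [cr] <;> ring }
  have hℓ : ∀ D : Derivation ℂ K K, ℓ D = cr x (fun l => D (x l)) c / aeval x (pderiv c G) := fun D => rfl
  have hprop : ∀ (D : Derivation ℂ K K) (e : Fin 3), cr x (fun l => D (x l)) e = ℓ D * aeval x (pderiv e G) := by
    intro D e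
    have h1 : ∑ l, aeval x (pderiv l G) * x l = 0 := euler3 hG x hx
    have h2 : ∑ l, aeval x (pderiv l G) * D (x l) = 0 := by
      rw [← der_aeval4, hx, map_zero]
    have h3 := cr_prop (g := fun l => aeval x (pderiv l G)) h1 h2 e c
    rw [hℓ, div_mul_eq_mul_div, eq_div_iff hc]
    exact h3
  let ω : Form K 1 := AlternatingMap.ofSubsingleton K (Derivation ℂ K K) K (0 : Fin 1) ℓ
  have hω : ∀ D : Fin 1 → Derivation ℂ K K, ω D = ℓ (D 0) := fun D => rfl
  intro hsp
  have hω0 : ω ≠ 0 := by
    intro h0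
    obtain ⟨D, hD⟩ := Pool.Agent.Campana.exists_derivation (k := ℂ) (K := K) (fun _ : Unit => x j)
      ((algebraicIndependent_unique_type_iff).2 htx) (fun _ => 1)
    have hDj : D (x j) = 1 := hD ()
    have hDi : D (x i) = 0 := by rw [hxi]; exact D.map_one_eq_zero
    have h1 : ℓ D = 0 := by
      have h2 : ω (fun _ => D) = 0 := by rw [h0]; rfl
      exact h2
    have h2 : ∀ e, cr x (fun l => D (x l)) e = 0 := fun e => by rw [hprop, h1, zero_mul]
    have h3 : x i * D (x j) - x j * D (x i) = 0 := by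
      have e0 := h2 0
      have e1 := h2 1
      have e2 := h2 2
      simp only [cr, Matrix.cons_val_zero, Matrix.cons_val_one, Matrix.cons_val] at e0 e1 e2
      fin_cases i <;> fin_cases j <;>
        simp only [Fin.zero_eta, Fin.mk_one, Fin.reduceFinMk, sub_self]
      · exact e2
      · linear_combination -e1
      · linear_combination -e2
      · exact e0
      · exact e1
      · linear_combination -e0
    rw [hDj, hDi, hxi] at h3
    simp at h3
  refine hsp 1 le_rfl ω hω0 1 le_rfl 1 one_ne_zero (fun _ => x j) ?_ ?_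
  swap
  · refine algebraicIndependent_unique_type_iff.2 ?_
    rw [div_one]
    exact htx
  intro O hO
  -- primitive coordinates
  obtain ⟨m, hm⟩ := Finite.exists_max fun l => O.valuation (x l)
  have hxm : x m ≠ 0 := by
    intro h
    have h1 := hm i
    rw [h, hxi, map_one, map_zero] at h1
    exact not_le.2 zero_lt_one h1
  have hz : ∀ l, (x m)⁻¹ * x l ∈ O := by
    intro l
    rw [← O.valuation_le_one_iff, map_mul, map_inv₀, ← div_eq_inv_mul]
    exact div_le_one_of_le₀ (hm l) zero_le
  let z : Fin 3 → O := fun l => ⟨(x m)⁻¹ * x l, hz l⟩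
  have hzm : z m = 1 := Subtype.ext (inv_mul_cancel₀ hxm)
  let κ : ℂ →+* O :=
    { toFun := fun c => ⟨algebraMap ℂ K c, hO.1 c⟩
      map_one' := Subtype.ext (map_one _)
      map_mul' := fun a b => Subtype.ext (map_mul _ a b)
      map_zero' := Subtype.ext (map_zero _)
      map_add' := fun a b => Subtype.ext (map_add _ a b) }
  have hcoe : ∀ p : MvPolynomial (Fin 3) ℂ, ((eval₂ κ z p : O) : K) = aeval (fun l => (z l : K)) p := by
    intro p
    have h1 := eval₂_comp_left O.subtype κ z p
    exact h1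
  obtain ⟨e, he⟩ : ∃ e, IsUnit (eval₂ κ z (pderiv e G) : O) := by
    by_contra h
    push Not at h
    let κ' : ℂ →+* IsLocalRing.ResidueField O := (IsLocalRing.residue O).comp κ
    letI : Algebra ℂ (IsLocalRing.ResidueField O) := κ'.toAlgebra
    have h1 := hsm.up (fun l => IsLocalRing.residue O (z l)) fun l => by
      have h2 := eval₂_comp_left (IsLocalRing.residue O) κ z (pderiv l G)
      have h3 : IsLocalRing.residue O (eval₂ κ z (pderiv l G)) = 0 := by
        rw [IsLocalRing.residue_eq_zero_iff]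
        exact (IsLocalRing.mem_maximalIdeal _).2 (h l)
      rw [h3] at h2
      exact h2.symm
    have h2 := congrFun h1 m
    simp only [hzm, map_one, Pi.zero_apply] at h2
    exact one_ne_zero h2
  -- the value of the form
  let w : K := aeval (fun l => (z l : K)) (pderiv e G)
  have hw : w⁻¹ ∈ O := by
    obtain ⟨b, hb⟩ := he.exists_right_inv
    have h1 : w * (b : K) = 1 := by
      have h2 : ((eval₂ κ z (pderiv e G) : O) : K) * (b : K) = 1 := congrArg (fun a : O => (a : K)) hb
      rw [hcoe] at h2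
      exact h2
    have h2 : w⁻¹ = (b : K) := inv_eq_of_mul_eq_one_right h1
    rw [h2]
    exact b.2
  have hw0 : w ≠ 0 := by
    rintro h
    obtain ⟨b, hb⟩ := he.exists_right_inv
    have h2 : ((eval₂ κ z (pderiv e G) : O) : K) * (b : K) = 1 := congrArg (fun a : O => (a : K)) hb
    rw [hcoe] at h2
    have h3 : w * (b : K) = 1 := h2
    rw [h, zero_mul] at h3
    exact zero_ne_one h3
  have hxz : x = fun l => x m * (z l : K) := by
    funext l
    show x l = x m * ((x m)⁻¹ * x l)
    rw [mul_inv_cancel_left₀ hxm]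
  have hval : ∀ D : Derivation ℂ K K, x m ^ (d - 3) * ℓ D = w⁻¹ * cr (fun l => (z l : K)) (fun l => D (z l : K)) e := by
    intro D
    have h1 : cr x (fun l => D (x l)) e = x m ^ 2 * cr (fun l => (z l : K)) (fun l => D (z l : K)) e := by
      have h2 : ∀ l, x l = x m * (z l : K) := fun l => congrFun hxz l
      have h3 : ∀ l, D (x l) = x m * D (z l : K) + (z l : K) * D (x m) := by
        intro l
        conv_lhs => rw [h2 l]
        rw [D.leibniz, smul_eq_mul, smul_eq_mul]
      generalize D (x m) = q at h3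
      fin_cases e <;>
        simp only [cr, Fin.zero_eta, Fin.mk_one, Fin.reduceFinMk, Matrix.cons_val_zero, Matrix.cons_val_one,
          Matrix.cons_val]
      · rw [h3 1, h3 2, h2 1, h2 2]; ring
      · rw [h3 0, h3 2, h2 0, h2 2]; ring
      · rw [h3 0, h3 1, h2 0, h2 1]; ring
    have h4 : aeval x (pderiv e G) = x m ^ (d - 1) * w := by
      conv_lhs => rw [hxz]
      exact aeval_scale3 hG.pderiv (x m) (fun l => (z l : K))
    have h5 := hprop D e
    rw [h1, h4] at h5
    have h6 : x m ^ (d - 1) = x m ^ 2 * x m ^ (d - 3) := by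
      rw [← pow_add]; congr 1; omega
    rw [h6] at h5
    have h7 : cr (fun l => (z l : K)) (fun l => D (z l : K)) e = (x m ^ (d - 3) * ℓ D) * w := by
      apply mul_left_cancel₀ (pow_ne_zero 2 hxm)
      rw [h5]; ring
    rw [h7, mul_comm w⁻¹, mul_inv_cancel_right₀ hw0]
  have hreg : ∀ f : K, f * ((x m)⁻¹) ^ (d - 3) ∈ O → RegularAt O ω 1 f := by
    intro f hf
    refine ⟨((x m)⁻¹) ^ (d - 3), pow_ne_zero _ (inv_ne_zero hxm), ?_, ?_⟩
    · intro D hD
      rw [hω, ← inv_pow, inv_inv, hval]
      refine O.mul_mem _ _ hw ?_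
      have hDz : ∀ l, D 0 (z l : K) ∈ O := fun l => hD 0 _ (z l).2
      have hzz : ∀ a b : Fin 3, (z a : K) * D 0 (z b : K) ∈ O := fun a b =>
        O.mul_mem _ _ (z a).2 (hDz b)
      fin_cases e <;>
        simp only [cr, Fin.zero_eta, Fin.mk_one, Fin.reduceFinMk, Matrix.cons_val_zero, Matrix.cons_val_one,
          Matrix.cons_val]
      · exact O.toSubring.sub_mem (hzz _ _) (hzz _ _)
      · exact O.toSubring.sub_mem (hzz _ _) (hzz _ _)
      · exact O.toSubring.sub_mem (hzz _ _) (hzz _ _)
    · rw [pow_one]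
      exact hf
  have hzi : (x m)⁻¹ ∈ O := by
    have := hz i
    rwa [hxi, mul_one] at this
  refine ⟨hreg 1 ?_, fun _ => hreg (x j) ?_⟩
  · rw [one_mul]
    exact O.toSubring.pow_mem hzi _
  · have h1 : d - 3 = (d - 4) + 1 := by omega
    rw [h1, pow_succ, ← mul_assoc, mul_comm (x j), mul_assoc, mul_comm (x j)]
    exact O.mul_mem _ _ (O.toSubring.pow_mem hzi _) (hz j)

end Pool.Agent.QX
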