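import Pool.Agent.Lib_MP_1209e6_ql.Defs
import Pool.Agent.Lib_MP_1209e6_qx.Cover
import Pool.Agent.Lib_MP_1209e6_qx.XCovA3

/-! PIECE COVER1: `exists_cover` with `NoLineIn`, and points on lines of the plane. -/

set_option autoImplicit false

open MvPolynomial Pool.Agent.CampanaFlow

noncomputable section

namespace Pool.Agent.QX

section line1

variable {k M : Type} [Field k] [Algebra ℂ k] [IsAlgClosed k] [Field M] [Algebra ℂ M]

/-- a zero on a `k`-line is a `k`-point -/
theorem pt_on_line1 {F : MvPolynomial (Fin 4) ℂ} (hF : F.IsHomogeneous 4)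
    (τ : k →ₐ[ℂ] M) (a b : Fin 4 → k)
    (h : ∃ s t : ℂ, aeval (fun j => algebraMap ℂ k s * a j + algebraMap ℂ k t * b j) F ≠ 0) (α β : M)
    (hz : aeval (fun j => α * τ (a j) + β * τ (b j)) F = 0) :
    ∃ (c : M) (x : Fin 4 → k), ∀ j, α * τ (a j) + β * τ (b j) = c * τ (x j) := by
  by_cases hβ : β = 0
  · exact ⟨α, a, fun j => by rw [hβ, zero_mul, add_zero]⟩
  have hinf : Infinite k := by
    have : CharZero k := charZero_of_injective_algebraMap (algebraMap ℂ k).injective
    infer_instance
  let q : Polynomial k := aeval (fun j => Polynomial.X * Polynomial.C (a j) + Polynomial.C (b j)) F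
  have hqe : ∀ θ : k, q.eval θ = aeval (fun j => θ * a j + b j) F := by
    intro θ
    have h1 : q.eval θ = ((Polynomial.aeval θ : Polynomial k →ₐ[k] k).restrictScalars ℂ) q := by
      change _ = Polynomial.aeval θ q
      rw [Polynomial.coe_aeval_eq_eval]
    rw [h1, MvPolynomial.comp_aeval_apply]
    congr 2
    funext j
    simp
    exact mul_comm _ _
  have hqM : ∀ θ : M, q.eval₂ (τ : k →+* M) θ = aeval (fun j => θ * τ (a j) + τ (b j)) F := by
    intro θ
    let φ : Polynomial k →ₐ[ℂ] M :=
      { (Polynomial.eval₂RingHom (τ : k →+* M) θ) with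
        commutes' := fun r => by
          change Polynomial.eval₂ (τ : k →+* M) θ (algebraMap ℂ (Polynomial k) r) = _
          rw [Polynomial.algebraMap_apply, Polynomial.eval₂_C]
          exact τ.commutes r }
    have h1 : q.eval₂ (τ : k →+* M) θ = φ q := rfl
    rw [h1, MvPolynomial.comp_aeval_apply]
    congr 2
    funext j
    change Polynomial.eval₂ (τ : k →+* M) θ (Polynomial.X * Polynomial.C (a j) +
      Polynomial.C (b j)) = _
    simp
    exact mul_comm _ _
  have hq : q ≠ 0 := by
    intro hq0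
    obtain ⟨s, t, hst⟩ := h
    apply hst
    by_cases ht : t = 0
    · -- a nonzero value at `t = 0` gives a nonzero value at some `t ≠ 0`
      let g : Polynomial k := aeval (fun j => Polynomial.C (algebraMap ℂ k s * a j) +
        Polynomial.X * Polynomial.C (b j)) F
      have hge : ∀ θ : k, g.eval θ = aeval (fun j => algebraMap ℂ k s * a j + θ * b j) F := by
        intro θ
        have h1 : g.eval θ = ((Polynomial.aeval θ : Polynomial k →ₐ[k] k).restrictScalars ℂ) g := by
          change _ = Polynomial.aeval θ g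
          rw [Polynomial.coe_aeval_eq_eval]
        rw [h1, MvPolynomial.comp_aeval_apply]
        congr 2
        funext j
        simp
        exact mul_comm _ _
      have hg0 : g = 0 := by
        apply Polynomial.eq_zero_of_infinite_isRoot
        refine Set.Infinite.mono (s := {θ : k | θ ≠ 0}) ?_ ?_
        · intro θ hθ
          have hθ' : θ ≠ 0 := hθ
          change g.eval θ = 0
          rw [hge]
          have h5 : (fun j => algebraMap ℂ k s * a j + θ * b j) =
              fun j => θ * ((algebraMap ℂ k s / θ) * a j + b j) := by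
            funext j
            field_simp
          rw [h5, hom_smul hF θ, ← hqe, hq0, Polynomial.eval_zero, mul_zero]
        · have : ({θ : k | θ ≠ 0} : Set k) = {0}ᶜ := by
            ext θ
            simp
          rw [this]
          exact (Set.finite_singleton _).infinite_compl
      have h6 := hge (algebraMap ℂ k t)
      rw [hg0, Polynomial.eval_zero] at h6
      exact h6.symm
    · have ht' : algebraMap ℂ k t ≠ 0 := fun h => ht ((map_eq_zero _).1 h)
      have h5 : (fun j => algebraMap ℂ k s * a j + algebraMap ℂ k t * b j) =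
          fun j => algebraMap ℂ k t * ((algebraMap ℂ k s / algebraMap ℂ k t) * a j + b j) := by
        funext j
        field_simp
      rw [h5, hom_smul hF, ← hqe, hq0, Polynomial.eval_zero, mul_zero]
  have hθ : q.eval₂ (τ : k →+* M) (α / β) = 0 := by
    rw [hqM]
    have h5 : (fun j => α * τ (a j) + β * τ (b j)) =
        fun j => β * ((α / β) * τ (a j) + τ (b j)) := by
      funext j
      field_simp
    rw [h5, hom_smul hF] at hz
    exact (mul_eq_zero.1 hz).resolve_left (pow_ne_zero 4 hβ)
  obtain ⟨r, hr⟩ := root_mem_range (τ : k →+* M) q hq _ hθ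
  have hr' : τ r = α / β := hr
  refine ⟨β, fun j => r * a j + b j, fun j => ?_⟩
  rw [map_add, map_mul, hr']
  field_simp

/-- a point of the section which satisfies a linear relation over `k` is a `k`-point -/
theorem rel_pt1 {F : MvPolynomial (Fin 4) ℂ} (hF : F.IsHomogeneous 4)
    (τ : k →ₐ[ℂ] M) (e : Fin 3 → Fin 4 → k) (he : LinearIndependent k e) (hn : NoLineIn F e) (p : Fin 3 → M)
    (hz : aeval (fun j => ∑ i, p i * τ (e i j)) F = 0) (w : Fin 3 → k) (hw : w ≠ 0)
    (hrel : ∑ i, τ (w i) * p i = 0) :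
    ∃ (c : M) (x : Fin 4 → k), ∀ j, ∑ i, p i * τ (e i j) = c * τ (x j) := by
  obtain ⟨i, hi⟩ := Function.ne_iff.1 hw
  have hwi : w i ≠ 0 := hi
  obtain ⟨l, m, hil, him, hlm, hsum⟩ := three_idx i
  have hτi : τ (w i) ≠ 0 := fun h => hwi ((map_eq_zero τ).1 h)
  rw [hsum M (fun i => τ (w i) * p i)] at hrel
  have hpi : p i = -(τ (w l) / τ (w i)) * p l - (τ (w m) / τ (w i)) * p m := by
    field_simp
    linear_combination hrel
  let a : Fin 4 → k := fun j => e l j - (w l / w i) * e i j
  let b : Fin 4 → k := fun j => e m j - (w m / w i) * e i j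
  have hab : LinearIndependent k ![a, b] := by
    rw [LinearIndependent.pair_iff]
    intro s t hst
    rw [Fintype.linearIndependent_iff] at he
    have h1 := he (fun n => if n = l then s else if n = m then t else
      -(s * (w l / w i) + t * (w m / w i))) (by
        rw [hsum (Fin 4 → k)]
        funext j
        have h2 := congrFun hst j
        simp only [Pi.add_apply, Pi.smul_apply, smul_eq_mul, Pi.zero_apply, a, b] at h2
        simp only [Pi.add_apply, Pi.smul_apply, smul_eq_mul, Pi.zero_apply, if_neg hil, if_neg him,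
          if_pos, if_neg hlm.symm]
        linear_combination h2)
    constructor
    · have := h1 l
      simpa using this
    · have := h1 m
      simpa [hlm.symm] using this
  have hZ : ∀ j, ∑ i, p i * τ (e i j) = p l * τ (a j) + p m * τ (b j) := by
    intro j
    rw [hsum M (fun i => p i * τ (e i j)), hpi]
    simp only [a, b, map_sub, map_mul, map_div₀]
    ring
  have hz' : aeval (fun j => p l * τ (a j) + p m * τ (b j)) F = 0 := by
    rw [← hz]
    congr 2
    funext j
    exact (hZ j).symm
  have hmem : ∀ (n : Fin 3) (r : k), (fun j => e n j - r * e i j) ∈ Submodule.span k (Set.range e) := by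
    intro n r
    have h1 : (fun j => e n j - r * e i j) = e n - r • e i := by
      funext j
      rfl
    rw [h1]
    exact Submodule.sub_mem _ (Submodule.subset_span ⟨n, rfl⟩)
      (Submodule.smul_mem _ _ (Submodule.subset_span ⟨i, rfl⟩))
  obtain ⟨c, x, hx⟩ := pt_on_line1 hF τ a b (hn a b hab (hmem l _) (hmem m _)) (p l) (p m) hz'
  exact ⟨c, x, fun j => by rw [hZ, hx]⟩

end line1

/-- `g ≠ 0` -/
theorem g_ne_zero1 {k : Type} [Field k] [Algebra ℂ k] {F : MvPolynomial (Fin 4) ℂ}
    {e : Fin 3 → Fin 4 → k} (hn : NoLineIn F e) {c : Fin 3 → k} {g : k} {b : Fin 2 → k}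
    {A : MvPolynomial (Fin 3) k} (hS : Sect F e c g b A) : g ≠ 0 := by
  rintro rfl
  have hind : LinearIndependent k ![e 0, e 1] := by
    have h1 := hS.ind.comp ![0, 1] (by decide)
    have h2 : e ∘ ![0, 1] = ![e 0, e 1] := by
      funext i
      fin_cases i <;> rfl
    rw [h2] at h1
    exact h1
  obtain ⟨s, t, hst⟩ := hn (e 0) (e 1) hind (Submodule.subset_span ⟨0, rfl⟩)
    (Submodule.subset_span ⟨1, rfl⟩)
  apply hst
  have h3 := congrArg (eval ![algebraMap ℂ k s, algebraMap ℂ k t, 0]) hS.eq
  rw [eval_sec] at h3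
  simp only [Fin.sum_univ_three, Matrix.cons_val_zero, Matrix.cons_val_one, Matrix.cons_val, map_add,
    map_mul, map_pow, eval_C, eval_X, zero_mul, add_zero, map_zero, ne_eq, OfNat.ofNat_ne_zero,
    not_false_eq_true, zero_pow] at h3
  exact h3

/-- as `exists_cover` -/
theorem exists_cover1 {F : MvPolynomial (Fin 4) ℂ} (hF : F.IsHomogeneous 4)
    {k M K : Type} [Field k] [Algebra ℂ k] [IsAlgClosed k] [Field M] [Algebra ℂ M] [Field K] [Algebra ℂ K]
    [Algebra K M] [IsScalarTower ℂ K M] [Algebra.IsAlgebraic K M] (z : Fin 3 → K)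
    (hz : IntermediateField.adjoin ℂ (Set.range z) = ⊤) (hFz : aeval (Fin.cons 1 z : Fin 4 → K) F = 0)
    (htr : ∃ i j, AlgebraicIndependent ℂ ![z i, z j]) (T : k) (hT : Base T) (τ : k →ₐ[ℂ] M)
    (e : Fin 3 → Fin 4 → k) (hn : NoLineIn F e) (c : Fin 3 → k) (g : k) (b : Fin 2 → k)
    (A : MvPolynomial (Fin 3) k)
    (hS : Sect F e c g b A) (p : Fin 3 → M)
    (hp : ∀ j, (Fin.cons 1 (fun l => algebraMap K M (z l)) : Fin 4 → M) j = ∑ i, p i * τ (e i j)) :
    ∃ (L : IntermediateField K M) (k' : IntermediateField ℂ L) (N : ℕ) (x : Fin (N + 1) → L),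
      FiniteDimensional K L ∧ AlmostHomogeneous k' x ∧ ∀ u ∈ k', (u : M) ∈ Set.range τ := by
  have hFq : aeval (Fin.cons 1 (fun l => algebraMap K M (z l)) : Fin 4 → M) F = 0 := by
    have h1 := congrArg (algebraMap K M) hFz
    rw [map_zero, ← MvPolynomial.aeval_algebraMap_apply] at h1
    rw [← h1]
    congr 2
    funext j
    refine Fin.cases ?_ (fun l => ?_) j
    · simp
    · simp
  refine cover_core z hz hFz τ e c g b A hS p hp (g_ne_zero1 hn hS) fun l hl0 h => ?_
  obtain ⟨γ, w, hw⟩ := rel_pt1 hF τ e hS.ind hn p (by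
    rw [← hFq]
    congr 2
    funext j
    exact (hp j).symm) l hl0 h
  have hq : ∀ j, (Fin.cons 1 (fun l => algebraMap K M (z l)) : Fin 4 → M) j = γ * τ (w j) := by
    intro j
    rw [hp, hw]
  have h0 : 1 = γ * τ (w 0) := hq 0
  have hw0 : τ (w 0) ≠ 0 := by
    intro h1
    rw [h1, mul_zero] at h0
    exact one_ne_zero h0
  have hz' : ∀ l : Fin 3, algebraMap K M (z l) = τ (w l.succ / w 0) := by
    intro l
    have h1 : algebraMap K M (z l) = γ * τ (w l.succ) := hq l.succ
    rw [h1, map_div₀, eq_div_iff hw0]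
    linear_combination (- τ (w l.succ)) * h0
  obtain ⟨i, j, hij⟩ := htr
  have h1 := hij.map' (f := IsScalarTower.toAlgHom ℂ K M) (algebraMap K M).injective
  have h2 : (IsScalarTower.toAlgHom ℂ K M : K → M) ∘ ![z i, z j] =
      τ ∘ ![w i.succ / w 0, w j.succ / w 0] := by
    funext a
    fin_cases a
    · exact hz' i
    · exact hz' j
  rw [h2] at h1
  exact base_dep T hT _ _ (AlgebraicIndependent.of_comp τ h1)

/-- a point of the surface in the plane `τ e` which satisfies a further linear equation `w` over `τ k` (not zero on the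
whole plane) is proportional to a `τ k` point (`rel_point`, `pt_on_line` with `NoLineIn`) -/
theorem rel_point1 {F : MvPolynomial (Fin 4) ℂ} (hF : F.IsHomogeneous 4)
    {k M : Type} [Field k] [Algebra ℂ k] [IsAlgClosed k] [Field M] [Algebra ℂ M] (τ : k →ₐ[ℂ] M)
    (e : Fin 3 → Fin 4 → k) (he : LinearIndependent k e) (hn : NoLineIn F e) (z : Fin 4 → M)
    (hFz : aeval z F = 0) (p : Fin 3 → M) (hp : ∀ j, z j = ∑ i, p i * τ (e i j)) (w : Fin 4 → k)
    (hw : ∃ i, ∑ j, w j * e i j ≠ 0) (hwz : ∑ j, τ (w j) * z j = 0) :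
    ∃ (c : M) (x : Fin 4 → k), ∀ j, z j = c * τ (x j) := by
  obtain ⟨i0, hi0⟩ := hw
  obtain ⟨c, x, hx⟩ := rel_pt1 hF τ e he hn p (by
    rw [← hFz]
    congr 2
    funext j
    exact (hp j).symm) (fun i => ∑ j, w j * e i j) (fun h => hi0 (congrFun h i0)) (by
    rw [← hwz]
    have h1 : ∀ j, τ (w j) * z j = ∑ i, τ (w j) * (p i * τ (e i j)) := by
      intro j
      rw [hp, Finset.mul_sum]
    rw [Finset.sum_congr rfl fun j _ => h1 j, Finset.sum_comm]
    refine Finset.sum_congr rfl fun i _ => ?_
    rw [map_sum, Finset.sum_mul]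
    refine Finset.sum_congr rfl fun j _ => ?_
    rw [map_mul]
    ring)
  exact ⟨c, x, fun j => by rw [hp, hx]⟩

end Pool.Agent.QX
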