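import Mathlib

/-! PIECE DECOMP (helper48, helper38): a quartic form which vanishes on `X₂ = X₃ = 0`. -/

set_option autoImplicit false

open MvPolynomial

noncomputable section

namespace Pool.Agent.QX

/-- the residual cubic in the plane `X₃ = 0` with coefficients `b` -/
def cubB (b : Fin 10 → ℂ) : MvPolynomial (Fin 4) ℂ :=
  C (b 0) * X 0 ^ 3 + C (b 1) * X 0 ^ 2 * X 1 + C (b 2) * X 0 ^ 2 * X 2 + C (b 3) * X 0 * X 1 ^ 2 +
    C (b 4) * X 0 * X 1 * X 2 + C (b 5) * X 0 * X 2 ^ 2 + C (b 6) * X 1 ^ 3 + C (b 7) * X 1 ^ 2 * X 2 +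
    C (b 8) * X 1 * X 2 ^ 2 + C (b 9) * X 2 ^ 3

private def dcE (i j k : ℕ) : Fin 4 →₀ ℕ := Finsupp.single 0 i + Finsupp.single 1 j + Finsupp.single 2 k

private theorem dcE_mon (i j k : ℕ) (c : ℂ) :
    monomial (dcE i j k) c = C c * X 0 ^ i * X 1 ^ j * X 2 ^ k := by
  unfold dcE
  rw [X_pow_eq_monomial, X_pow_eq_monomial, X_pow_eq_monomial, C_apply, monomial_mul, monomial_mul,
    monomial_mul, zero_add, mul_one, mul_one, mul_one]

private theorem dcE_eq (m : Fin 4 →₀ ℕ) (h : m 3 = 0) : m = dcE (m 0) (m 1) (m 2) := by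
  ext i
  fin_cases i <;> simp [dcE, h, Finsupp.single_apply]

private def dcT : Finset (ℕ × ℕ × ℕ) :=
  {(3, 0, 0), (2, 1, 0), (2, 0, 1), (1, 2, 0), (1, 1, 1), (1, 0, 2), (0, 3, 0), (0, 2, 1), (0, 1, 2), (0, 0, 3)}

private theorem mem_dcT {i j k : ℕ} (h : i + j + k = 3) : (i, j, k) ∈ dcT := by
  have hi : i ≤ 3 := by omega
  have hj : j ≤ 3 := by omega
  obtain rfl : k = 3 - i - j := by omega
  unfold dcT
  interval_cases i <;> interval_cases j <;> first | omega | decide

private theorem dc_cubic (R : MvPolynomial (Fin 4) ℂ) (h : ∀ m, coeff m R ≠ 0 → m 3 = 0 ∧ m 0 + m 1 + m 2 = 3) :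
    ∃ b, R = cubB b := by
  have key : R = ∑ t ∈ dcT, monomial (dcE t.1 t.2.1 t.2.2) (coeff (dcE t.1 t.2.1 t.2.2) R) := by
    ext m
    rw [coeff_sum]
    simp only [coeff_monomial]
    by_cases hm : coeff m R = 0
    · rw [hm, Finset.sum_eq_zero]
      intro t _
      split_ifs with h1
      · rw [h1, hm]
      · rfl
    · obtain ⟨h3, hs⟩ := h m hm
      have he := dcE_eq m h3
      rw [Finset.sum_eq_single (m 0, m 1, m 2)]
      · simp only
        rw [if_pos he.symm, ← he]
      · rintro ⟨i, j, k⟩ _ hne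
        rw [if_neg]
        rintro h1
        apply hne
        have h0 := DFunLike.congr_fun h1 0
        have h1' := DFunLike.congr_fun h1 1
        have h2 := DFunLike.congr_fun h1 2
        simp [dcE, Finsupp.single_apply] at h0 h1' h2
        rw [h0, h1', h2]
      · intro hn
        exact absurd (mem_dcT hs) hn
  refine ⟨![coeff (dcE 3 0 0) R, coeff (dcE 2 1 0) R, coeff (dcE 2 0 1) R, coeff (dcE 1 2 0) R,
    coeff (dcE 1 1 1) R, coeff (dcE 1 0 2) R, coeff (dcE 0 3 0) R, coeff (dcE 0 2 1) R,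
    coeff (dcE 0 1 2) R, coeff (dcE 0 0 3) R], ?_⟩
  conv_lhs => rw [key]
  unfold dcT
  rw [Finset.sum_insert (by decide), Finset.sum_insert (by decide), Finset.sum_insert (by decide),
    Finset.sum_insert (by decide), Finset.sum_insert (by decide), Finset.sum_insert (by decide),
    Finset.sum_insert (by decide), Finset.sum_insert (by decide), Finset.sum_insert (by decide),
    Finset.sum_singleton]
  simp only [dcE_mon]
  unfold cubB
  simp only [pow_zero, pow_one, mul_one, Fin.isValue]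
  show _ = C (coeff (dcE 3 0 0) R) * X 0 ^ 3 + C (coeff (dcE 2 1 0) R) * X 0 ^ 2 * X 1 +
    C (coeff (dcE 2 0 1) R) * X 0 ^ 2 * X 2 + C (coeff (dcE 1 2 0) R) * X 0 * X 1 ^ 2 +
    C (coeff (dcE 1 1 1) R) * X 0 * X 1 * X 2 + C (coeff (dcE 1 0 2) R) * X 0 * X 2 ^ 2 +
    C (coeff (dcE 0 3 0) R) * X 1 ^ 3 + C (coeff (dcE 0 2 1) R) * X 1 ^ 2 * X 2 +
    C (coeff (dcE 0 1 2) R) * X 1 * X 2 ^ 2 + C (coeff (dcE 0 0 3) R) * X 2 ^ 3
  ring

private theorem dc_zero {F : MvPolynomial (Fin 4) ℂ}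
    (hon : ∀ a : Fin 4 → ℂ, a 2 = 0 → a 3 = 0 → aeval a F = 0) (m : Fin 4 →₀ ℕ) (h2 : m 2 = 0) (h3 : m 3 = 0) :
    coeff m F = 0 := by
  have h1 : F = X 2 * (F.divMonomial (Finsupp.single 2 1)) + (X 3 * ((F.modMonomial (Finsupp.single 2 1)).divMonomial
      (Finsupp.single 3 1)) + (F.modMonomial (Finsupp.single 2 1)).modMonomial (Finsupp.single 3 1)) := by
    rw [divMonomial_add_modMonomial_single, divMonomial_add_modMonomial_single]
  set R := (F.modMonomial (Finsupp.single 2 1)).modMonomial (Finsupp.single 3 1) with hR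
  have hsup : ∀ m, coeff m R ≠ 0 → m 2 = 0 ∧ m 3 = 0 := by
    intro m hm
    have h3' : ¬ Finsupp.single 3 1 ≤ m := fun hle => hm (coeff_modMonomial_of_le _ hle)
    rw [hR, coeff_modMonomial_of_not_le _ h3'] at hm
    have h2' : ¬ Finsupp.single 2 1 ≤ m := fun hle => hm (coeff_modMonomial_of_le _ hle)
    rw [Finsupp.single_le_iff] at h2' h3'
    omega
  have hφ : aeval (fun i : Fin 4 => if i = 2 ∨ i = 3 then (0 : MvPolynomial (Fin 4) ℂ) else X i) R = R := by
    conv_rhs => rw [R.as_sum]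
    rw [aeval_def, eval₂_eq]
    refine Finset.sum_congr rfl fun d hd => ?_
    rw [mem_support_iff] at hd
    obtain ⟨hd2, hd3⟩ := hsup d hd
    rw [monomial_eq, algebraMap_eq]
    congr 1
    rw [Finsupp.prod]
    refine Finset.prod_congr rfl fun i hi => ?_
    rw [Finsupp.mem_support_iff] at hi
    rw [if_neg]
    rintro (rfl | rfl)
    · exact hi hd2
    · exact hi hd3
  have hR0 : R = 0 := by
    rw [← hφ]
    apply MvPolynomial.funext
    intro a
    rw [map_zero]
    have h4 : eval a (aeval (fun i : Fin 4 => if i = 2 ∨ i = 3 then (0 : MvPolynomial (Fin 4) ℂ) else X i) R) =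
        aeval (fun i : Fin 4 => if i = 2 ∨ i = 3 then (0 : ℂ) else a i) R := by
      rw [← aeval_eq_eval, ← AlgHom.comp_apply, comp_aeval]
      congr 2
      funext i
      split_ifs <;> simp
    rw [h4]
    have h5 := hon (fun i : Fin 4 => if i = 2 ∨ i = 3 then (0 : ℂ) else a i) (by simp) (by simp)
    rw [h1] at h5
    simpa using h5
  have h6 : coeff m R = coeff m F := by
    rw [hR, coeff_modMonomial_of_not_le _ (by rw [Finsupp.single_le_iff]; omega),
      coeff_modMonomial_of_not_le _ (by rw [Finsupp.single_le_iff]; omega)]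
  rw [← h6, hR0, coeff_zero]

theorem decomp {F : MvPolynomial (Fin 4) ℂ} (hF : F.IsHomogeneous 4)
    (hon : ∀ a : Fin 4 → ℂ, a 2 = 0 → a 3 = 0 → aeval a F = 0) :
    ∃ (b : Fin 10 → ℂ) (G : MvPolynomial (Fin 4) ℂ), G.IsHomogeneous 3 ∧ F = X 2 * cubB b + X 3 * G := by
  have hdeg : ∀ m : Fin 4 →₀ ℕ, coeff m F ≠ 0 → m 0 + m 1 + m 2 + m 3 = 4 := by
    intro m hm
    have h := hF hm
    change (Finsupp.weight fun _ => 1) m = 4 at h
    rw [← Finsupp.degree_eq_weight_one, Finsupp.degree_eq_sum, Fin.sum_univ_four] at h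
    exact h
  have h1 : X 3 * (F.divMonomial (Finsupp.single 3 1)) + (X 2 * ((F.modMonomial (Finsupp.single 3 1)).divMonomial
      (Finsupp.single 2 1)) + (F.modMonomial (Finsupp.single 3 1)).modMonomial (Finsupp.single 2 1)) = F := by
    rw [divMonomial_add_modMonomial_single, divMonomial_add_modMonomial_single]
  have h0 : (F.modMonomial (Finsupp.single 3 1)).modMonomial (Finsupp.single 2 1) = 0 := by
    ext m
    rw [coeff_zero]
    by_cases h2 : Finsupp.single 2 1 ≤ m
    · exact coeff_modMonomial_of_le _ h2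
    rw [coeff_modMonomial_of_not_le _ h2]
    by_cases h3 : Finsupp.single 3 1 ≤ m
    · exact coeff_modMonomial_of_le _ h3
    rw [coeff_modMonomial_of_not_le _ h3]
    rw [Finsupp.single_le_iff] at h2 h3
    exact dc_zero hon m (by omega) (by omega)
  obtain ⟨b, hb⟩ := dc_cubic ((F.modMonomial (Finsupp.single 3 1)).divMonomial (Finsupp.single 2 1)) (by
    intro m hm
    rw [coeff_divMonomial] at hm
    have h3 : ¬ Finsupp.single 3 1 ≤ Finsupp.single 2 1 + m := fun hle => hm (coeff_modMonomial_of_le _ hle)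
    rw [coeff_modMonomial_of_not_le _ h3] at hm
    have h4 := hdeg _ hm
    rw [Finsupp.single_le_iff] at h3
    simp [Finsupp.single_apply] at h3 h4
    exact ⟨h3, by omega⟩)
  refine ⟨b, F.divMonomial (Finsupp.single 3 1), ?_, ?_⟩
  · intro m hm
    rw [coeff_divMonomial] at hm
    have h4 := hdeg _ hm
    change (Finsupp.weight fun _ => 1) m = 3
    rw [← Finsupp.degree_eq_weight_one, Finsupp.degree_eq_sum, Fin.sum_univ_four]
    simp [Finsupp.single_apply] at h4
    omega
  · rw [h0, add_zero, hb] at h1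
    rw [add_comm, h1]

end Pool.Agent.QX
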