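import Pool.Agent.Lib_MP_1209e6_qx.Model
import Pool.Agent.Lib_MP_1209e6_qx.Xh39

/-!
# Smooth quartic surfaces with exactly one line: definitions and statements of the pieces

`MP_1209e6_ag`, QX-D. The line is `X₂ = X₃ = 0`.
-/

set_option autoImplicit false

open MvPolynomial

noncomputable section

namespace Pool.Agent.QX

/-- the line `X₂ = X₃ = 0` lies on the surface `F = 0` and is the only line on it -/
structure OneLine (F : MvPolynomial (Fin 4) ℂ) : Prop where
  on : ∀ a : Fin 4 → ℂ, a 2 = 0 → a 3 = 0 → aeval a F = 0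
  only : ∀ a b : Fin 4 → ℂ, LinearIndependent ℂ ![a, b] →
    (∀ s t : ℂ, aeval (fun j => s * a j + t * b j) F = 0) → a 2 = 0 ∧ a 3 = 0 ∧ b 2 = 0 ∧ b 3 = 0

/-- the section of the surface by the plane spanned by the `e i` contains no line defined over `k` -/
def NoLineIn {k : Type} [Field k] [Algebra ℂ k] (F : MvPolynomial (Fin 4) ℂ) (e : Fin 3 → Fin 4 → k) : Prop :=
  ∀ a b : Fin 4 → k, LinearIndependent k ![a, b] → a ∈ Submodule.span k (Set.range e) →
    b ∈ Submodule.span k (Set.range e) →
    ∃ s t : ℂ, aeval (fun j => algebraMap ℂ k s * a j + algebraMap ℂ k t * b j) F ≠ 0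

end Pool.Agent.QX
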