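import Mathlib

/-! PIECE EPS (helper73): the solutions of the system on the line itself are isolated (pure algebra). -/

set_option autoImplicit false

open Polynomial

noncomputable section

namespace Pool.Agent.QX

theorem eps_alg {K : Type} [Field K] [Algebra ℂ K] {a : K} (ha : IsAlgebraic ℂ a) :
    a ∈ Set.range (algebraMap ℂ K) :=
  minpoly.mem_range_of_degree_eq_one ℂ a
    (IsAlgClosed.degree_eq_one_of_irreducible ℂ (minpoly.irreducible ha.isIntegral))

/-- coprime polynomials with zero Wronskian are constant -/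
theorem eps_wronskian {a b : ℂ[X]} (hab : IsCoprime a b)
    (h : derivative a * b - a * derivative b = 0) : derivative a = 0 ∧ derivative b = 0 := by
  have key : ∀ {a b : ℂ[X]}, IsCoprime a b → derivative a * b - a * derivative b = 0 →
      derivative b = 0 := by
    intro a b hab h
    by_cases hb : b = 0
    · rw [hb, derivative_zero]
    have h1 : b ∣ a * derivative b := ⟨derivative a, by linear_combination -h⟩
    have h2 : b ∣ derivative b := hab.symm.dvd_of_dvd_mul_left h1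
    exact Polynomial.eq_zero_of_dvd_of_degree_lt h2 (degree_derivative_lt hb)
  exact ⟨key hab.symm (by linear_combination -h), key hab h⟩

theorem eps_coeff {k : Type} [Field k] (a0 a1 a2 a3 : k) :
    (C a0 + C a1 * X + C a2 * X ^ 2 + C a3 * X ^ 3 : k[X]).coeff 0 = a0 ∧
    (C a0 + C a1 * X + C a2 * X ^ 2 + C a3 * X ^ 3 : k[X]).coeff 1 = a1 ∧
    (C a0 + C a1 * X + C a2 * X ^ 2 + C a3 * X ^ 3 : k[X]).coeff 2 = a2 ∧
    (C a0 + C a1 * X + C a2 * X ^ 2 + C a3 * X ^ 3 : k[X]).coeff 3 = a3 := by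
  refine ⟨?_, ?_, ?_, ?_⟩ <;> simp [coeff_X, coeff_C]

theorem rigid_eps {k : Type} [Field k] [Algebra ℂ k] (a b : ℂ[X]) (hab : IsCoprime a b)
    (z0 z1 z2 z3 z4 z5 z6 z8 z9 : k)
    (h1 : (C z3 + C z4 * X) * (a.map (algebraMap ℂ k) + C z2 * b.map (algebraMap ℂ k)) +
      (C z0 + C z1 * X) * b.map (algebraMap ℂ k) = (X ^ 2 + C z6 * X + C z5) ^ 2)
    (h2 : a.map (algebraMap ℂ k) + C z2 * b.map (algebraMap ℂ k) =
      (C z8 + C z9 * X) * (X ^ 2 + C z6 * X + C z5)) :
    z0 = 0 ∧ z1 = 0 ∧ z2 ∈ Set.range (algebraMap ℂ k) ∧ z3 ∈ Set.range (algebraMap ℂ k) ∧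
      z4 ∈ Set.range (algebraMap ℂ k) ∧ z5 ∈ Set.range (algebraMap ℂ k) ∧
      z6 ∈ Set.range (algebraMap ℂ k) ∧ z8 ∈ Set.range (algebraMap ℂ k) ∧
      z9 ∈ Set.range (algebraMap ℂ k) := by
  set A : k[X] := a.map (algebraMap ℂ k) with hA
  set B : k[X] := b.map (algebraMap ℂ k) with hB
  have hAB : IsCoprime A B := by
    have := hab.map (Polynomial.mapRingHom (algebraMap ℂ k))
    simpa [hA, hB] using this
  set c : k[X] := X ^ 2 + C z6 * X + C z5 with hc
  have hcm : c.Monic := by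
    rw [hc]
    monicity!
  have hcd : c.natDegree = 2 := by
    rw [hc]
    compute_degree!
  have hcd' : c.degree = 2 := by
    rw [degree_eq_natDegree hcm.ne_zero, hcd]
    rfl
  have hcB : IsCoprime c B := by
    obtain ⟨u, w, huw⟩ := hAB
    refine ⟨(C z8 + C z9 * X) * u, w - u * C z2, ?_⟩
    linear_combination huw - u * h2
  have h3 : c ∣ (C z0 + C z1 * X) * B := by
    refine ⟨c - (C z3 + C z4 * X) * (C z8 + C z9 * X), ?_⟩
    linear_combination h1 - (C z3 + C z4 * X) * h2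
  have h4 : c ∣ C z0 + C z1 * X := hcB.dvd_of_dvd_mul_right h3
  have h5 : (C z0 + C z1 * X : k[X]) = 0 := by
    refine Polynomial.eq_zero_of_dvd_of_degree_lt h4 ?_
    rw [hcd']
    refine lt_of_le_of_lt (b := (1 : WithBot ℕ)) ?_ (by norm_num)
    compute_degree!
  have hz0 : z0 = 0 := by
    have := congrArg (fun p : k[X] => p.coeff 0) h5
    simpa using this
  have hz1 : z1 = 0 := by
    have := congrArg (fun p : k[X] => p.coeff 1) h5
    simpa [coeff_C] using this
  have h6 : c = (C z3 + C z4 * X) * (C z8 + C z9 * X) := by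
    have h7 : c * (c - (C z3 + C z4 * X) * (C z8 + C z9 * X)) = 0 := by
      linear_combination - h1 + (C z3 + C z4 * X) * h2 + B * h5
    exact sub_eq_zero.1 ((mul_eq_zero.1 h7).resolve_left hcm.ne_zero)
  have h8 : ((C z3 + C z4 * X) * (C z8 + C z9 * X) : k[X]) =
      C (z3 * z8) + C (z3 * z9 + z4 * z8) * X + C (z4 * z9) * X ^ 2 + C 0 * X ^ 3 := by
    simp only [map_mul, map_add, map_zero]
    ring
  have h9 : c = C z5 + C z6 * X + C 1 * X ^ 2 + C 0 * X ^ 3 := by
    rw [hc, map_one, map_zero]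
    ring
  have h10 := (h9.symm.trans h6).trans h8
  have e2 : z4 * z9 = 1 := by
    have h7 := congrArg (fun p : k[X] => p.coeff 2) h10
    beta_reduce at h7
    rw [(eps_coeff _ _ _ _).2.2.1, (eps_coeff _ _ _ _).2.2.1] at h7
    exact h7.symm
  have e1 : z6 = z3 * z9 + z4 * z8 := by
    have h7 := congrArg (fun p : k[X] => p.coeff 1) h10
    beta_reduce at h7
    rwa [(eps_coeff _ _ _ _).2.1, (eps_coeff _ _ _ _).2.1] at h7
  have e0 : z5 = z3 * z8 := by
    have h7 := congrArg (fun p : k[X] => p.coeff 0) h10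
    beta_reduce at h7
    rwa [(eps_coeff _ _ _ _).1, (eps_coeff _ _ _ _).1] at h7
  have hz9 : z9 ≠ 0 := by
    rintro rfl
    rw [mul_zero] at e2
    exact zero_ne_one e2
  -- the form with a double root
  have hD : A + C z2 * B = (C z3 + C z4 * X) * (C z8 + C z9 * X) ^ 2 := by
    rw [h2, h6]
    ring
  have hD' : A + C z2 * B = C (z3 * z8 ^ 2) + C (2 * z3 * z8 * z9 + z4 * z8 ^ 2) * X +
      C (z3 * z9 ^ 2 + 2 * z8) * X ^ 2 + C z9 * X ^ 3 := by
    have f1 : (C z4 * C z9 : k[X]) = 1 := by rw [← C_mul, e2, C_1]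
    rw [hD]
    simp only [map_mul, map_add, map_pow]
    have f2 : (C 2 : k[X]) = 2 := rfl
    rw [f2]
    linear_combination (2 * C z8 * X ^ 2 + C z9 * X ^ 3) * f1
  set r : k := - z8 / z9 with hr
  have hrr : z8 + z9 * r = 0 := by
    rw [hr]
    field_simp
    ring
  have hev : ∀ p : ℂ[X], (p.map (algebraMap ℂ k)).eval r = aeval r p := by
    intro p
    rw [eval_map_algebraMap]
  have g1 : aeval r a + z2 * aeval r b = 0 := by
    have h7 := congrArg (eval r) hD
    rw [eval_add, eval_mul, eval_C, hA, hB, hev, hev, eval_mul, eval_pow] at h7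
    rw [h7]
    simp [hrr]
  have g2 : aeval r (derivative a) + z2 * aeval r (derivative b) = 0 := by
    have h7 := congrArg (fun p : k[X] => eval r (derivative p)) hD
    simp only [derivative_add, derivative_mul, derivative_C, zero_mul, zero_add, eval_add, eval_mul, eval_C,
      hA, hB, derivative_map, hev, derivative_pow, derivative_X, eval_pow, eval_X, hrr] at h7
    rw [h7]
    simp
  have hJ0 : derivative a * b - a * derivative b ≠ 0 := by
    intro h
    obtain ⟨ha0, hb0⟩ := eps_wronskian hab h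
    have h7 := derivative_eq_zero.1 ha0
    have h8 := derivative_eq_zero.1 hb0
    rw [natDegree_eq_zero] at h7 h8
    obtain ⟨x, rfl⟩ := h7
    obtain ⟨y, rfl⟩ := h8
    have h9 := congrArg (fun p : k[X] => p.coeff 3) hD'
    beta_reduce at h9
    rw [(eps_coeff _ _ _ _).2.2.2, hA, hB, map_C, map_C, ← C_mul, ← C_add, coeff_C, if_neg (by norm_num)] at h9
    exact hz9 h9.symm
  have hralg : IsAlgebraic ℂ r := by
    refine ⟨_, hJ0, ?_⟩
    rw [map_sub, map_mul, map_mul]
    linear_combination (aeval r b) * g2 - (aeval r (derivative b)) * g1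
  obtain ⟨r0, hr0⟩ := eps_alg hralg
  have hevr : ∀ p : ℂ[X], aeval r p = algebraMap ℂ k (p.eval r0) := by
    intro p
    rw [← hr0, aeval_algebraMap_apply, coe_aeval_eq_eval]
  have hb0 : b.eval r0 ≠ 0 := by
    intro h
    have ha0 : a.eval r0 = 0 := by
      rw [hevr, hevr, h, map_zero, mul_zero, add_zero] at g1
      exact (map_eq_zero _).1 g1
    obtain ⟨u, w, huw⟩ := hab
    have h7 := congrArg (eval r0) huw
    simp [h, ha0] at h7
  have hz2 : z2 = algebraMap ℂ k (- a.eval r0 / b.eval r0) := by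
    rw [hevr, hevr] at g1
    have : algebraMap ℂ k (b.eval r0) ≠ 0 := (_root_.map_ne_zero _).2 hb0
    rw [map_div₀, map_neg, eq_div_iff this]
    linear_combination g1
  set ζ : ℂ := - a.eval r0 / b.eval r0
  have hDm : A + C z2 * B = (a + C ζ * b).map (algebraMap ℂ k) := by
    rw [Polynomial.map_add, Polynomial.map_mul, map_C, hz2]
  have hz9r : z9 = algebraMap ℂ k ((a + C ζ * b).coeff 3) := by
    have h7 := congrArg (fun p : k[X] => p.coeff 3) (hD'.symm.trans hDm)
    simp only [coeff_map] at h7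
    rw [← h7, (eps_coeff _ _ _ _).2.2.2]
  have hc2r : z3 * z9 ^ 2 + 2 * z8 = algebraMap ℂ k ((a + C ζ * b).coeff 2) := by
    have h7 := congrArg (fun p : k[X] => p.coeff 2) (hD'.symm.trans hDm)
    simp only [coeff_map] at h7
    rw [← h7, (eps_coeff _ _ _ _).2.2.1]
  set w9 : ℂ := (a + C ζ * b).coeff 3
  set w2 : ℂ := (a + C ζ * b).coeff 2
  have hw9 : w9 ≠ 0 := by
    intro h
    rw [h, map_zero] at hz9r
    exact hz9 hz9r
  have hz8r : z8 = algebraMap ℂ k (- r0 * w9) := by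
    rw [map_mul, map_neg, hr0, ← hz9r]
    linear_combination hrr
  have hz4r : z4 = algebraMap ℂ k (w9⁻¹) := by
    rw [map_inv₀, ← hz9r]
    field_simp
    exact e2
  have hz3r : z3 = algebraMap ℂ k ((w2 - 2 * (- r0 * w9)) / w9 ^ 2) := by
    rw [map_div₀, map_sub, map_mul, map_pow, ← hz8r, ← hz9r, ← hc2r, map_ofNat]
    field_simp
    ring
  refine ⟨hz0, hz1, ⟨_, hz2.symm⟩, ⟨_, hz3r.symm⟩, ⟨_, hz4r.symm⟩, ?_, ?_, ⟨_, hz8r.symm⟩, ⟨_, hz9r.symm⟩⟩
  · refine ⟨(w2 - 2 * (- r0 * w9)) / w9 ^ 2 * (- r0 * w9), ?_⟩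
    rw [map_mul, ← hz3r, ← hz8r, e0]
  · refine ⟨(w2 - 2 * (- r0 * w9)) / w9 ^ 2 * w9 + w9⁻¹ * (- r0 * w9), ?_⟩
    rw [map_add, map_mul, map_mul _ (w9⁻¹), ← hz3r, ← hz8r, ← hz4r, ← hz9r, e1]

end Pool.Agent.QX
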