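
import Pool.Agent.Lib_MP_1209e6_qx.Sys
import Pool.Agent.Lib_MP_1209e6_qx.Pencil

/-! The second family on a smooth quartic with a line, from `eps = 0`: the system. -/

set_option autoImplicit false

open MvPolynomial

noncomputable section

namespace Pool.Agent.QX

namespace F2

section ring

variable {R : Type} [CommRing R] [Algebra ℂ R]

def al (z : Fin 10 → R) (s t : R) : R := z 3 * s + z 4 * t
def be (z : Fin 10 → R) (s t : R) : R := z 2 * (z 3 * s + z 4 * t) + (z 0 * s + z 1 * t)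
def cc (z : Fin 10 → R) (s t : R) : R := z 5 * s ^ 2 + z 6 * s * t + t ^ 2
def ro (z : Fin 10 → R) (s t : R) : R := z 8 * s + z 9 * t
def pt (z : Fin 10 → R) (s t : R) : Fin 4 → R := ![s, t, z 7 * al z s t, z 7 * be z s t]

def U (A B : MvPolynomial (Fin 4) ℂ) (z : Fin 10 → R) (s t : R) : R :=
  al z s t * aeval (pt z s t) A + be z s t * aeval (pt z s t) B - cc z s t ^ 2

def V (G : MvPolynomial (Fin 4) ℂ) (z : Fin 10 → R) (s t : R) : R :=
  aeval (pt z s t) (pderiv 2 G) + z 2 * aeval (pt z s t) (pderiv 3 G) - ro z s t * cc z s t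

variable {R' : Type} [CommRing R'] [Algebra ℂ R']

theorem map_pt (f : R →ₐ[ℂ] R') (z : Fin 10 → R) (s t : R) (p : MvPolynomial (Fin 4) ℂ) :
    f (aeval (pt z s t) p) = aeval (pt (fun i => f (z i)) (f s) (f t)) p := by
  rw [comp_aeval_apply]
  congr 2
  funext j
  fin_cases j <;> simp [pt, al, be]

theorem map_U (f : R →ₐ[ℂ] R') (A B : MvPolynomial (Fin 4) ℂ) (z : Fin 10 → R) (s t : R) :
    f (U A B z s t) = U A B (fun i => f (z i)) (f s) (f t) := by
  rw [U, U, map_sub, map_add, map_mul, map_mul, map_pt, map_pt]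
  simp [al, be, cc]

theorem map_V (f : R →ₐ[ℂ] R') (G : MvPolynomial (Fin 4) ℂ) (z : Fin 10 → R) (s t : R) :
    f (V G z s t) = V G (fun i => f (z i)) (f s) (f t) := by
  rw [V, V, map_sub, map_add, map_mul, map_pt, map_pt]
  simp [ro, cc]

end ring

/-- the universal polynomial -/
def W (A B G : MvPolynomial (Fin 4) ℂ) : MvPolynomial (Fin 3) (MvPolynomial (Fin 10) ℂ) :=
  U (R := MvPolynomial (Fin 3) (MvPolynomial (Fin 10) ℂ)) A B (fun i => C (X i)) (X 0) (X 1) +
    X 2 * V (R := MvPolynomial (Fin 3) (MvPolynomial (Fin 10) ℂ)) G (fun i => C (X i)) (X 0) (X 1)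

/-- the polynomial for the values `z` -/
def Wz {k : Type} [Field k] [Algebra ℂ k] (A B G : MvPolynomial (Fin 4) ℂ) (z : Fin 10 → k) :
    MvPolynomial (Fin 3) k :=
  U A B (fun i => C (z i)) (X 0) (X 1) + X 2 * V G (fun i => C (z i)) (X 0) (X 1)

variable {k : Type} [Field k] [Algebra ℂ k]

theorem map_W (A B G : MvPolynomial (Fin 4) ℂ) (z : Fin 10 → k) :
    mapAlgHom (aeval z : MvPolynomial (Fin 10) ℂ →ₐ[ℂ] k) (W A B G) = Wz A B G z := by
  rw [W, Wz, map_add, map_mul, map_U, map_V]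
  simp

/-- the nine equations -/
def sys (A B G : MvPolynomial (Fin 4) ℂ) (i : Fin 9) : MvPolynomial (Fin 10) ℂ :=
  coeff (SysAux.mon i) (W A B G)

theorem sys_aeval (A B G : MvPolynomial (Fin 4) ℂ) (z : Fin 10 → k) (i : Fin 9) :
    aeval z (sys A B G i) = coeff (SysAux.mon i) (Wz A B G z) := by
  rw [← map_W, sys, mapAlgHom_apply, coeff_map]
  rfl

theorem hom_pt {A : MvPolynomial (Fin 4) ℂ} {d : ℕ} (hA : A.IsHomogeneous d) (z : Fin 10 → k) :
    (aeval (pt (fun i => (C (z i) : MvPolynomial (Fin 3) k)) (X 0) (X 1)) A).IsHomogeneous d := by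
  have h1 : ∀ (a b : k), (C a * X 0 + C b * X 1 : MvPolynomial (Fin 3) k).IsHomogeneous 1 := by
    intro a b
    refine IsHomogeneous.add ?_ ?_
    · simpa using (isHomogeneous_C (Fin 3) a).mul (isHomogeneous_X k (0 : Fin 3))
    · simpa using (isHomogeneous_C (Fin 3) b).mul (isHomogeneous_X k (1 : Fin 3))
  have h := hA.eval₂ (n := 1) (algebraMap ℂ (MvPolynomial (Fin 3) k))
    (pt (fun i => (C (z i) : MvPolynomial (Fin 3) k)) (X 0) (X 1))
      (fun r => by
        rw [MvPolynomial.algebraMap_apply]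
        exact isHomogeneous_C _ _) (fun j => by
        fin_cases j
        · exact isHomogeneous_X k (0 : Fin 3)
        · exact isHomogeneous_X k (1 : Fin 3)
        · simpa [pt, al] using (isHomogeneous_C (Fin 3) (z 7)).mul (h1 (z 3) (z 4))
        · have h2 : (C (z 2) * (C (z 3) * X 0 + C (z 4) * X 1) + (C (z 0) * X 0 + C (z 1) * X 1) :
              MvPolynomial (Fin 3) k).IsHomogeneous 1 :=
            IsHomogeneous.add (by simpa using (isHomogeneous_C (Fin 3) (z 2)).mul (h1 (z 3) (z 4))) (h1 _ _)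
          simpa [pt, be] using (isHomogeneous_C (Fin 3) (z 7)).mul h2)
  simpa [aeval_def] using h

end F2

end Pool.Agent.QX
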