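import Pool.Agent.Lib_MP_1209e6_ql.F2a


/-! The second family on a smooth quartic with a line, from `eps = 0`: solutions of the system. -/

set_option autoImplicit false

open MvPolynomial

noncomputable section

namespace Pool.Agent.QX

namespace F2

variable {k : Type} [Field k] [Algebra ℂ k]

omit [Algebra ℂ k] in
theorem lin2_hom (a b : k) : (C a * X 0 + C b * X 1 : MvPolynomial (Fin 3) k).IsHomogeneous 1 := by
  refine IsHomogeneous.add ?_ ?_
  · simpa using (isHomogeneous_C (Fin 3) a).mul (isHomogeneous_X k (0 : Fin 3))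
  · simpa using (isHomogeneous_C (Fin 3) b).mul (isHomogeneous_X k (1 : Fin 3))

theorem cc_hom (z : Fin 10 → k) :
    (cc (fun i => (C (z i) : MvPolynomial (Fin 3) k)) (X 0) (X 1)).IsHomogeneous 2 := by
  rw [cc]
  refine IsHomogeneous.add (IsHomogeneous.add ?_ ?_) ?_
  · simpa using (isHomogeneous_C (Fin 3) (z 5)).mul ((isHomogeneous_X k (0 : Fin 3)).pow 2)
  · simpa using ((isHomogeneous_C (Fin 3) (z 6)).mul (isHomogeneous_X k (0 : Fin 3))).mul
      (isHomogeneous_X k (1 : Fin 3))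
  · simpa using (isHomogeneous_X k (1 : Fin 3)).pow 2

theorem Wz_hom {A B G : MvPolynomial (Fin 4) ℂ} (hA : A.IsHomogeneous 3) (hB : B.IsHomogeneous 3)
    (hG : G.IsHomogeneous 4) (z : Fin 10 → k) : (Wz A B G z).IsHomogeneous 4 := by
  have hal : (al (fun i => (C (z i) : MvPolynomial (Fin 3) k)) (X 0) (X 1)).IsHomogeneous 1 := lin2_hom _ _
  have hro : (ro (fun i => (C (z i) : MvPolynomial (Fin 3) k)) (X 0) (X 1)).IsHomogeneous 1 := lin2_hom _ _
  have hbe : (be (fun i => (C (z i) : MvPolynomial (Fin 3) k)) (X 0) (X 1)).IsHomogeneous 1 := by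
    rw [be]
    refine IsHomogeneous.add ?_ (lin2_hom _ _)
    simpa using (isHomogeneous_C (Fin 3) (z 2)).mul (lin2_hom (z 3) (z 4))
  have h2 : (pderiv 2 G).IsHomogeneous 3 := hG.pderiv
  have h3 : (pderiv 3 G).IsHomogeneous 3 := hG.pderiv
  rw [Wz, U, V]
  refine IsHomogeneous.add (IsHomogeneous.sub (IsHomogeneous.add ?_ ?_) ?_) ?_
  · simpa using hal.mul (hom_pt hA z)
  · simpa using hbe.mul (hom_pt hB z)
  · simpa using (cc_hom z).pow 2
  · have h4 : (aeval (pt (fun i => (C (z i) : MvPolynomial (Fin 3) k)) (X 0) (X 1)) (pderiv 2 G) +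
        C (z 2) * aeval (pt (fun i => (C (z i) : MvPolynomial (Fin 3) k)) (X 0) (X 1)) (pderiv 3 G) -
        ro (fun i => (C (z i) : MvPolynomial (Fin 3) k)) (X 0) (X 1) *
          cc (fun i => (C (z i) : MvPolynomial (Fin 3) k)) (X 0) (X 1)).IsHomogeneous 3 := by
      refine IsHomogeneous.sub (IsHomogeneous.add (hom_pt h2 z) ?_) ?_
      · simpa using (isHomogeneous_C (Fin 3) (z 2)).mul (hom_pt h3 z)
      · simpa using hro.mul (cc_hom z)
    simpa using (isHomogeneous_X k (2 : Fin 3)).mul h4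

theorem ev_U (A B : MvPolynomial (Fin 4) ℂ) (z : Fin 10 → k) (v : Fin 3 → k) :
    eval v (U A B (fun i => C (z i)) (X 0) (X 1)) = U A B z (v 0) (v 1) := by
  have h := map_U ((MvPolynomial.aeval v : MvPolynomial (Fin 3) k →ₐ[k] k).restrictScalars ℂ) A B
    (fun i => C (z i)) (X 0) (X 1)
  have h2 : ∀ p : MvPolynomial (Fin 3) k,
      ((MvPolynomial.aeval v : MvPolynomial (Fin 3) k →ₐ[k] k).restrictScalars ℂ) p = eval v p := by
    intro p
    rw [AlgHom.restrictScalars_apply, MvPolynomial.aeval_eq_eval]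
  simp only [h2, eval_C, eval_X] at h
  exact h

theorem ev_V (G : MvPolynomial (Fin 4) ℂ) (z : Fin 10 → k) (v : Fin 3 → k) :
    eval v (V G (fun i => C (z i)) (X 0) (X 1)) = V G z (v 0) (v 1) := by
  have h := map_V ((MvPolynomial.aeval v : MvPolynomial (Fin 3) k →ₐ[k] k).restrictScalars ℂ) G
    (fun i => C (z i)) (X 0) (X 1)
  have h2 : ∀ p : MvPolynomial (Fin 3) k,
      ((MvPolynomial.aeval v : MvPolynomial (Fin 3) k →ₐ[k] k).restrictScalars ℂ) p = eval v p := by
    intro p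
    rw [AlgHom.restrictScalars_apply, MvPolynomial.aeval_eq_eval]
  simp only [h2, eval_C, eval_X] at h
  exact h

theorem inf : Infinite k := Infinite.of_injective _ (algebraMap ℂ k).injective

theorem sys_zero {A B G : MvPolynomial (Fin 4) ℂ} (hA : A.IsHomogeneous 3) (hB : B.IsHomogeneous 3)
    (hG : G.IsHomogeneous 4) (z : Fin 10 → k) (h : ∀ i, aeval z (sys A B G i) = 0) (s t : k) :
    U A B z s t = 0 ∧ V G z s t = 0 := by
  have := inf (k := k)
  simp only [sys_aeval] at h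
  obtain ⟨Q, -, hQ⟩ := (SysAux.dvd_iff (Wz_hom hA hB hG z)).1 h
  have hU : ∀ s t : k, U A B z s t = 0 := by
    intro s t
    have h1 := congrArg (eval ![s, t, 0]) hQ
    rw [Wz, map_add, map_mul, map_mul, map_pow, eval_X, ev_U] at h1
    simpa using h1
  have hU0 : U A B (fun i => (C (z i) : MvPolynomial (Fin 3) k)) (X 0) (X 1) = 0 := by
    refine MvPolynomial.funext fun v => ?_
    rw [ev_U, hU, map_zero]
  rw [Wz, hU0, zero_add, pow_two, mul_assoc] at hQ
  have hQ2 := mul_left_cancel₀ (X_ne_zero (2 : Fin 3)) hQ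
  refine ⟨hU s t, ?_⟩
  have h1 := congrArg (eval ![s, t, 0]) hQ2
  rw [ev_V, map_mul, eval_X] at h1
  simpa using h1

theorem zero_sys {A B G : MvPolynomial (Fin 4) ℂ} (z : Fin 10 → k)
    (h : ∀ s t : k, U A B z s t = 0 ∧ V G z s t = 0) (i : Fin 9) : aeval z (sys A B G i) = 0 := by
  have := inf (k := k)
  have h0 : Wz A B G z = 0 := by
    refine MvPolynomial.funext fun v => ?_
    rw [Wz, map_add, map_mul, ev_U, ev_V, (h _ _).1, (h _ _).2, mul_zero, add_zero, map_zero]
  rw [sys_aeval, h0, coeff_zero]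

omit [Algebra ℂ k] in
theorem X2_dvd [Infinite k] {Q : MvPolynomial (Fin 3) k} (h : ∀ s t : k, eval ![s, t, 0] Q = 0) :
    ∃ Q1, Q = X 2 * Q1 := by
  have hX : (X 2 : MvPolynomial (Fin 3) k) = monomial (Finsupp.single 2 1) 1 := rfl
  refine ⟨Q.divMonomial (Finsupp.single 2 1), ?_⟩
  have h1 := Q.divMonomial_add_modMonomial (Finsupp.single 2 1)
  rw [← hX] at h1
  have h0 : Q.modMonomial (Finsupp.single 2 1) = 0 := by
    refine MvPolynomial.funext fun v => ?_
    have h2 : eval v (Q.modMonomial (Finsupp.single 2 1)) =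
        eval ![v 0, v 1, 0] (Q.modMonomial (Finsupp.single 2 1)) := by
      rw [eval_eq', eval_eq']
      refine Finset.sum_congr rfl fun d hd => ?_
      have hd2 : d 2 = 0 := by
        by_contra hne
        apply mem_support_iff.1 hd
        refine coeff_modMonomial_of_le _ ?_
        rw [Finsupp.single_le_iff]
        omega
      rw [Fin.prod_univ_three, Fin.prod_univ_three, hd2]
      simp
    rw [h2, map_zero]
    have h3 := congrArg (eval ![v 0, v 1, 0]) h1
    rw [map_add, map_mul, h, eval_X] at h3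
    simpa using h3
  rw [h0, add_zero] at h1
  exact h1.symm

omit [Algebra ℂ k] in
theorem X22_dvd [Infinite k] {Q : MvPolynomial (Fin 3) k} (hQ : Q.IsHomogeneous 4)
    (h : ∀ s t : k, eval ![s, t, 0] Q = 0) (h' : ∀ s t : k, eval ![s, t, 0] (pderiv 2 Q) = 0) :
    ∃ A : MvPolynomial (Fin 3) k, A.IsHomogeneous 2 ∧ Q = X 2 ^ 2 * A := by
  obtain ⟨Q1, hQ1⟩ := X2_dvd h
  obtain ⟨Q2, hQ2⟩ := X2_dvd (Q := Q1) (fun s t => by
    have h1 := h' s t
    rw [hQ1, Derivation.leibniz, pderiv_X_self] at h1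
    simpa using h1)
  refine (SysAux.dvd_iff hQ).1 fun i => ?_
  have hX : (X 2 ^ 2 : MvPolynomial (Fin 3) k) = monomial (Finsupp.single 2 2) 1 := by
    rw [X_pow_eq_monomial]
  rw [hQ1, hQ2, ← mul_assoc, ← pow_two, hX, coeff_monomial_mul', if_neg]
  rw [Finsupp.single_le_iff]
  have := SysAux.mon_two i
  omega

omit [Algebra ℂ k] in
theorem quad_der (c : Fin 3 → k) : pderiv 2 (quad c) = 0 := by
  rw [quad]
  simp [Derivation.leibniz, Derivation.leibniz_pow]

/-- the plane and the double points for the values `z` -/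
def phi (z : Fin 10 → k) : Fin 10 → k :=
  ![z 7 * z 0, z 7 * z 1, z 2, z 7 * z 3, z 7 * z 4, z 5, z 6, z 7, z 8, z 9]

theorem pt_eq (E : Fin 4 → Fin 4 → ℂ) (z : Fin 10 → k) (s t : k) :
    (fun j => ∑ i, pl E (phi z) i j * (![s, t, 0] : Fin 3 → k) i) =
      fun j => ∑ i, algebraMap ℂ k (E i j) * pt z s t i := by
  funext j
  simp [Fin.sum_univ_three, Fin.sum_univ_four, pl, phi, pt, al, be]
  ring

theorem G_ev (F : MvPolynomial (Fin 4) ℂ) (E : Fin 4 → Fin 4 → ℂ) (x : Fin 4 → k) :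
    aeval x (aeval (fun j => ∑ i, C (E i j) * (X i : MvPolynomial (Fin 4) ℂ)) F) =
      aeval (fun j => ∑ i, algebraMap ℂ k (E i j) * x i) F := by
  rw [comp_aeval_apply]
  congr 2
  funext j
  simp [map_sum]

theorem G_der (F : MvPolynomial (Fin 4) ℂ) (E : Fin 4 → Fin 4 → ℂ) (x : Fin 4 → k) (l : Fin 4) :
    aeval x (pderiv l (aeval (fun j => ∑ i, C (E i j) * (X i : MvPolynomial (Fin 4) ℂ)) F)) =
      ∑ j, algebraMap ℂ k (E l j) * aeval (fun j => ∑ i, algebraMap ℂ k (E i j) * x i) (pderiv j F) := by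
  classical
  have h1 := Pool.Agent.DS.chain (pderiv l : Derivation ℂ (MvPolynomial (Fin 4) ℂ)
    (MvPolynomial (Fin 4) ℂ)) (fun j => ∑ i, C (E i j) * X i) F
  rw [h1, map_sum]
  refine Finset.sum_congr rfl fun j _ => ?_
  rw [map_mul, G_ev]
  congr 1
  rw [map_sum, Finset.sum_eq_single l]
  · rw [pderiv_C_mul, pderiv_X_self, mul_one, aeval_C]
  · intro i _ hi
    rw [pderiv_C_mul, pderiv_X_of_ne (fun h => hi h), mul_zero]
  · intro h
    exact absurd (Finset.mem_univ l) h

theorem eqn {F : MvPolynomial (Fin 4) ℂ} (hF : F.IsHomogeneous 4) (E : Fin 4 → Fin 4 → ℂ)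
    (A B : MvPolynomial (Fin 4) ℂ)
    (hG : aeval (fun j => ∑ i, C (E i j) * (X i : MvPolynomial (Fin 4) ℂ)) F = X 2 * A + X 3 * B)
    (z : Fin 10 → k) (h : ∀ s t : k, U A B z s t = 0 ∧ V (X 2 * A + X 3 * B) z s t = 0) :
    Eqn F E (phi z) := by
  have := inf (k := k)
  obtain ⟨Q, hQ, hQe⟩ := X22_dvd (SysAux.dif_hom hF E (phi z)) (fun s t => by
    rw [SysAux.dif, map_sub, pn_eval, pt_eq, ← G_ev, hG]
    have h1 := (h s t).1
    simp only [U] at h1
    simp only [map_add, map_mul, aeval_X, eval_C, eval_X, map_pow, quad]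
    simp [phi, pt]
    simp only [pt, cc] at h1
    linear_combination (z 7) * h1) (fun s t => by
    rw [SysAux.dif, map_sub, map_sub, pn_pderiv, pt_eq]
    have h1 := (h s t).2
    simp only [V] at h1
    rw [← hG, G_der, G_der] at h1
    have h2 : pderiv 2 (quad ![phi z 5, phi z 6, 1] : MvPolynomial (Fin 3) k) = 0 := quad_der _
    have h3 : pderiv 2 (lin ![phi z 8, phi z 9] : MvPolynomial (Fin 3) k) = 0 := by
      rw [lin]
      simp
    have h4 : pderiv 2 (C (phi z 7) * quad ![phi z 5, phi z 6, 1] ^ 2 +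
        X 2 * lin ![phi z 8, phi z 9] * quad ![phi z 5, phi z 6, 1] : MvPolynomial (Fin 3) k) =
        lin ![phi z 8, phi z 9] * quad ![phi z 5, phi z 6, 1] := by
      rw [map_add, pderiv_C_mul, Derivation.leibniz_pow, h2, Derivation.leibniz, h2, Derivation.leibniz, h3,
        pderiv_X_self]
      simp
      ring
    rw [h4]
    have h5 : eval ![s, t, 0] (lin ![phi z 8, phi z 9] * quad ![phi z 5, phi z 6, 1] : MvPolynomial (Fin 3) k) =
        ro z s t * cc z s t := by
      simp [lin, quad, phi, ro, cc]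
    rw [h5, ← h1]
    simp only [pl, phi, Fin.sum_univ_four]
    simp
    ring)
  refine ⟨Q, hQ, ?_⟩
  rw [SysAux.dif, sub_eq_iff_eq_add, add_comm] at hQe
  exact hQe

end F2

end Pool.Agent.QX
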