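import Pool.Agent.Lib_MP_1209e6_ql.Eps73

/-! The second family on a smooth quartic with a line, from `eps = 0`: there are no solutions with `eps = 0` but
complex ones. -/

set_option autoImplicit false

open Polynomial

noncomputable section

namespace Pool.Agent.QX

namespace F2

/-- `Be b = Cc (Cc - Al Ro)` (subtract `Al` times the second equation), `Cc` and `b` are coprime (`u a + v b = 1` gives
`(u Ro) Cc + (v - u x) b = 1`), so `Cc ∣ Be`, `Be = 0`, `Cc = Al Ro`, `a + x b = Al Ro²`, `z₄ z₉ = 1`. At the root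
`τ = - z₈ / z₉` of `Ro`: `(a b' - a' b) (τ) = 0`, and `a b' - a' b ≠ 0` (otherwise `a ∣ a'`), so `τ` is complex;
`b (τ) ≠ 0`, `x = - a (τ) / b (τ)` is complex; compare coefficients: `z₉`, `z₄`, `z₈`, `z₃`, `z₅`, `z₆`. -/
theorem eps_zero {k : Type} [Field k] [Algebra ℂ k] (a b : ℂ[X]) (hab : IsCoprime a b) (ha : a.natDegree = 3)
    (x z0 z1 z3 z4 z5 z6 z8 z9 : k)
    (hI : (C z4 * X + C z3) * a.map (algebraMap ℂ k) +
      (C x * (C z4 * X + C z3) + (C z1 * X + C z0)) * b.map (algebraMap ℂ k) =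
        (X ^ 2 + C z6 * X + C z5) ^ 2)
    (hII : a.map (algebraMap ℂ k) + C x * b.map (algebraMap ℂ k) =
      (C z9 * X + C z8) * (X ^ 2 + C z6 * X + C z5)) :
    z0 = 0 ∧ z1 = 0 ∧ x ∈ Set.range (algebraMap ℂ k) ∧ z3 ∈ Set.range (algebraMap ℂ k) ∧
      z4 ∈ Set.range (algebraMap ℂ k) ∧ z5 ∈ Set.range (algebraMap ℂ k) ∧ z6 ∈ Set.range (algebraMap ℂ k) ∧
      z8 ∈ Set.range (algebraMap ℂ k) ∧ z9 ∈ Set.range (algebraMap ℂ k) :=
  rigid_eps a b hab z0 z1 x z3 z4 z5 z6 z8 z9 (by linear_combination hI) (by linear_combination hII)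

end F2

end Pool.Agent.QX
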