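import Pool.Agent.Lib_MP_1209e6_ql.F2b
import Pool.Agent.Lib_MP_1209e6_ql.F2c

/-! The second family on a smooth quartic with a line, from `eps = 0`: the start and the solutions with `eps = 0`. -/

set_option autoImplicit false

open MvPolynomial

noncomputable section

namespace Pool.Agent.QX

namespace F2

theorem two_dvd {G : MvPolynomial (Fin 4) ℂ} (hG : G.IsHomogeneous 4)
    (h : ∀ s t : ℂ, eval ![s, t, 0, 0] G = 0) :
    ∃ A B : MvPolynomial (Fin 4) ℂ, A.IsHomogeneous 3 ∧ B.IsHomogeneous 3 ∧ G = X 2 * A + X 3 * B := by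
  have hX2 : (X 2 : MvPolynomial (Fin 4) ℂ) = monomial (Finsupp.single 2 1) 1 := rfl
  have hX3 : (X 3 : MvPolynomial (Fin 4) ℂ) = monomial (Finsupp.single 3 1) 1 := rfl
  have h1 := G.divMonomial_add_modMonomial (Finsupp.single 2 1)
  have h2 := (G.modMonomial (Finsupp.single 2 1)).divMonomial_add_modMonomial (Finsupp.single 3 1)
  rw [← hX2] at h1
  rw [← hX3] at h2
  have h0 : (G.modMonomial (Finsupp.single 2 1)).modMonomial (Finsupp.single 3 1) = 0 := by
    refine MvPolynomial.funext fun v => ?_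
    have h3 : eval v ((G.modMonomial (Finsupp.single 2 1)).modMonomial (Finsupp.single 3 1)) =
        eval ![v 0, v 1, 0, 0] ((G.modMonomial (Finsupp.single 2 1)).modMonomial (Finsupp.single 3 1)) := by
      rw [eval_eq', eval_eq']
      refine Finset.sum_congr rfl fun d hd => ?_
      have hd' := mem_support_iff.1 hd
      have hd3 : d 3 = 0 := by
        by_contra hne
        apply hd'
        refine coeff_modMonomial_of_le _ ?_
        rw [Finsupp.single_le_iff]
        omega
      have hd2 : d 2 = 0 := by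
        by_contra hne
        apply hd'
        rw [coeff_modMonomial_of_not_le _ (by rw [Finsupp.single_le_iff]; omega)]
        refine coeff_modMonomial_of_le _ ?_
        rw [Finsupp.single_le_iff]
        omega
      rw [Fin.prod_univ_four, Fin.prod_univ_four, hd2, hd3]
      simp
    rw [h3, map_zero]
    have h4 := congrArg (eval ![v 0, v 1, 0, 0]) h1
    have h5 := congrArg (eval ![v 0, v 1, 0, 0]) h2
    rw [map_add, map_mul, h, eval_X] at h4
    rw [map_add, map_mul, eval_X] at h5
    simp at h4 h5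
    rw [h5, h4]
  rw [h0, add_zero] at h2
  refine ⟨G.divMonomial (Finsupp.single 2 1), (G.modMonomial (Finsupp.single 2 1)).divMonomial
    (Finsupp.single 3 1), ?_, ?_, ?_⟩
  · intro d hd
    rw [coeff_divMonomial] at hd
    have := hG hd
    rw [map_add] at this
    simp only [Finsupp.weight_single, Pi.one_apply, smul_eq_mul, mul_one] at this
    omega
  · intro d hd
    rw [coeff_divMonomial] at hd
    have h3 : coeff (Finsupp.single 3 1 + d) G ≠ 0 := by
      by_cases hle : Finsupp.single 2 1 ≤ Finsupp.single 3 1 + d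
      · exact absurd (coeff_modMonomial_of_le _ hle) hd
      · rwa [coeff_modMonomial_of_not_le _ hle] at hd
    have := hG h3
    rw [map_add] at this
    simp only [Finsupp.weight_single, Pi.one_apply, smul_eq_mul, mul_one] at this
    omega
  · rw [h2]
    exact h1.symm

variable {k : Type} [Field k] [Algebra ℂ k]

theorem der2 (A B : MvPolynomial (Fin 4) ℂ) (x : Fin 4 → k) (h2 : x 2 = 0) (h3 : x 3 = 0) :
    aeval x (pderiv 2 (X 2 * A + X 3 * B)) = aeval x A := by
  rw [map_add, Derivation.leibniz, Derivation.leibniz, pderiv_X_self, pderiv_X_of_ne (by decide)]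
  simp [h2, h3]

theorem der3 (A B : MvPolynomial (Fin 4) ℂ) (x : Fin 4 → k) (h2 : x 2 = 0) (h3 : x 3 = 0) :
    aeval x (pderiv 3 (X 2 * A + X 3 * B)) = aeval x B := by
  rw [map_add, Derivation.leibniz, Derivation.leibniz, pderiv_X_self, pderiv_X_of_ne (by decide)]
  simp [h2, h3]

theorem pt_zero (z : Fin 10 → k) (h7 : z 7 = 0) (s t : k) : pt z s t = ![s, t, 0, 0] := by
  rw [pt, h7, zero_mul, zero_mul]

theorem start {A B : MvPolynomial (Fin 4) ℂ} {c m : ℂ}
    (ha : ∀ s t : ℂ, aeval (![s, t, 0, 0] : Fin 4 → ℂ) A = (c * s + t) ^ 2 * (m * s + t)) (s t : ℂ) :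
    U A B (![0, 0, 0, m, 1, c * m, c + m, 0, c, 1] : Fin 10 → ℂ) s t = 0 ∧
      V (X 2 * A + X 3 * B) (![0, 0, 0, m, 1, c * m, c + m, 0, c, 1] : Fin 10 → ℂ) s t = 0 := by
  constructor
  · rw [U, pt_zero _ (by simp), ha]
    simp [al, be, cc]
    ring
  · rw [V, pt_zero _ (by simp), der2 _ _ _ (by simp) (by simp), ha]
    simp [ro, cc]
    ring

theorem eps_zero' {A B : MvPolynomial (Fin 4) ℂ}
    (hab : IsCoprime (aeval (![1, Polynomial.X, 0, 0] : Fin 4 → Polynomial ℂ) A)
      (aeval (![1, Polynomial.X, 0, 0] : Fin 4 → Polynomial ℂ) B))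
    (ha : (aeval (![1, Polynomial.X, 0, 0] : Fin 4 → Polynomial ℂ) A).natDegree = 3)
    (z : Fin 10 → k) (h : ∀ s t : k, U A B z s t = 0 ∧ V (X 2 * A + X 3 * B) z s t = 0) (h7 : z 7 = 0)
    (i : Fin 10) : z i ∈ Set.range (algebraMap ℂ k) := by
  have := inf (k := k)
  have hev : ∀ (p : MvPolynomial (Fin 4) ℂ) (t : k), Polynomial.eval t
      ((aeval (![1, Polynomial.X, 0, 0] : Fin 4 → Polynomial ℂ) p).map (algebraMap ℂ k)) =
        aeval (![1, t, 0, 0] : Fin 4 → k) p := by
    intro p t
    rw [Polynomial.eval_map_algebraMap, comp_aeval_apply]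
    congr 2
    funext j
    fin_cases j <;> simp
  obtain ⟨h0, h1, hx, h3, h4, h5, h6, h8, h9⟩ := eps_zero _ _ hab ha (z 2) (z 0) (z 1) (z 3) (z 4) (z 5)
    (z 6) (z 8) (z 9) (by
      refine Polynomial.funext fun t => ?_
      have h1 := (h 1 t).1
      rw [U, pt_zero z h7] at h1
      simp only [Polynomial.eval_add, Polynomial.eval_mul, Polynomial.eval_C, Polynomial.eval_X,
        Polynomial.eval_pow, hev]
      simp only [al, be, cc] at h1
      linear_combination h1) (by
      refine Polynomial.funext fun t => ?_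
      have h1 := (h 1 t).2
      rw [V, pt_zero z h7, der2 _ _ _ (by simp) (by simp), der3 _ _ _ (by simp) (by simp)] at h1
      simp only [Polynomial.eval_add, Polynomial.eval_mul, Polynomial.eval_C, Polynomial.eval_X,
        Polynomial.eval_pow, hev]
      simp only [ro, cc] at h1
      linear_combination h1)
  have hz : (0 : k) ∈ Set.range (algebraMap ℂ k) := ⟨0, map_zero _⟩
  fin_cases i
  · exact h0 ▸ hz
  · exact h1 ▸ hz
  · exact hx
  · exact h3
  · exact h4
  · exact h5
  · exact h6
  · exact h7 ▸ hz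
  · exact h8
  · exact h9

end F2

end Pool.Agent.QX
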