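import Pool.Agent.Lib_MP_1209e6_ql.Defs
import Pool.Agent.Lib_MP_1209e6_qx.Rat
import Pool.Agent.Lib_MP_1209e6_ds.Coef
import Pool.Agent.Lib_MP_1209e6_ds.Krull20
import Pool.Agent.Lib_MP_1209e6_ds.Exist20

/-! The second family on a smooth quartic with a line, from `eps = 0`: coordinates. -/

set_option autoImplicit false

open MvPolynomial

noncomputable section

namespace Pool.Agent.QX

namespace F2

/-- restriction to the line -/
def ev : MvPolynomial (Fin 4) ℂ →ₐ[ℂ] MvPolynomial (Fin 2) ℂ := aeval ![X 0, X 1, 0, 0]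

theorem aeval_ev (r : Fin 2 → ℂ) (H : MvPolynomial (Fin 4) ℂ) : aeval r (ev H) = aeval ![r 0, r 1, 0, 0] H := by
  have h := MvPolynomial.comp_aeval_apply (f := (![X 0, X 1, 0, 0] : Fin 4 → MvPolynomial (Fin 2) ℂ))
    (aeval r : MvPolynomial (Fin 2) ℂ →ₐ[ℂ] ℂ) H
  rw [ev, h]
  congr 2
  funext j
  fin_cases j <;> simp

theorem ev_zero {H : MvPolynomial (Fin 4) ℂ} (h : ∀ a : Fin 4 → ℂ, a 2 = 0 → a 3 = 0 → aeval a H = 0) :
    ev H = 0 := by
  apply MvPolynomial.funext
  intro r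
  rw [map_zero, ← MvPolynomial.aeval_eq_eval, aeval_ev]
  exact h _ rfl rfl

/-- the derivatives along the line vanish -/
theorem on_der {F : MvPolynomial (Fin 4) ℂ} (hon : ∀ a : Fin 4 → ℂ, a 2 = 0 → a 3 = 0 → aeval a F = 0)
    (r : Fin 2 → ℂ) : aeval ![r 0, r 1, 0, 0] (pderiv 0 F) = 0 ∧ aeval ![r 0, r 1, 0, 0] (pderiv 1 F) = 0 := by
  have h0 := ev_zero hon
  have key : ∀ i : Fin 2, pderiv i (ev F) = ∑ j, pderiv i ((![X 0, X 1, 0, 0] : Fin 4 → MvPolynomial (Fin 2) ℂ) j) *
      ev (pderiv j F) := fun i => Pool.Agent.DS.chain (pderiv i) _ F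
  constructor
  · have h1 := key 0
    rw [h0, map_zero, Fin.sum_univ_four] at h1
    simp only [Matrix.cons_val_zero, Matrix.cons_val_one, Matrix.cons_val, pderiv_X_self, map_zero, zero_mul,
      add_zero, one_mul] at h1
    rw [pderiv_X_of_ne (by decide), zero_mul, add_zero] at h1
    rw [← aeval_ev, ← h1, map_zero]
  · have h1 := key 1
    rw [h0, map_zero, Fin.sum_univ_four] at h1
    simp only [Matrix.cons_val_zero, Matrix.cons_val_one, Matrix.cons_val, pderiv_X_self, map_zero, zero_mul,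
      add_zero, one_mul] at h1
    rw [pderiv_X_of_ne (by decide), zero_mul, zero_add] at h1
    rw [← aeval_ev, ← h1, map_zero]

theorem lin2 (a0 a1 b0 b1 : ℂ) (h : a0 * b1 - a1 * b0 = 0) : ∃ μ ν : ℂ, (μ ≠ 0 ∨ ν ≠ 0) ∧
    μ * a0 + ν * b0 = 0 ∧ μ * a1 + ν * b1 = 0 := by
  by_cases h1 : b0 ≠ 0 ∨ a0 ≠ 0
  · exact ⟨b0, -a0, h1.imp id neg_ne_zero.2, by ring, by linear_combination -h⟩
  · push Not at h1
    by_cases h2 : b1 ≠ 0 ∨ a1 ≠ 0
    · exact ⟨b1, -a1, h2.imp id neg_ne_zero.2, by rw [h1.1, h1.2]; ring, by ring⟩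
    · push Not at h2
      exact ⟨1, 0, Or.inl one_ne_zero, by rw [h1.1, h1.2]; ring, by rw [h2.1, h2.2]; ring⟩

theorem hom_zero {n d : ℕ} {H : MvPolynomial (Fin n) ℂ} (hH : H.IsHomogeneous d) (hd : d ≠ 0) (r : Fin n → ℂ)
    (hr : r = 0) : aeval r H = 0 := by
  have h := rat_scale hH (0 : ℂ) r
  rw [zero_pow hd, zero_mul] at h
  rw [← h, hr]
  congr 2
  funext i
  simp

/-- a form on the line has a zero -/
theorem ev_root {d : ℕ} {H : MvPolynomial (Fin 4) ℂ} (hH : H.IsHomogeneous d) (hd : d ≠ 0) :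
    ∃ r : Fin 2 → ℂ, r ≠ 0 ∧ aeval ![r 0, r 1, 0, 0] H = 0 := by
  obtain ⟨r, hr, h⟩ := Pool.Agent.DS.exists_common_zero (I := Unit) (fun _ => ev H) (fun _ => by
    rw [aeval_ev]
    refine hom_zero hH hd _ ?_
    funext j
    fin_cases j <;> rfl) (by simp)
  exact ⟨r, hr, by rw [← aeval_ev]; exact h ()⟩

/-- a cubic form with a double zero at `R`, on the line `R, W` -/
theorem base_form {Q : MvPolynomial (Fin 4) ℂ} (hQ : Q.IsHomogeneous 3) (R W : Fin 4 → ℂ) (h0 : aeval R Q = 0)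
    (h1 : ∑ j, W j * aeval R (pderiv j Q) = 0) :
    ∃ α : ℂ, ∀ s t : ℂ, aeval (fun j => s * R j + t * W j) Q = t ^ 2 * (α * s + aeval W Q * t) := by
  set p : Polynomial ℂ := aeval (fun j => Polynomial.C (R j) + Polynomial.X * Polynomial.C (W j)) Q with hp
  obtain ⟨hdeg, hc3⟩ := Pool.Agent.DS.line_top hQ R W
  have hev : ∀ (t : ℂ) (H : MvPolynomial (Fin 4) ℂ),
      (aeval (fun j => Polynomial.C (R j) + Polynomial.X * Polynomial.C (W j)) H : Polynomial ℂ).eval t =
      aeval (fun j => R j + t * W j) H := by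
    intro t H
    have h := MvPolynomial.comp_aeval_apply (f := fun j => Polynomial.C (R j) + Polynomial.X * Polynomial.C (W j))
      (Polynomial.aeval (R := ℂ) t) H
    rw [← Polynomial.coe_aeval_eq_eval]
    refine h.trans ?_
    congr 2
    funext j
    rw [map_add, map_mul, Polynomial.aeval_C, Polynomial.aeval_C, Polynomial.aeval_X]
    simp only [Algebra.algebraMap_self, RingHom.id_apply]
  have hc0 : p.coeff 0 = 0 := by
    rw [Polynomial.coeff_zero_eq_eval_zero, hp, hev]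
    simpa using h0
  have hc1 : p.coeff 1 = 0 := by
    have h2 := Pool.Agent.DS.chain ((Polynomial.derivative' (R := ℂ)).restrictScalars ℂ)
      (fun j => Polynomial.C (R j) + Polynomial.X * Polynomial.C (W j)) Q
    have h3 : ∀ p : Polynomial ℂ, ((Polynomial.derivative' (R := ℂ)).restrictScalars ℂ) p =
      Polynomial.derivative p := fun p => rfl
    simp only [h3] at h2
    have h4 : (Polynomial.derivative p).coeff 0 = 0 := by
      rw [Polynomial.coeff_zero_eq_eval_zero, hp, h2, Polynomial.eval_finsetSum]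
      refine Eq.trans (Finset.sum_congr rfl fun j _ => ?_) h1
      rw [Polynomial.eval_mul, hev]
      congr 1
      · simp
      · congr 2
        funext l
        rw [zero_mul, add_zero]
    rw [Polynomial.coeff_derivative] at h4
    simpa using h4
  have hpt : ∀ t : ℂ, aeval (fun j => R j + t * W j) Q = t ^ 2 * (p.coeff 2 + aeval W Q * t) := by
    intro t
    rw [← hev, ← hp, Polynomial.eval_eq_sum_range' (Nat.lt_succ_of_le hdeg)]
    simp only [Finset.sum_range_succ, Finset.sum_range_zero]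
    rw [← hp, hc0, hc1, hc3]
    ring
  refine ⟨p.coeff 2, fun s t => ?_⟩
  by_cases hs : s = 0
  · have h2 : (fun j => s * R j + t * W j) = fun j => t * W j := by
      funext j
      rw [hs]
      ring
    rw [h2, rat_scale hQ, hs]
    ring
  · have h2 : (fun j => s * R j + t * W j) = fun j => s * (R j + t / s * W j) := by
      funext j
      field_simp
    rw [h2, rat_scale hQ, hpt]
    field_simp

/-- `a = F₂`, `b = F₃` on the line `X₂ = X₃ = 0` are binary cubic forms without common zero (`F₀ = F₁ = 0` there,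
smoothness). The Jacobian `a₀ b₁ - a₁ b₀` (a binary quartic form) has a zero `r ≠ 0` (on the line), so there is
`(l, μ) ≠ 0` such that `q = l a + μ b` has both derivatives zero at `r`; `q ≠ 0` (otherwise `a, b` have a common zero).
`E 2 = κ (0, 0, l, μ)`, `E 3` = one of the two last basis vectors, independent of it; `E 1` = a vector of the line with
`q (E 1) ≠ 0`, `κ` such that `q (E 1) = 1`; `q (s r + t E 1) = t² (α s + t)`; `E 0 = r` if `α ≠ 0`, `E 0 = r + E 1` if
`α = 0`: `q (s E 0 + t E 1) = (c s + t)² (m s + t)` with `c = 0, m = α` resp. `c = 1, m = 1`. -/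
theorem exists_base {F : MvPolynomial (Fin 4) ℂ} (hF : F.IsHomogeneous 4) (hs : Pool.Agent.DS.Smooth F)
    (hon : ∀ a : Fin 4 → ℂ, a 2 = 0 → a 3 = 0 → aeval a F = 0) :
    ∃ (E : Fin 4 → Fin 4 → ℂ) (c m : ℂ), LinearIndependent ℂ E ∧ E 0 2 = 0 ∧ E 0 3 = 0 ∧ E 1 2 = 0 ∧
      E 1 3 = 0 ∧ m ≠ 0 ∧ ∀ s t : ℂ, ∑ j, E 2 j * aeval (fun j => s * E 0 j + t * E 1 j) (pderiv j F) =
        (c * s + t) ^ 2 * (m * s + t) := by
  have h2h : (pderiv 2 F).IsHomogeneous 3 := hF.pderiv
  have h3h : (pderiv 3 F).IsHomogeneous 3 := hF.pderiv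
  -- no common zero
  have hcop : ∀ r : Fin 2 → ℂ, r ≠ 0 → aeval ![r 0, r 1, 0, 0] (pderiv 2 F) = 0 →
      aeval ![r 0, r 1, 0, 0] (pderiv 3 F) = 0 → False := by
    intro r hr h2 h3
    obtain ⟨h0, h1⟩ := on_der hon r
    have h := hs ![r 0, r 1, 0, 0] (fun j => by
      rcases (by decide : ∀ j : Fin 4, j = 0 ∨ j = 1 ∨ j = 2 ∨ j = 3) j with rfl | rfl | rfl | rfl
      · exact h0
      · exact h1
      · exact h2
      · exact h3)
    apply hr
    funext i
    fin_cases i
    · exact congrFun h 0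
    · exact congrFun h 1
  -- the Jacobian
  have hJh : (pderiv 0 (pderiv 2 F) * pderiv 1 (pderiv 3 F) -
      pderiv 1 (pderiv 2 F) * pderiv 0 (pderiv 3 F)).IsHomogeneous 4 :=
    (h2h.pderiv.mul h3h.pderiv).sub (h2h.pderiv.mul h3h.pderiv)
  obtain ⟨r, hr, hJ⟩ := ev_root hJh (by norm_num)
  set R : Fin 4 → ℂ := ![r 0, r 1, 0, 0] with hR
  rw [map_sub, map_mul, map_mul] at hJ
  obtain ⟨μ, ν, hμν, ha, hb⟩ : ∃ μ ν : ℂ, (μ ≠ 0 ∨ ν ≠ 0) ∧
      μ * aeval R (pderiv 0 (pderiv 2 F)) + ν * aeval R (pderiv 0 (pderiv 3 F)) = 0 ∧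
      μ * aeval R (pderiv 1 (pderiv 2 F)) + ν * aeval R (pderiv 1 (pderiv 3 F)) = 0 :=
    lin2 _ _ _ _ hJ
  set Q : MvPolynomial (Fin 4) ℂ := C μ * pderiv 2 F + C ν * pderiv 3 F with hQ
  have hQh : Q.IsHomogeneous 3 := by
    have e1 := (isHomogeneous_C (Fin 4) μ).mul h2h
    have e2 := (isHomogeneous_C (Fin 4) ν).mul h3h
    rw [zero_add] at e1 e2
    exact e1.add e2
  have hQv : ∀ P : Fin 4 → ℂ, aeval P Q = μ * aeval P (pderiv 2 F) + ν * aeval P (pderiv 3 F) := by
    intro P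
    rw [hQ, map_add, map_mul, map_mul, algHom_C, algHom_C]
    rfl
  have hQ0 : aeval R (pderiv 0 Q) = 0 := by
    rw [hQ, map_add, pderiv_C_mul, pderiv_C_mul, map_add, map_mul, map_mul, algHom_C, algHom_C]
    exact ha
  have hQ1 : aeval R (pderiv 1 Q) = 0 := by
    rw [hQ, map_add, pderiv_C_mul, pderiv_C_mul, map_add, map_mul, map_mul, algHom_C, algHom_C]
    exact hb
  have hQR : aeval R Q = 0 := by
    have h1 := congrArg (aeval R) hQh.sum_X_mul_pderiv
    rw [map_sum, Fin.sum_univ_four] at h1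
    simp only [map_mul, aeval_X, hQ0, hQ1, nsmul_eq_mul, map_natCast] at h1
    have e2 : R 2 = 0 := rfl
    have e3 : R 3 = 0 := rfl
    rw [e2, e3] at h1
    have h2 : (3 : ℂ) * aeval R Q = 0 := by
      have h4 : (((3 : ℕ) : ℂ)) * aeval R Q = 0 := by
        rw [← h1]
        ring
      exact_mod_cast h4
    exact (mul_eq_zero.1 h2).resolve_left (by norm_num)
  -- a point where the form is not zero
  obtain ⟨w, hw⟩ : ∃ w : Fin 2 → ℂ, aeval ![w 0, w 1, 0, 0] Q ≠ 0 := by
    by_contra hcon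
    push Not at hcon
    rcases hμν with h | h
    · obtain ⟨x, hx, h3⟩ := ev_root h3h (by norm_num)
      have h4 := hcon x
      rw [hQv, h3, mul_zero, add_zero] at h4
      exact hcop x hx ((mul_eq_zero.1 h4).resolve_left h) h3
    · obtain ⟨x, hx, h3⟩ := ev_root h2h (by norm_num)
      have h4 := hcon x
      rw [hQv, h3, mul_zero, zero_add] at h4
      exact hcop x hx h3 ((mul_eq_zero.1 h4).resolve_left h)
  set W : Fin 4 → ℂ := ![w 0, w 1, 0, 0] with hW
  obtain ⟨α, hα⟩ := base_form hQh R W hQR (by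
    rw [Fin.sum_univ_four, hQ0, hQ1]
    have e2 : W 2 = 0 := rfl
    have e3 : W 3 = 0 := rfl
    rw [e2, e3]
    ring)
  have hR0 : R ≠ 0 := by
    intro h
    apply hr
    funext i
    fin_cases i
    · exact congrFun h 0
    · exact congrFun h 1
  -- independence of `R`, `W`
  have hind : ∀ x y : ℂ, x * r 0 + y * w 0 = 0 → x * r 1 + y * w 1 = 0 → x = 0 ∧ y = 0 := by
    intro x y h0 h1
    have h2 : (fun j => x * R j + y * W j) = 0 := by
      funext j
      fin_cases j
      · exact h0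
      · exact h1
      · simp [hR, hW]
      · simp [hR, hW]
    have hx : x = 0 := by
      by_contra hx
      have h3 : R = fun j => (- y / x) * W j := by
        funext j
        have h4 : x * R j + y * W j = 0 := congrFun h2 j
        field_simp
        linear_combination h4
      have h5 : aeval R Q = (- y / x) ^ 3 * aeval W Q := by
        conv_lhs => rw [h3]
        exact rat_scale hQh _ _
      rw [hQR] at h5
      have h6 := pow_eq_zero_iff (by norm_num) |>.1 ((mul_eq_zero.1 h5.symm).resolve_right hw)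
      apply hR0
      rw [h3, h6]
      funext j
      simp
    refine ⟨hx, ?_⟩
    by_contra hy
    have h3 : W = 0 := by
      funext j
      have h4 : x * R j + y * W j = 0 := congrFun h2 j
      rw [hx, zero_mul, zero_add] at h4
      exact (mul_eq_zero.1 h4).resolve_left hy
    exact hw (hom_zero hQh (by norm_num) W h3)
  set κ : ℂ := (aeval W Q)⁻¹ with hκ
  have hκ0 : κ ≠ 0 := inv_ne_zero hw
  obtain ⟨e3, he30, he31, he3⟩ : ∃ e3 : Fin 4 → ℂ, e3 0 = 0 ∧ e3 1 = 0 ∧ ∀ x y : ℂ,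
      x * μ + y * e3 2 = 0 → x * ν + y * e3 3 = 0 → x = 0 ∧ y = 0 := by
    by_cases h : μ = 0
    · refine ⟨![0, 0, 1, 0], rfl, rfl, fun x y h1 h2 => ?_⟩
      have hν : ν ≠ 0 := hμν.resolve_left (not_not.2 h)
      have h3 : x = 0 := by
        have : x * ν = 0 := by simpa using h2
        exact (mul_eq_zero.1 this).resolve_right hν
      refine ⟨h3, ?_⟩
      rw [h3] at h1
      simpa using h1
    · refine ⟨![0, 0, 0, 1], rfl, rfl, fun x y h1 h2 => ?_⟩
      have h3 : x = 0 := by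
        have : x * μ = 0 := by simpa using h1
        exact (mul_eq_zero.1 this).resolve_right h
      refine ⟨h3, ?_⟩
      rw [h3] at h2
      simpa using h2
  have hE : ∀ η : ℂ, LinearIndependent ℂ (![fun j => R j + η * W j, W, ![0, 0, κ * μ, κ * ν], e3] :
      Fin 4 → Fin 4 → ℂ) := by
    intro η
    rw [Fintype.linearIndependent_iff]
    intro g hg
    rw [Fin.sum_univ_four] at hg
    have c0 : g 0 * (r 0 + η * w 0) + g 1 * w 0 + g 2 * 0 + g 3 * e3 0 = 0 := congrFun hg 0
    have c1 : g 0 * (r 1 + η * w 1) + g 1 * w 1 + g 2 * 0 + g 3 * e3 1 = 0 := congrFun hg 1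
    have c2 : g 0 * (0 + η * 0) + g 1 * 0 + g 2 * (κ * μ) + g 3 * e3 2 = 0 := congrFun hg 2
    have c3 : g 0 * (0 + η * 0) + g 1 * 0 + g 2 * (κ * ν) + g 3 * e3 3 = 0 := congrFun hg 3
    rw [he30] at c0
    rw [he31] at c1
    obtain ⟨g2, g3⟩ := he3 (g 2 * κ) (g 3) (by linear_combination c2) (by linear_combination c3)
    have g2' : g 2 = 0 := (mul_eq_zero.1 g2).resolve_right hκ0
    obtain ⟨g0, g1⟩ := hind (g 0) (g 0 * η + g 1) (by linear_combination c0) (by linear_combination c1)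
    have g1' : g 1 = 0 := by
      rw [g0] at g1
      simpa using g1
    intro i
    fin_cases i
    · exact g0
    · exact g1'
    · exact g2'
    · exact g3
  have hform : ∀ η s t : ℂ, ∑ j, (![0, 0, κ * μ, κ * ν] : Fin 4 → ℂ) j *
      aeval (fun j => s * (R j + η * W j) + t * W j) (pderiv j F) =
      κ * (s * η + t) ^ 2 * (α * s + aeval W Q * (s * η + t)) := by
    intro η s t
    have h1 : (fun j => s * (R j + η * W j) + t * W j) = fun j => s * R j + (s * η + t) * W j := by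
      funext j
      ring
    have h2 : ∑ j, (![0, 0, κ * μ, κ * ν] : Fin 4 → ℂ) j *
      aeval (fun j => s * (R j + η * W j) + t * W j) (pderiv j F) =
        κ * aeval (fun j => s * (R j + η * W j) + t * W j) Q := by
      rw [Fin.sum_univ_four, hQv]
      simp only [Matrix.cons_val_zero, Matrix.cons_val_one, Matrix.cons_val, zero_mul, zero_add]
      ring
    rw [h2, h1, hα]
    ring
  have hκW : κ * aeval W Q = 1 := inv_mul_cancel₀ hw
  by_cases hα0 : α = 0
  · refine ⟨![fun j => R j + 1 * W j, W, ![0, 0, κ * μ, κ * ν], e3], 1, 1, hE 1, ?_, ?_, ?_, ?_, one_ne_zero,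
      fun s t => ?_⟩
    · simp [hR, hW]
    · simp [hR, hW]
    · simp [hW]
    · simp [hW]
    · have h1 := hform 1 s t
      refine Eq.trans ?_ (h1.trans ?_)
      · rfl
      · rw [hα0]
        linear_combination (s + t) ^ 3 * hκW
  · refine ⟨![fun j => R j + 0 * W j, W, ![0, 0, κ * μ, κ * ν], e3], 0, κ * α, hE 0, ?_, ?_, ?_, ?_,
      mul_ne_zero hκ0 hα0, fun s t => ?_⟩
    · simp [hR]
    · simp [hR]
    · simp [hW]
    · simp [hW]
    · have h1 := hform 0 s t
      refine Eq.trans ?_ (h1.trans ?_)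
      · rfl
      · linear_combination t ^ 3 * hκW

end F2

end Pool.Agent.QX
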