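import Pool.Agent.Lib_MP_1209e6_ql.Defs
import Pool.Agent.Lib_MP_1209e6_qx.Rigid

/-! PIECE RIGID1: `rigid` for surfaces with one line. -/

set_option autoImplicit false

open MvPolynomial

noncomputable section

namespace Pool.Agent.QX

theorem r3_li {p f g : Fin 4 → ℂ} (hi : LinearIndependent ℂ ![p, f, g]) {a1 a2 b1 b2 : ℂ}
    (hd : a1 * b2 - a2 * b1 ≠ 0) :
    LinearIndependent ℂ ![p, fun j => a1 * f j + a2 * g j, fun j => b1 * f j + b2 * g j] := by
  rw [Fintype.linearIndependent_iff] at hi ⊢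
  intro c hc
  have h := hi ![c 0, c 1 * a1 + c 2 * b1, c 1 * a2 + c 2 * b2] (by
    rw [← hc]
    funext j
    simp [Fin.sum_univ_three]
    ring)
  have h0 : c 0 = 0 := h 0
  have h1 : c 1 * a1 + c 2 * b1 = 0 := h 1
  have h2 : c 1 * a2 + c 2 * b2 = 0 := h 2
  have h3 : c 1 = 0 := by
    have : c 1 * (a1 * b2 - a2 * b1) = 0 := by linear_combination b2 * h1 - b1 * h2
    exact (mul_eq_zero.1 this).resolve_right hd
  have h4 : c 2 = 0 := by
    have : c 2 * (a1 * b2 - a2 * b1) = 0 := by linear_combination a1 * h2 - a2 * h1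
    exact (mul_eq_zero.1 this).resolve_right hd
  intro i
  fin_cases i
  · exact h0
  · exact h3
  · exact h4

theorem r3_li2 {p f g : Fin 4 → ℂ} (hi : LinearIndependent ℂ ![p, f, g]) {a1 a2 : ℂ}
    (hd : a1 ≠ 0 ∨ a2 ≠ 0) : LinearIndependent ℂ ![p, fun j => a1 * f j + a2 * g j] := by
  rw [Fintype.linearIndependent_iff] at hi
  rw [LinearIndependent.pair_iff]
  intro s t hst
  have h := hi ![s, t * a1, t * a2] (by
    rw [← hst]
    funext j
    simp [Fin.sum_univ_three]
    ring)
  have h0 : s = 0 := h 0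
  have h1 : t * a1 = 0 := h 1
  have h2 : t * a2 = 0 := h 2
  refine ⟨h0, ?_⟩
  rcases hd with h | h
  · exact (mul_eq_zero.1 h1).resolve_right h
  · exact (mul_eq_zero.1 h2).resolve_right h

/-- three independent vectors do not lie in `X₂ = X₃ = 0` -/
theorem r3_three {v : Fin 3 → Fin 4 → ℂ} (hv : LinearIndependent ℂ v) (h2 : ∀ i, v i 2 = 0)
    (h3 : ∀ i, v i 3 = 0) : False := by
  have h : LinearIndependent ℂ (fun (i : Fin 3) => (![v i 0, v i 1] : Fin 2 → ℂ)) := by
    rw [Fintype.linearIndependent_iff] at hv ⊢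
    intro c hc
    apply hv c
    funext j
    have e0 := congrFun hc 0
    have e1 := congrFun hc 1
    simp only [Finset.sum_apply, Pi.smul_apply, smul_eq_mul, Matrix.cons_val_zero,
      Matrix.cons_val_one, Pi.zero_apply] at e0 e1
    fin_cases j
    · simpa [Finset.sum_apply] using e0
    · simpa [Finset.sum_apply] using e1
    · simp [Finset.sum_apply, h2]
    · simp [Finset.sum_apply, h3]
  have := h.fintype_card_le_finrank
  simp at this

theorem r3_end {F : MvPolynomial (Fin 4) ℂ} (hF : F.IsHomogeneous 4) (hs : Pool.Agent.DS.Smooth F)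
    (h1 : OneLine F) {p f g : Fin 4 → ℂ} (hi : LinearIndependent ℂ ![p, f, g])
    (h : ∀ x r t : ℂ, aeval (fun j => x * p j + r * f j + t * g j) F =
      aeval (fun j => r * f j + t * g j) F) : False := by
  classical
  have hsm : ∀ (v : Fin 4 → ℂ) (t : ℂ), aeval (fun j => t * v j) F = t ^ 4 * aeval v F :=
    fun v t => rg_smul hF v t
  -- the zeros of the binary form
  have hz : ∀ d1 d2 : ℂ, (d1 ≠ 0 ∨ d2 ≠ 0) → aeval (fun j => d1 * f j + d2 * g j) F = 0 →
      p 2 = 0 ∧ p 3 = 0 ∧ d1 * f 2 + d2 * g 2 = 0 ∧ d1 * f 3 + d2 * g 3 = 0 := by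
    intro d1 d2 hd hB
    refine h1.only p (fun j => d1 * f j + d2 * g j) (r3_li2 hi hd) fun s t => ?_
    have e1 := h s (t * d1) (t * d2)
    have e2 : (fun j => s * p j + t * (d1 * f j + d2 * g j)) =
        fun j => s * p j + t * d1 * f j + t * d2 * g j := by
      funext j
      ring
    have e3 : (fun j => t * d1 * f j + t * d2 * g j) = fun j => t * (d1 * f j + d2 * g j) := by
      funext j
      ring
    rw [e2, e1, e3, hsm (fun j => d1 * f j + d2 * g j) t, hB, mul_zero]
  have huniq : ∀ a1 a2 b1 b2 : ℂ, a1 * b2 - a2 * b1 ≠ 0 → aeval (fun j => a1 * f j + a2 * g j) F = 0 →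
      aeval (fun j => b1 * f j + b2 * g j) F = 0 → False := by
    intro a1 a2 b1 b2 hd ha hb
    have ha0 : a1 ≠ 0 ∨ a2 ≠ 0 := by
      by_contra hc
      push Not at hc
      apply hd
      rw [hc.1, hc.2]
      ring
    have hb0 : b1 ≠ 0 ∨ b2 ≠ 0 := by
      by_contra hc
      push Not at hc
      apply hd
      rw [hc.1, hc.2]
      ring
    obtain ⟨p2, p3, q2, q3⟩ := hz a1 a2 ha0 ha
    obtain ⟨-, -, r2, r3⟩ := hz b1 b2 hb0 hb
    refine r3_three (r3_li hi hd) (fun i => ?_) fun i => ?_
    · fin_cases i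
      · exact p2
      · exact q2
      · exact r2
    · fin_cases i
      · exact p3
      · exact q3
      · exact r3
  have hzero : ∀ {D : ℕ} {G : MvPolynomial (Fin 4) ℂ}, G.IsHomogeneous D → D ≠ 0 →
      aeval (fun _ => (0 : ℂ)) G = 0 := by
    intro D G hG hD
    have e := rg_smul hG (fun _ => 0) 0
    simpa [hD] using e
  obtain ⟨d, hd0, hd⟩ := MP_1209e6.KrullZero.exists_common_zero (Ω := ℂ) (J := Fin 2) (I := Fin 1)
    (fun _ => aeval (fun j => C (f j) * X 0 + C (g j) * X 1) F) (by
      intro i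
      have e := MvPolynomial.comp_aeval_apply
        (f := fun j => C (f j) * X 0 + C (g j) * (X 1 : MvPolynomial (Fin 2) ℂ))
        (aeval (0 : Fin 2 → ℂ)) F
      rw [e]
      simpa using hzero hF (by norm_num)) (by simp)
  have hB : aeval (fun j => d 0 * f j + d 1 * g j) F = 0 := by
    have e := MvPolynomial.comp_aeval_apply
      (f := fun j => C (f j) * X 0 + C (g j) * (X 1 : MvPolynomial (Fin 2) ℂ)) (aeval d) F
    rw [hd 0] at e
    rw [e]
    congr 1
    congr 1
    funext j
    simp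
    ring
  obtain ⟨e1, e2, hde⟩ : ∃ e1 e2 : ℂ, d 0 * e2 - d 1 * e1 ≠ 0 := by
    by_cases h0 : d 0 = 0
    · have h1' : d 1 ≠ 0 := by
        intro h1'
        apply hd0
        funext j
        fin_cases j
        · exact h0
        · exact h1'
      exact ⟨-1, 0, by simpa using h1'⟩
    · exact ⟨0, 1, by simpa using h0⟩
  obtain ⟨D, hD⟩ : ∃ D : Fin 4 → ℂ, D = fun j => d 0 * f j + d 1 * g j := ⟨_, rfl⟩
  obtain ⟨E, hE⟩ : ∃ E : Fin 4 → ℂ, E = fun j => e1 * f j + e2 * g j := ⟨_, rfl⟩
  have hli : LinearIndependent ℂ ![p, D, E] := by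
    rw [hD, hE]
    exact r3_li hi hde
  rw [← hD] at hB
  -- the form is constant on the lines parallel to `D`
  let φ : Polynomial ℂ := aeval (fun j => Polynomial.C (D j) * Polynomial.X + Polynomial.C (E j)) F
  have hφ : ∀ a : ℂ, φ.eval a = aeval (fun j => a * D j + E j) F := by
    intro a
    have e := MvPolynomial.comp_aeval_apply
      (f := fun j => Polynomial.C (D j) * Polynomial.X + Polynomial.C (E j)) (Polynomial.aeval (R := ℂ) a) F
    rw [← Polynomial.coe_aeval_eq_eval a]
    show Polynomial.aeval a (aeval _ F) = _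
    rw [e]
    congr 1
    congr 1
    funext j
    simp
    ring
  have hdeg : φ.degree = 0 := by
    by_contra hdg
    obtain ⟨a, ha⟩ := IsAlgClosed.exists_root φ hdg
    have ha' : aeval (fun j => a * D j + E j) F = 0 := by
      rw [← hφ]
      exact ha
    refine huniq (d 0) (d 1) (a * d 0 + e1) (a * d 1 + e2) ?_ ?_ ?_
    · intro hc
      apply hde
      linear_combination hc
    · rw [← hD]
      exact hB
    · rw [← ha', hD, hE]
      congr 1
      congr 1
      funext j
      ring
  obtain ⟨κ, hκ⟩ : ∃ κ, φ = Polynomial.C κ := ⟨_, Polynomial.eq_C_of_degree_eq_zero hdeg⟩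
  have hat : ∀ a t : ℂ, aeval (fun j => a * D j + t * E j) F = κ * t ^ 4 := by
    intro a t
    by_cases ht : t = 0
    · have e : (fun j => a * D j + t * E j) = fun j => a * D j := by
        funext j
        rw [ht]
        ring
      rw [e, hsm D a, hB, ht]
      ring
    · have e : (fun j => a * D j + t * E j) = fun j => t * (a / t * D j + E j) := by
        funext j
        field_simp
      rw [e, hsm (fun j => a / t * D j + E j) t, ← hφ, hκ, Polynomial.eval_C]
      ring
  have hxat : ∀ x a t : ℂ, aeval (fun j => x * p j + a * D j + t * E j) F = κ * t ^ 4 := by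
    intro x a t
    rw [← hat a t]
    have e3 := h x (a * d 0 + t * e1) (a * d 1 + t * e2)
    have e4 : (fun j => x * p j + a * D j + t * E j) =
        fun j => x * p j + (a * d 0 + t * e1) * f j + (a * d 1 + t * e2) * g j := by
      funext j
      rw [hD, hE]
      ring
    have e5 : (fun j => a * D j + t * E j) =
        fun j => (a * d 0 + t * e1) * f j + (a * d 1 + t * e2) * g j := by
      funext j
      rw [hD, hE]
      ring
    rw [e4, e3, e5]
  -- the section is a fourth power
  have hsec : sec F ![p, D, E] = C κ * X 2 ^ 4 := by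
    apply MvPolynomial.funext
    intro w
    have e := rg_sec_eval F ![p, D, E] w
    rw [← MvPolynomial.aeval_eq_eval, e]
    have e6 := hxat (w 0) (w 1) (w 2)
    rw [show (aeval w) (C κ * X 2 ^ 4 : MvPolynomial (Fin 3) ℂ) = κ * w 2 ^ 4 by simp, ← e6]
    congr 1
    congr 1
    funext j
    simp [Fin.sum_univ_three]
  have hgrad : ∀ x a : ℂ, ∀ i : Fin 3, ∑ j, (![p, D, E] : Fin 3 → Fin 4 → ℂ) i j *
      aeval (fun j => x * p j + a * D j) (pderiv j F) = 0 := by
    intro x a i
    have c1 := Pool.Agent.DS.chain (pderiv (R := ℂ) i)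
      (fun j => ∑ i, C ((![p, D, E] : Fin 3 → Fin 4 → ℂ) i j) * (X i : MvPolynomial (Fin 3) ℂ)) F
    have c2 : pderiv i (sec F ![p, D, E]) = pderiv i (C κ * X 2 ^ 4) := by rw [hsec]
    unfold sec at c2
    rw [c1] at c2
    have c3 := congrArg (aeval ![x, a, 0]) c2
    have c4 : aeval ![x, a, 0] (pderiv i (C κ * X 2 ^ 4 : MvPolynomial (Fin 3) ℂ)) = 0 := by
      simp [Derivation.leibniz, Derivation.leibniz_pow]
    rw [c4, map_sum] at c3
    rw [← c3]
    refine Finset.sum_congr rfl fun j _ => ?_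
    rw [map_mul]
    have c5 := MvPolynomial.comp_aeval_apply
      (f := fun j => ∑ i, C ((![p, D, E] : Fin 3 → Fin 4 → ℂ) i j) * (X i : MvPolynomial (Fin 3) ℂ))
      (aeval ![x, a, 0]) (pderiv j F)
    rw [c5]
    congr 1
    · have c6 : pderiv i (∑ i, C ((![p, D, E] : Fin 3 → Fin 4 → ℂ) i j) *
          (X i : MvPolynomial (Fin 3) ℂ)) = C ((![p, D, E] : Fin 3 → Fin 4 → ℂ) i j) := by
        simp only [map_sum, pderiv_mul, pderiv_C, zero_mul, zero_add, pderiv_X, Pi.single_apply]
        simp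
      rw [c6]
      simp
    · congr 1
      congr 1
      funext l
      simp [Fin.sum_univ_three]
      ring
  obtain ⟨n, hn⟩ := gauss_vec _ hli
  have hpd : ∀ j, (pderiv j F).IsHomogeneous 3 := fun j => hF.pderiv
  obtain ⟨y, hy0, hy⟩ := MP_1209e6.KrullZero.exists_common_zero (Ω := ℂ) (J := Fin 2) (I := Fin 1)
    (fun _ => ∑ j, C (n j) * aeval (fun l => C (p l) * X 0 + C (D l) * X 1) (pderiv j F)) (by
      intro i
      rw [map_sum]
      refine Finset.sum_eq_zero fun j _ => ?_
      have e := MvPolynomial.comp_aeval_apply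
        (f := fun l => C (p l) * X 0 + C (D l) * (X 1 : MvPolynomial (Fin 2) ℂ))
        (aeval (0 : Fin 2 → ℂ)) (pderiv j F)
      rw [map_mul, e]
      have e2 := hzero (hpd j) (by norm_num)
      have e3 : (fun i => aeval (0 : Fin 2 → ℂ) (C (p i) * X 0 + C (D i) *
          (X 1 : MvPolynomial (Fin 2) ℂ))) = fun _ => (0 : ℂ) := by
        funext l
        simp
      rw [e3, e2, mul_zero]) (by simp)
  have hy' : ∑ j, n j * aeval (fun l => y 0 * p l + y 1 * D l) (pderiv j F) = 0 := by
    have e0 := hy 0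
    rw [map_sum] at e0
    rw [← e0]
    refine Finset.sum_congr rfl fun j _ => ?_
    have e := MvPolynomial.comp_aeval_apply
      (f := fun l => C (p l) * X 0 + C (D l) * (X 1 : MvPolynomial (Fin 2) ℂ))
      (aeval y) (pderiv j F)
    rw [map_mul, e]
    congr 1
    · simp
    · congr 1
      congr 1
      funext l
      simp
      ring
  have hu := hn _ (hgrad (y 0) (y 1)) hy'
  have hq := hs _ fun j => congrFun hu j
  rw [Fintype.linearIndependent_iff] at hli
  have hy2 := hli ![y 0, y 1, 0] (by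
    rw [← hq]
    funext j
    simp [Fin.sum_univ_three])
  apply hy0
  funext j
  fin_cases j
  · exact hy2 0
  · exact hy2 1

variable {k : Type} [Field k] [Algebra ℂ k]

/-- the double root case: a moving slope gives a line in the surface -/
theorem r3_slope {F : MvPolynomial (Fin 4) ℂ} (hF : F.IsHomogeneous 4)
    (hsm : Pool.Agent.DS.Smooth F) (hone : OneLine F)
    (e : Fin 3 → Fin 4 → ℂ) (he : LinearIndependent ℂ e) (b g : k) (s n : ℂ)
    (key : ∀ x r : ℂ, aeval ![algebraMap ℂ k x, algebraMap ℂ k (s * x + r),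
      algebraMap ℂ k (n * x) + b * algebraMap ℂ k r] (sec F e) = g * (algebraMap ℂ k r) ^ 4) :
    b ∈ (algebraMap ℂ k).fieldRange := by
  classical
  by_contra hb
  have htr : Transcendental ℂ b := fun h => hb (rg_alg b h)
  set G0 := sec F e with hG0
  -- the identity at points
  have h1 : ∀ x r t : ℂ, aeval ![x, s * x + r, n * x + t * r] G0 = aeval ![0, r, t * r] G0 := by
    intro x r t
    set P : Polynomial ℂ := aeval ![Polynomial.C x, Polynomial.C (s * x + r),
      Polynomial.C (n * x) + Polynomial.X * Polynomial.C r] G0 -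
      aeval ![0, Polynomial.C r, Polynomial.X * Polynomial.C r] G0 with hP
    have hP0 : P = 0 := by
      by_contra hne
      apply htr
      refine ⟨P, hne, ?_⟩
      have e1 : Polynomial.aeval b (aeval ![Polynomial.C x, Polynomial.C (s * x + r),
          Polynomial.C (n * x) + Polynomial.X * Polynomial.C r] G0) =
          aeval ![algebraMap ℂ k x, algebraMap ℂ k (s * x + r),
            algebraMap ℂ k (n * x) + b * algebraMap ℂ k r] G0 := by
        have h : (Polynomial.aeval b : Polynomial ℂ →ₐ[ℂ] k).comp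
            (aeval ![Polynomial.C x, Polynomial.C (s * x + r),
              Polynomial.C (n * x) + Polynomial.X * Polynomial.C r]) =
            aeval ![algebraMap ℂ k x, algebraMap ℂ k (s * x + r),
            algebraMap ℂ k (n * x) + b * algebraMap ℂ k r] := by
          ext j
          fin_cases j <;> simp <;> ring
        exact congrArg (fun f => f G0) h
      have e2 : Polynomial.aeval b (aeval ![(0 : Polynomial ℂ), Polynomial.C r,
          Polynomial.X * Polynomial.C r] G0) =
          aeval ![algebraMap ℂ k 0, algebraMap ℂ k (s * 0 + r),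
            algebraMap ℂ k (n * 0) + b * algebraMap ℂ k r] G0 := by
        have h : (Polynomial.aeval b : Polynomial ℂ →ₐ[ℂ] k).comp
            (aeval ![(0 : Polynomial ℂ), Polynomial.C r, Polynomial.X * Polynomial.C r]) =
            aeval ![algebraMap ℂ k 0, algebraMap ℂ k (s * 0 + r),
            algebraMap ℂ k (n * 0) + b * algebraMap ℂ k r] := by
          ext j
          fin_cases j <;> simp <;> ring
        exact congrArg (fun f => f G0) h
      rw [hP, map_sub, e1, e2, key, key, sub_self]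
    have h := congrArg (Polynomial.eval t) hP0
    rw [hP, Polynomial.eval_sub, Polynomial.eval_zero, sub_eq_zero] at h
    have e1 : Polynomial.eval t (aeval ![Polynomial.C x, Polynomial.C (s * x + r),
          Polynomial.C (n * x) + Polynomial.X * Polynomial.C r] G0) =
          aeval ![x, s * x + r, n * x + t * r] G0 := by
      have h : (Polynomial.aeval t : Polynomial ℂ →ₐ[ℂ] ℂ).comp
            (aeval ![Polynomial.C x, Polynomial.C (s * x + r),
              Polynomial.C (n * x) + Polynomial.X * Polynomial.C r]) =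
            aeval ![x, s * x + r, n * x + t * r] := by
        ext j
        fin_cases j <;> simp <;> ring
      exact congrArg (fun f => f G0) h
    have e2 : Polynomial.eval t (aeval ![(0 : Polynomial ℂ), Polynomial.C r,
          Polynomial.X * Polynomial.C r] G0) = aeval ![0, r, t * r] G0 := by
      have h : (Polynomial.aeval t : Polynomial ℂ →ₐ[ℂ] ℂ).comp
            (aeval ![(0 : Polynomial ℂ), Polynomial.C r, Polynomial.X * Polynomial.C r]) =
            aeval ![0, r, t * r] := by
        ext j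
        fin_cases j <;> simp <;> ring
      exact congrArg (fun f => f G0) h
    rw [e1, e2] at h
    exact h
  -- everywhere
  have h2 : ∀ w0 w1 w2 : ℂ, aeval ![w0, s * w0 + w1, n * w0 + w2] G0 = aeval ![0, w1, w2] G0 := by
    set D : MvPolynomial (Fin 3) ℂ := aeval ![X 0, C s * X 0 + X 1, C n * X 0 + X 2] G0 -
      aeval ![0, X 1, X 2] G0 with hD
    have ev1 : ∀ w : Fin 3 → ℂ, eval w (aeval ![X 0, C s * X 0 + X 1, C n * X 0 + X 2] G0) =
        aeval ![w 0, s * w 0 + w 1, n * w 0 + w 2] G0 := by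
      intro w
      have h : (aeval w : MvPolynomial (Fin 3) ℂ →ₐ[ℂ] ℂ).comp
          (aeval ![X 0, C s * X 0 + X 1, C n * X 0 + X 2]) =
          aeval ![w 0, s * w 0 + w 1, n * w 0 + w 2] := by
        ext j
        fin_cases j <;> simp <;> ring
      exact congrArg (fun f => f G0) h
    have ev2 : ∀ w : Fin 3 → ℂ, eval w (aeval ![(0 : MvPolynomial (Fin 3) ℂ), X 1, X 2] G0) =
        aeval ![0, w 1, w 2] G0 := by
      intro w
      have h : (aeval w : MvPolynomial (Fin 3) ℂ →ₐ[ℂ] ℂ).comp
          (aeval ![(0 : MvPolynomial (Fin 3) ℂ), X 1, X 2]) = aeval ![0, w 1, w 2] := by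
        ext j
        fin_cases j <;> simp <;> ring
      exact congrArg (fun f => f G0) h
    have hD0 : D * X 1 = 0 := by
      apply MvPolynomial.funext
      intro w
      rw [map_mul, map_zero, eval_X, hD, map_sub, ev1, ev2]
      by_cases hw : w 1 = 0
      · rw [hw, mul_zero]
      · have h := h1 (w 0) (w 1) (w 2 / w 1)
        rw [div_mul_cancel₀ _ hw] at h
        rw [h, sub_self, zero_mul]
    have hD1 : D = 0 := by
      rcases mul_eq_zero.mp hD0 with h | h
      · exact h
      · exact absurd h (X_ne_zero 1)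
    intro w0 w1 w2
    have h := congrArg (eval ![w0, w1, w2]) hD1
    rw [hD, map_sub, ev1, ev2, map_zero, sub_eq_zero] at h
    simpa using h
  refine r3_end hF hsm hone (p := fun j => e 0 j + s * e 1 j + n * e 2 j) (f := e 1) (g := e 2) ?_ ?_
  · rw [Fintype.linearIndependent_iff] at he ⊢
    intro c hc
    have h := he ![c 0, c 0 * s + c 1, c 0 * n + c 2] (by
      rw [← hc]
      funext j
      simp [Fin.sum_univ_three]
      ring)
    have c0 : c 0 = 0 := h 0
    have c1 : c 0 * s + c 1 = 0 := h 1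
    have c2 : c 0 * n + c 2 = 0 := h 2
    rw [c0, zero_mul, zero_add] at c1 c2
    intro i
    fin_cases i
    · exact c0
    · exact c1
    · exact c2
  · intro x r t
    have h3 := h2 x r t
    rw [hG0, rg_sec_eval, rg_sec_eval] at h3
    have h4 : (fun j => ∑ i, (![x, s * x + r, n * x + t] : Fin 3 → ℂ) i * e i j) =
        fun j => x * (e 0 j + s * e 1 j + n * e 2 j) + r * e 1 j + t * e 2 j := by
      funext j
      simp only [Fin.sum_univ_three, Matrix.cons_val_zero, Matrix.cons_val_one, Matrix.cons_val]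
      ring
    have h5 : (fun j => ∑ i, (![0, r, t] : Fin 3 → ℂ) i * e i j) =
        fun j => r * e 1 j + t * e 2 j := by
      funext j
      simp only [Fin.sum_univ_three, Matrix.cons_val_zero, Matrix.cons_val_one, Matrix.cons_val]
      ring
    rw [h4, h5] at h3
    exact h3

theorem r3_closed [IsAlgClosed k] {F : MvPolynomial (Fin 4) ℂ} (hF : F.IsHomogeneous 4)
    (hs : Pool.Agent.DS.Smooth F) (hone : OneLine F) (e : Fin 3 → Fin 4 → ℂ)
    (he : LinearIndependent ℂ e) (a b g : k) (c : Fin 3 → k) (hc2 : c 2 = 1) (l : Fin 2 → k)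
    (A : MvPolynomial (Fin 3) k)
    (heq : aeval (rgPhi a b) (sec F e) = C g * quad c ^ 2 + X 2 * lin l * quad c + X 2 ^ 2 * A) :
    (a ∈ (algebraMap ℂ k).fieldRange ∧ b ∈ (algebraMap ℂ k).fieldRange) ∧
    (c 0 ∈ (algebraMap ℂ k).fieldRange ∧ c 1 ∈ (algebraMap ℂ k).fieldRange) ∧
    g ∈ (algebraMap ℂ k).fieldRange ∧
    (l 0 ∈ (algebraMap ℂ k).fieldRange ∧ l 1 ∈ (algebraMap ℂ k).fieldRange) := by
  classical
  set S := (algebraMap ℂ k).fieldRange with hS
  have hC : ∀ x : ℂ, algebraMap ℂ k x ∈ S := fun x => ⟨x, rfl⟩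
  obtain ⟨s1, hs1⟩ := IsAlgClosed.exists_root (Polynomial.C 1 * Polynomial.X ^ 2 +
    Polynomial.C (c 1) * Polynomial.X + Polynomial.C (c 0)) (by
      rw [Polynomial.degree_quadratic one_ne_zero]; decide)
  have hs1 : c 0 + c 1 * s1 + s1 ^ 2 = 0 := by
    simp [Polynomial.IsRoot] at hs1
    linear_combination hs1
  obtain ⟨s2, hs2⟩ : ∃ s2, s2 = -c 1 - s1 := ⟨_, rfl⟩
  have hc1 : c 1 = -s1 - s2 := by rw [hs2]; ring
  have hc0 : c 0 = s1 * s2 := by rw [hs2]; linear_combination hs1
  have hmem : ∀ s : k, c 0 + c 1 * s + c 2 * s ^ 2 = 0 → s ∈ S ∧ a + b * s ∈ S := by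
    intro s hs'
    obtain ⟨r, x, hr, hx⟩ := sing_const hF hs e he ![1, s, a + b * s]
      (fun h0 => one_ne_zero (congrFun h0 0)) (rg_sing _ a b g c l A heq s hs')
    exact ⟨rg_proj _ (by simp) r x hx 1, rg_proj _ (by simp) r x hx 2⟩
  obtain ⟨h1, h1'⟩ := hmem s1 (by rw [hc2]; linear_combination hs1)
  obtain ⟨h2, h2'⟩ := hmem s2 (by rw [hc2, hc0, hc1]; ring)
  have hbS : b ∈ S := by
    by_cases h12 : s1 = s2
    · obtain ⟨s', hs'⟩ := h1
      obtain ⟨n', hn'⟩ := h1'
      refine r3_slope hF hs hone e he b g s' n' fun x r => ?_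
      have h := rg_val _ a b g c l A heq (algebraMap ℂ k x) (algebraMap ℂ k (s' * x + r))
      have e1 : a * algebraMap ℂ k x + b * algebraMap ℂ k (s' * x + r) =
          algebraMap ℂ k (n' * x) + b * algebraMap ℂ k r := by
        rw [map_add, map_mul, map_mul, hs', hn']; ring
      have e2 : c 0 * algebraMap ℂ k x ^ 2 + c 1 * algebraMap ℂ k x * algebraMap ℂ k (s' * x + r) +
          c 2 * algebraMap ℂ k (s' * x + r) ^ 2 = algebraMap ℂ k r ^ 2 := by
        rw [map_add, map_mul, hs', hc0, hc1, hc2, ← h12]; ring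
      rw [e1, e2] at h
      rw [h]
      ring
    · have hb : b = ((a + b * s1) - (a + b * s2)) / (s1 - s2) := by
        rw [eq_div_iff (sub_ne_zero.mpr h12)]; ring
      rw [hb]
      exact div_mem (sub_mem h1' h2') (sub_mem h1 h2)
  have haS : a ∈ S := by
    have : a = (a + b * s1) - b * s1 := by ring
    rw [this]
    exact sub_mem h1' (mul_mem hbS h1)
  have hc0S : c 0 ∈ S := by rw [hc0]; exact mul_mem h1 h2
  have hc1S : c 1 ∈ S := by rw [hc1]; exact sub_mem (neg_mem h1) h2
  have hgS : g ∈ S := by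
    have h := rg_val _ a b g c l A heq 0 1
    rw [hc2] at h
    have e1 : g * (c 0 * 0 ^ 2 + c 1 * 0 * 1 + 1 * 1 ^ 2) ^ 2 = g := by ring
    rw [e1] at h
    rw [← h]
    refine rg_mem _ _ fun i => ?_
    fin_cases i
    · exact zero_mem _
    · exact one_mem _
    · exact add_mem (mul_mem haS (zero_mem _)) (mul_mem hbS (one_mem _))
  have hl1 : l 1 ∈ S := by
    have h := rg_two _ a b g c l A heq 0 1
    rw [hc2] at h
    have e1 : (l 0 * 0 + l 1 * 1) * (c 0 * 0 ^ 2 + c 1 * 0 * 1 + 1 * 1 ^ 2) = l 1 := by ring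
    rw [e1] at h
    rw [← h]
    refine rg_mem _ _ fun i => ?_
    fin_cases i
    · exact zero_mem _
    · exact one_mem _
    · exact add_mem (mul_mem haS (zero_mem _)) (mul_mem hbS (one_mem _))
  have hl0 : l 0 ∈ S := by
    obtain ⟨x, hx⟩ : ∃ x : ℂ, c 0 + c 1 * algebraMap ℂ k x + algebraMap ℂ k x ^ 2 ≠ 0 := by
      by_contra hcon
      push Not at hcon
      have e0 := hcon 0
      have e1 := hcon 1
      have e2 := hcon 2
      simp only [map_zero, map_one, map_ofNat] at e0 e1 e2
      have : (2 : k) = 0 := by linear_combination e2 - 2 * e1 + e0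
      have h2 : algebraMap ℂ k 2 = 0 := by rw [map_ofNat]; exact this
      exact two_ne_zero ((map_eq_zero _).mp h2)
    have h := rg_two _ a b g c l A heq 1 (algebraMap ℂ k x)
    rw [hc2] at h
    have hm : aeval ![1, algebraMap ℂ k x, a * 1 + b * algebraMap ℂ k x] (pderiv 2 (sec F e)) ∈ S := by
      refine rg_mem _ _ fun i => ?_
      fin_cases i
      · exact one_mem _
      · exact hC _
      · exact add_mem (mul_mem haS (one_mem _)) (mul_mem hbS (hC _))
    rw [h] at hm
    have hq : c 0 * 1 ^ 2 + c 1 * 1 * algebraMap ℂ k x + 1 * algebraMap ℂ k x ^ 2 =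
      c 0 + c 1 * algebraMap ℂ k x + algebraMap ℂ k x ^ 2 := by ring
    rw [hq] at hm
    have hqS : c 0 + c 1 * algebraMap ℂ k x + algebraMap ℂ k x ^ 2 ∈ S :=
      add_mem (add_mem hc0S (mul_mem hc1S (hC _))) (pow_mem (hC _) 2)
    have : l 0 = ((l 0 * 1 + l 1 * algebraMap ℂ k x) *
        (c 0 + c 1 * algebraMap ℂ k x + algebraMap ℂ k x ^ 2)) /
        (c 0 + c 1 * algebraMap ℂ k x + algebraMap ℂ k x ^ 2) - l 1 * algebraMap ℂ k x := by
      rw [mul_div_cancel_right₀ _ hx]; ring
    rw [this]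
    exact sub_mem (div_mem hm hqS) (mul_mem hl1 (hC _))
  exact ⟨⟨haS, hbS⟩, ⟨hc0S, hc1S⟩, hgS, ⟨hl0, hl1⟩⟩

/-- As `rigid`; only the end of `rg_slope` changes: the section of the surface by a complex plane is a binary form
`q₄` at a point `N`; a root gives a line in the surface, so it is the given line for all roots, `q₄ = c L⁴`, `F = c L⁴ + H G`
with `H` the plane: singular where `L = H = G = 0` (three forms in four variables have a common zero). -/
theorem rigid1 {F : MvPolynomial (Fin 4) ℂ} (hF : F.IsHomogeneous 4) (hs : Pool.Agent.DS.Smooth F)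
    (h1 : OneLine F) (E : Fin 4 → Fin 4 → ℂ) (hE : LinearIndependent ℂ E) (y : Fin 10 → k)
    (h : Eqn F E y) (h0 : y 0 ∈ Set.range (algebraMap ℂ k)) (h1' : y 1 ∈ Set.range (algebraMap ℂ k))
    (h2 : y 2 ∈ Set.range (algebraMap ℂ k)) (i : Fin 10) : y i ∈ Set.range (algebraMap ℂ k) := by
  classical
  obtain ⟨u0, hu0⟩ := h0
  obtain ⟨u1, hu1⟩ := h1'
  obtain ⟨u2, hu2⟩ := h2
  obtain ⟨A, -, hA⟩ := h
  set e : Fin 3 → Fin 4 → ℂ := ![fun j => E 0 j + u0 * E 3 j, fun j => E 1 j + u1 * E 3 j,
    fun j => E 2 j + u2 * E 3 j] with he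
  have heLI : LinearIndependent ℂ e := by
    rw [Fintype.linearIndependent_iff] at hE ⊢
    intro g hg
    have h := hE ![g 0, g 1, g 2, g 0 * u0 + g 1 * u1 + g 2 * u2] (by
      funext j
      have := congrFun hg j
      simp only [he, Fin.sum_univ_three, Matrix.cons_val_zero, Matrix.cons_val_one, Matrix.cons_val,
        Pi.add_apply, Pi.smul_apply, smul_eq_mul, Pi.zero_apply] at this
      simp only [Fin.sum_univ_four, Matrix.cons_val_zero, Matrix.cons_val_one, Matrix.cons_val,
        Pi.add_apply, Pi.smul_apply, smul_eq_mul, Pi.zero_apply]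
      linear_combination this)
    intro j
    fin_cases j
    · exact h 0
    · exact h 1
    · exact h 2
  have hsec : sec F (pl E y) = aeval (rgPhi (y 3) (y 4)) (sec F e) := by
    have h : (aeval (rgPhi (y 3) (y 4)) :
        MvPolynomial (Fin 3) ℂ →ₐ[ℂ] MvPolynomial (Fin 3) k).comp
        (aeval (fun j => ∑ i, (C (e i j) : MvPolynomial (Fin 3) ℂ) * X i)) =
        aeval (fun j => ∑ i, C (pl E y i j) * X i) := by
      apply MvPolynomial.algHom_ext
      intro j
      have hC : ∀ z : ℂ, algebraMap ℂ (MvPolynomial (Fin 3) k) z = C (algebraMap ℂ k z) :=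
        fun z => rfl
      simp only [AlgHom.comp_apply, aeval_X, map_sum, map_mul, aeval_C, hC, Fin.sum_univ_three, he,
        pl, rgPhi, Matrix.cons_val_zero, Matrix.cons_val_one, Matrix.cons_val, map_add, ← hu0,
        ← hu1, ← hu2]
      ring
    exact (congrArg (fun f => f F) h).symm
  rw [hsec] at hA
  let K := AlgebraicClosure k
  let φ : k →ₐ[ℂ] K := IsScalarTower.toAlgHom ℂ k K
  have hA' := congrArg (MvPolynomial.map φ.toRingHom) hA
  rw [rg_map] at hA'
  have hq : MvPolynomial.map φ.toRingHom (quad ![y 5, y 6, 1]) = quad ![φ (y 5), φ (y 6), 1] := by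
    simp [quad]
  have hlin : MvPolynomial.map φ.toRingHom (lin ![y 8, y 9]) = lin ![φ (y 8), φ (y 9)] := by
    simp [lin]
  have hrhs : MvPolynomial.map φ.toRingHom (C (y 7) * quad ![y 5, y 6, 1] ^ 2 +
      X 2 * lin ![y 8, y 9] * quad ![y 5, y 6, 1] + X 2 ^ 2 * A) =
      C (φ (y 7)) * quad ![φ (y 5), φ (y 6), 1] ^ 2 +
      X 2 * lin ![φ (y 8), φ (y 9)] * quad ![φ (y 5), φ (y 6), 1] +
        X 2 ^ 2 * MvPolynomial.map φ.toRingHom A := by
    rw [map_add, map_add, map_mul, map_mul, map_mul, map_mul, map_pow, map_pow, hq, hlin, map_X,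
      map_C]
    rfl
  rw [hrhs] at hA'
  obtain ⟨⟨g3, g4⟩, ⟨g5, g6⟩, g7, g8, g9⟩ := r3_closed hF hs h1 e heLI _ _ _ _ (by simp) _ _ hA'
  have hback : ∀ a : k, φ a ∈ (algebraMap ℂ K).fieldRange → a ∈ Set.range (algebraMap ℂ k) := by
    rintro a ⟨r, hr⟩
    refine ⟨r, (algebraMap k K).injective ?_⟩
    rw [← IsScalarTower.algebraMap_apply ℂ k K, hr]
    rfl
  fin_cases i
  · exact ⟨u0, hu0⟩
  · exact ⟨u1, hu1⟩
  · exact ⟨u2, hu2⟩
  · exact hback _ g3
  · exact hback _ g4
  · exact hback _ g5
  · exact hback _ g6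
  · exact hback _ g7
  · exact hback _ g8
  · exact hback _ g9

end Pool.Agent.QX
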