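import Pool.Agent.Lib_MP_1209e6_ql.Defs
import Pool.Agent.Lib_MP_1209e6_qx.Start

/-! PIECE START1: the base point of the system, a pair of double points. -/

set_option autoImplicit false

open MvPolynomial

noncomputable section

namespace Pool.Agent.QX

theorem st1_eval (H : MvPolynomial (Fin 4) ℂ) (e : Fin 3 → Fin 4 → ℂ) (w : Fin 3 → ℂ) :
    eval w (sec H e) = eval (fun j => ∑ i, e i j * w i) H := by
  have h2 : eval w (sec H e) = (aeval (R := ℂ) w) (sec H e) := by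
    rw [MvPolynomial.aeval_eq_eval]
  rw [h2, sec, comp_aeval_apply, ← MvPolynomial.aeval_eq_eval]
  congr 2
  funext j
  simp [Fin.sum_univ_three]

/-- a quartic form with double points at `(1, 0, 0)` and `(1, 1, 0)` -/
theorem st1_split (G : MvPolynomial (Fin 3) ℂ) (hG : G.IsHomogeneous 4)
    (h0 : eval ![1, 0, 0] G = 0) (h1 : eval ![1, 0, 0] (pderiv 1 G) = 0)
    (h2 : eval ![1, 0, 0] (pderiv 2 G) = 0) (k0 : eval ![1, 1, 0] G = 0)
    (k1 : eval ![1, 1, 0] (pderiv 1 G) = 0) (k2 : eval ![1, 1, 0] (pderiv 2 G) = 0) :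
    ∃ (g b₀ b₁ : ℂ) (A : MvPolynomial (Fin 3) ℂ), A.IsHomogeneous 2 ∧
      G = C g * (X 1 ^ 2 - X 0 * X 1) ^ 2 + X 2 * (C b₀ * X 0 + C b₁ * X 1) *
        (X 1 ^ 2 - X 0 * X 1) + X 2 ^ 2 * A := by
  classical
  obtain ⟨c1, hc1⟩ : ∃ c, c = coeff (Finsupp.single 0 4) G := ⟨_, rfl⟩
  obtain ⟨c2, hc2⟩ : ∃ c, c = coeff (Finsupp.single 0 3 + Finsupp.single 1 1) G := ⟨_, rfl⟩
  obtain ⟨c3, hc3⟩ : ∃ c, c = coeff (Finsupp.single 0 3 + Finsupp.single 2 1) G := ⟨_, rfl⟩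
  obtain ⟨c4, hc4⟩ : ∃ c, c = coeff (Finsupp.single 0 2 + Finsupp.single 1 2) G := ⟨_, rfl⟩
  obtain ⟨c5, hc5⟩ : ∃ c, c = coeff (Finsupp.single 0 2 + Finsupp.single 1 1 +
    Finsupp.single 2 1) G := ⟨_, rfl⟩
  obtain ⟨c6, hc6⟩ : ∃ c, c = coeff (Finsupp.single 0 1 + Finsupp.single 1 3) G := ⟨_, rfl⟩
  set G' : MvPolynomial (Fin 3) ℂ := G - (monomial (Finsupp.single 0 4) c1 +
    monomial (Finsupp.single 0 3 + Finsupp.single 1 1) c2 +
    monomial (Finsupp.single 0 3 + Finsupp.single 2 1) c3 +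
    monomial (Finsupp.single 0 2 + Finsupp.single 1 2) c4 +
    monomial (Finsupp.single 0 2 + Finsupp.single 1 1 + Finsupp.single 2 1) c5 +
    monomial (Finsupp.single 0 1 + Finsupp.single 1 3) c6) with hG'
  have hG'h : G'.IsHomogeneous 4 := by
    refine hG.sub (((((IsHomogeneous.add ?_ ?_).add ?_).add ?_).add ?_).add ?_)
    all_goals
      refine isHomogeneous_monomial _ ?_
      simp [map_add, Finsupp.degree_single]
  have hne : ∀ s t : Fin 3 →₀ ℕ, (∃ i, s i ≠ t i) → s ≠ t := by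
    rintro s t ⟨i, hi⟩ rfl
    exact hi rfl
  obtain ⟨g, b₀, b₁, A, hA, hGA⟩ := st_split G' hG'h
    (by
      rw [hG', coeff_sub]
      simp only [coeff_add, coeff_monomial]
      rw [if_pos trivial, if_neg (hne _ _ ⟨1, by simp⟩), if_neg (hne _ _ ⟨2, by simp⟩),
        if_neg (hne _ _ ⟨1, by simp⟩), if_neg (hne _ _ ⟨1, by simp⟩), if_neg (hne _ _ ⟨1, by simp⟩),
        hc1]
      ring)
    (by
      rw [hG', coeff_sub]
      simp only [coeff_add, coeff_monomial]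
      rw [if_neg (hne _ _ ⟨1, by simp⟩), if_pos trivial, if_neg (hne _ _ ⟨2, by simp⟩),
        if_neg (hne _ _ ⟨1, by simp⟩), if_neg (hne _ _ ⟨2, by simp⟩), if_neg (hne _ _ ⟨1, by simp⟩),
        hc2]
      ring)
    (by
      rw [hG', coeff_sub]
      simp only [coeff_add, coeff_monomial]
      rw [if_neg (hne _ _ ⟨2, by simp⟩), if_neg (hne _ _ ⟨2, by simp⟩), if_pos trivial,
        if_neg (hne _ _ ⟨2, by simp⟩), if_neg (hne _ _ ⟨1, by simp⟩), if_neg (hne _ _ ⟨2, by simp⟩),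
        hc3]
      ring)
    (by
      rw [hG', coeff_sub]
      simp only [coeff_add, coeff_monomial]
      rw [if_neg (hne _ _ ⟨1, by simp⟩), if_neg (hne _ _ ⟨1, by simp⟩),
        if_neg (hne _ _ ⟨1, by simp⟩), if_pos trivial, if_neg (hne _ _ ⟨1, by simp⟩),
        if_neg (hne _ _ ⟨1, by simp⟩), hc4]
      ring)
    (by
      rw [hG', coeff_sub]
      simp only [coeff_add, coeff_monomial]
      rw [if_neg (hne _ _ ⟨1, by simp⟩), if_neg (hne _ _ ⟨2, by simp⟩),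
        if_neg (hne _ _ ⟨1, by simp⟩), if_neg (hne _ _ ⟨2, by simp⟩), if_pos trivial,
        if_neg (hne _ _ ⟨2, by simp⟩), hc5]
      ring)
    (by
      rw [hG', coeff_sub]
      simp only [coeff_add, coeff_monomial]
      rw [if_neg (hne _ _ ⟨1, by simp⟩), if_neg (hne _ _ ⟨1, by simp⟩),
        if_neg (hne _ _ ⟨1, by simp⟩), if_neg (hne _ _ ⟨1, by simp⟩), if_neg (hne _ _ ⟨1, by simp⟩),
        if_pos trivial, hc6]
      ring)
  have hX : ∀ i : Fin 3, (X i : MvPolynomial (Fin 3) ℂ) = X i ^ 1 := fun i => (pow_one _).symm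
  have m1 : (monomial (Finsupp.single 0 4) c1 : MvPolynomial (Fin 3) ℂ) = C c1 * X 0 ^ 4 := by
    rw [X_pow_eq_monomial, C_mul_monomial, mul_one]
  have m2 : (monomial (Finsupp.single 0 3 + Finsupp.single 1 1) c2 : MvPolynomial (Fin 3) ℂ) =
      C c2 * (X 0 ^ 3 * X 1) := by
    rw [X_pow_eq_monomial, X, monomial_mul, C_mul_monomial]
    simp
  have m3 : (monomial (Finsupp.single 0 3 + Finsupp.single 2 1) c3 : MvPolynomial (Fin 3) ℂ) =
      C c3 * (X 0 ^ 3 * X 2) := by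
    rw [X_pow_eq_monomial, X, monomial_mul, C_mul_monomial]
    simp
  have m4 : (monomial (Finsupp.single 0 2 + Finsupp.single 1 2) c4 : MvPolynomial (Fin 3) ℂ) =
      C c4 * (X 0 ^ 2 * X 1 ^ 2) := by
    rw [X_pow_eq_monomial, X_pow_eq_monomial, monomial_mul, C_mul_monomial]
    simp
  have m5 : (monomial (Finsupp.single 0 2 + Finsupp.single 1 1 + Finsupp.single 2 1) c5 :
      MvPolynomial (Fin 3) ℂ) = C c5 * (X 0 ^ 2 * X 1 * X 2) := by
    rw [X_pow_eq_monomial, X, X, monomial_mul, monomial_mul, C_mul_monomial]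
    simp
  have m6 : (monomial (Finsupp.single 0 1 + Finsupp.single 1 3) c6 : MvPolynomial (Fin 3) ℂ) =
      C c6 * (X 0 * X 1 ^ 3) := by
    rw [X_pow_eq_monomial, X, monomial_mul, C_mul_monomial]
    simp
  have n1 : (monomial (Finsupp.single 1 4) g : MvPolynomial (Fin 3) ℂ) = C g * X 1 ^ 4 := by
    rw [X_pow_eq_monomial, C_mul_monomial, mul_one]
  have n2 : (monomial (Finsupp.single 0 1 + Finsupp.single 1 2 + Finsupp.single 2 1) b₀ :
      MvPolynomial (Fin 3) ℂ) = C b₀ * (X 0 * X 1 ^ 2 * X 2) := by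
    rw [X_pow_eq_monomial, X, X, monomial_mul, monomial_mul, C_mul_monomial]
    simp
  have n3 : (monomial (Finsupp.single 1 3 + Finsupp.single 2 1) b₁ :
      MvPolynomial (Fin 3) ℂ) = C b₁ * (X 1 ^ 3 * X 2) := by
    rw [X_pow_eq_monomial, X, monomial_mul, C_mul_monomial]
    simp
  have n4 : (monomial (Finsupp.single 2 2) 1 : MvPolynomial (Fin 3) ℂ) = X 2 ^ 2 := by
    rw [X_pow_eq_monomial]
  rw [n1, n2, n3, n4, hG', m1, m2, m3, m4, m5, m6, sub_eq_iff_eq_add] at hGA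
  have hGe : G = C c1 * X 0 ^ 4 + C c2 * (X 0 ^ 3 * X 1) + C c4 * (X 0 ^ 2 * X 1 ^ 2) +
      C c6 * (X 0 * X 1 ^ 3) + C g * X 1 ^ 4 + X 2 * (C c3 * X 0 ^ 3 + C c5 * (X 0 ^ 2 * X 1) +
      C b₀ * (X 0 * X 1 ^ 2) + C b₁ * X 1 ^ 3) + X 2 ^ 2 * A := by
    rw [hGA]
    ring
  have d1 : pderiv 1 G = C c2 * X 0 ^ 3 + C c4 * (X 0 ^ 2 * (2 * X 1)) +
      C c6 * (X 0 * (3 * X 1 ^ 2)) + C g * (4 * X 1 ^ 3) + X 2 * (C c5 * X 0 ^ 2 +
      C b₀ * (X 0 * (2 * X 1)) + C b₁ * (3 * X 1 ^ 2)) + X 2 ^ 2 * pderiv 1 A := by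
    rw [hGe]
    simp only [map_add, Derivation.leibniz, Derivation.leibniz_pow, pderiv_C, pderiv_X_self,
      pderiv_X_of_ne (show (0 : Fin 3) ≠ 1 by decide), pderiv_X_of_ne (show (2 : Fin 3) ≠ 1 by decide),
      smul_eq_mul, nsmul_eq_mul]
    norm_num
  have d2 : pderiv 2 G = (C c3 * X 0 ^ 3 + C c5 * (X 0 ^ 2 * X 1) +
      C b₀ * (X 0 * X 1 ^ 2) + C b₁ * X 1 ^ 3) + X 2 * (2 * A + X 2 * pderiv 2 A) := by
    rw [hGe]
    simp only [map_add, Derivation.leibniz, Derivation.leibniz_pow, pderiv_C, pderiv_X_self,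
      pderiv_X_of_ne (show (0 : Fin 3) ≠ 2 by decide), pderiv_X_of_ne (show (1 : Fin 3) ≠ 2 by decide),
      smul_eq_mul, nsmul_eq_mul]
    norm_num
    ring
  rw [hGe] at h0 k0
  rw [d1] at h1 k1
  rw [d2] at h2 k2
  simp only [map_add, map_mul, map_pow, eval_C, eval_X, map_ofNat, Matrix.cons_val_zero,
    Matrix.cons_val_one, Matrix.cons_val] at h0 h1 h2 k0 k1 k2
  norm_num at h0 h1 h2 k0 k1 k2
  -- solve the linear system
  have e1 : c1 = 0 := h0
  have e2 : c2 = 0 := h1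
  have e3 : c3 = 0 := h2
  rw [e1, e2] at k0
  rw [e2] at k1
  rw [e3] at k2
  have e6 : c6 = -2 * g := by linear_combination k1 - 2 * k0
  have e4 : c4 = g := by linear_combination k0 - e6
  have e5 : c5 = -(b₀ + b₁) := by linear_combination k2
  refine ⟨g, b₀ + b₁, b₁, A, hA, ?_⟩
  rw [hGe, e1, e2, e3, e4, e5, e6]
  simp only [map_neg, map_mul, map_add, map_zero, map_ofNat]
  ring

/-- The plane `H` spanned by the line and `X` (`X` off the line) is tangent to the surface at `X`: `F₀ = F₁ = 0` there,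
`∇F (X) · X = 4 F (X) = 0`. `F` restricted to `H` is `L * C`, `L` the line, and there is a point `q ≠ 0` of the line with
`C (q) = 0` (a binary cubic form has a zero), a double point of the section. `E 0 = X`, `E 1 = q - X`, `E 2` the third
vector of a basis of `H`, `E 3` any; `y = 0` except `y 6 = -1` (`quad = X₁² - X₀ X₁`), `y 7, y 8, y 9`. -/
theorem exists_start1 {F : MvPolynomial (Fin 4) ℂ} (hF : F.IsHomogeneous 4) (hs : Pool.Agent.DS.Smooth F)
    (hon : ∀ a : Fin 4 → ℂ, a 2 = 0 → a 3 = 0 → aeval a F = 0) (X : Fin 4 → ℂ) (hX : X 2 ≠ 0 ∨ X 3 ≠ 0)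
    (hX0 : aeval X F = 0) (hX1 : aeval X (pderiv 0 F) = 0) (hX2 : aeval X (pderiv 1 F) = 0) :
    ∃ (E : Fin 4 → Fin 4 → ℂ) (y : Fin 10 → ℂ), LinearIndependent ℂ E ∧ Eqn F E y ∧
      (pl E y 0 2 ≠ 0 ∨ pl E y 0 3 ≠ 0) := by
  classical
  -- restriction to the line
  let pv : Fin 4 → MvPolynomial (Fin 2) ℂ := ![MvPolynomial.X 0, MvPolynomial.X 1, 0, 0]
  have hpe : ∀ (H : MvPolynomial (Fin 4) ℂ) (a : Fin 2 → ℂ), eval a (aeval pv H) =
      eval ![a 0, a 1, 0, 0] H := by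
    intro H a
    have h2 : eval a (aeval pv H) = (aeval (R := ℂ) a) (aeval pv H) := by
      rw [MvPolynomial.aeval_eq_eval]
    rw [h2, comp_aeval_apply, ← MvPolynomial.aeval_eq_eval]
    congr 2
    funext j
    fin_cases j <;> simp [pv]
  have hzero : aeval pv F = 0 := by
    apply MvPolynomial.funext
    intro a
    rw [hpe, map_zero]
    have h1 := hon ![a 0, a 1, 0, 0] rfl rfl
    rwa [MvPolynomial.aeval_eq_eval] at h1
  have hF01 : ∀ a : Fin 2 → ℂ, eval ![a 0, a 1, 0, 0] (pderiv 0 F) = 0 ∧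
      eval ![a 0, a 1, 0, 0] (pderiv 1 F) = 0 := by
    intro a
    have hc : ∀ i : Fin 2, ∑ j, pderiv i (pv j) * aeval pv (pderiv j F) = 0 := by
      intro i
      have h1 := Pool.Agent.DS.chain (pderiv i : Derivation ℂ (MvPolynomial (Fin 2) ℂ)
        (MvPolynomial (Fin 2) ℂ)) pv F
      rw [hzero, map_zero] at h1
      exact h1.symm
    have h0 := hc 0
    have h1 := hc 1
    rw [Fin.sum_univ_four] at h0 h1
    have p0 : pv 0 = MvPolynomial.X 0 := rfl
    have p1 : pv 1 = MvPolynomial.X 1 := rfl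
    have p2 : pv 2 = 0 := rfl
    have p3 : pv 3 = 0 := rfl
    rw [p0, p1, p2, p3, pderiv_X_self, pderiv_X_of_ne (by decide), map_zero, zero_mul, zero_mul,
      zero_mul, one_mul, add_zero, add_zero, add_zero] at h0
    rw [p0, p1, p2, p3, pderiv_X_self, pderiv_X_of_ne (by decide), map_zero, zero_mul, zero_mul,
      one_mul, zero_mul, add_zero, add_zero, zero_add] at h1
    refine ⟨?_, ?_⟩
    · rw [← hpe, h0, map_zero]
    · rw [← hpe, h1, map_zero]
  -- the point of the line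
  obtain ⟨y, hy0, hy⟩ := Pool.Agent.DS.exists_common_zero (J := Fin 2) (Ω := ℂ) (I := Fin 1)
    (fun _ => C (X 2) * aeval pv (pderiv 2 F) + C (X 3) * aeval pv (pderiv 3 F)) (by
      intro i
      have h1 : ∀ j, eval (0 : Fin 2 → ℂ) (aeval pv (pderiv j F)) = 0 := by
        intro j
        rw [hpe]
        have h2 := (hF.pderiv (i := j)).coeff_eq_zero (d := 0) (by simp)
        have h3 : (![(0 : Fin 2 → ℂ) 0, (0 : Fin 2 → ℂ) 1, 0, 0] : Fin 4 → ℂ) = 0 := by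
          funext l
          fin_cases l <;> rfl
        rw [h3, eval_zero, constantCoeff_eq]
        exact h2
      rw [MvPolynomial.aeval_eq_eval, map_add, map_mul, map_mul, h1, h1, mul_zero, mul_zero,
        add_zero]) (by simp)
  obtain ⟨q, hq⟩ : ∃ q : Fin 4 → ℂ, q = ![y 0, y 1, 0, 0] := ⟨_, rfl⟩
  have hqF : eval q F = 0 := by
    have h1 := hon q (by rw [hq]; rfl) (by rw [hq]; rfl)
    rwa [MvPolynomial.aeval_eq_eval] at h1
  have hq01 := hF01 y
  rw [← hq] at hq01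
  have hq23 : X 2 * eval q (pderiv 2 F) + X 3 * eval q (pderiv 3 F) = 0 := by
    have h1 := hy 0
    rw [MvPolynomial.aeval_eq_eval, map_add, map_mul, map_mul, hpe, hpe, eval_C, eval_C, ← hq] at h1
    exact h1
  rw [MvPolynomial.aeval_eq_eval] at hX0 hX1 hX2
  have hX23 : X 2 * eval X (pderiv 2 F) + X 3 * eval X (pderiv 3 F) = 0 := by
    have h1 := congrArg (eval X) hF.sum_X_mul_pderiv
    rw [map_sum, map_nsmul, hX0, smul_zero, Fin.sum_univ_four] at h1
    simp only [map_mul, eval_X, hX1, hX2, mul_zero, zero_add] at h1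
    exact h1
  obtain ⟨r, hr⟩ : ∃ r : Fin 4 → ℂ, r = ![-(starRingEnd ℂ (y 1)), starRingEnd ℂ (y 0), 0, 0] := ⟨_, rfl⟩
  obtain ⟨s, hsv⟩ : ∃ s : Fin 4 → ℂ, s = ![0, 0, -(starRingEnd ℂ (X 3)), starRingEnd ℂ (X 2)] := ⟨_, rfl⟩
  have hdet : ∀ u v : ℂ, (u ≠ 0 ∨ v ≠ 0) → u * starRingEnd ℂ u + v * starRingEnd ℂ v ≠ 0 := by
    intro u v huv h
    rw [Complex.mul_conj, Complex.mul_conj, ← Complex.ofReal_add, Complex.ofReal_eq_zero] at h
    have h1 := Complex.normSq_nonneg u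
    have h2 := Complex.normSq_nonneg v
    rcases huv with h3 | h3
    · have := Complex.normSq_pos.2 h3
      linarith
    · have := Complex.normSq_pos.2 h3
      linarith
  have hy01 : y 0 ≠ 0 ∨ y 1 ≠ 0 := by
    by_contra hcon
    push Not at hcon
    apply hy0
    funext i
    fin_cases i
    · exact hcon.1
    · exact hcon.2
  have hE : LinearIndependent ℂ (![X, fun j => q j - X j, r, s] : Fin 4 → Fin 4 → ℂ) := by
    rw [Fintype.linearIndependent_iff]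
    intro g hg
    rw [Fin.sum_univ_four, hq, hr, hsv] at hg
    have h0 : g 0 * X 0 + g 1 * (y 0 - X 0) + g 2 * (-(starRingEnd ℂ (y 1))) + g 3 * 0 = 0 := congrFun hg 0
    have h1 : g 0 * X 1 + g 1 * (y 1 - X 1) + g 2 * starRingEnd ℂ (y 0) + g 3 * 0 = 0 := congrFun hg 1
    have h2 : g 0 * X 2 + g 1 * (0 - X 2) + g 2 * 0 + g 3 * (-(starRingEnd ℂ (X 3))) = 0 := congrFun hg 2
    have h3 : g 0 * X 3 + g 1 * (0 - X 3) + g 2 * 0 + g 3 * starRingEnd ℂ (X 2) = 0 := congrFun hg 3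
    have a1 : (g 0 - g 1) * (X 2 * starRingEnd ℂ (X 2) + X 3 * starRingEnd ℂ (X 3)) = 0 := by
      linear_combination starRingEnd ℂ (X 2) * h2 + starRingEnd ℂ (X 3) * h3
    have a2 : g 3 * (X 2 * starRingEnd ℂ (X 2) + X 3 * starRingEnd ℂ (X 3)) = 0 := by
      linear_combination X 2 * h3 - X 3 * h2
    have a3 : g 0 - g 1 = 0 := (mul_eq_zero.1 a1).resolve_right (hdet _ _ hX)
    have a4 : g 3 = 0 := (mul_eq_zero.1 a2).resolve_right (hdet _ _ hX)
    have a5 : g 1 * (y 0 * starRingEnd ℂ (y 0) + y 1 * starRingEnd ℂ (y 1)) = 0 := by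
      linear_combination starRingEnd ℂ (y 0) * h0 + starRingEnd ℂ (y 1) * h1 -
        (starRingEnd ℂ (y 0) * X 0 + starRingEnd ℂ (y 1) * X 1) * a3
    have a6 : g 2 * (y 0 * starRingEnd ℂ (y 0) + y 1 * starRingEnd ℂ (y 1)) = 0 := by
      linear_combination y 0 * h1 - y 1 * h0 - (y 0 * X 1 - y 1 * X 0) * a3
    have a7 : g 1 = 0 := (mul_eq_zero.1 a5).resolve_right (hdet _ _ hy01)
    have a8 : g 2 = 0 := (mul_eq_zero.1 a6).resolve_right (hdet _ _ hy01)
    intro i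
    fin_cases i
    · show g 0 = 0
      rw [← a7]
      exact sub_eq_zero.1 a3
    · exact a7
    · exact a8
    · exact a4
  set e : Fin 3 → Fin 4 → ℂ := ![X, fun j => q j - X j, r] with he
  set G := sec F e with hG
  have hGh : G.IsHomogeneous 4 := st_hom F hF e
  have hw0 : (fun j => ∑ i, e i j * (![1, 0, 0] : Fin 3 → ℂ) i) = X := by
    funext j
    simp [he, Fin.sum_univ_three]
  have hw1 : (fun j => ∑ i, e i j * (![1, 1, 0] : Fin 3 → ℂ) i) = q := by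
    funext j
    simp [he, Fin.sum_univ_three]
  have hder : ∀ (i : Fin 3) (w : Fin 3 → ℂ), eval w (pderiv i G) =
      ∑ j, e i j * eval (fun j => ∑ i, e i j * w i) (pderiv j F) := by
    intro i w
    rw [hG, st_chain, map_sum]
    refine Finset.sum_congr rfl fun j _ => ?_
    rw [map_mul, eval_C, st1_eval]
  have he12 : ∀ j, e 1 j = q j - X j := fun j => rfl
  have he22 : ∀ j, e 2 j = r j := fun j => rfl
  have hq2 : q 2 = 0 := by rw [hq]; rfl
  have hq3 : q 3 = 0 := by rw [hq]; rfl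
  have hr2 : r 2 = 0 := by rw [hr]; rfl
  have hr3 : r 3 = 0 := by rw [hr]; rfl
  obtain ⟨g, b₀, b₁, A, hA, hGA⟩ := st1_split G hGh
    (by rw [hG, st1_eval, hw0, hX0])
    (by
      rw [hder, hw0, Fin.sum_univ_four]
      simp only [he12, hX1, hX2, hq2, hq3]
      linear_combination -hX23)
    (by
      rw [hder, hw0, Fin.sum_univ_four]
      simp only [he22, hX1, hX2, hr2, hr3]
      ring)
    (by rw [hG, st1_eval, hw1, hqF])
    (by
      rw [hder, hw1, Fin.sum_univ_four]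
      simp only [he12, hq01.1, hq01.2, hq2, hq3]
      linear_combination -hq23)
    (by
      rw [hder, hw1, Fin.sum_univ_four]
      simp only [he22, hq01.1, hq01.2, hr2, hr3]
      ring)
  have hpl : pl ![X, fun j => q j - X j, r, s] (![0, 0, 0, 0, 0, 0, -1, g, b₀, b₁] : Fin 10 → ℂ) = e := by
    funext i j
    fin_cases i <;> simp [pl, he]
  refine ⟨![X, fun j => q j - X j, r, s], ![0, 0, 0, 0, 0, 0, -1, g, b₀, b₁], hE, ⟨A, hA, ?_⟩, ?_⟩
  · rw [hpl, ← hG, hGA]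
    have hy7 : (![0, 0, 0, 0, 0, 0, -1, g, b₀, b₁] : Fin 10 → ℂ) 7 = g := rfl
    have hy8 : (![0, 0, 0, 0, 0, 0, -1, g, b₀, b₁] : Fin 10 → ℂ) 8 = b₀ := rfl
    have hy9 : (![0, 0, 0, 0, 0, 0, -1, g, b₀, b₁] : Fin 10 → ℂ) 9 = b₁ := rfl
    have hy5 : (![0, 0, 0, 0, 0, 0, -1, g, b₀, b₁] : Fin 10 → ℂ) 5 = 0 := rfl
    have hy6 : (![0, 0, 0, 0, 0, 0, -1, g, b₀, b₁] : Fin 10 → ℂ) 6 = -1 := rfl
    rw [hy5, hy6, hy7, hy8, hy9, quad, lin]
    simp only [Matrix.cons_val_zero, Matrix.cons_val_one, Matrix.cons_val, map_zero, map_one, map_neg]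
    ring
  · rw [hpl]
    exact hX

end Pool.Agent.QX
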