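import Pool.Agent.Lib_MP_1209e6_ql.Sf
import Pool.Agent.Lib_MP_1209e6_ql.Start1
import Pool.Agent.Lib_MP_1209e6_ql.Point1
import Pool.Agent.Lib_MP_1209e6_ql.Rigid1
import Pool.Agent.Lib_MP_1209e6_qx.Family

/-! PIECE FAM1: the moving plane section which starts at a plane through the line. -/

set_option autoImplicit false

open MvPolynomial

noncomputable section

namespace Pool.Agent.QX

/-- the coordinate `j` of the first vector of `pl E y` as a polynomial in `y` -/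
def fam1Poly (E : Fin 4 → Fin 4 → ℂ) (j : Fin 4) : MvPolynomial (Fin 10) ℂ :=
  C (E 0 j) + X 0 * C (E 3 j) + X 3 * (C (E 2 j) + X 2 * C (E 3 j))

theorem fam1_aeval {k : Type} [Field k] [Algebra ℂ k] (E : Fin 4 → Fin 4 → ℂ) (j : Fin 4) (y : Fin 10 → k) :
    aeval y (fam1Poly E j) = pl E y 0 j := by
  simp [fam1Poly, pl]

/-- as `exists_family`: `exists_node`, `exists_start1`, `exists_sys`, `exists_point1` with `h = (pl E y) 0 2` or
`(pl E y) 0 3` as a polynomial in `y`, `rigid1` -/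
theorem exists_family1 {F : MvPolynomial (Fin 4) ℂ} (hF : F.IsHomogeneous 4)
    (hs : Pool.Agent.DS.Smooth F) (h1 : OneLine F) (k : Type) [Field k] [Algebra ℂ k] [IsAlgClosed k] (T : k)
    (hT : Transcendental ℂ T) : ∃ (e : Fin 3 → Fin 4 → k) (c : Fin 3 → k) (g : k) (b : Fin 2 → k)
      (A : MvPolynomial (Fin 3) k), Sect F e c g b A ∧ Moving e ∧ (e 0 2 ≠ 0 ∨ e 0 3 ≠ 0) := by
  obtain ⟨X, hX, hX0, hX1, hX2⟩ := exists_node hF hs h1
  obtain ⟨E, y₀, hE, hy₀, hne⟩ := exists_start1 hF hs h1.on X hX hX0 hX1 hX2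
  obtain ⟨f, hf⟩ := exists_sys hF E
  obtain ⟨j, hj, hj0⟩ : ∃ j : Fin 4, (j = 2 ∨ j = 3) ∧ pl E y₀ 0 j ≠ 0 := by
    rcases hne with h | h
    · exact ⟨2, Or.inl rfl, h⟩
    · exact ⟨3, Or.inr rfl, h⟩
  obtain ⟨y, hy, hyj, hyT⟩ := exists_point1 f (fam1Poly E j) y₀ ((hf ℂ y₀).2 hy₀)
    (by rw [fam1_aeval]; exact hj0)
    (fun k _ _ y hy h0 h1' h2 i => rigid1 hF hs h1 E hE y ((hf k y).1 hy) h0 h1' h2 i) k T hT
  rw [fam1_aeval] at hyj
  obtain ⟨A, hA, heq⟩ := (hf k y).1 hy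
  refine ⟨pl E y, ![y 5, y 6, 1], y 7, ![y 8, y 9], A,
    ⟨fam_pl_ind hE y, rfl, hA, heq⟩, fam_moving hE T hT y hyT, ?_⟩
  rcases hj with rfl | rfl
  · exact Or.inl hyj
  · exact Or.inr hyj

end Pool.Agent.QX
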