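import Pool.Agent.Lib_MP_1209e6_ql.F2d
import Pool.Agent.Lib_MP_1209e6_ql.F2e
import Pool.Agent.Lib_MP_1209e6_ql.Rigid1
import Pool.Agent.Lib_MP_1209e6_qx.Kr
import Pool.Agent.Lib_MP_1209e6_qx.Family

/-! The second family on a smooth quartic surface with exactly one line, from `eps = 0`. -/

set_option autoImplicit false

open MvPolynomial

noncomputable section

namespace Pool.Agent.QX

namespace F2

theorem base_lift {k M : Type} [Field k] [Field M] [Algebra ℂ k] [Algebra ℂ M] [IsAlgClosed M]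
    {T : k} (hT : Transcendental ℂ T)
    (halg : ∀ a : k, IsAlgebraic (IntermediateField.adjoin ℂ ({T} : Set k)) a) {t : M}
    (ht : Transcendental ℂ t) : ∃ τ : k →ₐ[ℂ] M, τ T = t := by
  obtain ⟨f, hf⟩ : ∃ f : IntermediateField.adjoin ℂ {T} →ₐ[ℂ] M,
      f (IntermediateField.AdjoinSimple.gen ℂ T) = t := by
    refine ⟨((IntermediateField.adjoin ℂ {t}).val.comp
      (RatFunc.algEquivOfTranscendental t ht).toAlgHom).comp
        (RatFunc.algEquivOfTranscendental T hT).symm.toAlgHom, ?_⟩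
    have h1 := RatFunc.algEquivOfTranscendental_symm_gen T hT
    have h2 := RatFunc.algEquivOfTranscendental_X t ht
    show ((RatFunc.algEquivOfTranscendental t ht
      ((RatFunc.algEquivOfTranscendental T hT).symm (IntermediateField.AdjoinSimple.gen ℂ T)) :
        IntermediateField.adjoin ℂ {t}) : M) = t
    rw [h1, h2]
  letI : Algebra (IntermediateField.adjoin ℂ {T}) M := f.toRingHom.toAlgebra
  haveI : IsScalarTower ℂ (IntermediateField.adjoin ℂ {T}) M :=
    IsScalarTower.of_algebraMap_eq (fun r => (f.commutes r).symm)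
  haveI : Algebra.IsAlgebraic (IntermediateField.adjoin ℂ {T}) k := ⟨halg⟩
  obtain ⟨σ⟩ : Nonempty (k →ₐ[IntermediateField.adjoin ℂ {T}] M) := ⟨IsAlgClosed.lift⟩
  refine ⟨σ.restrictScalars ℂ, ?_⟩
  have h3 : σ (algebraMap (IntermediateField.adjoin ℂ {T}) k (IntermediateField.AdjoinSimple.gen ℂ T)) =
      algebraMap (IntermediateField.adjoin ℂ {T}) M (IntermediateField.AdjoinSimple.gen ℂ T) := σ.commutes _
  have h4 : algebraMap (IntermediateField.adjoin ℂ {T}) M (IntermediateField.AdjoinSimple.gen ℂ T) = t := hf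
  rw [h4] at h3
  exact h3

/-- the determinant of the two last vectors modulo the line -/
theorem det_two {E : Fin 4 → Fin 4 → ℂ} (hE : LinearIndependent ℂ E) (h02 : E 0 2 = 0) (h03 : E 0 3 = 0)
    (h12 : E 1 2 = 0) (h13 : E 1 3 = 0) : E 2 2 * E 3 3 - E 2 3 * E 3 2 ≠ 0 := by
  intro h
  apply fam_det hE
  have h1 : (Matrix.of E).det = (E 0 0 * E 1 1 - E 0 1 * E 1 0) * (E 2 2 * E 3 3 - E 2 3 * E 3 2) := by
    rw [Matrix.det_succ_row_zero]
    simp [Fin.sum_univ_four, Matrix.det_fin_three, Fin.succAbove, h02, h03, h12, h13]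
    ring
  rw [h1, h, mul_zero]

end F2

open F2 in
/-- statement of `exists_family1` -/
theorem exists_family2 {F : MvPolynomial (Fin 4) ℂ} (hF : F.IsHomogeneous 4)
    (hs : Pool.Agent.DS.Smooth F) (h1 : OneLine F) (k : Type) [Field k] [Algebra ℂ k] [IsAlgClosed k] (T : k)
    (hT : Transcendental ℂ T) : ∃ (e : Fin 3 → Fin 4 → k) (c : Fin 3 → k) (g : k) (b : Fin 2 → k)
      (A : MvPolynomial (Fin 3) k), Sect F e c g b A ∧ Moving e ∧ (e 0 2 ≠ 0 ∨ e 0 3 ≠ 0) := by
  classical
  obtain ⟨E, c, m, hE, h02, h03, h12, h13, hm, hq⟩ := exists_base hF hs h1.on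
  have hΔ := det_two hE h02 h03 h12 h13
  set G : MvPolynomial (Fin 4) ℂ := aeval (fun j => ∑ i, C (E i j) * (X i : MvPolynomial (Fin 4) ℂ)) F
    with hGdef
  have hGhom : G.IsHomogeneous 4 := by
    have h2 := hF.aeval (fun j => ∑ i, C (E i j) * (X i : MvPolynomial (Fin 4) ℂ)) (n := 1) (fun j =>
      IsHomogeneous.sum _ _ _ fun i _ => by
        simpa using (isHomogeneous_C _ (E i j)).mul (isHomogeneous_X ℂ i))
    simpa [hGdef] using h2
  have hpt : ∀ s t : ℂ, (fun j => ∑ i, algebraMap ℂ ℂ (E i j) * (![s, t, 0, 0] : Fin 4 → ℂ) i) =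
      fun j => s * E 0 j + t * E 1 j := by
    intro s t
    funext j
    simp [Fin.sum_univ_four]
    ring
  have hG0 : ∀ s t : ℂ, eval ![s, t, 0, 0] G = 0 := by
    intro s t
    rw [← MvPolynomial.aeval_eq_eval, hGdef, G_ev, hpt]
    exact h1.on _ (by simp [h02, h12]) (by simp [h03, h13])
  obtain ⟨A, B, hA, hB, hGAB⟩ := two_dvd hGhom hG0
  have hder : ∀ (s t : ℂ) (l : Fin 4), aeval (![s, t, 0, 0] : Fin 4 → ℂ) (pderiv l (X 2 * A + X 3 * B)) =
      ∑ j, E l j * aeval (fun j => s * E 0 j + t * E 1 j) (pderiv j F) := by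
    intro s t l
    rw [← hGAB, hGdef, G_der, hpt]
    simp
  have ha : ∀ s t : ℂ, aeval (![s, t, 0, 0] : Fin 4 → ℂ) A = (c * s + t) ^ 2 * (m * s + t) := by
    intro s t
    rw [← hq, ← hder, der2 _ _ _ (by simp) (by simp)]
  have hco : ∀ s t : ℂ, aeval (![s, t, 0, 0] : Fin 4 → ℂ) A = 0 → aeval (![s, t, 0, 0] : Fin 4 → ℂ) B = 0 →
      s = 0 ∧ t = 0 := by
    intro s t hAz hBz
    have hz : ∀ l, ∑ j, E l j * aeval (fun j => s * E 0 j + t * E 1 j) (pderiv j F) = 0 := by
      intro l
      rw [← hder]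
      fin_cases l
      · show aeval (![s, t, 0, 0] : Fin 4 → ℂ) (pderiv 0 (X 2 * A + X 3 * B)) = 0
        rw [map_add, Derivation.leibniz, Derivation.leibniz, pderiv_X_of_ne (by decide),
          pderiv_X_of_ne (by decide)]
        simp
      · show aeval (![s, t, 0, 0] : Fin 4 → ℂ) (pderiv 1 (X 2 * A + X 3 * B)) = 0
        rw [map_add, Derivation.leibniz, Derivation.leibniz, pderiv_X_of_ne (by decide),
          pderiv_X_of_ne (by decide)]
        simp
      · exact (der2 _ _ _ (by simp) (by simp)).trans hAz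
      · exact (der3 _ _ _ (by simp) (by simp)).trans hBz
    have hmul : (Matrix.of E).mulVec (fun j => aeval (fun j => s * E 0 j + t * E 1 j) (pderiv j F)) = 0 := by
      funext l
      simp only [Matrix.mulVec, dotProduct, Matrix.of_apply, Pi.zero_apply]
      exact hz l
    have h3 := Matrix.eq_zero_of_mulVec_eq_zero (fam_det hE) hmul
    have h4 := hs _ (fun j => congrFun h3 j)
    have h5 := Fintype.linearIndependent_iff.1 hE ![s, t, 0, 0] (by
      rw [← h4]
      funext j
      simp [Fin.sum_univ_four])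
    exact ⟨by simpa using h5 0, by simpa using h5 1⟩
  have hcop : IsCoprime (aeval (![1, Polynomial.X, 0, 0] : Fin 4 → Polynomial ℂ) A)
      (aeval (![1, Polynomial.X, 0, 0] : Fin 4 → Polynomial ℂ) B) := by
    rw [Polynomial.isCoprime_iff_aeval_ne_zero_of_isAlgClosed ℂ ℂ]
    intro t
    have hev : ∀ p : MvPolynomial (Fin 4) ℂ, Polynomial.aeval t
        (aeval (![1, Polynomial.X, 0, 0] : Fin 4 → Polynomial ℂ) p) = aeval (![1, t, 0, 0] : Fin 4 → ℂ) p := by
      intro p
      rw [comp_aeval_apply]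
      congr 2
      funext j
      fin_cases j <;> simp
    rw [hev, hev]
    by_contra hcon
    push Not at hcon
    exact one_ne_zero (hco 1 t hcon.1 hcon.2).1
  have hdeg : (aeval (![1, Polynomial.X, 0, 0] : Fin 4 → Polynomial ℂ) A).natDegree = 3 := by
    have h2 : aeval (![1, Polynomial.X, 0, 0] : Fin 4 → Polynomial ℂ) A =
        (Polynomial.X + Polynomial.C c) ^ 2 * (Polynomial.X + Polynomial.C m) := by
      refine Polynomial.funext fun t => ?_
      have hev : Polynomial.eval t (aeval (![1, Polynomial.X, 0, 0] : Fin 4 → Polynomial ℂ) A) =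
          aeval (![1, t, 0, 0] : Fin 4 → ℂ) A := by
        rw [← Polynomial.coe_aeval_eq_eval, comp_aeval_apply]
        congr 2
        funext j
        fin_cases j <;> simp
      rw [hev, ha]
      simp
      ring
    rw [h2, Polynomial.natDegree_mul (by
      exact pow_ne_zero _ (Polynomial.X_add_C_ne_zero c)) (Polynomial.X_add_C_ne_zero m),
      Polynomial.natDegree_pow, Polynomial.natDegree_X_add_C, Polynomial.natDegree_X_add_C]
  -- the generic solution
  obtain ⟨k₁, _, _, _, y, hy, ⟨j, hj⟩, hspec⟩ := exists_moving (J := Fin 10) (I := Fin 9) (by simp)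
    (sys A B (X 2 * A + X 3 * B)) (![0, 0, 0, m, 1, c * m, c + m, 0, c, 1])
    (zero_sys _ (fun s t => start ha s t))
  have hGhom' : (X 2 * A + X 3 * B : MvPolynomial (Fin 4) ℂ).IsHomogeneous 4 := hGAB ▸ hGhom
  have hy7 : y 7 ≠ 0 := by
    intro h7
    obtain ⟨r, hr⟩ := eps_zero' hcop hdeg y (fun s t => sys_zero hA hB hGhom' y hy s t) h7 j
    exact hj (hr ▸ isAlgebraic_algebraMap r)
  have hy3 : y 3 ≠ 0 := by
    intro h3
    have := hspec (X 3) (by rw [aeval_X, h3])
    rw [aeval_X] at this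
    exact hm (by simpa using this)
  obtain ⟨k₂, _, _, _, y₂, htr, halg, hg, hp⟩ := exists_trdeg_one y j hj (X 7 * X 3) (by
    rw [map_mul, aeval_X, aeval_X]
    exact mul_ne_zero hy7 hy3)
  obtain ⟨τ, hτ⟩ := base_lift htr halg hT
  set w : Fin 10 → k := fun i => τ (y₂ i) with hw
  have hwsys : ∀ i, aeval w (sys A B (X 2 * A + X 3 * B) i) = 0 := by
    intro i
    have h2 := hp _ (hy i)
    have h3 := comp_aeval_apply y₂ τ (sys A B (X 2 * A + X 3 * B) i)
    rw [h2, map_zero] at h3
    exact h3.symm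
  rw [map_mul, aeval_X, aeval_X] at hg
  have hw7 : w 7 ≠ 0 := fun h => (left_ne_zero_of_mul hg) (τ.toRingHom.injective (h.trans (map_zero _).symm))
  have hw3 : w 3 ≠ 0 := fun h => (right_ne_zero_of_mul hg) (τ.toRingHom.injective (h.trans (map_zero _).symm))
  have heqn := eqn hF E A B (hGdef.symm.trans hGAB) w (fun s t => sys_zero hA hB hGhom' w hwsys s t)
  have hmov : ∃ i : Fin 10, (i = 0 ∨ i = 1 ∨ i = 2) ∧ Transcendental ℂ (phi w i) := by
    by_contra hcon
    push Not at hcon
    have hr : ∀ i : Fin 10, (i = 0 ∨ i = 1 ∨ i = 2) → phi w i ∈ Set.range (algebraMap ℂ k) := by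
      intro i hi
      have := hcon i hi
      rw [Transcendental, not_not] at this
      exact pt_range this
    have hall := rigid1 hF hs h1 E hE (phi w) heqn (hr 0 (by simp)) (hr 1 (by simp)) (hr 2 (by simp))
    have hdiv : ∀ a : k, w 7 * a ∈ Set.range (algebraMap ℂ k) → a ∈ Set.range (algebraMap ℂ k) := by
      rintro a ⟨r, hr⟩
      obtain ⟨r7, hr7⟩ : w 7 ∈ Set.range (algebraMap ℂ k) := by simpa [phi] using hall 7
      refine ⟨r / r7, ?_⟩
      rw [map_div₀, hr, hr7, mul_div_cancel_left₀ _ hw7]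
    have hwr : ∀ i, w i ∈ Set.range (algebraMap ℂ k) := by
      intro i
      fin_cases i
      · exact hdiv _ (by simpa [phi] using hall 0)
      · exact hdiv _ (by simpa [phi] using hall 1)
      · simpa [phi] using hall 2
      · exact hdiv _ (by simpa [phi] using hall 3)
      · exact hdiv _ (by simpa [phi] using hall 4)
      · simpa [phi] using hall 5
      · simpa [phi] using hall 6
      · simpa [phi] using hall 7
      · simpa [phi] using hall 8
      · simpa [phi] using hall 9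
    obtain ⟨r, hr⟩ := hwr j
    apply hT
    rw [← hτ]
    show IsAlgebraic ℂ (w j)
    rw [← hr]
    exact isAlgebraic_algebraMap r
  obtain ⟨i, hi, hiT⟩ := hmov
  obtain ⟨A', hA', heq⟩ := heqn
  refine ⟨pl E (phi w), ![phi w 5, phi w 6, 1], phi w 7, ![phi w 8, phi w 9], A',
    ⟨fam_pl_ind hE _, rfl, hA', heq⟩, fam_moving hE (phi w i) hiT (phi w) ?_, ?_⟩
  · rcases hi with h | h | h
    · exact Or.inl (by rw [h])
    · exact Or.inr (Or.inl (by rw [h]))
    · exact Or.inr (Or.inr (by rw [h]))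
  · by_contra hcon
    push Not at hcon
    obtain ⟨ha2, ha3⟩ := hcon
    simp [pl, h02, h03, phi] at ha2 ha3
    have hΔ' : (algebraMap ℂ k (E 2 2 * E 3 3 - E 2 3 * E 3 2)) ≠ 0 := (map_ne_zero _).2 hΔ
    simp only [map_sub, map_mul] at hΔ'
    have : w 7 * w 3 * (algebraMap ℂ k (E 2 2) * algebraMap ℂ k (E 3 3) -
        algebraMap ℂ k (E 2 3) * algebraMap ℂ k (E 3 2)) = 0 := by
      linear_combination (algebraMap ℂ k (E 3 3)) * ha2 - (algebraMap ℂ k (E 3 2)) * ha3
    exact (mul_ne_zero (mul_ne_zero hw7 hw3) hΔ') this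

end Pool.Agent.QX
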