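import Pool.Agent.Lib_MP_1209e6_ql.Defs
import Pool.Agent.Lib_MP_1209e6_ds.Coef
import Pool.Agent.Lib_MP_1209e6_ds.SmoothUp
import Pool.Agent.Lib_MP_1209e6_ag.Der

/-! PIECE D0: the generic residual cubic is smooth. `t` is transcendental, the plane is `X₃ = t X₂`. -/

set_option autoImplicit false

open MvPolynomial

noncomputable section

namespace Pool.Agent.QX

/-- Euler's identity at a point -/
theorem gs_euler {k : Type} [Field k] [Algebra ℂ k] {n d : ℕ} {G : MvPolynomial (Fin n) ℂ}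
    (hG : G.IsHomogeneous d) (P : Fin n → k) : ∑ j, P j * aeval P (pderiv j G) = d * aeval P G := by
  have h1 := congrArg (aeval P) hG.sum_X_mul_pderiv
  rw [map_sum, map_nsmul, nsmul_eq_mul] at h1
  simp only [map_mul, aeval_X] at h1
  exact h1

theorem gs_der {k : Type} [Field k] [Algebra ℂ k] (t : k) (ht : Transcendental ℂ t) :
    ∃ D : Derivation ℂ k k, D t = 1 := by
  haveI : CharZero k := charZero_of_injective_algebraMap (algebraMap ℂ k).injective
  have h2 : AlgebraicIndependent ℂ (fun _ : Unit => t) := algebraicIndependent_unique_type_iff.2 ht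
  obtain ⟨E, hE⟩ := Pool.Agent.Campana.exists_derivation (fun _ : Unit => t) h2 (fun _ => 1)
  exact ⟨E, hE ()⟩

/-- Off the line. Suppose `F (P) = 0`. Take `k` algebraically closed (go to an algebraic closure) and a derivation `D`
of `k` over `ℂ` with `D t = 1`. Euler: `P₂ (F₂ + t F₃) (P) = 0`. `0 = D (F (P)) = F₀ DP₀ + F₁ DP₁ + F₂ DP₂ + F₃ D (t P₂)
= (F₂ + t F₃) DP₂ + P₂ F₃ = P₂ F₃`, so `F₃ (P) = 0`, `F₂ (P) = 0`: `P` is a singular point (`Smooth` goes up to `k`). -/
theorem gen_off {F : MvPolynomial (Fin 4) ℂ} (hF : F.IsHomogeneous 4) (hs : Pool.Agent.DS.Smooth F)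
    {k : Type} [Field k] [Algebra ℂ k] (t : k) (ht : Transcendental ℂ t) (P : Fin 4 → k) (h2 : P 2 ≠ 0)
    (h3 : P 3 = t * P 2) (hP0 : aeval P (pderiv 0 F) = 0) (hP1 : aeval P (pderiv 1 F) = 0) :
    aeval P F ≠ 0 := by
  intro h0
  obtain ⟨D, hD⟩ := gs_der t ht
  have h4 := gs_euler hF P
  rw [Fin.sum_univ_four, hP0, hP1, h0, h3, mul_zero, mul_zero, mul_zero, zero_add, zero_add] at h4
  have h5 : aeval P (pderiv 2 F) + t * aeval P (pderiv 3 F) = 0 := by
    have h6 : P 2 * (aeval P (pderiv 2 F) + t * aeval P (pderiv 3 F)) = 0 := by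
      linear_combination h4
    exact (mul_eq_zero.1 h6).resolve_left h2
  have h7 := Pool.Agent.DS.chain D P F
  rw [h0, map_zero, Fin.sum_univ_four, hP0, hP1, h3, D.leibniz, hD, smul_eq_mul, smul_eq_mul] at h7
  have h8 : P 2 * aeval P (pderiv 3 F) = 0 := by
    linear_combination - h7 - D (P 2) * h5
  have h9 := (mul_eq_zero.1 h8).resolve_left h2
  have h10 : aeval P (pderiv 2 F) = 0 := by
    rw [h9, mul_zero, add_zero] at h5
    exact h5
  have h11 : P = 0 := Pool.Agent.DS.Smooth.up hs P fun j => by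
    fin_cases j
    · exact hP0
    · exact hP1
    · exact h10
    · exact h9
  apply h2
  rw [h11, Pi.zero_apply]

/-- a form which vanishes on the line `X₂ = X₃ = 0`: its derivatives along the line vanish -/
theorem gs_line {F : MvPolynomial (Fin 4) ℂ} (hon : ∀ a : Fin 4 → ℂ, a 2 = 0 → a 3 = 0 → aeval a F = 0)
    {k : Type} [Field k] [Algebra ℂ k] (P : Fin 4 → k) (h2 : P 2 = 0) (h3 : P 3 = 0) (i : Fin 2) :
    aeval P (pderiv (Fin.castLE (by decide) i : Fin 4) F) = 0 := by
  classical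
  let q : Fin 4 → MvPolynomial (Fin 2) ℂ := ![X 0, X 1, 0, 0]
  have q0 : q 0 = X 0 := rfl
  have q1 : q 1 = X 1 := rfl
  have q2 : q 2 = 0 := rfl
  have q3 : q 3 = 0 := rfl
  have hq : aeval q F = 0 := by
    apply MvPolynomial.funext
    intro x
    rw [map_zero]
    have h4 := MvPolynomial.comp_aeval_apply (R := ℂ) q (aeval x : MvPolynomial (Fin 2) ℂ →ₐ[ℂ] ℂ) F
    have h5 : (aeval x : MvPolynomial (Fin 2) ℂ →ₐ[ℂ] ℂ) (aeval q F) = eval x (aeval q F) := by
      rw [MvPolynomial.aeval_eq_eval]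
    rw [← h5, h4]
    apply hon
    · show aeval x (q 2) = 0
      rw [q2, map_zero]
    · show aeval x (q 3) = 0
      rw [q3, map_zero]
  have h6 : aeval q (pderiv (Fin.castLE (by decide) i : Fin 4) F) = 0 := by
    have h7 := Pool.Agent.DS.chain ((pderiv i : Derivation ℂ (MvPolynomial (Fin 2) ℂ) _)) q F
    rw [hq, map_zero, Fin.sum_univ_four, q0, q1, q2, q3, map_zero, zero_mul, zero_mul, add_zero,
      add_zero] at h7
    fin_cases i
    · simp only [Fin.zero_eta, Fin.isValue, pderiv_X_self, one_mul] at h7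
      rw [pderiv_X_of_ne (by decide), zero_mul, add_zero] at h7
      exact h7.symm
    · simp only [Fin.mk_one, Fin.isValue, pderiv_X_self, one_mul] at h7
      rw [pderiv_X_of_ne (by decide), zero_mul, zero_add] at h7
      exact h7.symm
  have h8 := MvPolynomial.comp_aeval_apply (R := ℂ) q
    (aeval ![P 0, P 1] : MvPolynomial (Fin 2) ℂ →ₐ[ℂ] k) (pderiv (Fin.castLE (by decide) i : Fin 4) F)
  rw [h6, map_zero] at h8
  have h9 : (fun j => (aeval ![P 0, P 1] : MvPolynomial (Fin 2) ℂ →ₐ[ℂ] k) (q j)) = P := by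
    funext j
    fin_cases j
    · show aeval ![P 0, P 1] (q 0) = P 0
      rw [q0, aeval_X]
      rfl
    · show aeval ![P 0, P 1] (q 1) = P 1
      rw [q1, aeval_X]
      rfl
    · show aeval ![P 0, P 1] (q 2) = P 2
      rw [q2, map_zero, h2]
    · show aeval ![P 0, P 1] (q 3) = P 3
      rw [q3, map_zero, h3]
  rw [h9] at h8
  exact h8.symm

/-- On the line (`F₀ = F₁ = 0` there): `F₂ + t F₃` restricted to the line is a binary cubic without double root. If
`∂₀, ∂₁` of it vanish at `P`, so does it (Euler), and `D` of it is `F₃ (P) = 0` (`∂₀, ∂₁` vanish), so `F₂ (P) = 0`. -/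
theorem gen_on {F : MvPolynomial (Fin 4) ℂ} (hF : F.IsHomogeneous 4) (hs : Pool.Agent.DS.Smooth F)
    (hon : ∀ a : Fin 4 → ℂ, a 2 = 0 → a 3 = 0 → aeval a F = 0)
    {k : Type} [Field k] [Algebra ℂ k] (t : k) (ht : Transcendental ℂ t) (P : Fin 4 → k) (hP : P ≠ 0)
    (h2 : P 2 = 0) (h3 : P 3 = 0)
    (hP0 : aeval P (pderiv 0 (pderiv 2 F)) + t * aeval P (pderiv 0 (pderiv 3 F)) = 0)
    (hP1 : aeval P (pderiv 1 (pderiv 2 F)) + t * aeval P (pderiv 1 (pderiv 3 F)) = 0) : False := by
  haveI : CharZero k := charZero_of_injective_algebraMap (algebraMap ℂ k).injective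
  obtain ⟨D, hD⟩ := gs_der t ht
  have e2 := gs_euler (show (pderiv 2 F).IsHomogeneous 3 from hF.pderiv) P
  have e3 := gs_euler (show (pderiv 3 F).IsHomogeneous 3 from hF.pderiv) P
  rw [Fin.sum_univ_four, h2, h3, zero_mul, zero_mul, add_zero, add_zero] at e2 e3
  have h4 : aeval P (pderiv 2 F) + t * aeval P (pderiv 3 F) = 0 := by
    have h5 : (3 : k) * (aeval P (pderiv 2 F) + t * aeval P (pderiv 3 F)) = 0 := by
      push_cast at e2 e3
      linear_combination - e2 - t * e3 + P 0 * hP0 + P 1 * hP1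
    exact (mul_eq_zero.1 h5).resolve_left (by norm_num)
  have c2 := Pool.Agent.DS.chain D P (pderiv 2 F)
  have c3 := Pool.Agent.DS.chain D P (pderiv 3 F)
  rw [Fin.sum_univ_four, h2, h3, map_zero, zero_mul, zero_mul, add_zero, add_zero] at c2 c3
  have h6 := congrArg D h4
  rw [map_add, map_zero, D.leibniz, hD, smul_eq_mul, smul_eq_mul, mul_one] at h6
  have h7 : aeval P (pderiv 3 F) = 0 := by
    linear_combination h6 - c2 - t * c3 - D (P 0) * hP0 - D (P 1) * hP1
  have h8 : aeval P (pderiv 2 F) = 0 := by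
    rw [h7, mul_zero, add_zero] at h4
    exact h4
  exact hP (Pool.Agent.DS.Smooth.up hs P fun j => by
    fin_cases j
    · exact gs_line hon P h2 h3 0
    · exact gs_line hon P h2 h3 1
    · exact h8
    · exact h7)

end Pool.Agent.QX
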