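import Pool.Agent.Lib_MP_1209e6_ql.Defs

/-! PIECE NOK, first half: a line over an extension field in the surface is the given line. -/

set_option autoImplicit false

open MvPolynomial

noncomputable section

namespace Pool.Agent.QX

/-- a line over `k` in the surface specialises to a complex line, keeping one nonzero coordinate -/
theorem exists_line_spec {F : MvPolynomial (Fin 4) ℂ} {k : Type} [Field k] [Algebra ℂ k]
    (a b : Fin 4 → k) (hab : LinearIndependent k ![a, b])
    (h : ∀ s t : ℂ, aeval (fun j => algebraMap ℂ k s * a j + algebraMap ℂ k t * b j) F = 0)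
    (w : k) (hw : w ≠ 0) (p : Fin 2 × Fin 4) (hwp : ![a p.2, b p.2] p.1 = w) :
    ∃ a' b' : Fin 4 → ℂ, LinearIndependent ℂ ![a', b'] ∧
      (∀ s t : ℂ, aeval (fun j => s * a' j + t * b' j) F = 0) ∧ ![a' p.2, b' p.2] p.1 ≠ 0 := by
  obtain ⟨i, l, hil⟩ := exists_minor a b hab
  obtain ⟨x, hx⟩ := exists_specialisation (σ := Option (Option (Fin 2 × Fin 4)))
    (fun o => o.elim (a i * b l - a l * b i)⁻¹ fun o' => o'.elim w⁻¹ fun p => ![a p.2, b p.2] p.1)
  have h1 := hx ((X (some (some (0, i))) * X (some (some (1, l))) -
      X (some (some (0, l))) * X (some (some (1, i)))) * X none - 1) (by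
    simp only [map_sub, map_mul, aeval_X, map_one, Option.elim_some, Option.elim_none,
      Matrix.cons_val_zero, Matrix.cons_val_one]
    rw [mul_inv_cancel₀ hil, sub_self])
  simp only [map_sub, map_mul, aeval_X, map_one] at h1
  have h0 := hx (X (some (some p)) * X (some none) - 1) (by
    simp only [map_sub, map_mul, aeval_X, map_one, Option.elim_some, Option.elim_none]
    rw [hwp, mul_inv_cancel₀ hw, sub_self])
  simp only [map_sub, map_mul, aeval_X, map_one] at h0
  refine ⟨fun j => x (some (some (0, j))), fun j => x (some (some (1, j))), ?_, ?_, ?_⟩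
  · rw [LinearIndependent.pair_iff]
    intro s t hst
    have h3 : ∀ j, s * x (some (some (0, j))) + t * x (some (some (1, j))) = 0 := fun j => congrFun hst j
    have hne : x (some (some (0, i))) * x (some (some (1, l))) -
        x (some (some (0, l))) * x (some (some (1, i))) ≠ 0 := by
      intro h
      rw [h, zero_mul, zero_sub, neg_eq_zero] at h1
      exact one_ne_zero h1
    constructor
    · have h4 : s * (x (some (some (0, i))) * x (some (some (1, l))) -
          x (some (some (0, l))) * x (some (some (1, i)))) = 0 := by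
        linear_combination x (some (some (1, l))) * h3 i - x (some (some (1, i))) * h3 l
      exact (mul_eq_zero.1 h4).resolve_right hne
    · have h4 : t * (x (some (some (0, i))) * x (some (some (1, l))) -
          x (some (some (0, l))) * x (some (some (1, i)))) = 0 := by
        linear_combination x (some (some (0, i))) * h3 l - x (some (some (0, l))) * h3 i
      exact (mul_eq_zero.1 h4).resolve_right hne
  · intro s t
    have h5 := hx (aeval (fun j => C s * X (some (some (0, j))) + C t * X (some (some (1, j)))) F) (by
      rw [comp_aeval_apply]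
      simp only [map_add, map_mul, aeval_X, Option.elim_some, Matrix.cons_val_zero,
        Matrix.cons_val_one, aeval_C]
      exact h s t)
    rw [comp_aeval_apply] at h5
    simp only [map_add, map_mul, aeval_X, aeval_C, Algebra.algebraMap_self, RingHom.id_apply] at h5
    exact h5
  · intro h
    have h6 : x (some (some p)) = 0 := by
      rw [← h]
      obtain ⟨p1, p2⟩ := p
      fin_cases p1 <;> rfl
    rw [h6, zero_mul, zero_sub, neg_eq_zero] at h0
    exact one_ne_zero h0

/-- a line over `k` in the surface is the given line: otherwise specialise (`exists_specialisation` with one inequality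
more: `a i ≠ 0` for `i = 2` or `3`, or the same for `b`, and a minor `≠ 0`) to another complex line in the surface -/
theorem line_k {k : Type} [Field k] [Algebra ℂ k] {F : MvPolynomial (Fin 4) ℂ} (_hF : F.IsHomogeneous 4)
    (h1 : OneLine F) (a b : Fin 4 → k) (hab : LinearIndependent k ![a, b])
    (h : ∀ s t : ℂ, aeval (fun j => algebraMap ℂ k s * a j + algebraMap ℂ k t * b j) F = 0) :
    a 2 = 0 ∧ a 3 = 0 ∧ b 2 = 0 ∧ b 3 = 0 := by
  refine ⟨?_, ?_, ?_, ?_⟩
  · by_contra hw
    obtain ⟨a', b', h2, h3, h4⟩ := exists_line_spec a b hab h (a 2) hw (0, 2) rfl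
    exact h4 (h1.only a' b' h2 h3).1
  · by_contra hw
    obtain ⟨a', b', h2, h3, h4⟩ := exists_line_spec a b hab h (a 3) hw (0, 3) rfl
    exact h4 (h1.only a' b' h2 h3).2.1
  · by_contra hw
    obtain ⟨a', b', h2, h3, h4⟩ := exists_line_spec a b hab h (b 2) hw (1, 2) rfl
    exact h4 (h1.only a' b' h2 h3).2.2.1
  · by_contra hw
    obtain ⟨a', b', h2, h3, h4⟩ := exists_line_spec a b hab h (b 3) hw (1, 3) rfl
    exact h4 (h1.only a' b' h2 h3).2.2.2

end Pool.Agent.QX
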