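import Mathlib

/-! Local lemma for `exists_node` (helper17): no arc tends to a node or a cusp of an irreducible cubic on the line. -/

set_option autoImplicit false

namespace Pool.Agent.QX

variable {K Γ₀ : Type*} [Field K] [LinearOrderedCommGroupWithZero Γ₀] [Algebra ℂ K]

theorem loc_vsub {v : Valuation K Γ₀} {a b : K} {c : Γ₀} (ha : v a ≤ c) (hb : v b ≤ c) : v (a - b) ≤ c :=
  (v.map_sub a b).trans (max_le ha hb)

theorem loc_vsub' {v : Valuation K Γ₀} {a b : K} {c : Γ₀} (ha : v a < c) (hb : v b < c) : v (a - b) < c :=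
  lt_of_le_of_lt (v.map_sub a b) (max_lt ha hb)

theorem loc_mono {v : Valuation K Γ₀} (hv : ∀ c : ℂ, v (algebraMap ℂ K c) ≤ 1) (c : ℂ) {z : K} {m : Γ₀}
    (hz : v z ≤ m) : v (algebraMap ℂ K c * z) ≤ m := by
  rw [map_mul]
  calc v (algebraMap ℂ K c) * v z ≤ 1 * m := mul_le_mul' (hv c) hz
    _ = m := one_mul m

theorem loc_mono' {v : Valuation K Γ₀} (hv : ∀ c : ℂ, v (algebraMap ℂ K c) ≤ 1) (c : ℂ) {z : K} {m : Γ₀}
    (hz : v z < m) : v (algebraMap ℂ K c * z) < m := by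
  rw [map_mul]
  calc v (algebraMap ℂ K c) * v z ≤ 1 * v z := mul_le_mul' (hv c) le_rfl
    _ = v z := one_mul _
    _ < m := hz

theorem loc_unit {v : Valuation K Γ₀} (hv : ∀ c : ℂ, v (algebraMap ℂ K c) ≤ 1) {c : ℂ} (hc : c ≠ 0) :
    v (algebraMap ℂ K c) = 1 := by
  apply le_antisymm (hv c)
  by_contra h
  rw [not_le] at h
  have h1 : v (algebraMap ℂ K c) * v (algebraMap ℂ K c⁻¹) = 1 := by
    rw [← map_mul, ← map_mul, mul_inv_cancel₀ hc, map_one, map_one]
  have h2 : v (algebraMap ℂ K c) * v (algebraMap ℂ K c⁻¹) ≤ v (algebraMap ℂ K c) * 1 :=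
    mul_le_mul' le_rfl (hv _)
  rw [h1, mul_one] at h2
  exact absurd h2 (not_le.2 h)

theorem loc17 (v : Valuation K Γ₀) (hv : ∀ c : ℂ, v (algebraMap ℂ K c) ≤ 1) (α β γ κ₀ κ₁ κ₂ κ₃ : ℂ)
    (hcop : ∀ a b : ℂ, α * a ^ 2 + β * a * b + γ * b ^ 2 = 0 →
      κ₀ * a ^ 3 + κ₁ * a ^ 2 * b + κ₂ * a * b ^ 2 + κ₃ * b ^ 3 = 0 → a = 0 ∧ b = 0)
    (x l s U0 U1 U2 : K) (hx : v x < 1) (hl : v l < 1) (hl0 : l ≠ 0) (hU0 : v U0 = 1) (hU1 : v U1 ≤ 1)
    (hU2 : v U2 ≤ 1)
    (h0 : algebraMap ℂ K α * x ^ 2 + algebraMap ℂ K β * (x * l) + algebraMap ℂ K γ * l ^ 2 + s * U0 = 0)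
    (h1 : algebraMap ℂ K (2 * α) * x + algebraMap ℂ K β * l + (algebraMap ℂ K (3 * κ₀) * x ^ 2 +
      algebraMap ℂ K (2 * κ₁) * (x * l) + algebraMap ℂ K κ₂ * l ^ 2) + s * U1 = 0)
    (h2 : v (algebraMap ℂ K β * x + algebraMap ℂ K (2 * γ) * l + (algebraMap ℂ K κ₁ * x ^ 2 +
      algebraMap ℂ K (2 * κ₂) * (x * l) + algebraMap ℂ K (3 * κ₃) * l ^ 2) + s * U2) < v l ^ 2) : False := by
  set μ := max (v x) (v l) with hμ
  have hxμ : v x ≤ μ := le_max_left _ _
  have hlμ : v l ≤ μ := le_max_right _ _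
  have hμ1 : μ < 1 := max_lt hx hl
  have hl0' : v l ≠ 0 := (Valuation.ne_zero_iff v).2 hl0
  have hμ0 : 0 < μ := lt_of_lt_of_le (zero_lt_iff.2 hl0') hlμ
  have hμ2 : μ ^ 2 < μ := by
    rw [pow_two]
    calc μ * μ < μ * 1 := mul_lt_mul_of_pos_left hμ1 hμ0
      _ = μ := mul_one μ
  have hμ4 : μ ^ 4 < μ ^ 2 := by
    calc μ ^ 4 = μ ^ 2 * μ ^ 2 := by rw [← pow_add]
      _ < μ ^ 2 * 1 := mul_lt_mul_of_pos_left (hμ2.trans hμ1) (pow_pos hμ0 2)
      _ = μ ^ 2 := mul_one _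
  have hμ3 : μ ^ 2 * μ < μ ^ 2 := by
    calc μ ^ 2 * μ < μ ^ 2 * 1 := mul_lt_mul_of_pos_left hμ1 (pow_pos hμ0 2)
      _ = μ ^ 2 := mul_one _
  have hxx : v (x ^ 2) ≤ μ ^ 2 := by
    rw [map_pow]
    exact pow_le_pow_left₀ zero_le' hxμ 2
  have hll : v (l ^ 2) ≤ μ ^ 2 := by
    rw [map_pow]
    exact pow_le_pow_left₀ zero_le' hlμ 2
  have hxl : v (x * l) ≤ μ ^ 2 := by
    rw [map_mul, pow_two]
    exact mul_le_mul' hxμ hlμ
  have hvl2 : v l ^ 2 ≤ μ ^ 2 := pow_le_pow_left₀ zero_le' hlμ 2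
  have hsU : ∀ {U : K} {m : Γ₀}, v U ≤ 1 → v s ≤ m → v (s * U) ≤ m := by
    intro U m hU hs
    rw [map_mul]
    calc v s * v U ≤ m * 1 := mul_le_mul' hs hU
      _ = m := mul_one m
  have hsq : v s = v (algebraMap ℂ K α * x ^ 2 + algebraMap ℂ K β * (x * l) + algebraMap ℂ K γ * l ^ 2) := by
    have h3 : algebraMap ℂ K α * x ^ 2 + algebraMap ℂ K β * (x * l) + algebraMap ℂ K γ * l ^ 2 = -(s * U0) := by
      linear_combination h0
    rw [h3, Valuation.map_neg, map_mul, hU0, mul_one]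
  have hs : v s ≤ μ ^ 2 := by
    rw [hsq]
    exact v.map_add_le (v.map_add_le (loc_mono hv α hxx) (loc_mono hv β hxl)) (loc_mono hv γ hll)
  set A := algebraMap ℂ K (2 * α) * x + algebraMap ℂ K β * l with hA
  set B := algebraMap ℂ K β * x + algebraMap ℂ K (2 * γ) * l with hB
  set Q1 := algebraMap ℂ K (3 * κ₀) * x ^ 2 + algebraMap ℂ K (2 * κ₁) * (x * l) + algebraMap ℂ K κ₂ * l ^ 2
    with hQ1
  set Q2 := algebraMap ℂ K κ₁ * x ^ 2 + algebraMap ℂ K (2 * κ₂) * (x * l) + algebraMap ℂ K (3 * κ₃) * l ^ 2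
    with hQ2
  set E := B + Q2 + s * U2 with hE
  have hvQ1 : v Q1 ≤ μ ^ 2 :=
    v.map_add_le (v.map_add_le (loc_mono hv _ hxx) (loc_mono hv _ hxl)) (loc_mono hv _ hll)
  have hvQ2 : v Q2 ≤ μ ^ 2 :=
    v.map_add_le (v.map_add_le (loc_mono hv _ hxx) (loc_mono hv _ hxl)) (loc_mono hv _ hll)
  have hvE : v E < μ ^ 2 := lt_of_lt_of_le h2 hvl2
  have hvA : v A ≤ μ ^ 2 := by
    have h3 : A = -(Q1 + s * U1) := by linear_combination h1
    rw [h3, Valuation.map_neg]
    exact v.map_add_le hvQ1 (hsU hU1 hs)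
  have hvB : v B ≤ μ ^ 2 := by
    have h3 : B = E - (Q2 + s * U2) := by rw [hE]; ring
    rw [h3]
    exact loc_vsub hvE.le (v.map_add_le hvQ2 (hsU hU2 hs))
  have hfin : v x < μ → v l < μ → False := fun h3 h4 => absurd (max_lt h3 h4) (lt_irrefl μ)
  have hsqlt : ∀ {z : K}, v (z ^ 2) < μ ^ 2 → v z < μ := by
    intro z hz
    rw [map_pow] at hz
    exact lt_of_pow_lt_pow_left₀ 2 zero_le' hz
  by_cases hd : β ^ 2 - 4 * α * γ = 0
  · by_cases hα : α = 0
    · have hβ : β = 0 := by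
        rw [hα] at hd
        simpa using hd
      by_cases hγ : γ = 0
      · -- the quadratic part vanishes
        by_cases hκ : κ₀ = 0
        · have := hcop 1 0 (by rw [hα]; ring) (by rw [hκ]; ring)
          exact one_ne_zero this.1
        · obtain ⟨r, hr⟩ := IsAlgClosed.exists_root (Polynomial.C κ₀ * Polynomial.X ^ 3 +
            Polynomial.C κ₁ * Polynomial.X ^ 2 + Polynomial.C κ₂ * Polynomial.X + Polynomial.C κ₃) (by
              rw [Polynomial.degree_cubic hκ]; norm_num)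
          have h3 : κ₀ * r ^ 3 + κ₁ * r ^ 2 + κ₂ * r + κ₃ = 0 := by
            simpa [Polynomial.IsRoot] using hr
          have := hcop r 1 (by rw [hα, hβ, hγ]; ring) (by linear_combination h3)
          exact one_ne_zero this.2
      · have hκ : κ₀ ≠ 0 := by
          intro h3
          have := hcop 1 0 (by rw [hα]; ring) (by rw [h3]; ring)
          exact one_ne_zero this.1
        have hB' : B = algebraMap ℂ K (2 * γ) * l := by rw [hB, hβ, map_zero]; ring
        have hvl : v l ≤ μ ^ 2 := by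
          have h3 := loc_unit hv (mul_ne_zero two_ne_zero hγ)
          have h4 : v B = v l := by rw [hB', map_mul, h3, one_mul]
          rw [← h4]
          exact hvB
        have hvl' : v l < μ := lt_of_le_of_lt hvl hμ2
        have hvs : v s ≤ μ ^ 4 := by
          rw [hsq, hα, hβ, map_zero, zero_mul, zero_mul, zero_add, zero_add]
          refine loc_mono hv γ ?_
          rw [map_pow]
          calc v l ^ 2 ≤ (μ ^ 2) ^ 2 := pow_le_pow_left₀ zero_le' hvl 2
            _ = μ ^ 4 := by rw [← pow_mul]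
        have hA0 : A = 0 := by rw [hA, hα, hβ]; simp
        have h3 : algebraMap ℂ K (3 * κ₀) * x ^ 2 = -(s * U1) - l * (algebraMap ℂ K (2 * κ₁) * x +
            algebraMap ℂ K κ₂ * l) := by
          linear_combination h1 - hA0
        have h4 : v (algebraMap ℂ K (3 * κ₀) * x ^ 2) < μ ^ 2 := by
          rw [h3]
          refine loc_vsub' ?_ ?_
          · rw [Valuation.map_neg]
            exact lt_of_le_of_lt (hsU hU1 hvs) hμ4
          · rw [map_mul]
            calc v l * v (algebraMap ℂ K (2 * κ₁) * x + algebraMap ℂ K κ₂ * l) ≤ μ ^ 2 * μ :=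
                  mul_le_mul' hvl (v.map_add_le (loc_mono hv _ hxμ) (loc_mono hv _ hlμ))
              _ < μ ^ 2 := hμ3
        rw [map_mul, loc_unit hv (mul_ne_zero three_ne_zero hκ), one_mul] at h4
        exact hfin (hsqlt h4) hvl'
    · -- `q₂ = A² / (4 α)`
      have hκ : κ₀ * β ^ 3 + κ₁ * β ^ 2 * (-2 * α) + κ₂ * β * (-2 * α) ^ 2 + κ₃ * (-2 * α) ^ 3 ≠ 0 := by
        intro h3
        have := hcop β (-2 * α) (by linear_combination (-α) * hd) h3
        exact hα (by simpa using this.2)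
      have hda : algebraMap ℂ K β ^ 2 = 4 * algebraMap ℂ K α * algebraMap ℂ K γ := by
        have h3 := congrArg (algebraMap ℂ K) (sub_eq_zero.1 hd)
        simpa only [map_pow, map_mul, map_ofNat] using h3
      have h4a : v (algebraMap ℂ K (4 * α)) = 1 := loc_unit hv (mul_ne_zero (by norm_num) hα)
      have hAA : algebraMap ℂ K (4 * α) * (algebraMap ℂ K α * x ^ 2 + algebraMap ℂ K β * (x * l) +
          algebraMap ℂ K γ * l ^ 2) = A ^ 2 := by
        rw [hA]
        simp only [map_mul, map_ofNat]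
        linear_combination (-l ^ 2) * hda
      have hvs : v s ≤ μ ^ 4 := by
        have h3 : v (A ^ 2) = v s := by rw [← hAA, map_mul, h4a, one_mul, hsq]
        rw [← h3, map_pow]
        calc v A ^ 2 ≤ (μ ^ 2) ^ 2 := pow_le_pow_left₀ zero_le' hvA 2
          _ = μ ^ 4 := by rw [← pow_mul]
      have hAB : algebraMap ℂ K β * A - algebraMap ℂ K (2 * α) * B = 0 := by
        rw [hA, hB]
        simp only [map_mul, map_ofNat]
        linear_combination l * hda
      set D := algebraMap ℂ K β * Q1 - algebraMap ℂ K (2 * α) * Q2 with hD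
      have hvD : v D < μ ^ 2 := by
        have h3 : D = algebraMap ℂ K (2 * α) * (s * U2 - E) - algebraMap ℂ K β * (s * U1) := by
          rw [hD, hE]
          linear_combination algebraMap ℂ K β * h1 - hAB
        rw [h3]
        refine loc_vsub' (loc_mono' hv _ (loc_vsub' ?_ hvE)) (loc_mono' hv _ ?_)
        · exact lt_of_le_of_lt (hsU hU2 hvs) hμ4
        · exact lt_of_le_of_lt (hsU hU1 hvs) hμ4
      have hkey : algebraMap ℂ K (3 * (κ₀ * β ^ 3 + κ₁ * β ^ 2 * (-2 * α) + κ₂ * β * (-2 * α) ^ 2 +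
          κ₃ * (-2 * α) ^ 3)) * l ^ 2 = algebraMap ℂ K (4 * α ^ 2) * D -
          A * (algebraMap ℂ K (3 * β * κ₀ - 2 * α * κ₁) * A + algebraMap ℂ K (2 * α * (2 * β * κ₁ -
            4 * α * κ₂) - 2 * β * (3 * β * κ₀ - 2 * α * κ₁)) * l) := by
        rw [hD, hQ1, hQ2, hA]
        simp only [map_mul, map_ofNat, map_add, map_sub, map_pow, map_neg]
        ring
      have hvA1 : v A ≤ μ := hvA.trans hμ2.le
      have h4 : v (algebraMap ℂ K (3 * (κ₀ * β ^ 3 + κ₁ * β ^ 2 * (-2 * α) + κ₂ * β * (-2 * α) ^ 2 +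
          κ₃ * (-2 * α) ^ 3)) * l ^ 2) < μ ^ 2 := by
        rw [hkey]
        refine loc_vsub' (loc_mono' hv _ hvD) ?_
        rw [map_mul]
        calc v A * _ ≤ μ ^ 2 * μ :=
              mul_le_mul' hvA (v.map_add_le (loc_mono hv _ hvA1) (loc_mono hv _ hlμ))
          _ < μ ^ 2 := hμ3
      rw [map_mul, loc_unit hv (mul_ne_zero three_ne_zero hκ), one_mul] at h4
      have hvl : v l < μ := hsqlt h4
      refine hfin ?_ hvl
      have h5 : v (algebraMap ℂ K (2 * α) * x) < μ := by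
        have h6 : algebraMap ℂ K (2 * α) * x = A - algebraMap ℂ K β * l := by rw [hA]; ring
        rw [h6]
        exact loc_vsub' (lt_of_le_of_lt hvA hμ2) (loc_mono' hv _ hvl)
      rwa [map_mul, loc_unit hv (mul_ne_zero two_ne_zero hα), one_mul] at h5
  · have hx2 : v x ≤ μ ^ 2 := by
      have h3 : algebraMap ℂ K (β ^ 2 - 4 * α * γ) * x = algebraMap ℂ K β * B - algebraMap ℂ K (2 * γ) * A := by
        rw [hA, hB]
        simp only [map_mul, map_ofNat, map_sub, map_pow]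
        ring
      have h4 : v (algebraMap ℂ K (β ^ 2 - 4 * α * γ) * x) ≤ μ ^ 2 := by
        rw [h3]
        exact loc_vsub (loc_mono hv _ hvB) (loc_mono hv _ hvA)
      rwa [map_mul, loc_unit hv hd, one_mul] at h4
    have hl2 : v l ≤ μ ^ 2 := by
      have h3 : algebraMap ℂ K (β ^ 2 - 4 * α * γ) * l = algebraMap ℂ K β * A - algebraMap ℂ K (2 * α) * B := by
        rw [hA, hB]
        simp only [map_mul, map_ofNat, map_sub, map_pow]
        ring
      have h4 : v (algebraMap ℂ K (β ^ 2 - 4 * α * γ) * l) ≤ μ ^ 2 := by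
        rw [h3]
        exact loc_vsub (loc_mono hv _ hvA) (loc_mono hv _ hvB)
      rwa [map_mul, loc_unit hv hd, one_mul] at h4
    exact hfin (lt_of_le_of_lt hx2 hμ2) (lt_of_le_of_lt hl2 hμ2)

end Pool.Agent.QX
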