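import Mathlib

set_option autoImplicit false

namespace Pool.Agent.QX

theorem local_ring {R : Type} [CommRing R] [IsDomain R] (ι : ℂ →+* R) (ρ : R →+* ℂ)
    (hρ : ∀ c, ρ (ι c) = c) (hunit : ∀ a, ρ a ≠ 0 → IsUnit a) (hdvd : ∀ a b : R, a ∣ b ∨ b ∣ a)
    (b0 b1 b2 q0 q1 q2 c0 c1 c2 c3 : ℂ) (x u t f p p' p'' : R)
    (hx : ρ x = 0) (hu : ρ u = 0) (hu0 : u ≠ 0) (ht : ρ t = 0) (hf : ρ f = 0)
    (hp : b0 = 0 → b1 = 0 → b2 = 0 → ρ p ≠ 0)
    (e1 : ι b0 + ι b1 * x + ι b2 * u + ι q0 * x ^ 2 + ι q1 * x * u + ι q2 * u ^ 2 + ι c0 * x ^ 3 +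
      ι c1 * x ^ 2 * u + ι c2 * x * u ^ 2 + ι c3 * u ^ 3 + t * p = u ^ 3 * f)
    (e2 : ι b1 + 2 * ι q0 * x + ι q1 * u + 3 * ι c0 * x ^ 2 + 2 * ι c1 * x * u + ι c2 * u ^ 2 + t * p' = 0)
    (e3 : ι b2 + ι q1 * x + 2 * ι q2 * u + ι c1 * x ^ 2 + 2 * ι c2 * x * u + 3 * ι c3 * u ^ 2 + t * p'' =
      3 * u ^ 2 * f) :
    b0 = 0 ∧ b1 = 0 ∧ b2 = 0 ∧ ∃ X U : ℂ, (X ≠ 0 ∨ U ≠ 0) ∧ q0 * X ^ 2 + q1 * X * U + q2 * U ^ 2 = 0 ∧
      c0 * X ^ 3 + c1 * X ^ 2 * U + c2 * X * U ^ 2 + c3 * U ^ 3 = 0 := by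
  have hb0 : b0 = 0 := by
    have h := congrArg ρ e1
    simpa [hρ, hx, hu, ht, hf] using h
  have hb1 : b1 = 0 := by
    have h := congrArg ρ e2
    simpa [hρ, hx, hu, ht, hf] using h
  have hb2 : b2 = 0 := by
    have h := congrArg ρ e3
    simpa [hρ, hx, hu, ht, hf] using h
  refine ⟨hb0, hb1, hb2, ?_⟩
  have hpu := hunit p (hp hb0 hb1 hb2)
  subst hb0 hb1 hb2
  simp only [map_zero, zero_mul, zero_add] at e1 e2 e3
  obtain ⟨pi, hpi⟩ := hpu.exists_right_inv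
  -- the common factor
  obtain ⟨m, a, w, hm0, hm, hxa, huw, haw⟩ : ∃ m a w : R, m ≠ 0 ∧ ρ m = 0 ∧ x = m * a ∧ u = m * w ∧
      (ρ a ≠ 0 ∨ ρ w ≠ 0) := by
    rcases hdvd u x with ⟨a, ha⟩ | ⟨w, hw⟩
    · exact ⟨u, a, 1, hu0, hu, ha, (mul_one u).symm, Or.inr (by rw [map_one]; exact one_ne_zero)⟩
    · refine ⟨x, 1, w, ?_, hx, (mul_one x).symm, hw, Or.inl (by rw [map_one]; exact one_ne_zero)⟩
      intro h
      apply hu0
      rw [hw, h, zero_mul]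
  subst hxa huw
  -- t = m ^ 2 * s
  set s : R := pi * (m * (w ^ 3 * f - (ι c0 * a ^ 3 + ι c1 * a ^ 2 * w + ι c2 * a * w ^ 2 + ι c3 * w ^ 3)) -
    (ι q0 * a ^ 2 + ι q1 * a * w + ι q2 * w ^ 2)) with hs
  have hts : t = m ^ 2 * s := by
    rw [hs]
    linear_combination (pi) * e1 - t * hpi
  have hps : p * s = m * (w ^ 3 * f - (ι c0 * a ^ 3 + ι c1 * a ^ 2 * w + ι c2 * a * w ^ 2 + ι c3 * w ^ 3)) -
    (ι q0 * a ^ 2 + ι q1 * a * w + ι q2 * w ^ 2) := by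
    rw [hs]
    linear_combination (m * (w ^ 3 * f - (ι c0 * a ^ 3 + ι c1 * a ^ 2 * w + ι c2 * a * w ^ 2 + ι c3 * w ^ 3)) -
    (ι q0 * a ^ 2 + ι q1 * a * w + ι q2 * w ^ 2)) * hpi
  have E2 : 2 * ι q0 * a + ι q1 * w =
      -(m * (3 * ι c0 * a ^ 2 + 2 * ι c1 * a * w + ι c2 * w ^ 2 + s * p')) := by
    apply mul_left_cancel₀ hm0
    rw [hts] at e2
    linear_combination e2
  have E3 : ι q1 * a + 2 * ι q2 * w =
      m * (3 * w ^ 2 * f - (ι c1 * a ^ 2 + 2 * ι c2 * a * w + 3 * ι c3 * w ^ 2) - s * p'') := by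
    apply mul_left_cancel₀ hm0
    rw [hts] at e3
    linear_combination e3
  set A := ρ a with hA
  set W := ρ w with hW
  have F2 : 2 * q0 * A + q1 * W = 0 := by
    have h := congrArg ρ E2
    simp only [map_add, map_mul, map_neg, map_ofNat, hρ, hm, zero_mul, neg_zero] at h
    exact h
  have F3 : q1 * A + 2 * q2 * W = 0 := by
    have h := congrArg ρ E3
    simp only [map_add, map_mul, map_neg, map_ofNat, hρ, hm, zero_mul] at h
    exact h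
  refine ⟨A, W, haw, by linear_combination (A / 2) * F2 + (W / 2) * F3, ?_⟩
  obtain ⟨e, h0, h1, h2⟩ : ∃ e : ℂ, q0 = e * W ^ 2 ∧ q1 = -2 * e * A * W ∧ q2 = e * A ^ 2 := by
    by_cases hW0 : W = 0
    · have hA0 : A ≠ 0 := haw.resolve_right (fun h => h hW0)
      rw [hW0] at F2 F3
      have hq0 : q0 = 0 := by
        have : 2 * q0 * A = 0 := by linear_combination F2
        simpa [hA0] using this
      have hq1 : q1 = 0 := by
        have : q1 * A = 0 := by linear_combination F3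
        simpa [hA0] using this
      refine ⟨q2 / A ^ 2, ?_, ?_, ?_⟩
      · rw [hW0, hq0]; ring
      · rw [hW0, hq1]; ring
      · field_simp
    · refine ⟨q0 / W ^ 2, ?_, ?_, ?_⟩
      · field_simp
      · field_simp
        linear_combination F2
      · field_simp
        linear_combination (W / 2) * F3 - (A / 2) * F2
  subst h0 h1 h2
  simp only [map_mul, map_pow, map_neg, map_ofNat] at E2 E3 hps
  -- l = ι W * a - ι A * w
  obtain ⟨L, hL⟩ : ∃ L : R, ι e * (ι W * a - ι A * w) = m * L := by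
    rcases haw with h | h
    · refine ⟨ι (-(2 * A)⁻¹) * (3 * w ^ 2 * f - (ι c1 * a ^ 2 + 2 * ι c2 * a * w + 3 * ι c3 * w ^ 2) - s * p''), ?_⟩
      have hA0 : A ≠ 0 := h
      have h5 : ι (-(2 * A)⁻¹) * (-2 * ι A) = 1 := by
        rw [show (-2 * ι A : R) = ι (-2 * A) by rw [map_mul, map_neg, map_ofNat], ← map_mul, ← map_one ι]
        congr 1
        field_simp
      linear_combination ι (-(2 * A)⁻¹) * E3 - (ι e * (ι W * a - ι A * w)) * h5
    · refine ⟨ι ((2 * W)⁻¹) * (-(3 * ι c0 * a ^ 2 + 2 * ι c1 * a * w + ι c2 * w ^ 2 + s * p')), ?_⟩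
      have hW0 : W ≠ 0 := h
      have h5 : ι ((2 * W)⁻¹) * (2 * ι W) = 1 := by
        rw [show (2 * ι W : R) = ι (2 * W) by rw [map_mul, map_ofNat], ← map_mul, ← map_one ι]
        congr 1
        field_simp
      linear_combination ι ((2 * W)⁻¹) * E2 - (ι e * (ι W * a - ι A * w)) * h5
  have hl0 : ρ (ι W * a - ι A * w) = 0 := by
    simp only [map_sub, map_mul, hρ]
    rw [← hA, ← hW]
    ring
  have hs0 : ρ s = 0 := by
    have h := congrArg ρ hps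
    have h6 : ρ p * ρ s = 0 := by
      have h7 : p * s = m * (w ^ 3 * f - (ι c0 * a ^ 3 + ι c1 * a ^ 2 * w + ι c2 * a * w ^ 2 + ι c3 * w ^ 3)) -
          ι e * (ι W * a - ι A * w) ^ 2 := by
        linear_combination hps
      rw [← map_mul, h7, map_sub, map_mul ρ m, hm, map_mul ρ (ι e), map_pow, hl0]
      ring
    exact (mul_eq_zero.1 h6).resolve_left (hp rfl rfl rfl)
  have G2 : 2 * ι W * L = -(3 * ι c0 * a ^ 2 + 2 * ι c1 * a * w + ι c2 * w ^ 2 + s * p') := by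
    apply mul_left_cancel₀ hm0
    linear_combination E2 - 2 * ι W * hL
  have G3 : -2 * ι A * L = 3 * w ^ 2 * f - (ι c1 * a ^ 2 + 2 * ι c2 * a * w + 3 * ι c3 * w ^ 2) - s * p'' := by
    apply mul_left_cancel₀ hm0
    linear_combination E3 + 2 * ι A * hL
  have H2 := congrArg ρ G2
  have H3 := congrArg ρ G3
  simp only [map_mul, map_add, map_sub, map_neg, map_pow, map_ofNat, hρ, hs0, hf] at H2 H3
  rw [← hA, ← hW] at H2 H3
  have hfin : 3 * (c0 * A ^ 3 + c1 * A ^ 2 * W + c2 * A * W ^ 2 + c3 * W ^ 3) = 0 := by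
    linear_combination A * H2 + W * H3
  linear_combination (1 / 3 : ℂ) * hfin

end Pool.Agent.QX
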