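import Mathlib

/-! PIECE LOCAL (helper92): a double point on the line. -/

set_option autoImplicit false

namespace Pool.Agent.QX

/-- the residue map -/
theorem exists_residue {k : Type} [Field k] [Algebra ℂ k] (O : ValuationSubring k)
    (hC : ∀ c : ℂ, algebraMap ℂ k c ∈ O)
    (hres : ∀ a ∈ O, ∃ c : ℂ, O.valuation (a - algebraMap ℂ k c) < 1) :
    ∃ (ι : ℂ →+* O) (ρ : O →+* ℂ), (∀ c, (ι c : k) = algebraMap ℂ k c) ∧ (∀ c, ρ (ι c) = c) ∧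
      ∀ a : O, ρ a = 0 ↔ O.valuation (a : k) < 1 := by
  let ι : ℂ →+* O := (algebraMap ℂ k).codRestrict O.toSubring hC
  let f : ℂ →+* IsLocalRing.ResidueField O := (IsLocalRing.residue O).comp ι
  have hf : Function.Bijective f := by
    refine ⟨f.injective, fun y => ?_⟩
    obtain ⟨a, rfl⟩ := IsLocalRing.residue_surjective y
    obtain ⟨c, hc⟩ := hres a a.2
    refine ⟨c, ?_⟩
    change IsLocalRing.residue O (ι c) = _
    rw [← sub_eq_zero, ← map_sub, IsLocalRing.residue_eq_zero_iff, O.valuation_lt_one_iff,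
      ← Valuation.map_neg]
    have h1 : -((ι c - a : O) : k) = (a : k) - algebraMap ℂ k c := by
      push_cast
      change -(algebraMap ℂ k c - (a : k)) = _
      ring
    rw [h1]
    exact hc
  let E := RingEquiv.ofBijective f hf
  refine ⟨ι, (E.symm : _ →+* ℂ).comp (IsLocalRing.residue O), fun c => rfl, fun c => ?_, fun a => ?_⟩
  · change E.symm (f c) = c
    exact E.symm_apply_apply c
  · change E.symm (IsLocalRing.residue O a) = 0 ↔ _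
    rw [EmbeddingLike.map_eq_zero_iff, IsLocalRing.residue_eq_zero_iff, O.valuation_lt_one_iff]

/-- `x = μ X`, `u = μ U` with `μ` the larger of `x`, `u`; `τ = μ² τ'`; modulo the maximal ideal `grad q (X, U) = 0`, so
`q = e l²` with `l = U₀ X - X₀ U`; if `e ≠ 0` then `l (X, U) = μ λ`, `τ' = μ τ''` and dividing the last two equations by `μ`
again gives `3 c (X₀, U₀) = X₀ c_x + U₀ c_u = 0`. -/
theorem local_line {k : Type} [Field k] [Algebra ℂ k] (O : ValuationSubring k)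
    (hC : ∀ c : ℂ, algebraMap ℂ k c ∈ O)
    (hres : ∀ a ∈ O, ∃ c : ℂ, O.valuation (a - algebraMap ℂ k c) < 1)
    (b0 b1 b2 q0 q1 q2 c0 c1 c2 c3 : ℂ) (x u t f p p' p'' : k)
    (hx : O.valuation x < 1) (hu : O.valuation u < 1) (hu0 : u ≠ 0) (ht : O.valuation t < 1)
    (hf : O.valuation f < 1) (hp1 : O.valuation p ≤ 1)
    (hp' : O.valuation p' ≤ 1) (hp'' : O.valuation p'' ≤ 1)
    (hp : b0 = 0 → b1 = 0 → b2 = 0 → O.valuation p = 1)
    (e1 : algebraMap ℂ k b0 + algebraMap ℂ k b1 * x + algebraMap ℂ k b2 * u + algebraMap ℂ k q0 * x ^ 2 +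
      algebraMap ℂ k q1 * x * u + algebraMap ℂ k q2 * u ^ 2 + algebraMap ℂ k c0 * x ^ 3 +
      algebraMap ℂ k c1 * x ^ 2 * u + algebraMap ℂ k c2 * x * u ^ 2 + algebraMap ℂ k c3 * u ^ 3 + t * p = u ^ 3 * f)
    (e2 : algebraMap ℂ k b1 + 2 * algebraMap ℂ k q0 * x + algebraMap ℂ k q1 * u +
      3 * algebraMap ℂ k c0 * x ^ 2 + 2 * algebraMap ℂ k c1 * x * u + algebraMap ℂ k c2 * u ^ 2 + t * p' = 0)
    (e3 : algebraMap ℂ k b2 + algebraMap ℂ k q1 * x + 2 * algebraMap ℂ k q2 * u +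
      algebraMap ℂ k c1 * x ^ 2 + 2 * algebraMap ℂ k c2 * x * u + 3 * algebraMap ℂ k c3 * u ^ 2 + t * p'' =
      3 * u ^ 2 * f) :
    b0 = 0 ∧ b1 = 0 ∧ b2 = 0 ∧ ∃ X U : ℂ, (X ≠ 0 ∨ U ≠ 0) ∧ q0 * X ^ 2 + q1 * X * U + q2 * U ^ 2 = 0 ∧
      c0 * X ^ 3 + c1 * X ^ 2 * U + c2 * X * U ^ 2 + c3 * U ^ 3 = 0 := by
  obtain ⟨ι, ρ, hι, hρι, hρ⟩ := exists_residue O hC hres
  obtain ⟨x, rfl⟩ : ∃ a : O, (a : k) = x := ⟨⟨x, (O.valuation_le_one_iff x).1 hx.le⟩, rfl⟩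
  obtain ⟨u, rfl⟩ : ∃ a : O, (a : k) = u := ⟨⟨u, (O.valuation_le_one_iff u).1 hu.le⟩, rfl⟩
  obtain ⟨t, rfl⟩ : ∃ a : O, (a : k) = t := ⟨⟨t, (O.valuation_le_one_iff t).1 ht.le⟩, rfl⟩
  obtain ⟨f, rfl⟩ : ∃ a : O, (a : k) = f := ⟨⟨f, (O.valuation_le_one_iff f).1 hf.le⟩, rfl⟩
  obtain ⟨p, rfl⟩ : ∃ a : O, (a : k) = p := ⟨⟨p, (O.valuation_le_one_iff p).1 hp1⟩, rfl⟩
  obtain ⟨p', rfl⟩ : ∃ a : O, (a : k) = p' := ⟨⟨p', (O.valuation_le_one_iff p').1 hp'⟩, rfl⟩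
  obtain ⟨p'', rfl⟩ : ∃ a : O, (a : k) = p'' := ⟨⟨p'', (O.valuation_le_one_iff p'').1 hp''⟩, rfl⟩
  have hu0' : u ≠ 0 := by
    rintro rfl
    exact hu0 rfl
  replace hx := (hρ x).2 hx
  replace hu := (hρ u).2 hu
  replace ht := (hρ t).2 ht
  replace hf := (hρ f).2 hf
  simp only [← hι] at e1 e2 e3
  have E1 : ι b0 + ι b1 * x + ι b2 * u + ι q0 * x ^ 2 + ι q1 * x * u + ι q2 * u ^ 2 + ι c0 * x ^ 3 +
      ι c1 * x ^ 2 * u + ι c2 * x * u ^ 2 + ι c3 * u ^ 3 + t * p = u ^ 3 * f := by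
    apply Subtype.ext
    push_cast
    exact e1
  have E2 : ι b1 + 2 * ι q0 * x + ι q1 * u + 3 * ι c0 * x ^ 2 + 2 * ι c1 * x * u + ι c2 * u ^ 2 +
      t * p' = 0 := by
    apply Subtype.ext
    push_cast
    exact e2
  have E3 : ι b2 + ι q1 * x + 2 * ι q2 * u + ι c1 * x ^ 2 + 2 * ι c2 * x * u + 3 * ι c3 * u ^ 2 +
      t * p'' = 3 * u ^ 2 * f := by
    apply Subtype.ext
    push_cast
    exact e3
  clear e1 e2 e3
  have hb0 : b0 = 0 := by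
    have h1 := congrArg ρ E1
    simpa [hx, hu, ht, hf, hρι] using h1
  have hb1 : b1 = 0 := by
    have h1 := congrArg ρ E2
    simpa [hx, hu, ht, hf, hρι] using h1
  have hb2 : b2 = 0 := by
    have h1 := congrArg ρ E3
    simpa [hx, hu, ht, hf, hρι] using h1
  refine ⟨hb0, hb1, hb2, ?_⟩
  have hpv := hp hb0 hb1 hb2
  have hpu : IsUnit p := (O.valuation_eq_one_iff p).2 hpv
  obtain ⟨pi, hpi⟩ := hpu.exists_right_inv
  subst hb0 hb1 hb2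
  simp only [map_zero, zero_mul, zero_add] at E1 E2 E3
  -- the larger one of `x`, `u`
  obtain ⟨μ, X, U, hμ, hxX, huU, hXU, hμρ⟩ : ∃ μ X U : O, μ ≠ 0 ∧ x = μ * X ∧ u = μ * U ∧
      (ρ X ≠ 0 ∨ ρ U ≠ 0) ∧ ρ μ = 0 := by
    rcases O.mem_or_inv_mem ((x : k) / (u : k)) with h | h
    · refine ⟨u, ⟨_, h⟩, 1, hu0', ?_, (mul_one u).symm, Or.inr (by rw [map_one]; exact one_ne_zero), hu⟩
      apply Subtype.ext
      push_cast
      field_simp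
    · by_cases hx0 : x = 0
      · refine ⟨u, 0, 1, hu0', by rw [hx0, mul_zero], (mul_one u).symm,
          Or.inr (by rw [map_one]; exact one_ne_zero), hu⟩
      · have hx0' : (x : k) ≠ 0 := fun h1 => hx0 (Subtype.ext h1)
        rw [inv_div] at h
        refine ⟨x, 1, ⟨_, h⟩, hx0, (mul_one x).symm, ?_, Or.inl (by rw [map_one]; exact one_ne_zero), hx⟩
        apply Subtype.ext
        push_cast
        field_simp
  subst hxX huU
  -- `t = μ² τ`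
  obtain ⟨τ, hτ⟩ : ∃ τ : O, τ = pi * (μ * U ^ 3 * f - (ι q0 * X ^ 2 + ι q1 * X * U + ι q2 * U ^ 2) -
      μ * (ι c0 * X ^ 3 + ι c1 * X ^ 2 * U + ι c2 * X * U ^ 2 + ι c3 * U ^ 3)) := ⟨_, rfl⟩
  have htτ : t = μ ^ 2 * τ := by
    rw [hτ]
    linear_combination pi * E1 - t * hpi
  rw [htτ] at E2 E3
  have G2 : (2 * ι q0 * X + ι q1 * U) + μ * (3 * ι c0 * X ^ 2 + 2 * ι c1 * X * U + ι c2 * U ^ 2 + τ * p') = 0 := by
    refine mul_left_cancel₀ hμ ?_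
    linear_combination E2
  have G3 : (ι q1 * X + 2 * ι q2 * U) + μ * (ι c1 * X ^ 2 + 2 * ι c2 * X * U + 3 * ι c3 * U ^ 2 + τ * p'' -
      3 * U ^ 2 * f) = 0 := by
    refine mul_left_cancel₀ hμ ?_
    linear_combination E3
  have hρ2 : ρ 2 = 2 := map_ofNat ρ 2
  have hι2 : ι 2 = 2 := map_ofNat ι 2
  have r2 : 2 * q0 * ρ X + q1 * ρ U = 0 := by
    have h1 := congrArg ρ G2
    simpa [hμρ, hρι, hρ2] using h1
  have r3 : q1 * ρ X + 2 * q2 * ρ U = 0 := by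
    have h1 := congrArg ρ G3
    simpa [hμρ, hρι, hρ2] using h1
  have hq : q0 * ρ X ^ 2 + q1 * ρ X * ρ U + q2 * ρ U ^ 2 = 0 := by
    linear_combination (1 / 2 : ℂ) * ρ X * r2 + (1 / 2 : ℂ) * ρ U * r3
  have hτ0 : ρ τ = 0 := by
    rw [hτ]
    have h1 : ρ pi * (ρ μ * ρ U ^ 3 * ρ f - (q0 * ρ X ^ 2 + q1 * ρ X * ρ U + q2 * ρ U ^ 2) -
        ρ μ * (q0 * 0)) = 0 := by
      rw [hq, hμρ]
      ring
    simp only [map_mul, map_sub, map_add, map_pow, hρι, hμρ, zero_mul, sub_zero] at h1 ⊢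
    linear_combination h1
  refine ⟨ρ X, ρ U, hXU, hq, ?_⟩
  have i2 : 2 * ι q0 * ι (ρ X) + ι q1 * ι (ρ U) = 0 := by
    have h1 := congrArg ι r2
    simpa [hι2] using h1
  have i3 : ι q1 * ι (ρ X) + 2 * ι q2 * ι (ρ U) = 0 := by
    have h1 := congrArg ι r3
    simpa [hι2] using h1
  have G4 : ι (ρ X) * (3 * ι c0 * X ^ 2 + 2 * ι c1 * X * U + ι c2 * U ^ 2 + τ * p') +
      ι (ρ U) * (ι c1 * X ^ 2 + 2 * ι c2 * X * U + 3 * ι c3 * U ^ 2 + τ * p'' - 3 * U ^ 2 * f) = 0 := by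
    refine mul_left_cancel₀ hμ ?_
    linear_combination ι (ρ X) * G2 + ι (ρ U) * G3 - X * i2 - U * i3
  have h1 := congrArg ρ G4
  simp only [map_mul, map_sub, map_add, map_pow, hρι, hτ0, hf, zero_mul, mul_zero, sub_zero, add_zero,
    map_zero, map_ofNat] at h1
  linear_combination (1 / 3 : ℂ) * h1

end Pool.Agent.QX
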