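import Mathlib

/-! A double point on the line (double of the piece LOCAL, helper25). -/

set_option autoImplicit false

namespace Pool.Agent.QX

namespace Loc25

variable {k : Type} [Field k] [Algebra ℂ k]

/-- `a` is congruent to the complex number `c` -/
def R (O : ValuationSubring k) (a : k) (c : ℂ) : Prop := O.valuation (a - algebraMap ℂ k c) < 1

variable {O : ValuationSubring k}

theorem R_const (c : ℂ) : R O (algebraMap ℂ k c) c := by
  unfold R
  rw [sub_self, map_zero]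
  exact zero_lt_one

theorem v_const_le (hC : ∀ c : ℂ, algebraMap ℂ k c ∈ O) (c : ℂ) : O.valuation (algebraMap ℂ k c) ≤ 1 :=
  (O.valuation_le_one_iff _).2 (hC c)

theorem v_const (hC : ∀ c : ℂ, algebraMap ℂ k c ∈ O) {c : ℂ} (hc : c ≠ 0) :
    O.valuation (algebraMap ℂ k c) = 1 := by
  refine le_antisymm (v_const_le hC c) ?_
  by_contra h
  rw [not_le] at h
  have h1 : O.valuation (algebraMap ℂ k c) * O.valuation (algebraMap ℂ k c⁻¹) = 1 := by
    rw [← map_mul, ← map_mul, mul_inv_cancel₀ hc, map_one, map_one]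
  have h2 : O.valuation (algebraMap ℂ k c) * O.valuation (algebraMap ℂ k c⁻¹) ≤ O.valuation (algebraMap ℂ k c) :=
    mul_le_of_le_one_right' (v_const_le hC c⁻¹)
  rw [h1] at h2
  exact absurd (lt_of_le_of_lt h2 h) (lt_irrefl _)

theorem R_zero (hC : ∀ c : ℂ, algebraMap ℂ k c ∈ O) {c : ℂ} (h : R O 0 c) : c = 0 := by
  by_contra hc
  unfold R at h
  rw [zero_sub, Valuation.map_neg, v_const hC hc] at h
  exact lt_irrefl _ h

theorem R_add {a b : k} {c d : ℂ} (h : R O a c) (h' : R O b d) : R O (a + b) (c + d) := by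
  unfold R at *
  have e : a + b - algebraMap ℂ k (c + d) = (a - algebraMap ℂ k c) + (b - algebraMap ℂ k d) := by
    rw [map_add]; ring
  rw [e]
  exact Valuation.map_add_lt _ h h'

theorem R_le (hC : ∀ c : ℂ, algebraMap ℂ k c ∈ O) {a : k} {c : ℂ} (h : R O a c) : O.valuation a ≤ 1 := by
  unfold R at h
  have e : a = (a - algebraMap ℂ k c) + algebraMap ℂ k c := by ring
  rw [e]
  exact Valuation.map_add_le _ h.le (v_const_le hC c)

theorem R_mul (hC : ∀ c : ℂ, algebraMap ℂ k c ∈ O) {a b : k} {c d : ℂ} (h : R O a c) (h' : R O b d) :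
    R O (a * b) (c * d) := by
  have ha := R_le hC h
  unfold R at *
  have e : a * b - algebraMap ℂ k (c * d) = a * (b - algebraMap ℂ k d) + (a - algebraMap ℂ k c) * algebraMap ℂ k d := by
    rw [map_mul]; ring
  rw [e]
  refine Valuation.map_add_lt _ ?_ ?_
  · rw [map_mul]
    exact lt_of_le_of_lt (mul_le_of_le_one_left' ha) h'
  · rw [map_mul]
    exact lt_of_le_of_lt (mul_le_of_le_one_right' (v_const_le hC d)) h

theorem R_neg {a : k} {c : ℂ} (h : R O a c) : R O (-a) (-c) := by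
  unfold R at *
  have e : -a - algebraMap ℂ k (-c) = -(a - algebraMap ℂ k c) := by rw [map_neg]; ring
  rw [e, Valuation.map_neg]
  exact h

theorem R_sub {a b : k} {c d : ℂ} (h : R O a c) (h' : R O b d) : R O (a - b) (c - d) := by
  rw [sub_eq_add_neg, sub_eq_add_neg]
  exact R_add h (R_neg h')

theorem R_pow (hC : ∀ c : ℂ, algebraMap ℂ k c ∈ O) {a : k} {c : ℂ} (h : R O a c) (n : ℕ) : R O (a ^ n) (c ^ n) := by
  induction n with
  | zero =>
    rw [pow_zero, pow_zero]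
    have := R_const (O := O) (1 : ℂ)
    rwa [map_one] at this
  | succ n ih =>
    rw [pow_succ, pow_succ]
    exact R_mul hC ih h

theorem R_small {a : k} (h : O.valuation a < 1) : R O a 0 := by
  unfold R
  rwa [map_zero, sub_zero]

theorem R_two : R O (2 : k) 2 := by
  have := R_const (O := O) (2 : ℂ)
  rwa [map_ofNat] at this

theorem R_three : R O (3 : k) 3 := by
  have := R_const (O := O) (3 : ℂ)
  rwa [map_ofNat] at this

theorem R_one : R O (1 : k) 1 := by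
  have := R_const (O := O) (1 : ℂ)
  rwa [map_one] at this

theorem R_unique (hC : ∀ c : ℂ, algebraMap ℂ k c ∈ O) {a : k} {c d : ℂ} (h : R O a c) (h' : R O a d) : c = d := by
  have := R_sub h h'
  rw [sub_self] at this
  exact sub_eq_zero.1 (R_zero hC this)

theorem v_div_le {a b : k} (hb : O.valuation b = 1) (h : O.valuation (a * b) ≤ 1) : O.valuation a ≤ 1 := by
  rwa [map_mul, hb, mul_one] at h

theorem exists_cubic (c0 c1 c2 c3 : ℂ) : ∃ X U : ℂ, (X ≠ 0 ∨ U ≠ 0) ∧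
    c0 * X ^ 3 + c1 * X ^ 2 * U + c2 * X * U ^ 2 + c3 * U ^ 3 = 0 := by
  by_cases h : c0 = 0
  · exact ⟨1, 0, Or.inl one_ne_zero, by rw [h]; ring⟩
  · have hd : (Polynomial.C c0 * Polynomial.X ^ 3 + Polynomial.C c1 * Polynomial.X ^ 2 +
        Polynomial.C c2 * Polynomial.X + Polynomial.C c3).degree = 3 := Polynomial.degree_cubic h
    obtain ⟨z, hz⟩ := IsAlgClosed.exists_root (Polynomial.C c0 * Polynomial.X ^ 3 + Polynomial.C c1 * Polynomial.X ^ 2 +
        Polynomial.C c2 * Polynomial.X + Polynomial.C c3) (by rw [hd]; norm_num)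
    refine ⟨z, 1, Or.inr one_ne_zero, ?_⟩
    rw [Polynomial.IsRoot.def] at hz
    simp only [Polynomial.eval_add, Polynomial.eval_mul, Polynomial.eval_C, Polynomial.eval_pow,
      Polynomial.eval_X] at hz
    rw [← hz]
    ring

end Loc25

open Loc25 in
theorem local_line25 {k : Type} [Field k] [Algebra ℂ k] (O : ValuationSubring k)
    (hC : ∀ c : ℂ, algebraMap ℂ k c ∈ O)
    (hres : ∀ a ∈ O, ∃ c : ℂ, O.valuation (a - algebraMap ℂ k c) < 1)
    (b0 b1 b2 q0 q1 q2 c0 c1 c2 c3 : ℂ) (x u t f p p' p'' : k)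
    (hx : O.valuation x < 1) (hu : O.valuation u < 1) (hu0 : u ≠ 0) (ht : O.valuation t < 1)
    (hf : O.valuation f < 1) (hp1 : O.valuation p ≤ 1)
    (hp' : O.valuation p' ≤ 1) (hp'' : O.valuation p'' ≤ 1)
    (hp : b0 = 0 → b1 = 0 → b2 = 0 → O.valuation p = 1)
    (e1 : algebraMap ℂ k b0 + algebraMap ℂ k b1 * x + algebraMap ℂ k b2 * u + algebraMap ℂ k q0 * x ^ 2 +
      algebraMap ℂ k q1 * x * u + algebraMap ℂ k q2 * u ^ 2 + algebraMap ℂ k c0 * x ^ 3 +
      algebraMap ℂ k c1 * x ^ 2 * u + algebraMap ℂ k c2 * x * u ^ 2 + algebraMap ℂ k c3 * u ^ 3 + t * p = u ^ 3 * f)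
    (e2 : algebraMap ℂ k b1 + 2 * algebraMap ℂ k q0 * x + algebraMap ℂ k q1 * u +
      3 * algebraMap ℂ k c0 * x ^ 2 + 2 * algebraMap ℂ k c1 * x * u + algebraMap ℂ k c2 * u ^ 2 + t * p' = 0)
    (e3 : algebraMap ℂ k b2 + algebraMap ℂ k q1 * x + 2 * algebraMap ℂ k q2 * u +
      algebraMap ℂ k c1 * x ^ 2 + 2 * algebraMap ℂ k c2 * x * u + 3 * algebraMap ℂ k c3 * u ^ 2 + t * p'' =
      3 * u ^ 2 * f) :
    b0 = 0 ∧ b1 = 0 ∧ b2 = 0 ∧ ∃ X U : ℂ, (X ≠ 0 ∨ U ≠ 0) ∧ q0 * X ^ 2 + q1 * X * U + q2 * U ^ 2 = 0 ∧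
      c0 * X ^ 3 + c1 * X ^ 2 * U + c2 * X * U ^ 2 + c3 * U ^ 3 = 0 := by
  have rx : R O x 0 := R_small hx
  have ru : R O u 0 := R_small hu
  have rt : R O t 0 := R_small ht
  have rf : R O f 0 := R_small hf
  obtain ⟨P0, rp⟩ : ∃ c, R O p c := hres p ((O.valuation_le_one_iff _).1 hp1)
  obtain ⟨P1, rp'⟩ : ∃ c, R O p' c := hres p' ((O.valuation_le_one_iff _).1 hp')
  obtain ⟨P2, rp''⟩ : ∃ c, R O p'' c := hres p'' ((O.valuation_le_one_iff _).1 hp'')
  have k0 := @R_const k _ _ O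
  have hb0 : b0 = 0 := by
    have h := R_sub (R_add (R_add (R_add (R_add (R_add (R_add (R_add (R_add (R_add (R_add (k0 b0)
      (R_mul hC (k0 b1) rx)) (R_mul hC (k0 b2) ru)) (R_mul hC (k0 q0) (R_pow hC rx 2)))
      (R_mul hC (R_mul hC (k0 q1) rx) ru)) (R_mul hC (k0 q2) (R_pow hC ru 2)))
      (R_mul hC (k0 c0) (R_pow hC rx 3))) (R_mul hC (R_mul hC (k0 c1) (R_pow hC rx 2)) ru))
      (R_mul hC (R_mul hC (k0 c2) rx) (R_pow hC ru 2))) (R_mul hC (k0 c3) (R_pow hC ru 3)))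
      (R_mul hC rt rp)) (R_mul hC (R_pow hC ru 3) rf)
    rw [e1, sub_self] at h
    have := R_zero hC h
    linear_combination this
  have hb1 : b1 = 0 := by
    have h := R_add (R_add (R_add (R_add (R_add (R_add (k0 b1) (R_mul hC (R_mul hC R_two (k0 q0)) rx))
      (R_mul hC (k0 q1) ru)) (R_mul hC (R_mul hC R_three (k0 c0)) (R_pow hC rx 2)))
      (R_mul hC (R_mul hC (R_mul hC R_two (k0 c1)) rx) ru)) (R_mul hC (k0 c2) (R_pow hC ru 2)))
      (R_mul hC rt rp')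
    rw [e2] at h
    have := R_zero hC h
    linear_combination this
  have hb2 : b2 = 0 := by
    have h := R_sub (R_add (R_add (R_add (R_add (R_add (R_add (k0 b2) (R_mul hC (k0 q1) rx))
      (R_mul hC (R_mul hC R_two (k0 q2)) ru)) (R_mul hC (k0 c1) (R_pow hC rx 2)))
      (R_mul hC (R_mul hC (R_mul hC R_two (k0 c2)) rx) ru)) (R_mul hC (R_mul hC R_three (k0 c3)) (R_pow hC ru 2)))
      (R_mul hC rt rp'')) (R_mul hC (R_mul hC R_three (R_pow hC ru 2)) rf)
    rw [e3, sub_self] at h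
    have := R_zero hC h
    linear_combination this
  refine ⟨hb0, hb1, hb2, ?_⟩
  have hpv := hp hb0 hb1 hb2
  subst hb0 hb1 hb2
  rw [map_zero] at e1 e2 e3
  -- the larger one
  obtain ⟨μ, X', U', hμ0, hμ, hxe, hue, hX, hU, h1⟩ : ∃ μ X' U' : k, μ ≠ 0 ∧ O.valuation μ < 1 ∧ x = μ * X' ∧
      u = μ * U' ∧ O.valuation X' ≤ 1 ∧ O.valuation U' ≤ 1 ∧ (X' = 1 ∨ U' = 1) := by
    rcases le_total (O.valuation x) (O.valuation u) with h | h
    · refine ⟨u, x / u, 1, hu0, hu, (mul_div_cancel₀ _ hu0).symm, (mul_one _).symm, ?_, by rw [map_one], Or.inr rfl⟩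
      rw [map_div₀]
      exact div_le_one_of_le₀ h zero_le
    · have hx0 : x ≠ 0 := by
        intro h0
        rw [h0, map_zero] at h
        exact hu0 ((Valuation.zero_iff _).1 (le_antisymm h zero_le))
      refine ⟨x, 1, u / x, hx0, hx, (mul_one _).symm, (mul_div_cancel₀ _ hx0).symm, by rw [map_one], ?_, Or.inl rfl⟩
      rw [map_div₀]
      exact div_le_one_of_le₀ h zero_le
  obtain ⟨X0, rX⟩ : ∃ c, R O X' c := hres X' ((O.valuation_le_one_iff _).1 hX)
  obtain ⟨U0, rU⟩ : ∃ c, R O U' c := hres U' ((O.valuation_le_one_iff _).1 hU)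
  have hne : X0 ≠ 0 ∨ U0 ≠ 0 := by
    rcases h1 with h1 | h1
    · left
      rw [h1] at rX
      rw [R_unique hC rX R_one]
      exact one_ne_zero
    · right
      rw [h1] at rU
      rw [R_unique hC rU R_one]
      exact one_ne_zero
  have rμ : R O μ 0 := R_small hμ
  subst hxe hue
  -- tau
  obtain ⟨τ, hτ⟩ : ∃ τ : k, t = μ ^ 2 * τ := ⟨t / μ ^ 2, (mul_div_cancel₀ _ (pow_ne_zero 2 hμ0)).symm⟩
  subst hτ
  have f1 : τ * p = μ * U' ^ 3 * f - (algebraMap ℂ k q0 * X' ^ 2 + algebraMap ℂ k q1 * X' * U' +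
      algebraMap ℂ k q2 * U' ^ 2 + μ * (algebraMap ℂ k c0 * X' ^ 3 +
      algebraMap ℂ k c1 * X' ^ 2 * U' + algebraMap ℂ k c2 * X' * U' ^ 2 + algebraMap ℂ k c3 * U' ^ 3)) := by
    refine mul_left_cancel₀ (pow_ne_zero 2 hμ0) ?_
    linear_combination e1
  have hτ1 : O.valuation τ ≤ 1 := by
    refine v_div_le hpv ?_
    rw [f1]
    exact R_le hC (R_sub (R_mul hC (R_mul hC rμ (R_pow hC rU 3)) rf) (R_add (R_add (R_add
      (R_mul hC (k0 q0) (R_pow hC rX 2)) (R_mul hC (R_mul hC (k0 q1) rX) rU)) (R_mul hC (k0 q2) (R_pow hC rU 2)))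
      (R_mul hC rμ (R_add (R_add (R_add (R_mul hC (k0 c0) (R_pow hC rX 3))
      (R_mul hC (R_mul hC (k0 c1) (R_pow hC rX 2)) rU)) (R_mul hC (R_mul hC (k0 c2) rX) (R_pow hC rU 2)))
      (R_mul hC (k0 c3) (R_pow hC rU 3))))))
  obtain ⟨τ0, rτ⟩ : ∃ c, R O τ c := hres τ ((O.valuation_le_one_iff _).1 hτ1)
  have f2 : 2 * algebraMap ℂ k q0 * X' + algebraMap ℂ k q1 * U' + μ * (
      3 * algebraMap ℂ k c0 * X' ^ 2 + 2 * algebraMap ℂ k c1 * X' * U' + algebraMap ℂ k c2 * U' ^ 2 + τ * p') = 0 := by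
    refine mul_left_cancel₀ hμ0 ?_
    linear_combination e2
  have f3 : algebraMap ℂ k q1 * X' + 2 * algebraMap ℂ k q2 * U' + μ * (
      algebraMap ℂ k c1 * X' ^ 2 + 2 * algebraMap ℂ k c2 * X' * U' + 3 * algebraMap ℂ k c3 * U' ^ 2 + τ * p'' -
      3 * U' ^ 2 * f) = 0 := by
    refine mul_left_cancel₀ hμ0 ?_
    linear_combination e3
  have rcx := R_add (R_add (R_mul hC (R_mul hC R_three (k0 c0)) (R_pow hC rX 2))
      (R_mul hC (R_mul hC (R_mul hC R_two (k0 c1)) rX) rU)) (R_mul hC (k0 c2) (R_pow hC rU 2))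
  have rcu := R_add (R_add (R_mul hC (k0 c1) (R_pow hC rX 2))
      (R_mul hC (R_mul hC (R_mul hC R_two (k0 c2)) rX) rU)) (R_mul hC (R_mul hC R_three (k0 c3)) (R_pow hC rU 2))
  have rc := R_add (R_add (R_add (R_mul hC (k0 c0) (R_pow hC rX 3))
      (R_mul hC (R_mul hC (k0 c1) (R_pow hC rX 2)) rU)) (R_mul hC (R_mul hC (k0 c2) rX) (R_pow hC rU 2)))
      (R_mul hC (k0 c3) (R_pow hC rU 3))
  have g2 : 2 * q0 * X0 + q1 * U0 = 0 := by
    have h := R_add (R_add (R_mul hC (R_mul hC R_two (k0 q0)) rX) (R_mul hC (k0 q1) rU))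
      (R_mul hC rμ (R_add rcx (R_mul hC rτ rp')))
    rw [f2] at h
    have := R_zero hC h
    linear_combination this
  have g3 : q1 * X0 + 2 * q2 * U0 = 0 := by
    have h := R_add (R_add (R_mul hC (k0 q1) rX) (R_mul hC (R_mul hC R_two (k0 q2)) rU))
      (R_mul hC rμ (R_sub (R_add rcu (R_mul hC rτ rp'')) (R_mul hC (R_mul hC R_three (R_pow hC rU 2)) rf)))
    rw [f3] at h
    have := R_zero hC h
    linear_combination this
  obtain ⟨e, he0, he1, he2⟩ : ∃ e : ℂ, q0 = e * U0 ^ 2 ∧ q1 = -2 * e * U0 * X0 ∧ q2 = e * X0 ^ 2 := by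
    rcases hne with h | h
    · refine ⟨q2 / X0 ^ 2, ?_, ?_, ?_⟩
      · field_simp
        linear_combination (1 / 2 : ℂ) * X0 * g2 - (1 / 2 : ℂ) * U0 * g3
      · field_simp
        linear_combination g3
      · field_simp
    · refine ⟨q0 / U0 ^ 2, ?_, ?_, ?_⟩
      · field_simp
      · field_simp
        linear_combination g2
      · field_simp
        linear_combination (1 / 2 : ℂ) * U0 * g3 - (1 / 2 : ℂ) * X0 * g2
  by_cases hez : e = 0
  · obtain ⟨X, U, h1, h2⟩ := exists_cubic c0 c1 c2 c3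
    refine ⟨X, U, h1, ?_, h2⟩
    rw [he0, he1, he2, hez]
    ring
  refine ⟨X0, U0, hne, by rw [he0, he1, he2]; ring, ?_⟩
  -- lambda
  obtain ⟨lam, hlam⟩ : ∃ lam : k, algebraMap ℂ k U0 * X' - algebraMap ℂ k X0 * U' = μ * lam :=
    ⟨_, (mul_div_cancel₀ _ hμ0).symm⟩
  have m0 : algebraMap ℂ k q0 = algebraMap ℂ k e * algebraMap ℂ k U0 ^ 2 := by rw [he0, map_mul, map_pow]
  have m1 : algebraMap ℂ k q1 = -2 * algebraMap ℂ k e * algebraMap ℂ k U0 * algebraMap ℂ k X0 := by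
    rw [he1, map_mul, map_mul, map_mul, map_neg, map_ofNat]
  have m2 : algebraMap ℂ k q2 = algebraMap ℂ k e * algebraMap ℂ k X0 ^ 2 := by rw [he2, map_mul, map_pow]
  have g2' : 2 * algebraMap ℂ k e * algebraMap ℂ k U0 * lam +
      (3 * algebraMap ℂ k c0 * X' ^ 2 + 2 * algebraMap ℂ k c1 * X' * U' + algebraMap ℂ k c2 * U' ^ 2 + τ * p') = 0 := by
    refine mul_left_cancel₀ hμ0 ?_
    rw [m0, m1] at f2
    linear_combination f2 - 2 * algebraMap ℂ k e * algebraMap ℂ k U0 * hlam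
  have g3' : -2 * algebraMap ℂ k e * algebraMap ℂ k X0 * lam +
      (algebraMap ℂ k c1 * X' ^ 2 + 2 * algebraMap ℂ k c2 * X' * U' + 3 * algebraMap ℂ k c3 * U' ^ 2 + τ * p'' -
      3 * U' ^ 2 * f) = 0 := by
    refine mul_left_cancel₀ hμ0 ?_
    rw [m1, m2] at f3
    linear_combination f3 + 2 * algebraMap ℂ k e * algebraMap ℂ k X0 * hlam
  have hlam1 : O.valuation lam ≤ 1 := by
    rcases hne with h | h
    · have hv : O.valuation (algebraMap ℂ k (-2 * e * X0)) = 1 :=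
        v_const hC (mul_ne_zero (mul_ne_zero (by norm_num) hez) h)
      refine v_div_le hv ?_
      have : lam * algebraMap ℂ k (-2 * e * X0) = -(algebraMap ℂ k c1 * X' ^ 2 + 2 * algebraMap ℂ k c2 * X' * U' +
          3 * algebraMap ℂ k c3 * U' ^ 2 + τ * p'' - 3 * U' ^ 2 * f) := by
        rw [map_mul, map_mul, map_neg, map_ofNat]
        linear_combination g3'
      rw [this]
      exact R_le hC (R_neg (R_sub (R_add rcu (R_mul hC rτ rp'')) (R_mul hC (R_mul hC R_three (R_pow hC rU 2)) rf)))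
    · have hv : O.valuation (algebraMap ℂ k (2 * e * U0)) = 1 :=
        v_const hC (mul_ne_zero (mul_ne_zero (by norm_num) hez) h)
      refine v_div_le hv ?_
      have : lam * algebraMap ℂ k (2 * e * U0) = -(3 * algebraMap ℂ k c0 * X' ^ 2 + 2 * algebraMap ℂ k c1 * X' * U' +
          algebraMap ℂ k c2 * U' ^ 2 + τ * p') := by
        rw [map_mul, map_mul, map_ofNat]
        linear_combination g2'
      rw [this]
      exact R_le hC (R_neg (R_add rcx (R_mul hC rτ rp')))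
  obtain ⟨l0, rl⟩ : ∃ c, R O lam c := hres lam ((O.valuation_le_one_iff _).1 hlam1)
  obtain ⟨σ, hσ⟩ : ∃ σ : k, τ = μ * σ := ⟨_, (mul_div_cancel₀ _ hμ0).symm⟩
  have f4 : σ * p = U' ^ 3 * f - (algebraMap ℂ k e * (μ * lam ^ 2) + (algebraMap ℂ k c0 * X' ^ 3 +
      algebraMap ℂ k c1 * X' ^ 2 * U' + algebraMap ℂ k c2 * X' * U' ^ 2 + algebraMap ℂ k c3 * U' ^ 3)) := by
    refine mul_left_cancel₀ hμ0 ?_
    rw [m0, m1, m2, hσ] at f1
    linear_combination f1 - algebraMap ℂ k e * (algebraMap ℂ k U0 * X' - algebraMap ℂ k X0 * U' + μ * lam) * hlam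
  have hσ1 : O.valuation σ ≤ 1 := by
    refine v_div_le hpv ?_
    rw [f4]
    exact R_le hC (R_sub (R_mul hC (R_pow hC rU 3) rf) (R_add (R_mul hC (k0 e) (R_mul hC rμ (R_pow hC rl 2))) rc))
  have rτ0 : R O τ 0 := by
    refine R_small ?_
    rw [hσ, map_mul]
    exact lt_of_le_of_lt (mul_le_of_le_one_right' hσ1) hμ
  have z2 := R_add (R_mul hC (R_mul hC (R_mul hC R_two (k0 e)) (k0 U0)) rl) (R_add rcx (R_mul hC rτ0 rp'))
  rw [g2'] at z2
  have z3 := R_add (R_mul hC (R_mul hC (R_mul hC (R_neg R_two) (k0 e)) (k0 X0)) rl)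
    (R_sub (R_add rcu (R_mul hC rτ0 rp'')) (R_mul hC (R_mul hC R_three (R_pow hC rU 2)) rf))
  rw [g3'] at z3
  have y2 := R_zero hC z2
  have y3 := R_zero hC z3
  linear_combination (1 / 3 : ℂ) * X0 * y2 + (1 / 3 : ℂ) * U0 * y3

end Pool.Agent.QX
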