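import Pool.Agent.Lib_MP_1209e6_fl.S4

/-! Logarithmic derivatives at a place of a function field of one variable. -/

set_option autoImplicit false

open Polynomial Pool.Agent.Campana

noncomputable section

namespace Pool.Agent.LD

variable {K : Type} [Field K] [Algebra ℂ K]

/-- `W (u, b)` -/
def ev2 (u b : K) (W : ℂ[X][X]) : K := W.eval₂ ((aeval u : ℂ[X] →ₐ[ℂ] K) : ℂ[X] →+* K) b

theorem exists_rel (u a : K) (H : ¬ AlgebraicIndependent ℂ ![u, a]) :
    ∃ P : ℂ[X][X], P ≠ 0 ∧ ev2 u a P = 0 := by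
  by_contra hcon
  push Not at hcon
  apply H
  rw [algebraicIndependent_iff]
  intro q hq
  let Ψ : MvPolynomial (Fin 2) ℂ →+* ℂ[X][X] :=
    MvPolynomial.eval₂Hom ((C : ℂ[X] →+* ℂ[X][X]).comp (C : ℂ →+* ℂ[X])) ![C X, X]
  let Θ : ℂ[X][X] →+* MvPolynomial (Fin 2) ℂ :=
    eval₂RingHom ((aeval (MvPolynomial.X 0 : MvPolynomial (Fin 2) ℂ) :
      ℂ[X] →ₐ[ℂ] MvPolynomial (Fin 2) ℂ) : ℂ[X] →+* MvPolynomial (Fin 2) ℂ) (MvPolynomial.X 1)
  have h1 : Θ.comp Ψ = RingHom.id _ := by
    apply MvPolynomial.ringHom_ext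
    · intro c
      simp [Ψ, Θ]
    · intro i
      fin_cases i
      · simp [Ψ, Θ]
      · simp [Ψ, Θ]
  have h2 : ((eval₂RingHom ((aeval u : ℂ[X] →ₐ[ℂ] K) : ℂ[X] →+* K) a)).comp Ψ =
      ((MvPolynomial.aeval ![u, a] : MvPolynomial (Fin 2) ℂ →ₐ[ℂ] K) : MvPolynomial (Fin 2) ℂ →+* K) := by
    apply MvPolynomial.ringHom_ext
    · intro c
      simp [Ψ]
    · intro i
      fin_cases i
      · simp [Ψ]
      · simp [Ψ]
  have h3 : ev2 u a (Ψ q) = 0 := by
    have h4 := DFunLike.congr_fun h2 q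
    exact h4.trans hq
  have h5 : Ψ q = 0 := by
    by_contra h
    exact hcon _ h h3
  have h6 := DFunLike.congr_fun h1 q
  rw [RingHom.comp_apply, h5, map_zero, RingHom.id_apply] at h6
  exact h6.symm

theorem exists_sep (u a : K) (hu : Transcendental ℂ u) : ∀ (d : ℕ) (P : ℂ[X][X]), P.natDegree ≤ d → P ≠ 0 →
    ev2 u a P = 0 → ∃ Q : ℂ[X][X], ev2 u a Q = 0 ∧ ev2 u a (derivative Q) ≠ 0 := by
  intro d
  induction d with
  | zero =>
    intro P hd hP h0
    exfalso
    have h1 := eq_C_of_natDegree_le_zero hd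
    rw [h1, ev2, eval₂_C] at h0
    apply hP
    rw [h1]
    have h2 : P.coeff 0 = 0 := (transcendental_iff.1 hu) _ h0
    rw [h2, C_0]
  | succ d ih =>
    intro P hd hP h0
    by_cases h1 : ev2 u a (derivative P) = 0
    · by_cases h2 : P.natDegree = 0
      · exact ih P (by omega) hP h0
      · refine ih (derivative P) ?_ ?_ h1
        · have := natDegree_derivative_lt h2
          omega
        · intro h3
          exact h2 (derivative_eq_zero.1 h3)
    · exact ⟨P, h0, h1⟩

theorem chain2 (D : Derivation ℂ K K) (u b : K) (W : ℂ[X][X]) : ∃ V : ℂ[X][X],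
    D (ev2 u b W) = ev2 u b V * D u + ev2 u b (derivative W) * D b := by
  induction W using Polynomial.induction_on' with
  | add p q hp hq =>
    obtain ⟨V, hV⟩ := hp
    obtain ⟨V', hV'⟩ := hq
    refine ⟨V + V', ?_⟩
    have e1 : ev2 u b (p + q) = ev2 u b p + ev2 u b q := eval₂_add _ _
    have e2 : ev2 u b (V + V') = ev2 u b V + ev2 u b V' := eval₂_add _ _
    have e3 : ev2 u b (derivative (p + q)) = ev2 u b (derivative p) + ev2 u b (derivative q) := by
      rw [derivative_add]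
      exact eval₂_add _ _
    rw [e1, e2, e3, map_add, hV, hV']
    ring
  | monomial n p =>
    refine ⟨monomial n (derivative p), ?_⟩
    have e1 : ev2 u b (monomial n p) = aeval u p * b ^ n := by rw [ev2, eval₂_monomial]; rfl
    have e2 : ev2 u b (monomial n (derivative p)) = aeval u (derivative p) * b ^ n := by
      rw [ev2, eval₂_monomial]; rfl
    have e3 : ev2 u b (derivative (monomial n p)) = aeval u p * n * b ^ (n - 1) := by
      rw [derivative_monomial, ev2, eval₂_monomial]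
      simp
    rw [e1, e2, e3, Derivation.leibniz, Derivation.leibniz_pow]
    have e4 : D (aeval u p) = aeval u (derivative p) * D u := by
      rw [Derivation.map_aeval, smul_eq_mul]
    rw [e4]
    simp only [smul_eq_mul, nsmul_eq_mul]
    ring

variable {O : ValuationSubring K}

theorem ev2_mem (hC : ∀ c : ℂ, algebraMap ℂ K c ∈ O) {u b : K} (hu : u ∈ O) (hb : b ∈ O) (W : ℂ[X][X]) :
    ev2 u b W ∈ O := by
  have h1 : ∀ p : ℂ[X], aeval u p ∈ O := by
    intro p
    rw [aeval_eq_sum_range]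
    refine sum_mem fun i _ => ?_
    rw [Algebra.smul_def]
    exact O.mul_mem _ _ (hC _) (pow_mem hu i)
  rw [ev2, eval₂_eq_sum_range]
  exact sum_mem fun i _ => O.mul_mem _ _ (h1 _) (pow_mem hb i)

/-- the data of a uniformizer -/
structure Unif (O : ValuationSubring K) (u : K) : Prop where
  cst : ∀ c : ℂ, algebraMap ℂ K c ∈ O
  mem : u ∈ O
  ne : u ≠ 0
  inv : u⁻¹ ∉ O
  div : ∀ z ∈ O, z⁻¹ ∉ O → ∃ s ∈ O, z = u * s
  big : ∀ z : K, ∃ N : ℕ, u ^ N * z ∈ O

theorem exists_Unif (hO : IsPlace O) : ∃ u : K, Unif O u := by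
  obtain ⟨u, h1, h2, h3, h4, h5⟩ := Pool.Agent.CampanaFlow.exists_uniformizer O hO
  exact ⟨u, ⟨hO.1, h1, h2, h3, h4, h5⟩⟩

theorem Unif.tr {u : K} (h : Unif O u) : Transcendental ℂ u := by
  have h1 : CharZero ℂ := inferInstance
  exact Pool.Agent.CampanaFlow.transcendental_of_inv_not_mem O h.cst h.inv

theorem Unif.inv_mem {u : K} (h : Unif O u) {z : K} (hz : z ∈ O) (hn : ¬ ∃ s ∈ O, z = u * s) : z⁻¹ ∈ O := by
  by_contra hcon
  exact hn (h.div z hz hcon)

theorem Unif.not_unit {u : K} (h : Unif O u) {s w : K} (hs : s ∈ O) (hw : w⁻¹ ∈ O) (hw0 : w ≠ 0)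
    (he : w = u * s) : False := by
  apply h.inv
  have h1 : u⁻¹ = s * w⁻¹ := by
    rw [he]
    have hs0 : s ≠ 0 := by
      rintro rfl
      rw [mul_zero] at he
      exact hw0 he
    have := h.ne
    field_simp
  rw [h1]
  exact O.mul_mem _ _ hs hw

theorem Unif.order {u : K} (h : Unif O u) {z : K} (hz : z ∈ O) :
    ∃ (n : ℕ) (w : K), w ∈ O ∧ w⁻¹ ∈ O ∧ z = u ^ n * w := by
  classical
  have hex := h.big z⁻¹
  refine ⟨Nat.find hex, z * (u ^ Nat.find hex)⁻¹, ?_, ?_, ?_⟩
  · by_contra hcon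
    have h1 : u ^ Nat.find hex * z⁻¹ ∈ O := Nat.find_spec hex
    obtain ⟨s, hs, he⟩ := h.div _ h1 (by
      intro h2
      apply hcon
      have h3 : (u ^ Nat.find hex * z⁻¹)⁻¹ = z * (u ^ Nat.find hex)⁻¹ := by
        rw [mul_inv, inv_inv, mul_comm]
      rwa [h3] at h2)
    rcases Nat.eq_zero_or_pos (Nat.find hex) with h0 | h0
    · rw [h0, pow_zero, inv_one, mul_one] at hcon
      exact hcon hz
    · obtain ⟨m, hm⟩ := Nat.exists_eq_succ_of_ne_zero h0.ne'
      have h4 : u ^ m * z⁻¹ ∈ O := by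
        have h5 : u ^ m * z⁻¹ = s := by
          rw [hm, pow_succ] at he
          have h6 : u * (u ^ m * z⁻¹) = u * s := by rw [← he]; ring
          exact mul_left_cancel₀ h.ne h6
        rwa [h5]
      have := Nat.find_min' hex h4
      omega
  · have h3 : (z * (u ^ Nat.find hex)⁻¹)⁻¹ = u ^ Nat.find hex * z⁻¹ := by
      rw [mul_inv, inv_inv, mul_comm]
    rw [h3]
    exact Nat.find_spec hex
  · have h5 := pow_ne_zero (Nat.find hex) h.ne
    rw [mul_comm z, mul_inv_cancel_left₀ h5]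

theorem Unif.dvd {u : K} (h : Unif O u) : ∀ (m : ℕ) (p : ℂ[X]), (∃ s ∈ O, aeval u p = u ^ m * s) → X ^ m ∣ p := by
  intro m
  induction m with
  | zero => intro p _; rw [pow_zero]; exact one_dvd _
  | succ m ih =>
    rintro p ⟨s, hs, he⟩
    have h1 := X_mul_divX_add p
    have hmem : ∀ p : ℂ[X], aeval u p ∈ O := by
      intro p
      rw [aeval_eq_sum_range]
      refine sum_mem fun i _ => ?_
      rw [Algebra.smul_def]
      exact O.mul_mem _ _ (h.cst _) (pow_mem h.mem i)
    have h2 : aeval u p = u * aeval u p.divX + algebraMap ℂ K (p.coeff 0) := by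
      conv_lhs => rw [← h1]
      rw [map_add, map_mul, aeval_X, aeval_C]
    have h3 : p.coeff 0 = 0 := by
      by_contra hc
      refine h.not_unit (w := algebraMap ℂ K (p.coeff 0)) (s := u ^ m * s - aeval u p.divX) ?_ ?_ ?_ ?_
      · exact sub_mem (O.mul_mem _ _ (pow_mem h.mem m) hs) (hmem _)
      · rw [← map_inv₀]
        exact h.cst _
      · exact (_root_.map_ne_zero _).2 hc
      · rw [h2, pow_succ] at he
        linear_combination he
    rw [h3, map_zero, add_zero] at h2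
    have h4 : aeval u p.divX = u ^ m * s := by
      rw [h2, pow_succ] at he
      have h5 : u * aeval u p.divX = u * (u ^ m * s) := by rw [he]; ring
      exact mul_left_cancel₀ h.ne h5
    obtain ⟨r, hr⟩ := ih p.divX ⟨s, hs, h4⟩
    refine ⟨r, ?_⟩
    rw [h3, C_0, add_zero, hr] at h1
    rw [← h1, pow_succ]
    ring

/-- the residue field is `ℂ` -/
theorem Unif.res {u : K} (h : Unif O u) (H : ∀ x y : K, ¬ AlgebraicIndependent ℂ ![x, y]) {a : K} (ha : a ∈ O) :
    ∃ (c : ℂ) (b : K), b ∈ O ∧ a = algebraMap ℂ K c + u * b := by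
  obtain ⟨P, hP0, hP⟩ := exists_rel u a (H u a)
  have hfin : FiniteMultiplicity (C X : ℂ[X][X]) P :=
    FiniteMultiplicity.of_not_isUnit (by
      rw [isUnit_C]
      exact not_isUnit_X) hP0
  obtain ⟨P1, hP1, hnd⟩ := hfin.exists_eq_pow_mul_and_not_dvd
  generalize multiplicity (C X : ℂ[X][X]) P = e at hP1
  have h1 : ev2 u a P1 = 0 := by
    rw [hP1, ev2, eval₂_mul, eval₂_pow, eval₂_C] at hP
    have h2 : ((aeval u : ℂ[X] →ₐ[ℂ] K) : ℂ[X] →+* K) X = u := aeval_X _
    rw [h2] at hP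
    exact (mul_eq_zero.1 hP).resolve_left (pow_ne_zero _ h.ne)
  let p : ℂ[X] := P1.map (evalRingHom 0)
  have hp : p ≠ 0 := by
    intro h0
    apply hnd
    rw [C_dvd_iff_dvd_coeff]
    intro i
    rw [X_dvd_iff, coeff_zero_eq_eval_zero]
    have h2 := congrArg (fun q => q.coeff i) h0
    simpa [p, coeff_map] using h2
  have h2 : (C X : ℂ[X][X]) ∣ P1 - p.map C := by
    rw [C_dvd_iff_dvd_coeff]
    intro i
    rw [X_dvd_iff, coeff_sub, coeff_map, coeff_sub, coeff_C_zero, coeff_map, coeff_zero_eq_eval_zero]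
    simp
  obtain ⟨P2, hP2⟩ := h2
  have h3 : aeval a p = u * (- ev2 u a P2) := by
    have h4 : ev2 u a (P1 - p.map C) = u * ev2 u a P2 := by
      rw [hP2, ev2, eval₂_mul, eval₂_C]
      have h2 : ((aeval u : ℂ[X] →ₐ[ℂ] K) : ℂ[X] →+* K) X = u := aeval_X _
      rw [h2]
      rfl
    have h5 : ev2 u a (p.map C) = aeval a p := by
      rw [ev2, eval₂_map, aeval_def]
      congr 1
      ext c
      simp
    have h6 : ev2 u a (P1 - p.map C) = ev2 u a P1 - ev2 u a (p.map C) := eval₂_sub _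
    rw [h6, h1, h5] at h4
    linear_combination -h4
  have key : ∀ (d : ℕ) (p : ℂ[X]), p.natDegree ≤ d → p ≠ 0 → (∃ s ∈ O, aeval a p = u * s) →
      ∃ (c : ℂ) (b : K), b ∈ O ∧ a = algebraMap ℂ K c + u * b := by
    intro d
    induction d with
    | zero =>
      rintro p hd hp ⟨s, hs, he⟩
      exfalso
      have h7 := eq_C_of_natDegree_le_zero hd
      have h8 : p.coeff 0 ≠ 0 := by
        intro h9
        rw [h9, C_0] at h7
        exact hp h7
      rw [h7, aeval_C] at he
      exact h.not_unit hs (by rw [← map_inv₀]; exact h.cst _) ((_root_.map_ne_zero _).2 h8) he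
    | succ d ih =>
      rintro p hd hp ⟨s, hs, he⟩
      by_cases h0 : p.natDegree = 0
      · exact ih p (by omega) hp ⟨s, hs, he⟩
      · have hdeg : p.degree ≠ 0 := by
          intro h9
          exact h0 (natDegree_eq_of_degree_eq_some h9)
        obtain ⟨r, hr⟩ := IsAlgClosed.exists_root p hdeg
        obtain ⟨q, hq⟩ := dvd_iff_isRoot.2 hr
        have hq0 : q ≠ 0 := by
          rintro rfl
          rw [mul_zero] at hq
          exact hp hq
        have haq : aeval a q ∈ O := by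
          rw [aeval_eq_sum_range]
          refine sum_mem fun i _ => ?_
          rw [Algebra.smul_def]
          exact O.mul_mem _ _ (h.cst _) (pow_mem ha i)
        have h10 : (a - algebraMap ℂ K r) * aeval a q = u * s := by
          rw [← he, hq, map_mul, map_sub, aeval_X, aeval_C]
        have h11 : a - algebraMap ℂ K r ∈ O := sub_mem ha (h.cst _)
        by_cases h12 : ∃ s' ∈ O, a - algebraMap ℂ K r = u * s'
        · obtain ⟨s', hs', he'⟩ := h12
          exact ⟨r, s', hs', by linear_combination he'⟩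
        · have h13 := h.inv_mem h11 h12
          have h14 : a - algebraMap ℂ K r ≠ 0 := by
            intro h15
            exact h12 ⟨0, O.zero_mem, by rw [h15, mul_zero]⟩
          refine ih q ?_ hq0 ⟨(a - algebraMap ℂ K r)⁻¹ * s, O.mul_mem _ _ h13 hs, ?_⟩
          · rw [hq, natDegree_mul (X_sub_C_ne_zero r) hq0, natDegree_X_sub_C] at hd
            omega
          · field_simp
            linear_combination h10
  exact key _ p le_rfl hp ⟨_, neg_mem (ev2_mem h.cst h.mem ha P2), h3⟩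

theorem Unif.approx {u : K} (h : Unif O u) (H : ∀ x y : K, ¬ AlgebraicIndependent ℂ ![x, y]) {a : K} (ha : a ∈ O)
    (n : ℕ) : ∃ (T : ℂ[X]) (b : K), b ∈ O ∧ a = aeval u T + u ^ n * b := by
  induction n with
  | zero => exact ⟨0, a, ha, by rw [map_zero, zero_add, pow_zero, one_mul]⟩
  | succ n ih =>
    obtain ⟨T, b, hb, he⟩ := ih
    obtain ⟨c, b', hb', he'⟩ := h.res H hb
    refine ⟨T + C c * X ^ n, b', hb', ?_⟩
    rw [map_add, map_mul, map_pow, aeval_X, aeval_C, he, he', pow_succ]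
    ring

theorem ev2_add (u b : K) (P Q : ℂ[X][X]) : ev2 u b (P + Q) = ev2 u b P + ev2 u b Q := eval₂_add _ _
theorem ev2_mul (u b : K) (P Q : ℂ[X][X]) : ev2 u b (P * Q) = ev2 u b P * ev2 u b Q := eval₂_mul _ _
theorem ev2_C (u b : K) (p : ℂ[X]) : ev2 u b (C p) = aeval u p := by rw [ev2, eval₂_C]; rfl
theorem ev2_X (u b : K) : ev2 u b X = b := by rw [ev2, eval₂_X]

theorem pow_cancel {u x y : K} (hu : u ≠ 0) (n : ℕ) (h : u ^ n * x = u ^ n * y) : x = y :=
  mul_left_cancel₀ (pow_ne_zero n hu) h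

/-- the derivation with value one at a uniformizer preserves the valuation ring -/
theorem Unif.der_mem {u : K} (h : Unif O u) (H : ∀ x y : K, ¬ AlgebraicIndependent ℂ ![x, y])
    (D : Derivation ℂ K K) (hD : D u = 1) {a : K} (ha : a ∈ O) : D a ∈ O := by
  obtain ⟨P0, hP0, hP1⟩ := exists_rel u a (H u a)
  obtain ⟨P, hP, hP'⟩ := exists_sep u a h.tr _ P0 le_rfl hP0 hP1
  obtain ⟨δ, ε, hε, hε', hδ⟩ := h.order (ev2_mem h.cst h.mem ha (derivative P))
  have hε0 : ε ≠ 0 := by
    rintro rfl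
    rw [mul_zero] at hδ
    exact hP' hδ
  obtain ⟨T, b, hb, he⟩ := h.approx H ha (δ + 1)
  let Q : ℂ[X][X] := (taylor T P).comp (C (X ^ (δ + 1)) * X)
  have hQc : ∀ i, Q.coeff i = (taylor T P).coeff i * (X ^ (δ + 1)) ^ i := fun i => comp_C_mul_X_coeff
  have hQe : ∀ W : ℂ[X][X], ev2 u b ((taylor T W).comp (C (X ^ (δ + 1)) * X)) = ev2 u a W := by
    intro W
    have e1 : eval₂ ((aeval u : ℂ[X] →ₐ[ℂ] K) : ℂ[X] →+* K) b (C (X ^ (δ + 1)) * X : ℂ[X][X]) =
        u ^ (δ + 1) * b := by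
      rw [eval₂_mul, eval₂_C, eval₂_X]
      simp
    rw [ev2, ev2, taylor_apply, eval₂_comp, eval₂_comp, e1, eval₂_add, eval₂_X, eval₂_C]
    congr 1
    rw [he, add_comm]
    rfl
  have hQ : ev2 u b Q = 0 := (hQe P).trans hP
  have hQ' : ev2 u b (derivative Q) = u ^ (δ + 1) * (u ^ δ * ε) := by
    have e1 : derivative Q = C (X ^ (δ + 1)) * (taylor T (derivative P)).comp (C (X ^ (δ + 1)) * X) := by
      rw [show Q = (taylor T P).comp (C (X ^ (δ + 1)) * X) from rfl, derivative_comp, taylor_apply,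
        taylor_apply, derivative_comp]
      simp [mul_comm]
    rw [e1, ev2_mul, hQe, ev2_C, hδ, map_pow, aeval_X]
  have hdvd : (C (X ^ (2 * δ + 2)) : ℂ[X][X]) ∣ Q - C (Q.coeff 0) - C (Q.coeff 1) * X := by
    rw [C_dvd_iff_dvd_coeff]
    intro i
    rcases i with _ | _ | i
    · simp
    · simp [coeff_C]
    · rw [coeff_sub, coeff_sub, coeff_C_mul, coeff_X, coeff_C, hQc]
      simp only [Nat.add_eq_zero_iff, one_ne_zero, and_false, if_false]
      have e2 : ¬ (1 = i + 1 + 1) := by omega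
      rw [if_neg e2, mul_zero, sub_zero, sub_zero]
      refine Dvd.dvd.mul_left ?_ _
      rw [← pow_mul]
      apply pow_dvd_pow
      nlinarith
  obtain ⟨S, hS⟩ := hdvd
  have hQS : Q = C (Q.coeff 0) + C (Q.coeff 1) * X + C (X ^ (2 * δ + 2)) * S := by
    rw [← hS]
    ring
  have e0 : aeval u (Q.coeff 0) + aeval u (Q.coeff 1) * b + u ^ (2 * δ + 2) * ev2 u b S = 0 := by
    rw [hQS, ev2_add, ev2_add, ev2_mul, ev2_mul, ev2_C, ev2_C, ev2_C, ev2_X, map_pow, aeval_X] at hQ
    exact hQ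
  have e1 : aeval u (Q.coeff 1) + u ^ (2 * δ + 2) * ev2 u b (derivative S) = u ^ (δ + 1) * (u ^ δ * ε) := by
    rw [← hQ']
    have e3 : derivative Q = C (Q.coeff 1) + C (X ^ (2 * δ + 2)) * derivative S := by
      conv_lhs => rw [hQS]
      rw [derivative_add, derivative_add, derivative_C, derivative_C_mul, derivative_C_mul, derivative_X,
        zero_add, mul_one]
    rw [e3, ev2_add, ev2_mul, ev2_C, ev2_C, map_pow, aeval_X]
  have hSm := ev2_mem h.cst h.mem hb S
  have hSm' := ev2_mem h.cst h.mem hb (derivative S)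
  obtain ⟨r1, hr1⟩ := h.dvd (2 * δ + 1) (Q.coeff 1) ⟨ε - u * ev2 u b (derivative S),
    sub_mem hε (O.mul_mem _ _ h.mem hSm'), by
      have : aeval u (Q.coeff 1) = u ^ (δ + 1) * (u ^ δ * ε) - u ^ (2 * δ + 2) * ev2 u b (derivative S) := by
        rw [← e1]; ring
      rw [this]
      ring⟩
  have hr1' : aeval u (Q.coeff 1) = u ^ (2 * δ + 1) * aeval u r1 := by
    rw [hr1, map_mul, map_pow, aeval_X]
  have hmem : ∀ p : ℂ[X], aeval u p ∈ O := by
    intro p
    have := ev2_mem h.cst h.mem hb (C p)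
    rwa [ev2_C] at this
  obtain ⟨r0, hr0⟩ := h.dvd (2 * δ + 1) (Q.coeff 0) ⟨- (aeval u r1 * b) - u * ev2 u b S,
    sub_mem (neg_mem (O.mul_mem _ _ (hmem _) hb)) (O.mul_mem _ _ h.mem hSm), by
      have : aeval u (Q.coeff 0) = - (aeval u (Q.coeff 1) * b) - u ^ (2 * δ + 2) * ev2 u b S := by
        linear_combination e0
      rw [this, hr1']
      ring⟩
  have hr0' : aeval u (Q.coeff 0) = u ^ (2 * δ + 1) * aeval u r0 := by
    rw [hr0, map_mul, map_pow, aeval_X]
  let R : ℂ[X][X] := C r0 + C r1 * X + C X * S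
  have hR : ev2 u b R = 0 := by
    have e4 : ev2 u b R = aeval u r0 + aeval u r1 * b + u * ev2 u b S := by
      simp only [R]
      rw [ev2_add, ev2_add, ev2_mul, ev2_mul, ev2_C, ev2_C, ev2_C, ev2_X, aeval_X]
    rw [e4]
    apply pow_cancel h.ne (2 * δ + 1)
    rw [mul_zero]
    rw [hr0', hr1'] at e0
    rw [← e0]
    ring
  have hR' : ev2 u b (derivative R) = ε := by
    have e4 : derivative R = C r1 + C X * derivative S := by
      simp only [R]
      rw [derivative_add, derivative_add, derivative_C, derivative_C_mul, derivative_C_mul, derivative_X,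
        zero_add, mul_one]
    rw [e4, ev2_add, ev2_mul, ev2_C, ev2_C, aeval_X]
    apply pow_cancel h.ne (2 * δ + 1)
    rw [hr1'] at e1
    have e5 : u ^ (2 * δ + 1) * ε = u ^ (δ + 1) * (u ^ δ * ε) := by ring
    rw [e5, ← e1]
    ring
  obtain ⟨V, hV⟩ := chain2 D u b R
  rw [hR, map_zero, hR', hD, mul_one] at hV
  have hDb : D b = - ev2 u b V * ε⁻¹ := by
    field_simp
    linear_combination -hV
  have hDbm : D b ∈ O := by
    rw [hDb]
    exact O.mul_mem _ _ (neg_mem (ev2_mem h.cst h.mem hb V)) hε'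
  have hDa : D a = aeval u (derivative T) + ((δ + 1 : ℕ) : K) * u ^ δ * b + u ^ (δ + 1) * D b := by
    conv_lhs => rw [he]
    rw [map_add, Derivation.leibniz, Derivation.leibniz_pow, Derivation.map_aeval, hD]
    simp only [smul_eq_mul, nsmul_eq_mul, Nat.add_sub_cancel, mul_one]
    ring
  rw [hDa]
  refine add_mem (add_mem (hmem _) (O.mul_mem _ _ (O.mul_mem _ _ ?_ (pow_mem h.mem _)) hb))
    (O.mul_mem _ _ (pow_mem h.mem _) hDbm)
  exact natCast_mem O _

/-- the logarithmic derivative at a place -/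
theorem logDer (hO : IsPlace O) (H : ∀ x y : K, ¬ AlgebraicIndependent ℂ ![x, y]) {t : K} {c : ℂ}
    (D : Derivation ℂ K K) (hD : D t = 1) (htO : t - algebraMap ℂ K c ∈ O)
    (ht : (t - algebraMap ℂ K c)⁻¹ ∉ O) (g : K) (hg : g ≠ 0) :
    (t - algebraMap ℂ K c) * (D g / g) ∈ O := by
  obtain ⟨u, h⟩ := exists_Unif hO
  -- `D u ≠ 0`
  have hDu : D u ≠ 0 := by
    intro h0
    obtain ⟨P0, hP0, hP1⟩ := exists_rel u t (H u t)
    obtain ⟨P, hP, hP'⟩ := exists_sep u t h.tr _ P0 le_rfl hP0 hP1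
    obtain ⟨V, hV⟩ := chain2 D u t P
    rw [hP, map_zero, h0, mul_zero, zero_add, hD, mul_one] at hV
    exact hP' hV.symm
  let E : Derivation ℂ K K := (D u)⁻¹ • D
  have hE : E u = 1 := by
    simp only [E, Derivation.smul_apply, smul_eq_mul]
    exact inv_mul_cancel₀ hDu
  have hDE : ∀ x, D x = D u * E x := by
    intro x
    simp only [E, Derivation.smul_apply, smul_eq_mul]
    field_simp
  obtain ⟨e, w, hw, hw', hew⟩ := h.order htO
  have ht0 : t - algebraMap ℂ K c ≠ 0 := by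
    intro h0
    apply ht
    rw [h0, inv_zero]
    exact O.zero_mem
  have hw0 : w ≠ 0 := by
    rintro rfl
    rw [mul_zero] at hew
    exact ht0 hew
  have he0 : e ≠ 0 := by
    rintro rfl
    rw [pow_zero, one_mul] at hew
    exact ht (by rwa [hew])
  obtain ⟨e', rfl⟩ := Nat.exists_eq_succ_of_ne_zero he0
  let η : K := ((e' + 1 : ℕ) : K) * w + u * E w
  have h1 : D u * (u ^ e' * η) = 1 := by
    have h2 : D (t - algebraMap ℂ K c) = 1 := by
      rw [map_sub, hD, D.map_algebraMap, sub_zero]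
    rw [hew, hDE, Derivation.leibniz, Derivation.leibniz_pow, hE] at h2
    simp only [smul_eq_mul, nsmul_eq_mul, Nat.succ_eq_add_one, Nat.add_sub_cancel, mul_one] at h2
    rw [← h2]
    simp only [η]
    ring
  have hη0 : η ≠ 0 := by
    intro h0
    rw [h0, mul_zero, mul_zero] at h1
    exact zero_ne_one h1
  have hη : η ∈ O := add_mem (O.mul_mem _ _ (natCast_mem O _) hw) (O.mul_mem _ _ h.mem (h.der_mem H E hE hw))
  have hη' : η⁻¹ ∈ O := by
    apply h.inv_mem hη
    rintro ⟨s, hs, he⟩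
    refine h.not_unit (w := ((e' + 1 : ℕ) : K) * w) (s := s - E w) (sub_mem hs (h.der_mem H E hE hw)) ?_ ?_ ?_
    · rw [mul_inv]
      refine O.mul_mem _ _ ?_ hw'
      have h3 := h.cst ((e' + 1 : ℕ) : ℂ)⁻¹
      rwa [map_inv₀, map_natCast] at h3
    · refine mul_ne_zero ?_ hw0
      have h3 : ((e' + 1 : ℕ) : K) = algebraMap ℂ K ((e' + 1 : ℕ) : ℂ) := (map_natCast _ _).symm
      rw [h3]
      exact (_root_.map_ne_zero _).2 (Nat.cast_ne_zero.2 (Nat.succ_ne_zero e'))
    · simp only [η] at he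
      linear_combination he
  have key : ∀ g : K, g ≠ 0 → g ∈ O → (t - algebraMap ℂ K c) * (D g / g) ∈ O := by
    intro g hg hgO
    obtain ⟨k, g0, hg0, hg0', hgk⟩ := h.order hgO
    have hg00 : g0 ≠ 0 := by
      rintro rfl
      rw [mul_zero] at hgk
      exact hg hgk
    have hE' : u * E g = (((k : ℕ) : K) + u * (E g0 * g0⁻¹)) * g := by
      rw [hgk, Derivation.leibniz, Derivation.leibniz_pow, hE]
      simp only [smul_eq_mul, nsmul_eq_mul, mul_one]
      rcases k with _ | k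
      · simp
        field_simp
      · rw [Nat.add_sub_cancel, pow_succ]
        field_simp
        ring
    have h4 : (t - algebraMap ℂ K c) * (D g / g) = w * η⁻¹ * (((k : ℕ) : K) + u * (E g0 * g0⁻¹)) := by
      have h5 : D u = (u ^ e' * η)⁻¹ := eq_inv_of_mul_eq_one_left h1
      rw [hew, hDE g, h5, Nat.succ_eq_add_one, pow_succ]
      have hu := h.ne
      have h6 : u ^ e' ≠ 0 := pow_ne_zero _ hu
      have h7 : u * E g / g = ((k : ℕ) : K) + u * (E g0 * g0⁻¹) := by
        rw [hE', mul_div_assoc, div_self hg, mul_one]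
      rw [← h7]
      field_simp
    rw [h4]
    exact O.mul_mem _ _ (O.mul_mem _ _ hw hη') (add_mem (natCast_mem O _)
      (O.mul_mem _ _ h.mem (O.mul_mem _ _ (h.der_mem H E hE hg0) hg0')))
  by_cases hgO : g ∈ O
  · exact key g hg hgO
  · have hgi : g⁻¹ ∈ O := (O.mem_or_inv_mem g).resolve_left hgO
    have h5 := key g⁻¹ (inv_ne_zero hg) hgi
    have h6 : D g⁻¹ / g⁻¹ = - (D g / g) := by
      rw [Derivation.leibniz_inv]
      simp only [smul_eq_mul]
      field_simp
    rw [h6, mul_neg] at h5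
    have h7 := neg_mem h5
    rwa [neg_neg] at h7

end Pool.Agent.LD
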