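import Pool.Agent.Lib_MP_1209e6_ql.GenSmooth
import Pool.Agent.Lib_MP_1209e6_ds.Coef

/-! Core of `no_line_in` (helper34). -/

set_option autoImplicit false

open MvPolynomial

noncomputable section

namespace Pool.Agent.QX

/-- a polynomial which vanishes on the complex line `X₂ = X₃ = 0` vanishes on it over each algebra -/
theorem on_up {F : MvPolynomial (Fin 4) ℂ} (hon : ∀ a : Fin 4 → ℂ, a 2 = 0 → a 3 = 0 → aeval a F = 0)
    {R : Type} [CommRing R] [Algebra ℂ R] (a : Fin 4 → R) (h2 : a 2 = 0) (h3 : a 3 = 0) : aeval a F = 0 := by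
  have h : (aeval ![X 0, X 1, 0, 0] F : MvPolynomial (Fin 2) ℂ) = 0 := by
    apply MvPolynomial.funext
    intro x
    rw [map_zero, ← MvPolynomial.coe_aeval_eq_eval]
    have h4 := comp_aeval_apply (f := (![X 0, X 1, 0, 0] : Fin 4 → MvPolynomial (Fin 2) ℂ))
      (aeval x : MvPolynomial (Fin 2) ℂ →ₐ[ℂ] ℂ) F
    refine Eq.trans h4 (hon _ ?_ ?_)
    · simp
    · simp
  have h4 := comp_aeval_apply (f := (![X 0, X 1, 0, 0] : Fin 4 → MvPolynomial (Fin 2) ℂ))
      (aeval ![a 0, a 1] : MvPolynomial (Fin 2) ℂ →ₐ[ℂ] R) F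
  rw [h, map_zero] at h4
  rw [h4]
  congr 2
  funext i
  fin_cases i
  · simp
  · simp
  · simp [h2]
  · simp [h3]

theorem pderiv_comm34 (i j : Fin 4) (F : MvPolynomial (Fin 4) ℂ) :
    pderiv i (pderiv j F) = pderiv j (pderiv i F) := by
  have h : ⁅(pderiv i : Derivation ℂ (MvPolynomial (Fin 4) ℂ) (MvPolynomial (Fin 4) ℂ)),
      (pderiv j : Derivation ℂ (MvPolynomial (Fin 4) ℂ) (MvPolynomial (Fin 4) ℂ))⁆ = 0 := by
    apply MvPolynomial.derivation_ext
    intro l
    rw [Derivation.commutator_apply]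
    simp [pderiv_X, Pi.single_apply]
    split_ifs <;> simp
  have h2 := DFunLike.congr_fun h F
  rw [Derivation.commutator_apply] at h2
  exact sub_eq_zero.1 h2

/-- the derivation `d / dX` over `ℂ` -/
def dX34 (k : Type) [Field k] [Algebra ℂ k] : Derivation ℂ (Polynomial k) (Polynomial k) :=
  (Polynomial.derivative' (R := k)).restrictScalars ℂ

theorem dX34_apply {k : Type} [Field k] [Algebra ℂ k] (p : Polynomial k) : dX34 k p = Polynomial.derivative p := rfl

theorem on_pderiv {F : MvPolynomial (Fin 4) ℂ} (hon : ∀ a : Fin 4 → ℂ, a 2 = 0 → a 3 = 0 → aeval a F = 0)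
    (j : Fin 4) (hj2 : j ≠ 2) (hj3 : j ≠ 3) (a : Fin 4 → ℂ) (h2 : a 2 = 0) (h3 : a 3 = 0) :
    aeval a (pderiv j F) = 0 := by
  let p : Fin 4 → Polynomial ℂ := fun i => Polynomial.C (a i) + if i = j then Polynomial.X else 0
  have h := on_up hon p (by simp [p, h2, Ne.symm hj2]) (by simp [p, h3, Ne.symm hj3])
  have h4 := Pool.Agent.DS.chain (dX34 ℂ) p F
  rw [h, map_zero] at h4
  have h5 : ∀ l, dX34 ℂ (p l) = if l = j then 1 else 0 := by
    intro l
    rw [dX34_apply]
    by_cases hl : l = j
    · simp [p, hl]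
    · simp [p, hl]
  simp only [h5, ite_mul, one_mul, zero_mul, Finset.sum_ite_eq', Finset.mem_univ, if_true] at h4
  have h6 := congrArg (Polynomial.aeval (0 : ℂ)) h4
  rw [map_zero] at h6
  have h7 := comp_aeval_apply (f := p) (Polynomial.aeval (0 : ℂ) : Polynomial ℂ →ₐ[ℂ] ℂ) (pderiv j F)
  rw [← h6] at h7
  rw [h7]
  congr 2
  funext i
  by_cases hi : i = j
  · simp [p, hi]
  · simp [p, hi]

variable {k : Type} [Field k] [Algebra ℂ k]

/-- the Taylor expansion of `F` at the double point `e 0 + s e 1` of the section -/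
theorem taylor34 {F : MvPolynomial (Fin 4) ℂ} {e : Fin 3 → Fin 4 → k} {c : Fin 3 → k} {g : k} {b : Fin 2 → k}
    {A : MvPolynomial (Fin 3) k} (hS : Sect F e c g b A) (s : k) (hs : c 0 + c 1 * s + s ^ 2 = 0)
    (w : Fin 3 → k) (v : Fin 4 → k) (hv : ∀ j, v j = ∑ i, w i * e i j) :
    aeval (fun j => e 0 j + s * e 1 j) F = 0 ∧
    ∑ j, v j * aeval (fun j => e 0 j + s * e 1 j) (pderiv j F) = 0 ∧
    (c 1 + 2 * s = 0 → ∑ j, v j * ∑ i, v i * aeval (fun j => e 0 j + s * e 1 j) (pderiv i (pderiv j F)) =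
      2 * (w 2 ^ 2 * eval ![1, s, 0] A)) := by
  set P : Fin 4 → k := fun j => e 0 j + s * e 1 j with hP
  let q : Fin 3 → Polynomial k := ![1 + Polynomial.X * Polynomial.C (w 0),
    Polynomial.C s + Polynomial.X * Polynomial.C (w 1), Polynomial.X * Polynomial.C (w 2)]
  let p : Fin 4 → Polynomial k := fun j => ∑ i, Polynomial.C (e i j) * q i
  have hL : (aeval q : MvPolynomial (Fin 3) k →ₐ[k] Polynomial k) (sec F e) = aeval p F := by
    have h := comp_aeval_apply (f := fun j => ∑ i, C (e i j) * X i)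
      ((aeval q : MvPolynomial (Fin 3) k →ₐ[k] Polynomial k).restrictScalars ℂ) F
    refine Eq.trans h ?_
    congr 2
    funext j
    simp [p, map_sum, map_mul]
  let Zm : Polynomial k := Polynomial.C (w 1) - Polynomial.C s * Polynomial.C (w 0)
  let Zp : Polynomial k := q 1 + Polynomial.C (c 1 + s) * q 0
  let T : Polynomial k := Polynomial.C g * (Zm * Zp) ^ 2 +
    Polynomial.C (w 2) * (Polynomial.C (b 0) * q 0 + Polynomial.C (b 1) * q 1) * (Zm * Zp) +
    Polynomial.C (w 2) ^ 2 * aeval q A
  have hc0 : c 0 = -(s * (c 1 + s)) := by linear_combination hs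
  have hquad : (aeval q : MvPolynomial (Fin 3) k →ₐ[k] Polynomial k) (quad c) = Polynomial.X * (Zm * Zp) := by
    simp only [quad, map_add, map_mul, map_pow, aeval_X, aeval_C, Polynomial.algebraMap_eq, hS.c_two, hc0]
    simp only [Zm, Zp, q, Matrix.cons_val_zero, Matrix.cons_val_one, map_neg, map_mul, map_add, map_one]
    ring
  have hR : aeval p F = Polynomial.X ^ 2 * T := by
    rw [← hL, hS.eq]
    rw [map_add, map_add, map_mul, map_mul, map_mul, map_mul, map_pow, map_pow, hquad]
    simp only [lin, map_add, map_mul, aeval_X, aeval_C, Polynomial.algebraMap_eq]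
    simp only [T]
    have hq2 : q 2 = Polynomial.X * Polynomial.C (w 2) := rfl
    rw [hq2]
    ring
  have hp0 : ∀ G : MvPolynomial (Fin 4) ℂ, (aeval p G).eval 0 = aeval P G := by
    intro G
    have h := comp_aeval_apply (f := p) ((Polynomial.aeval (0 : k) : Polynomial k →ₐ[k] k).restrictScalars ℂ) G
    rw [← Polynomial.coe_aeval_eq_eval]
    refine Eq.trans h ?_
    congr 2
    funext j
    simp [p, q, P, Fin.sum_univ_three]
    ring
  have hdp : ∀ j, dX34 k (p j) = Polynomial.C (v j) := by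
    intro j
    rw [dX34_apply, hv j]
    simp [p, q, Fin.sum_univ_three]
    ring
  have h1 : ∀ G : MvPolynomial (Fin 4) ℂ, Polynomial.derivative (aeval p G) =
      ∑ j, Polynomial.C (v j) * aeval p (pderiv j G) := by
    intro G
    have h := Pool.Agent.DS.chain (dX34 k) p G
    rw [dX34_apply] at h
    rw [h]
    exact Finset.sum_congr rfl fun j _ => by rw [hdp]
  refine ⟨?_, ?_, fun hd => ?_⟩
  · rw [← hp0, hR]
    simp
  · have h2 := congrArg (Polynomial.eval 0) (h1 F)
    rw [hR, Polynomial.eval_finsetSum] at h2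
    simp only [Polynomial.eval_mul, Polynomial.eval_C, hp0] at h2
    rw [← h2]
    simp
  · have h2 : (Polynomial.derivative (Polynomial.derivative (aeval p F))).eval 0 =
        ∑ j, v j * ∑ i, v i * aeval P (pderiv i (pderiv j F)) := by
      rw [h1 F]
      simp only [Polynomial.derivative_sum, Polynomial.eval_finsetSum, Polynomial.derivative_C_mul, h1,
        Polynomial.eval_mul, Polynomial.eval_C, hp0]
    rw [← h2, hR]
    have hT : T.eval 0 = w 2 ^ 2 * eval ![1, s, 0] A := by
      have hZ : Zp.eval 0 = 0 := by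
        simp only [Zp, q, Matrix.cons_val_zero, Matrix.cons_val_one]
        simp
        linear_combination hd
      have hA : (aeval q A : Polynomial k).eval 0 = eval ![1, s, 0] A := by
        have h := comp_aeval_apply (f := q) (Polynomial.aeval (0 : k) : Polynomial k →ₐ[k] k) A
        have h' : (aeval ![1, s, 0] : MvPolynomial (Fin 3) k →ₐ[k] k) A = eval ![1, s, 0] A :=
          DFunLike.congr_fun (MvPolynomial.coe_aeval_eq_eval ![1, s, 0]) A
        rw [← Polynomial.coe_aeval_eq_eval]
        refine (Eq.trans h ?_).trans h'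
        congr 2
        funext i
        fin_cases i <;> simp [q]
      simp only [T, Polynomial.eval_add, Polynomial.eval_mul, Polynomial.eval_pow, hZ, hA, Polynomial.eval_C]
      ring
    rw [← hT]
    simp [Polynomial.derivative_mul, Polynomial.derivative_pow]

omit [Algebra ℂ k] in
/-- the linear form of a plane -/
theorem form34 (e : Fin 3 → Fin 4 → k) : ∃ u : Fin 4 → k, u ≠ 0 ∧ ∀ i, ∑ j, u j * e i j = 0 := by
  have h : LinearMap.ker (Matrix.mulVecLin (Matrix.of e : Matrix (Fin 3) (Fin 4) k)) ≠ ⊥ := by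
    apply LinearMap.ker_ne_bot_of_finrank_lt
    simp
  obtain ⟨u, hu, hu0⟩ := Submodule.exists_mem_ne_zero_of_ne_bot h
  refine ⟨u, hu0, fun i => ?_⟩
  have h2 := congrFun (LinearMap.mem_ker.1 hu) i
  simp only [Matrix.mulVecLin_apply, Matrix.mulVec, dotProduct, Matrix.of_apply, Pi.zero_apply] at h2
  rw [← h2]
  exact Finset.sum_congr rfl fun j _ => mul_comm _ _

theorem no_line_in_core {F : MvPolynomial (Fin 4) ℂ} (hF : F.IsHomogeneous 4) (hs : Pool.Agent.DS.Smooth F)
    (hon : ∀ a : Fin 4 → ℂ, a 2 = 0 → a 3 = 0 → aeval a F = 0) [IsAlgClosed k] (e : Fin 3 → Fin 4 → k)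
    (c : Fin 3 → k) (g : k) (b : Fin 2 → k) (A : MvPolynomial (Fin 3) k) (hS : Sect F e c g b A)
    (hm : Moving e) (hoff : e 0 2 ≠ 0 ∨ e 0 3 ≠ 0) (a' b' : Fin 4 → k)
    (hab : LinearIndependent k ![a', b']) (ha : a' ∈ Submodule.span k (Set.range e))
    (hb : b' ∈ Submodule.span k (Set.range e)) (ha2 : a' 2 = 0) (ha3 : a' 3 = 0) (hb2 : b' 2 = 0)
    (hb3 : b' 3 = 0) : False := by
  have hchar : CharZero k := charZero_of_injective_algebraMap (algebraMap ℂ k).injective
  rw [Submodule.mem_span_range_iff_exists_fun] at ha hb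
  obtain ⟨α, hα⟩ := ha
  obtain ⟨β, hβ⟩ := hb
  have hα' : ∀ j, a' j = ∑ i, α i * e i j := fun j => by
    rw [← hα, Finset.sum_apply]
    rfl
  have hβ' : ∀ j, b' j = ∑ i, β i * e i j := fun j => by
    rw [← hβ, Finset.sum_apply]
    rfl
  -- the minor
  have hdet : a' 0 * b' 1 - a' 1 * b' 0 ≠ 0 := by
    intro h0
    rw [LinearIndependent.pair_iff] at hab
    have h1 := hab (-b' 0) (a' 0) (by
      ext l
      fin_cases l
      · simp; ring
      · simp; linear_combination h0
      · simp [ha2, hb2]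
      · simp [ha3, hb3])
    have h2 := hab (-b' 1) (a' 1) (by
      ext l
      fin_cases l
      · simp; linear_combination -h0
      · simp; ring
      · simp [ha2, hb2]
      · simp [ha3, hb3])
    have h3 := hab 1 0 (by
      ext l
      fin_cases l
      · simp [h1.2]
      · simp [h2.2]
      · simp [ha2]
      · simp [ha3])
    exact one_ne_zero h3.1
  set Δ : k := a' 0 * b' 1 - a' 1 * b' 0 with hΔ
  -- coordinates of the two basis vectors of the line
  let d0 : Fin 3 → k := fun i => (b' 1 * α i - a' 1 * β i) / Δ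
  let d1 : Fin 3 → k := fun i => (a' 0 * β i - b' 0 * α i) / Δ
  have hd0 : ∀ j, (Pi.single 0 1 : Fin 4 → k) j = ∑ i, d0 i * e i j := by
    intro j
    have h1 : ∑ i, d0 i * e i j = (b' 1 * a' j - a' 1 * b' j) / Δ := by
      rw [hα' j, hβ' j]
      simp only [d0, Fin.sum_univ_three]
      field_simp
      ring
    rw [h1]
    fin_cases j
    · simp; rw [eq_div_iff hdet, hΔ]; ring
    · have h5 : b' 1 * a' 1 - a' 1 * b' 1 = 0 := by ring
      simp [h5]
    · simp [ha2, hb2]
    · simp [ha3, hb3]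
  have hd1 : ∀ j, (Pi.single 1 1 : Fin 4 → k) j = ∑ i, d1 i * e i j := by
    intro j
    have h1 : ∑ i, d1 i * e i j = (a' 0 * b' j - b' 0 * a' j) / Δ := by
      rw [hα' j, hβ' j]
      simp only [d1, Fin.sum_univ_three]
      field_simp
      ring
    rw [h1]
    fin_cases j
    · have h5 : a' 0 * b' 0 - b' 0 * a' 0 = 0 := by ring
      simp [h5]
    · simp; rw [eq_div_iff hdet, hΔ]; ring
    · simp [ha2, hb2]
    · simp [ha3, hb3]
  clear_value d0 d1
  -- the plane is `X₃ = t X₂`
  obtain ⟨u, hu, hue⟩ := form34 e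
  have hu0 : u 0 = 0 := by
    have h1 : ∑ j, u j * (Pi.single 0 1 : Fin 4 → k) j = 0 := by
      have h2 : ∑ j, u j * (Pi.single 0 1 : Fin 4 → k) j = ∑ i, d0 i * ∑ j, u j * e i j := by
        simp only [hd0, Finset.mul_sum]
        rw [Finset.sum_comm]
        exact Finset.sum_congr rfl fun i _ => Finset.sum_congr rfl fun j _ => by ring
      rw [h2]
      simp [hue]
    simpa [Fin.sum_univ_four] using h1
  have hu1 : u 1 = 0 := by
    have h1 : ∑ j, u j * (Pi.single 1 1 : Fin 4 → k) j = 0 := by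
      have h2 : ∑ j, u j * (Pi.single 1 1 : Fin 4 → k) j = ∑ i, d1 i * ∑ j, u j * e i j := by
        simp only [hd1, Finset.mul_sum]
        rw [Finset.sum_comm]
        exact Finset.sum_congr rfl fun i _ => Finset.sum_congr rfl fun j _ => by ring
      rw [h2]
      simp [hue]
    simpa [Fin.sum_univ_four] using h1
  have hue' : ∀ i, u 2 * e i 2 + u 3 * e i 3 = 0 := by
    intro i
    have h1 := hue i
    rw [Fin.sum_univ_four, hu0, hu1] at h1
    linear_combination h1
  have hu3 : u 3 ≠ 0 := by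
    intro h3
    have hu2 : u 2 ≠ 0 := by
      intro h2
      apply hu
      ext j
      fin_cases j
      · simpa using hu0
      · simpa using hu1
      · simpa using h2
      · simpa using h3
    have h4 : ∀ i, e i 2 = 0 := by
      intro i
      have h5 := hue' i
      rw [h3, zero_mul, add_zero] at h5
      exact (mul_eq_zero.1 h5).resolve_left hu2
    have h6 := hm ![0, 0, 1, 0] fun i => by
      rw [Fin.sum_univ_four]
      simp [h4 i]
    have h7 := congrFun h6 2
    simp at h7
  set t : k := -(u 2 / u 3) with ht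
  have het : ∀ i, e i 3 = t * e i 2 := by
    intro i
    rw [ht]
    field_simp
    linear_combination hue' i
  have htr : Transcendental ℂ t := by
    intro halg
    obtain ⟨z, hz⟩ := minpoly.mem_range_of_degree_eq_one ℂ t
      (IsAlgClosed.degree_eq_one_of_irreducible ℂ (minpoly.irreducible halg.isIntegral))
    have h6 := hm ![0, 0, z, -1] fun i => by
      rw [Fin.sum_univ_four]
      simp [het i, hz]
    have h7 := congrFun h6 3
    simp at h7
  have h02 : e 0 2 ≠ 0 := by
    intro h
    rcases hoff with h1 | h1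
    · exact h1 h
    · exact h1 (by rw [het, h, mul_zero])
  -- each double point is on the line
  have hroot : ∀ s : k, c 0 + c 1 * s + s ^ 2 = 0 → e 0 2 + s * e 1 2 = 0 := by
    intro s hs0
    by_contra hne
    obtain ⟨hz, h0, -⟩ := taylor34 hS s hs0 d0 _ hd0
    obtain ⟨-, h1, -⟩ := taylor34 hS s hs0 d1 _ hd1
    refine gen_off hF hs t htr (fun j => e 0 j + s * e 1 j) hne (by rw [het, het]; ring) ?_ ?_ hz
    · simpa [Fin.sum_univ_four] using h0
    · simpa [Fin.sum_univ_four] using h1
  obtain ⟨s, hs0⟩ : ∃ s : k, c 0 + c 1 * s + s ^ 2 = 0 := by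
    obtain ⟨s, hs0⟩ := IsAlgClosed.exists_root (Polynomial.X ^ 2 + Polynomial.C (c 1) * Polynomial.X +
      Polynomial.C (c 0) : Polynomial k) (by
        have : (Polynomial.X ^ 2 + Polynomial.C (c 1) * Polynomial.X +
          Polynomial.C (c 0) : Polynomial k).degree = 2 := by compute_degree!
        rw [this]
        decide)
    refine ⟨s, ?_⟩
    simp at hs0
    linear_combination hs0
  have hr1 := hroot s hs0
  have hr2 := hroot (-(c 1 + s)) (by linear_combination hs0)
  have h12 : e 1 2 ≠ 0 := by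
    intro h
    rw [h, mul_zero, add_zero] at hr1
    exact h02 hr1
  have hdouble : c 1 + 2 * s = 0 := by
    have h1 : (c 1 + 2 * s) * e 1 2 = 0 := by linear_combination hr1 - hr2
    exact (mul_eq_zero.1 h1).resolve_right h12
  set P : Fin 4 → k := fun j => e 0 j + s * e 1 j with hP
  have hP2 : P 2 = 0 := hr1
  have hP3 : P 3 = 0 := by
    have : P 3 = t * P 2 := by
      simp only [hP, het]
      ring
    rw [this, hP2, mul_zero]
  have hPne : P ≠ 0 := by
    intro h
    have h1 := hS.ind
    rw [Fintype.linearIndependent_iff] at h1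
    have h2 := h1 ![1, s, 0] (by
      rw [Fin.sum_univ_three]
      ext j
      have h3 := congrFun h j
      simpa [hP] using h3) 0
    simp at h2
  -- the Hessian on the line
  have hH : ∀ i j : Fin 4, i ≠ 2 → i ≠ 3 → j ≠ 2 → j ≠ 3 → aeval P (pderiv i (pderiv j F)) = 0 := by
    intro i j hi2 hi3 hj2 hj3
    exact on_up (on_pderiv (on_pderiv hon j hj2 hj3) i hi2 hi3) P hP2 hP3
  set a0 : k := eval ![1, s, 0] A with ha0
  have hq : ∀ (w : Fin 3 → k) (v : Fin 4 → k), (∀ j, v j = ∑ i, w i * e i j) →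
      ∑ j, v j * ∑ i, v i * aeval P (pderiv i (pderiv j F)) = 2 * (w 2 ^ 2 * a0) :=
    fun w v hv => (taylor34 hS s hs0 w v hv).2.2 hdouble
  by_cases hA0 : a0 = 0
  · have key : ∀ (m : Fin 4) (hm2 : m ≠ 2) (hm3 : m ≠ 3) (d : Fin 3 → k),
        (∀ j, (Pi.single m 1 : Fin 4 → k) j = ∑ i, d i * e i j) →
        aeval P (pderiv m (pderiv 2 F)) + t * aeval P (pderiv m (pderiv 3 F)) = 0 := by
      intro m hm2 hm3 d hd
      have k1 := hq d _ hd
      have k2 := hq (Pi.single 0 1) (e 0) (fun j => by simp [Fin.sum_univ_three])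
      have k3 := hq (fun i => d i + (Pi.single 0 1 : Fin 3 → k) i)
        (fun j => (Pi.single m 1 : Fin 4 → k) j + e 0 j) (fun j => by
          rw [hd j]
          simp [Fin.sum_univ_three, add_mul]
          ring)
      rw [hA0, mul_zero, mul_zero] at k1 k2 k3
      have k4 : ∑ j, (Pi.single m 1 : Fin 4 → k) j * ∑ i, e 0 i * aeval P (pderiv i (pderiv j F)) +
          ∑ j, e 0 j * ∑ i, (Pi.single m 1 : Fin 4 → k) i * aeval P (pderiv i (pderiv j F)) = 0 := by
        simp only [Fin.sum_univ_four] at k1 k2 k3 ⊢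
        linear_combination k3 - k1 - k2
      have k5 : ∑ j, (Pi.single m 1 : Fin 4 → k) j * ∑ i, e 0 i * aeval P (pderiv i (pderiv j F)) =
          ∑ i, e 0 i * aeval P (pderiv m (pderiv i F)) := by
        rw [Finset.sum_eq_single m (fun j _ hj => by rw [Pi.single_eq_of_ne hj, zero_mul])
          (fun h => absurd (Finset.mem_univ _) h), Pi.single_eq_same, one_mul]
        exact Finset.sum_congr rfl fun i _ => by rw [pderiv_comm34]
      have k6 : ∑ j, e 0 j * ∑ i, (Pi.single m 1 : Fin 4 → k) i * aeval P (pderiv i (pderiv j F)) =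
          ∑ i, e 0 i * aeval P (pderiv m (pderiv i F)) := by
        refine Finset.sum_congr rfl fun j _ => ?_
        rw [Finset.sum_eq_single m (fun j _ hj => by rw [Pi.single_eq_of_ne hj, zero_mul])
          (fun h => absurd (Finset.mem_univ _) h), Pi.single_eq_same, one_mul]
      rw [k5, k6, Fin.sum_univ_four, hH m 0 hm2 hm3 (by decide) (by decide),
        hH m 1 hm2 hm3 (by decide) (by decide), het 0] at k4
      have k7 : e 0 2 * (aeval P (pderiv m (pderiv 2 F)) + t * aeval P (pderiv m (pderiv 3 F))) = 0 := by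
        linear_combination k4 / 2
      exact (mul_eq_zero.1 k7).resolve_left h02
    refine gen_on hF hs hon t htr P hPne hP2 hP3 ?_ ?_
    · exact key 0 (by decide) (by decide) d0 hd0
    · exact key 1 (by decide) (by decide) d1 hd1
  · have hd02 : d0 2 = 0 := by
      have h1 := hq d0 _ hd0
      simp only [Fin.sum_univ_four, Pi.single_eq_same] at h1
      simp [hH] at h1
      rcases h1 with h1 | h1
      · exact h1
      · exact absurd h1 hA0
    have hd12 : d1 2 = 0 := by
      have h1 := hq d1 _ hd1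
      simp only [Fin.sum_univ_four, Pi.single_eq_same] at h1
      simp [hH] at h1
      rcases h1 with h1 | h1
      · exact h1
      · exact absurd h1 hA0
    have x0 := hd0 2
    have x1 := hd0 1
    have x2 := hd0 0
    have y0 := hd1 2
    have y1 := hd1 1
    simp [Fin.sum_univ_three, hd02] at x0 x1 x2
    simp [Fin.sum_univ_three, hd12] at y0 y1
    apply h02
    have z : e 0 2 * e 1 1 - e 1 2 * e 0 1 = 0 := by
      linear_combination (e 0 2 * e 1 1 - e 1 2 * e 0 1) * x2 - (e 0 0 * e 1 1 - e 1 0 * e 0 1) * x0 -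
        (e 1 0 * e 0 2 - e 0 0 * e 1 2) * x1
    linear_combination e 0 2 * y1 - e 0 1 * y0 + d1 1 * z

end Pool.Agent.QX
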