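import Pool.Agent.Lib_MP_1209e6_ql.GenSmooth
import Pool.Agent.Lib_MP_1209e6_ql.NokIn
import Pool.Agent.Lib_MP_1209e6_ql.LineK

/-! PIECE NOK: a moving plane of the family contains no line of the surface. -/

set_option autoImplicit false

open MvPolynomial

noncomputable section

namespace Pool.Agent.QX

variable {k : Type} [Field k] [Algebra ℂ k]

/-- By `line_k` a `k`-line in the plane and the surface is `X₂ = X₃ = 0`, so the plane is `r X₂ = s X₃`, by `Moving`
`t = s / r` resp. `r / s` is transcendental (exchange `X₂`, `X₃` if necessary: the plane is `X₃ = t X₂`, `t ∉ ℂ`).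
`sec F e = L * C'`, `L` the linear form of the line, `C'` the residual cubic, which is smooth (`gen_off`, `gen_on`). A zero
`P` of `quad c` on `X₂ = 0` is a singular point of `sec F e`: so `L (P) = 0`. Two different zeros: `L` is a multiple of
`X₂`. Double zero: the quadratic part of `sec F e` at `P` is `A (P) X₂²` and `L * dC' (P)`, so again `L` is a multiple
of `X₂`. Then `e 0` is on the line: against `hoff`. -/
theorem no_line_in {F : MvPolynomial (Fin 4) ℂ} (hF : F.IsHomogeneous 4) (hs : Pool.Agent.DS.Smooth F)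
    (h1 : OneLine F) [IsAlgClosed k] (e : Fin 3 → Fin 4 → k) (c : Fin 3 → k) (g : k) (b : Fin 2 → k)
    (A : MvPolynomial (Fin 3) k) (hS : Sect F e c g b A) (hm : Moving e) (hoff : e 0 2 ≠ 0 ∨ e 0 3 ≠ 0) :
    NoLineIn F e := by
  intro a b' hab ha hb
  by_contra hcon
  push Not at hcon
  obtain ⟨ha2, ha3, hb2, hb3⟩ := line_k hF h1 a b' hab hcon
  exact no_line_in_core hF hs h1.on e c g b A hS hm hoff a b' hab ha hb ha2 ha3 hb2 hb3

end Pool.Agent.QX
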