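import Pool.Agent.Lib_MP_1209e6_ql.GenSmooth
import Pool.Agent.Lib_MP_1209e6_fl.Defs
import Pool.Agent.Lib_MP_1209e6_dp.Homog
import Pool.Agent.Lib_MP_1209e6_ds.Coef
import Pool.Agent.Lib_MP_1209e6_ds.SmoothUp
import Pool.Agent.Lib_MP_1209e6_qx.Emb
import Pool.Agent.Lib_MP_1209e6_qx.Pencil

/-! PIECE AH: the pencil of plane cubics through the line. -/

set_option autoImplicit false

open MvPolynomial Pool.Agent.CampanaFlow

noncomputable section

namespace Pool.Agent.QX

/-- a plane cubic curve `[x₀ : x₁ : x₂]` over `k`; `g` the gradient of the cubic at the generic point -/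
theorem tl_ah {K : Type} [Field K] [Algebra ℂ K] (k : IntermediateField ℂ K) (x g : Fin (2 + 1) → K)
    (hx : ∀ i, x i ≠ 0) (hg : g 1 ≠ 0 ∨ g 2 ≠ 0) (he : x 0 * g 0 + x 1 * g 1 + x 2 * g 2 = 0)
    (hD : ∀ D : Derivation ℂ K K, (∀ a ∈ k, D a = 0) →
      D (x 0) * g 0 + D (x 1) * g 1 + D (x 2) * g 2 = 0)
    (hmem : ∀ i j, g i / x j ^ 2 ∈ Chart k x j)
    (hgen : IntermediateField.adjoin ℂ ((k : Set K) ∪ Set.range fun i => x i / x 0) = ⊤)
    (E : Derivation ℂ K K) (hE : ∀ a ∈ k, E a = 0) (hE0 : ∃ a, E a ≠ 0) : AlmostHomogeneous k x := by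
  have h0 := hx 0
  have h1 := hx 1
  have h2 := hx 2
  have hrel : ∀ D : Derivation ℂ K K, (∀ a ∈ k, D a = 0) →
      g 1 * D (x 1 / x 0) + g 2 * D (x 2 / x 0) = 0 := by
    intro D hk
    have e1 : D (x 1) = x 0 * D (x 1 / x 0) + x 1 / x 0 * D (x 0) := by
      have : x 1 = x 0 * (x 1 / x 0) := by field_simp
      conv_lhs => rw [this]
      rw [Derivation.leibniz, smul_eq_mul, smul_eq_mul]
    have e2 : D (x 2) = x 0 * D (x 2 / x 0) + x 2 / x 0 * D (x 0) := by
      have : x 2 = x 0 * (x 2 / x 0) := by field_simp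
      conv_lhs => rw [this]
      rw [Derivation.leibniz, smul_eq_mul, smul_eq_mul]
    have e3 := hD D hk
    have e4 : x 0 * (g 1 * D (x 1 / x 0) + g 2 * D (x 2 / x 0)) = 0 := by
      have e5 : D (x 0) * g 0 + (x 1 / x 0 * D (x 0)) * g 1 + (x 2 / x 0 * D (x 0)) * g 2 = 0 := by
        have e6 : D (x 0) * g 0 + (x 1 / x 0 * D (x 0)) * g 1 + (x 2 / x 0 * D (x 0)) * g 2 =
            D (x 0) / x 0 * (x 0 * g 0 + x 1 * g 1 + x 2 * g 2) := by
          field_simp
        rw [e6, he, mul_zero]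
      rw [e1, e2] at e3
      linear_combination e3 - e5
    exact (mul_eq_zero.1 e4).resolve_left h0
  have hprop : ∀ D : Derivation ℂ K K, (∀ a ∈ k, D a = 0) → ∃ c : K,
      D (x 1 / x 0) = c * (g 2 / x 0 ^ 2) ∧ D (x 2 / x 0) = c * (-g 1 / x 0 ^ 2) := by
    intro D hk
    have h := hrel D hk
    rcases hg with hg1 | hg2
    · refine ⟨-D (x 2 / x 0) * x 0 ^ 2 / g 1, ?_, ?_⟩
      · field_simp
        linear_combination h
      · field_simp
    · refine ⟨D (x 1 / x 0) * x 0 ^ 2 / g 2, ?_, ?_⟩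
      · field_simp
      · field_simp
        linear_combination h
  have hzero : ∀ D : Derivation ℂ K K, (∀ a ∈ k, D a = 0) → D (x 1 / x 0) = 0 → D (x 2 / x 0) = 0 →
      ∀ u, D u = 0 := by
    intro D hk hd1 hd2 u
    apply Pool.Agent.DP.der_zero_of_gen _ hgen
    rintro a (ha | ⟨i, rfl⟩)
    · exact hk a ha
    · fin_cases i
      · show D (x 0 / x 0) = 0
        rw [div_self h0, Derivation.map_one_eq_zero]
      · exact hd1
      · exact hd2
  obtain ⟨c, hc1, hc2⟩ := hprop E hE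
  have hc : c ≠ 0 := by
    rintro rfl
    obtain ⟨a, ha⟩ := hE0
    rw [zero_mul] at hc1 hc2
    exact ha (hzero E hE hc1 hc2 a)
  set D₀ : Derivation ℂ K K := c⁻¹ • E with hD₀
  have hk₀ : ∀ a ∈ k, D₀ a = 0 := fun a ha => by
    rw [hD₀, Derivation.smul_apply, hE a ha, smul_zero]
  have hX : D₀ (x 1 / x 0) = g 2 / x 0 ^ 2 := by
    rw [hD₀, Derivation.smul_apply, hc1, smul_eq_mul, inv_mul_cancel_left₀ hc]
  have hY : D₀ (x 2 / x 0) = -g 1 / x 0 ^ 2 := by
    rw [hD₀, Derivation.smul_apply, hc2, smul_eq_mul, inv_mul_cancel_left₀ hc]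
  have hG : GlobalField k x D₀ := by
    refine ⟨hk₀, fun j => ?_⟩
    apply Pool.Agent.CampanaDP.pres D₀ _ _ le_rfl
    rintro y (hy | ⟨i, rfl⟩)
    · rw [hk₀ y hy]
      exact Subalgebra.zero_mem _
    have hq : x i / x j = (x i / x 0) / (x j / x 0) := by
      have := hx j
      field_simp
    have h11 : D₀ (x 0 / x 0) = 0 := by rw [div_self h0, Derivation.map_one_eq_zero]
    show D₀ (x i / x j) ∈ Chart k x j
    have hdiv : D₀ (x i / x j) = ((x j / x 0) ^ 2)⁻¹ * ((x j / x 0) * D₀ (x i / x 0) -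
        (x i / x 0) * D₀ (x j / x 0)) := by
      rw [hq, Derivation.leibniz_div]
      simp only [smul_eq_mul]
      rw [inv_pow]
    have key : D₀ (x i / x j) = 0 ∨ ∃ l, D₀ (x i / x j) = g l / x j ^ 2 ∨
        D₀ (x i / x j) = -(g l / x j ^ 2) := by
      clear hq
      fin_cases i <;> fin_cases j
      · left; exact h11
      · right; refine ⟨2, Or.inr ?_⟩
        show D₀ (x 0 / x 1) = -(g 2 / x 1 ^ 2)
        have hdiv' : D₀ (x 0 / x 1) = ((x 1 / x 0) ^ 2)⁻¹ * ((x 1 / x 0) * D₀ (x 0 / x 0) -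
          (x 0 / x 0) * D₀ (x 1 / x 0)) := hdiv
        rw [hdiv', h11, hX]
        field_simp
        ring
      · right; refine ⟨1, Or.inl ?_⟩
        show D₀ (x 0 / x 2) = (g 1 / x 2 ^ 2)
        have hdiv' : D₀ (x 0 / x 2) = ((x 2 / x 0) ^ 2)⁻¹ * ((x 2 / x 0) * D₀ (x 0 / x 0) -
          (x 0 / x 0) * D₀ (x 2 / x 0)) := hdiv
        rw [hdiv', h11, hY]
        field_simp
        ring
      · right; refine ⟨2, Or.inl ?_⟩
        exact hX
      · left
        show D₀ (x 1 / x 1) = 0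
        rw [div_self h1, Derivation.map_one_eq_zero]
      · right; refine ⟨0, Or.inr ?_⟩
        show D₀ (x 1 / x 2) = -(g 0 / x 2 ^ 2)
        have hdiv' : D₀ (x 1 / x 2) = ((x 2 / x 0) ^ 2)⁻¹ * ((x 2 / x 0) * D₀ (x 1 / x 0) -
          (x 1 / x 0) * D₀ (x 2 / x 0)) := hdiv
        rw [hdiv', hX, hY]
        field_simp
        linear_combination he
      · right; refine ⟨1, Or.inr ?_⟩
        show D₀ (x 2 / x 0) = -(g 1 / x 0 ^ 2)
        rw [hY, neg_div]
      · right; refine ⟨0, Or.inl ?_⟩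
        show D₀ (x 2 / x 1) = (g 0 / x 1 ^ 2)
        have hdiv' : D₀ (x 2 / x 1) = ((x 1 / x 0) ^ 2)⁻¹ * ((x 1 / x 0) * D₀ (x 2 / x 0) -
          (x 2 / x 0) * D₀ (x 1 / x 0)) := hdiv
        rw [hdiv', hX, hY]
        field_simp
        linear_combination (-1) * he
      · left
        show D₀ (x 2 / x 2) = 0
        rw [div_self h2, Derivation.map_one_eq_zero]
    rcases key with h | ⟨l, h | h⟩
    · rw [h]; exact Subalgebra.zero_mem _
    · rw [h]; exact hmem l j
    · rw [h]; exact Subalgebra.neg_mem _ (hmem l j)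
  refine ⟨hx, hgen, fun D hk => ?_⟩
  obtain ⟨d, hd1, hd2⟩ := hprop D hk
  have hDd : D = d • D₀ := by
    ext u
    have h3 : (D - d • D₀) u = 0 := by
      apply hzero
      · intro a ha
        rw [Derivation.sub_apply, Derivation.smul_apply, hk a ha, hk₀ a ha, smul_zero, sub_zero]
      · rw [Derivation.sub_apply, Derivation.smul_apply, hd1, hX, smul_eq_mul, sub_self]
      · rw [Derivation.sub_apply, Derivation.smul_apply, hd2, hY, smul_eq_mul, sub_self]
    exact sub_eq_zero.1 h3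
  rw [hDd]
  exact Submodule.smul_mem _ _ (Submodule.subset_span hG)

/-- `F` after the linear substitution with rows `E i` -/
def tlc (F : MvPolynomial (Fin 4) ℂ) (E : Matrix (Fin 4) (Fin 4) ℂ) : MvPolynomial (Fin 4) ℂ :=
  aeval (fun j => ∑ i, C (E i j) * (X i : MvPolynomial (Fin 4) ℂ)) F

theorem tlc_eval {R : Type} [CommRing R] [Algebra ℂ R] (F : MvPolynomial (Fin 4) ℂ)
    (E : Matrix (Fin 4) (Fin 4) ℂ) (v : Fin 4 → R) :
    aeval v (tlc F E) = aeval (fun j => ∑ i, algebraMap ℂ R (E i j) * v i) F := by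
  unfold tlc
  rw [MvPolynomial.comp_aeval_apply]
  congr 2
  funext j
  simp

theorem tlc_smooth {F : MvPolynomial (Fin 4) ℂ} (hs : Pool.Agent.DS.Smooth F)
    (E : Matrix (Fin 4) (Fin 4) ℂ) (hE : E.det ≠ 0) : Pool.Agent.DS.Smooth (tlc F E) := by
  intro v hv
  have h1 : ∀ i, ∑ j, E i j * aeval (fun j => ∑ i, E i j * v i) (pderiv j F) = 0 := by
    intro i
    have h2 := hv i
    unfold tlc at h2
    rw [Pool.Agent.DS.chain (pderiv i)] at h2
    rw [map_sum] at h2
    rw [← h2]
    refine Finset.sum_congr rfl fun j _ => ?_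
    rw [map_mul]
    congr 1
    · simp [Pi.single_apply]
    · exact (tlc_eval (pderiv j F) E v).symm
  have h3 : (fun j => aeval (fun j => ∑ i, E i j * v i) (pderiv j F)) = 0 :=
    Matrix.eq_zero_of_mulVec_eq_zero hE (by
      funext i
      exact h1 i)
  have h4 : (fun j => ∑ i, E i j * v i) = 0 := hs _ fun j => congrFun h3 j
  refine Matrix.eq_zero_of_vecMul_eq_zero hE ?_
  funext j
  rw [Matrix.vecMul, dotProduct]
  have := congrFun h4 j
  simpa [mul_comm] using this

theorem tlc_hom {F : MvPolynomial (Fin 4) ℂ} (hF : F.IsHomogeneous 4)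
    (E : Matrix (Fin 4) (Fin 4) ℂ) : (tlc F E).IsHomogeneous 4 := by
  unfold tlc
  have := hF.aeval (n := 1) (fun j => ∑ i, C (E i j) * (X i : MvPolynomial (Fin 4) ℂ)) (fun j => by
    apply IsHomogeneous.sum
    intro i _
    have := (isHomogeneous_C (Fin 4) (E i j)).mul (isHomogeneous_X ℂ i)
    simpa using this)
  simpa using this

theorem tl_ne {F : MvPolynomial (Fin 4) ℂ} (hF : F.IsHomogeneous 4) (hs : Pool.Agent.DS.Smooth F)
    {K : Type} [Field K] [Algebra ℂ K] (z : Fin 3 → K) (hFz : aeval (Fin.cons 1 z : Fin 4 → K) F = 0)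
    (htr : ∃ i j, AlgebraicIndependent ℂ ![z i, z j]) (A E : Matrix (Fin 4) (Fin 4) ℂ)
    (hAE : A * E = 1) :
    ∑ j, (Fin.cons 1 z : Fin 4 → K) j * algebraMap ℂ K (A j 0) ≠ 0 := by
  set w : Fin 4 → K := Fin.cons 1 z with hw
  set w' : Fin 4 → K := fun i => ∑ j, w j * algebraMap ℂ K (A j i) with hw'
  have hback : ∀ j, ∑ i, algebraMap ℂ K (E i j) * w' i = w j := by
    intro j
    have h1 : ∀ a, ∑ i, A a i * E i j = if a = j then 1 else 0 := by
      intro a
      have := congrFun (congrFun hAE a) j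
      rw [Matrix.mul_apply, Matrix.one_apply] at this
      exact this
    simp only [hw', Finset.mul_sum]
    rw [Finset.sum_comm]
    have h2 : ∀ a, ∑ i, algebraMap ℂ K (E i j) * (w a * algebraMap ℂ K (A a i)) =
        w a * algebraMap ℂ K (∑ i, A a i * E i j) := by
      intro a
      rw [map_sum, Finset.mul_sum]
      refine Finset.sum_congr rfl fun i _ => ?_
      rw [map_mul]
      ring
    simp only [h2, h1]
    simp
  have hE : E.det ≠ 0 := by
    intro h
    have := congrArg Matrix.det hAE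
    rw [Matrix.det_mul, h, mul_zero, Matrix.det_one] at this
    exact zero_ne_one this
  have hFw' : aeval w' (tlc F E) = 0 := by
    rw [tlc_eval]
    rw [show (fun j => ∑ i, algebraMap ℂ K (E i j) * w' i) = w from funext hback]
    exact hFz
  have hw'0 : ∃ i, w' i ≠ 0 := by
    by_contra h
    push Not at h
    have h1 := hback 0
    simp only [h, mul_zero, Finset.sum_const_zero] at h1
    rw [hw, Fin.cons_zero] at h1
    exact zero_ne_one h1
  intro h0
  obtain ⟨i, hi⟩ := hw'0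
  have hi0 : i ≠ 0 := by
    rintro rfl
    exact hi h0
  obtain ⟨a, b, hab⟩ := htr
  set p : Fin 3 → K := fun c => w' c.succ / w' i with hp
  have hmem : ∀ l, w' l / w' i ∈ IntermediateField.adjoin ℂ (Set.range p) := by
    intro l
    refine Fin.cases ?_ (fun c => ?_) l
    · rw [show w' 0 = 0 from h0, zero_div]
      exact zero_mem _
    · exact IntermediateField.subset_adjoin _ _ ⟨c, rfl⟩
  have hinv : ∀ j, w j / w' i ∈ IntermediateField.adjoin ℂ (Set.range p) := by
    intro j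
    rw [← hback j, Finset.sum_div]
    refine sum_mem fun l _ => ?_
    rw [mul_div_assoc]
    exact mul_mem (IntermediateField.algebraMap_mem _ _) (hmem l)
  have hwi : w' i ∈ IntermediateField.adjoin ℂ (Set.range p) := by
    have h1 := hinv 0
    rw [hw, Fin.cons_zero] at h1
    have h2 := inv_mem h1
    rwa [one_div, inv_inv] at h2
  have hz : ∀ c, z c ∈ IntermediateField.adjoin ℂ (Set.range p) := by
    intro c
    have h1 := mul_mem (hinv c.succ) hwi
    rw [div_mul_cancel₀ _ hi, hw, Fin.cons_succ] at h1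
    exact h1
  obtain ⟨a', b', hab'⟩ := x86_pair p (z a) (z b) (hz a) (hz b) hab
  have := (norm_gen (tlc_hom hF E) (tlc_smooth hs E hE) w' hFw' ⟨i, a'.succ, b'.succ, hi, hab'⟩).1
  exact this h0

/-- a form which vanishes on `X₂ = X₃ = 0` -/
theorem tl_split {F : MvPolynomial (Fin 4) ℂ} (hF : F.IsHomogeneous 4)
    (hon : ∀ a : Fin 4 → ℂ, a 2 = 0 → a 3 = 0 → aeval a F = 0) :
    ∃ A B : MvPolynomial (Fin 4) ℂ, A.IsHomogeneous 3 ∧ B.IsHomogeneous 3 ∧ F = X 2 * A + X 3 * B := by
  classical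
  let A : MvPolynomial (Fin 4) ℂ :=
    ∑ m ∈ F.support.filter (fun m => m 2 ≠ 0), monomial (m - Finsupp.single 2 1) (coeff m F)
  let B : MvPolynomial (Fin 4) ℂ :=
    ∑ m ∈ (F.support.filter (fun m => ¬ m 2 ≠ 0)).filter (fun m => m 3 ≠ 0),
      monomial (m - Finsupp.single 3 1) (coeff m F)
  let R : MvPolynomial (Fin 4) ℂ :=
    ∑ m ∈ (F.support.filter (fun m => ¬ m 2 ≠ 0)).filter (fun m => ¬ m 3 ≠ 0), monomial m (coeff m F)
  have hsub : ∀ (i : Fin 4) (m : Fin 4 →₀ ℕ), m i ≠ 0 → Finsupp.single i 1 + (m - Finsupp.single i 1) = m := by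
    intro i m hm
    exact add_tsub_cancel_of_le (Finsupp.single_le_iff.2 (Nat.one_le_iff_ne_zero.2 hm))
  have hX : ∀ (i : Fin 4) (m : Fin 4 →₀ ℕ) (c : ℂ), m i ≠ 0 →
      X i * monomial (m - Finsupp.single i 1) c = monomial m c := by
    intro i m c hm
    rw [X, monomial_mul, one_mul, hsub i m hm]
  have hdeg : ∀ (i : Fin 4) (m : Fin 4 →₀ ℕ), m ∈ F.support → m i ≠ 0 →
      (m - Finsupp.single i 1).degree = 3 := by
    intro i m hm hmi
    have h1 : m.degree = 4 := by
      by_contra h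
      exact mem_support_iff.1 hm (hF.coeff_eq_zero h)
    have h2 := congrArg Finsupp.degree (hsub i m hmi)
    rw [map_add, Finsupp.degree_single, h1] at h2
    omega
  have hsum : F = X 2 * A + X 3 * B + R := by
    conv_lhs => rw [F.as_sum]
    rw [← Finset.sum_filter_add_sum_filter_not F.support (fun m => m 2 ≠ 0),
      ← Finset.sum_filter_add_sum_filter_not (F.support.filter (fun m => ¬ m 2 ≠ 0)) (fun m => m 3 ≠ 0),
      ← add_assoc]
    congr 1
    congr 1
    · rw [Finset.mul_sum]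
      refine Finset.sum_congr rfl fun m hm => ?_
      rw [hX 2 m _ (Finset.mem_filter.1 hm).2]
    · rw [Finset.mul_sum]
      refine Finset.sum_congr rfl fun m hm => ?_
      rw [hX 3 m _ (Finset.mem_filter.1 hm).2]
  have hR : R = 0 := by
    apply MvPolynomial.funext
    intro v
    rw [map_zero]
    let v' : Fin 4 → ℂ := ![v 0, v 1, 0, 0]
    have h1 : aeval v' F = 0 := hon v' rfl rfl
    have h2 : aeval v' R = 0 := by
      rw [hsum, map_add, map_add, map_mul, map_mul, aeval_X, aeval_X] at h1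
      have e2 : v' 2 = 0 := rfl
      have e3 : v' 3 = 0 := rfl
      rw [e2, e3, zero_mul, zero_mul, zero_add, zero_add] at h1
      exact h1
    rw [← h2]
    have h6 : aeval v' R = eval v' R := RingHom.congr_fun (coe_aeval_eq_eval v') R
    rw [h6]
    show eval v (∑ m ∈ _, _) = eval v' (∑ m ∈ _, _)
    rw [map_sum, map_sum]
    refine Finset.sum_congr rfl fun m hm => ?_
    have h4 := (Finset.mem_filter.1 hm).2
    have h5 := (Finset.mem_filter.1 (Finset.mem_filter.1 hm).1).2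
    push Not at h4 h5
    rw [eval_monomial, eval_monomial, Finsupp.prod_fintype _ _ (by simp),
      Finsupp.prod_fintype _ _ (by simp), Fin.prod_univ_four, Fin.prod_univ_four, h4, h5]
    simp [v']
  refine ⟨A, B, ?_, ?_, by rw [hR, add_zero] at hsum; exact hsum⟩
  · apply IsHomogeneous.sum
    intro m hm
    exact isHomogeneous_monomial _ (hdeg 2 m (Finset.mem_filter.1 hm).1 (Finset.mem_filter.1 hm).2)
  · apply IsHomogeneous.sum
    intro m hm
    exact isHomogeneous_monomial _ (hdeg 3 m (Finset.mem_filter.1 (Finset.mem_filter.1 hm).1).1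
      (Finset.mem_filter.1 hm).2)

theorem tl_kill {K : Type} [Field K] [Algebra ℂ K] (t : K) (D : Derivation ℂ K K) (h : D t = 0) :
    ∀ a ∈ IntermediateField.adjoin ℂ {t}, D a = 0 := by
  intro a ha
  induction ha using IntermediateField.adjoin_induction with
  | mem x hx => rw [Set.mem_singleton_iff.1 hx]; exact h
  | algebraMap r => exact Derivation.map_algebraMap D r
  | add x y _ _ hx hy => rw [map_add, hx, hy, add_zero]
  | inv x _ hx => rw [Derivation.leibniz_inv, hx, smul_zero]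
  | mul x y _ _ hx hy => rw [Derivation.leibniz, hx, hy, smul_zero, smul_zero, add_zero]

/-- a nonzero derivation which kills `t` -/
theorem tl_der {K : Type} [Field K] [Algebra ℂ K] (a b t : K) (hab : AlgebraicIndependent ℂ ![a, b]) :
    ∃ E : Derivation ℂ K K, E t = 0 ∧ ∃ u, E u ≠ 0 := by
  obtain ⟨D1, h1⟩ := Pool.Agent.Campana.exists_derivation ![a, b] hab ![1, 0]
  obtain ⟨D2, h2⟩ := Pool.Agent.Campana.exists_derivation ![a, b] hab ![0, 1]
  have h1b : D1 b = 0 := h1 1
  have h1a : D1 a = 1 := h1 0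
  have h2b : D2 b = 1 := h2 1
  by_cases h : D1 t = 0
  · exact ⟨D1, h, a, by rw [h1a]; exact one_ne_zero⟩
  · refine ⟨D2 t • D1 - D1 t • D2, ?_, b, ?_⟩
    · rw [Derivation.sub_apply, Derivation.smul_apply, Derivation.smul_apply, smul_eq_mul, smul_eq_mul]
      ring
    · rw [Derivation.sub_apply, Derivation.smul_apply, Derivation.smul_apply, h1b, h2b, smul_zero,
        smul_eq_mul, mul_one, zero_sub]
      exact neg_ne_zero.2 h

theorem pencil_ah {F : MvPolynomial (Fin 4) ℂ} (hF : F.IsHomogeneous 4) (hs : Pool.Agent.DS.Smooth F)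
    (hon : ∀ a : Fin 4 → ℂ, a 2 = 0 → a 3 = 0 → aeval a F = 0) {K : Type} [Field K] [Algebra ℂ K]
    (z : Fin 3 → K) (hz : IntermediateField.adjoin ℂ (Set.range z) = ⊤)
    (hFz : aeval (Fin.cons 1 z : Fin 4 → K) F = 0) (htr : ∃ i j, AlgebraicIndependent ℂ ![z i, z j]) :
    z 1 ≠ 0 ∧ Transcendental ℂ (z 2 / z 1) ∧ ∃ (N : ℕ) (x : Fin (N + 1) → K),
      AlmostHomogeneous (IntermediateField.adjoin ℂ {z 2 / z 1}) x := by
  set w : Fin 4 → K := Fin.cons 1 z with hw
  have w0 : w 0 = 1 := rfl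
  have w1 : w 1 = z 0 := rfl
  have w2 : w 2 = z 1 := rfl
  have w3 : w 3 = z 2 := rfl
  have hz0 : z 0 ≠ 0 := by
    have h := tl_ne hF hs z hFz htr !![0, 1, 0, 0; 1, 0, 0, 0; 0, 0, 1, 0; 0, 0, 0, 1]
      !![0, 1, 0, 0; 1, 0, 0, 0; 0, 0, 1, 0; 0, 0, 0, 1] (by
        ext i j
        fin_cases i <;> fin_cases j <;> simp [Matrix.mul_apply, Fin.sum_univ_four])
    intro h0
    apply h
    rw [Fin.sum_univ_four]
    simp [← hw, w2, w3, h0]
  have hz1 : z 1 ≠ 0 := by
    have h := tl_ne hF hs z hFz htr !![0, 0, 1, 0; 0, 1, 0, 0; 1, 0, 0, 0; 0, 0, 0, 1]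
      !![0, 0, 1, 0; 0, 1, 0, 0; 1, 0, 0, 0; 0, 0, 0, 1] (by
        ext i j
        fin_cases i <;> fin_cases j <;> simp [Matrix.mul_apply, Fin.sum_univ_four])
    intro h0
    apply h
    rw [Fin.sum_univ_four]
    simp [← hw, w2, w3, h0]
  set t : K := z 2 / z 1 with ht
  have hw3 : w 3 = t * w 2 := by
    rw [w3, w2, ht, div_mul_cancel₀ _ hz1]
  have hnc : ∀ c : ℂ, t ≠ algebraMap ℂ K c := by
    intro c hc
    have h := tl_ne hF hs z hFz htr !![0, 0, 0, 1; 0, 1, 0, 0; -c, 0, 1, 0; 1, 0, 0, 0]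
      !![0, 0, 0, 1; 0, 1, 0, 0; 0, 0, 1, c; 1, 0, 0, 0] (by
        ext i j
        fin_cases i <;> fin_cases j <;> simp [Matrix.mul_apply, Fin.sum_univ_four])
    apply h
    rw [Fin.sum_univ_four, ← hw]
    simp [w0, w1]
    rw [hw3, hc]
    ring
  have htt : Transcendental ℂ t := by
    intro halg
    have h3 : IsIntegral ℂ t := halg.isIntegral
    have h4 := IsAlgClosed.degree_eq_one_of_irreducible ℂ (minpoly.irreducible h3)
    obtain ⟨c, hc⟩ := minpoly.mem_range_of_degree_eq_one ℂ t h4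
    exact hnc c hc.symm
  refine ⟨hz1, htt, 2, ![1, z 0, z 1], ?_⟩
  obtain ⟨A, B, hA, hB, hAB⟩ := tl_split hF hon
  set a : Fin 4 → K := fun j => aeval w (pderiv j A) with ha
  set b : Fin 4 → K := fun j => aeval w (pderiv j B) with hb
  have hG : aeval w A + t * aeval w B = 0 := by
    have h1 := hFz
    rw [hAB, map_add, map_mul, map_mul, aeval_X, aeval_X, hw3] at h1
    have h2 : w 2 * (aeval w A + t * aeval w B) = 0 := by linear_combination h1
    exact (mul_eq_zero.1 h2).resolve_left (by rw [w2]; exact hz1)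
  have hEul : ∀ Q : MvPolynomial (Fin 4) ℂ, Q.IsHomogeneous 3 →
      ∑ j, w j * aeval w (pderiv j Q) = 3 * aeval w Q := by
    intro Q hQ
    have h1 := congrArg (aeval w) hQ.sum_X_mul_pderiv
    rw [map_sum, map_nsmul, nsmul_eq_mul] at h1
    simp only [map_mul, aeval_X] at h1
    rw [h1]
    norm_num
  have hEA := hEul A hA
  have hEB := hEul B hB
  rw [Fin.sum_univ_four] at hEA hEB
  have hDw : ∀ D : Derivation ℂ K K, D (w 0) * (a 0 + t * b 0) + D (w 1) * (a 1 + t * b 1) +
      D (w 2) * (a 2 + t * b 2 + t * (a 3 + t * b 3)) + D t * (w 2 * (a 3 + t * b 3) + aeval w B) = 0 := by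
    intro D
    have h1 := congrArg D hG
    rw [map_add, Derivation.leibniz, Pool.Agent.DS.chain, Pool.Agent.DS.chain, map_zero,
      Fin.sum_univ_four, Fin.sum_univ_four, smul_eq_mul, smul_eq_mul] at h1
    have h2 : D (w 3) = t * D (w 2) + w 2 * D t := by
      rw [hw3, Derivation.leibniz, smul_eq_mul, smul_eq_mul]
    rw [h2] at h1
    simp only [ha, hb]
    linear_combination h1
  obtain ⟨i₀, j₀, hij⟩ := htr
  obtain ⟨E, hEt, hE0⟩ := tl_der (z i₀) (z j₀) t hij
  have hx : ∀ i, (![1, z 0, z 1] : Fin (2 + 1) → K) i ≠ 0 := by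
    intro i
    fin_cases i
    · exact one_ne_zero
    · exact hz0
    · exact hz1
  have he : w 0 * (a 0 + t * b 0) + w 1 * (a 1 + t * b 1) +
      w 2 * (a 2 + t * b 2 + t * (a 3 + t * b 3)) = 0 := by
    simp only [ha, hb]
    rw [hw3] at hEA hEB
    linear_combination hEA + t * hEB + 3 * hG
  refine tl_ah _ ![1, z 0, z 1] ![a 0 + t * b 0, a 1 + t * b 1, a 2 + t * b 2 + t * (a 3 + t * b 3)]
    hx ?_ he ?_ ?_ ?_ E (tl_kill t E hEt) hE0
  · show a 1 + t * b 1 ≠ 0 ∨ a 2 + t * b 2 + t * (a 3 + t * b 3) ≠ 0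
    by_contra hcon
    push Not at hcon
    obtain ⟨g1, g2⟩ := hcon
    have g0 : a 0 + t * b 0 = 0 := by
      rw [g1, g2, w0] at he
      linear_combination he
    obtain ⟨D, hD⟩ : ∃ D : Derivation ℂ K K, D t ≠ 0 := by
      by_contra h
      push Not at h
      obtain ⟨c, hc⟩ := pn_const t h
      exact hnc c hc
    have h1 := hDw D
    rw [g0, g1, g2] at h1
    have h2 : w 2 * (a 3 + t * b 3) + aeval w B = 0 := by
      have h3 : D t * (w 2 * (a 3 + t * b 3) + aeval w B) = 0 := by linear_combination h1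
      exact (mul_eq_zero.1 h3).resolve_left hD
    have hw0 : w = 0 := by
      apply Pool.Agent.DS.Smooth.up hs
      intro j
      have hj : aeval w (pderiv j F) = aeval w (pderiv j (X 2 : MvPolynomial (Fin 4) ℂ)) * aeval w A +
          w 2 * a j + (aeval w (pderiv j (X 3 : MvPolynomial (Fin 4) ℂ)) * aeval w B + w 3 * b j) := by
        rw [hAB, map_add, pderiv_mul, pderiv_mul]
        simp only [map_add, map_mul, aeval_X, ha, hb]
      rw [hj, hw3]
      fin_cases j
      · simp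
        linear_combination w 2 * g0
      · simp
        linear_combination w 2 * g1
      · simp
        linear_combination w 2 * g2 - t * h2 + hG
      · simp
        linear_combination h2
    have := congrFun hw0 0
    rw [w0] at this
    exact one_ne_zero this
  · intro D hk
    have hDt : D t = 0 := hk t (IntermediateField.mem_adjoin_simple_self ℂ t)
    have h1 := hDw D
    rw [hDt] at h1
    show D (w 0) * (a 0 + t * b 0) + D (w 1) * (a 1 + t * b 1) +
      D (w 2) * (a 2 + t * b 2 + t * (a 3 + t * b 3)) = 0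
    linear_combination h1
  · intro i j
    have htm : ∀ l, t ∈ Chart (IntermediateField.adjoin ℂ {t}) (![1, z 0, z 1] : Fin (2 + 1) → K) l :=
      fun l => Algebra.subset_adjoin (Or.inl (IntermediateField.mem_adjoin_simple_self ℂ t))
    have hxm : ∀ l i, (![1, z 0, z 1] : Fin (2 + 1) → K) i / (![1, z 0, z 1] : Fin (2 + 1) → K) l ∈
        Chart (IntermediateField.adjoin ℂ {t}) (![1, z 0, z 1] : Fin (2 + 1) → K) l :=
      fun l i => Algebra.subset_adjoin (Or.inr ⟨i, rfl⟩)
    have hwm : ∀ i, w i / (![1, z 0, z 1] : Fin (2 + 1) → K) j ∈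
        Chart (IntermediateField.adjoin ℂ {t}) (![1, z 0, z 1] : Fin (2 + 1) → K) j := by
      intro i
      fin_cases i
      · exact hxm j 0
      · exact hxm j 1
      · exact hxm j 2
      · show w 3 / _ ∈ _
        rw [hw3, mul_div_assoc]
        exact Subalgebra.mul_mem _ (htm j) (hxm j 2)
    have hQ : ∀ Q : MvPolynomial (Fin 4) ℂ, Q.IsHomogeneous 2 →
        aeval w Q / (![1, z 0, z 1] : Fin (2 + 1) → K) j ^ 2 ∈
          Chart (IntermediateField.adjoin ℂ {t}) (![1, z 0, z 1] : Fin (2 + 1) → K) j := by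
      intro Q hQ
      have h1 := pn_smul hQ ((![1, z 0, z 1] : Fin (2 + 1) → K) j)⁻¹ w
      have h2 : aeval w Q / (![1, z 0, z 1] : Fin (2 + 1) → K) j ^ 2 =
          aeval (fun l => ((![1, z 0, z 1] : Fin (2 + 1) → K) j)⁻¹ * w l) Q := by
        rw [h1, inv_pow, div_eq_inv_mul]
      rw [h2]
      have h3 : ∀ l, ((![1, z 0, z 1] : Fin (2 + 1) → K) j)⁻¹ * w l ∈
          Chart (IntermediateField.adjoin ℂ {t}) (![1, z 0, z 1] : Fin (2 + 1) → K) j := by
        intro l
        rw [← div_eq_inv_mul]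
        exact hwm l
      rw [aeval_def, eval₂_eq']
      refine Subalgebra.sum_mem _ fun m _ => Subalgebra.mul_mem _ (Subalgebra.algebraMap_mem _ _)
        (Subalgebra.prod_mem _ fun i _ => Subalgebra.pow_mem _ (h3 i) _)
    have hpa : ∀ l, a l / (![1, z 0, z 1] : Fin (2 + 1) → K) j ^ 2 ∈
        Chart (IntermediateField.adjoin ℂ {t}) (![1, z 0, z 1] : Fin (2 + 1) → K) j := fun l =>
      hQ _ hA.pderiv
    have hpb : ∀ l, b l / (![1, z 0, z 1] : Fin (2 + 1) → K) j ^ 2 ∈
        Chart (IntermediateField.adjoin ℂ {t}) (![1, z 0, z 1] : Fin (2 + 1) → K) j := fun l =>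
      hQ _ hB.pderiv
    have hab : ∀ l, (a l + t * b l) / (![1, z 0, z 1] : Fin (2 + 1) → K) j ^ 2 ∈
        Chart (IntermediateField.adjoin ℂ {t}) (![1, z 0, z 1] : Fin (2 + 1) → K) j := by
      intro l
      rw [add_div, mul_div_assoc]
      exact Subalgebra.add_mem _ (hpa l) (Subalgebra.mul_mem _ (htm j) (hpb l))
    fin_cases i
    · exact hab 0
    · exact hab 1
    · show (a 2 + t * b 2 + t * (a 3 + t * b 3)) / _ ∈ _
      rw [add_div, mul_div_assoc t]
      exact Subalgebra.add_mem _ (hab 2) (Subalgebra.mul_mem _ (htm j) (hab 3))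
  · rw [eq_top_iff, ← hz, IntermediateField.adjoin_le_iff]
    have hj : ∀ i, (![1, z 0, z 1] : Fin (2 + 1) → K) i ∈ IntermediateField.adjoin ℂ
        (((IntermediateField.adjoin ℂ {t} : IntermediateField ℂ K) : Set K) ∪ Set.range fun i =>
          (![1, z 0, z 1] : Fin (2 + 1) → K) i / (![1, z 0, z 1] : Fin (2 + 1) → K) 0) := by
      intro i
      refine IntermediateField.subset_adjoin _ _ (Or.inr ⟨i, ?_⟩)
      show _ / (1 : K) = _
      rw [div_one]
    rintro _ ⟨i, rfl⟩
    fin_cases i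
    · exact hj 1
    · exact hj 2
    · show z 2 ∈ _
      have h1 : z 2 = t * z 1 := by rw [ht, div_mul_cancel₀ _ hz1]
      rw [h1]
      exact mul_mem (IntermediateField.subset_adjoin _ _
        (Or.inl (IntermediateField.mem_adjoin_simple_self ℂ t))) (hj 2)

end Pool.Agent.QX
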