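import Pool.Agent.Lib_MP_1209e6_ql.Defs
import Pool.Agent.Lib_MP_1209e6_qx.Rat

/-! PIECE RAT1: `rat` for surfaces with one line. -/

set_option autoImplicit false

open MvPolynomial

noncomputable section

namespace Pool.Agent.QX

section relations

variable {k M : Type} [Field k] [Algebra ℂ k] [Field M] [Algebra ℂ M]

/-- a point with a nonconstant coordinate on a complex line -/
theorem rat_noline1 {F : MvPolynomial (Fin 4) ℂ} (hF : F.IsHomogeneous 4)
    (a b : Fin 4 → ℂ) (hl : ∃ s t : ℂ, aeval (fun j => s * a j + t * b j) F ≠ 0) (σ ρ : M)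
    (h : aeval (fun n => σ * algebraMap ℂ M (a n) + ρ * algebraMap ℂ M (b n)) F = 0) :
    ρ = 0 ∨ ∃ c : ℂ, σ = algebraMap ℂ M c * ρ := by
  by_cases hρ : ρ = 0
  · exact Or.inl hρ
  right
  by_contra hcon
  have htr : Transcendental ℂ (σ / ρ) := by
    intro halg
    obtain ⟨c, hc⟩ := rat_const halg
    exact hcon ⟨c, by rw [← hc, div_mul_cancel₀ _ hρ]⟩
  set P : Polynomial ℂ := aeval (fun n => Polynomial.C (b n) + Polynomial.X * Polynomial.C (a n)) F
    with hP
  have hscale : ∀ (A : Type) [Field A] [Algebra ℂ A] (s : A) (p : Fin 4 → A),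
      aeval (fun i => s * p i) F = s ^ 4 * aeval p F := fun A _ _ s p => rat_scale hF s p
  have hPe : ∀ (A : Type) [Field A] [Algebra ℂ A] (s : A), Polynomial.aeval s P =
      aeval (fun n => s * algebraMap ℂ A (a n) + algebraMap ℂ A (b n)) F := by
    intro A _ _ s
    rw [hP, ← AlgHom.comp_apply, comp_aeval]
    congr 2
    funext n
    simp only [map_add, map_mul, Polynomial.aeval_C, Polynomial.aeval_X]
    ring
  have hP0 : P = 0 := by
    by_contra hne
    refine htr ⟨P, hne, ?_⟩
    rw [hPe]
    have h1 : (fun n => σ * algebraMap ℂ M (a n) + ρ * algebraMap ℂ M (b n)) =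
        fun n => ρ * (σ / ρ * algebraMap ℂ M (a n) + algebraMap ℂ M (b n)) := by
      funext n
      field_simp
    rw [h1, hscale M] at h
    exact (mul_eq_zero.1 h).resolve_left (pow_ne_zero _ hρ)
  obtain ⟨s, t, hst⟩ := hl
  by_cases ht : t = 0
  · have h1 := (Pool.Agent.DS.line_top hF b a).2
    rw [← hP, hP0, Polynomial.coeff_zero] at h1
    apply hst
    rw [ht]
    simp only [zero_mul, add_zero]
    rw [hscale ℂ, ← h1, mul_zero]
  · apply hst
    have h1 : (fun j => s * a j + t * b j) = fun j => t * (s / t * a j + b j) := by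
      funext j
      field_simp
    rw [h1, hscale ℂ]
    have h2 := hPe ℂ (s / t)
    rw [hP0, map_zero] at h2
    have h3 : aeval (fun j => s / t * a j + b j) F = 0 := h2.symm
    rw [h3, mul_zero]

/-- independence goes up -/
theorem rat1_ind {k : Type} [Field k] [Algebra ℂ k] {a b : Fin 4 → ℂ} (h : LinearIndependent ℂ ![a, b]) :
    LinearIndependent k ![fun n => algebraMap ℂ k (a n), fun n => algebraMap ℂ k (b n)] := by
  have h1 : ∃ i j, a i * b j - a j * b i ≠ 0 := by
    by_contra hcon
    push Not at hcon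
    rw [LinearIndependent.pair_iff] at h
    have ha0 : a ≠ 0 := by
      rintro rfl
      exact one_ne_zero (h 1 0 (by simp)).1
    obtain ⟨i, hi⟩ := Function.ne_iff.1 ha0
    rw [Pi.zero_apply] at hi
    have h2 := h (- (b i)) (a i) (by
      funext j
      simp only [Pi.add_apply, Pi.smul_apply, smul_eq_mul, Pi.zero_apply]
      linear_combination hcon i j)
    exact hi h2.2
  obtain ⟨i, j, hij⟩ := h1
  rw [LinearIndependent.pair_iff]
  intro s t hst
  have e1 := congrFun hst i
  have e2 := congrFun hst j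
  simp only [Pi.add_apply, Pi.smul_apply, smul_eq_mul, Pi.zero_apply] at e1 e2
  have hne : algebraMap ℂ k (a i * b j - a j * b i) ≠ 0 := (map_ne_zero _).2 hij
  rw [map_sub, map_mul, map_mul] at hne
  constructor
  · have : s * (algebraMap ℂ k (a i) * algebraMap ℂ k (b j) - algebraMap ℂ k (a j) * algebraMap ℂ k (b i)) = 0 := by
      linear_combination (algebraMap ℂ k (b j)) * e1 - (algebraMap ℂ k (b i)) * e2
    exact (mul_eq_zero.1 this).resolve_right hne
  · have : t * (algebraMap ℂ k (a i) * algebraMap ℂ k (b j) - algebraMap ℂ k (a j) * algebraMap ℂ k (b i)) = 0 := by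
      linear_combination (algebraMap ℂ k (a i)) * e2 - (algebraMap ℂ k (a j)) * e1
    exact (mul_eq_zero.1 this).resolve_right hne

/-- the plane is the set of zeros of its equation -/
theorem rat1_mem {k : Type} [Field k] (e : Fin 3 → Fin 4 → k) (he : LinearIndependent k e) (u : Fin 4 → k)
    (hu0 : u ≠ 0) (hu : ∀ i, ∑ j, u j * e i j = 0) (v : Fin 4 → k) (hv : ∑ j, u j * v j = 0) :
    v ∈ Submodule.span k (Set.range e) := by
  let φ : (Fin 4 → k) →ₗ[k] k := ∑ j, u j • LinearMap.proj j
  have hφ : ∀ x, φ x = ∑ j, u j * x j := by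
    intro x
    simp [φ]
  have hle : Submodule.span k (Set.range e) ≤ LinearMap.ker φ := by
    rw [Submodule.span_le]
    rintro _ ⟨i, rfl⟩
    rw [SetLike.mem_coe, LinearMap.mem_ker, hφ, hu i]
  have h1 : Module.finrank k (Submodule.span k (Set.range e)) = 3 := by
    rw [finrank_span_eq_card he, Fintype.card_fin]
  have h2 := LinearMap.finrank_range_add_finrank_ker φ
  have h3 : 0 < Module.finrank k (LinearMap.range φ) := by
    obtain ⟨i, hi⟩ := Function.ne_iff.1 hu0
    rw [Pi.zero_apply] at hi
    apply Module.finrank_pos_iff_exists_ne_zero.2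
    refine ⟨⟨u i, ⟨Pi.single i 1, ?_⟩⟩, fun h => hi (congrArg Subtype.val h)⟩
    rw [hφ]
    simp [Pi.single_apply]
  rw [Module.finrank_fintype_fun_eq_card, Fintype.card_fin] at h2
  have h4 : Submodule.span k (Set.range e) = LinearMap.ker φ :=
    Submodule.eq_of_le_of_finrank_le hle (by omega)
  rw [h4, LinearMap.mem_ker, hφ, hv]

end relations

variable {k M : Type} [Field k] [Algebra ℂ k] [IsAlgClosed k] [Field M] [Algebra ℂ M]

/-- As `rat`; if `z` is on a complex line and has a transcendental coordinate then `F = 0` on this line, so it is the line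
`X₂ = X₃ = 0`, which is not contained in the plane (`hn`): the intersection is a point over `k`, and `z` is it. -/
theorem rat1 {F : MvPolynomial (Fin 4) ℂ} (hF : F.IsHomogeneous 4) (h1 : OneLine F) (T : k) (hT : Base T)
    (τ : k →ₐ[ℂ] M) (e : Fin 3 → Fin 4 → k) (he : LinearIndependent k e) (hm : Moving e) (hn : NoLineIn F e)
    (z : Fin 4 → M) (hz0 : z ≠ 0) (p : Fin 3 → M) (hz : ∀ j, z j = ∑ i, p i * τ (e i j))
    (hFz : aeval z F = 0) (hg : ¬ Gen z) : ∃ (c : M) (x : Fin 4 → k), c ≠ 0 ∧ ∀ j, z j = c * τ (x j) := by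
  clear h1
  classical
  obtain ⟨i0, hi0⟩ := Function.ne_iff.1 hz0
  rw [Pi.zero_apply] at hi0
  set y : Fin 4 → M := fun j => z j / z i0 with hy
  have hyi : y i0 = 1 := div_self hi0
  by_cases hall : ∀ j, ∃ a : k, y j = τ a
  · choose x hx using hall
    refine ⟨z i0, x, hi0, fun j => ?_⟩
    rw [← hx j, hy]
    field_simp
  exfalso
  push Not at hall
  obtain ⟨j0, hj0⟩ := hall
  let _ : Algebra k M := τ.toRingHom.toAlgebra
  have : IsScalarTower ℂ k M := IsScalarTower.of_algebraMap_eq fun c => (τ.commutes c).symm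
  have : CharZero k := charZero_of_injective_algebraMap (algebraMap ℂ k).injective
  -- the coordinate `y j0` is transcendental over `k`
  have htr : Transcendental k (y j0) := by
    intro halg
    obtain ⟨a, ha⟩ := minpoly.mem_range_of_degree_eq_one k (y j0)
      (IsAlgClosed.degree_eq_one_of_irreducible k (minpoly.irreducible halg.isIntegral))
    exact hj0 a ha.symm
  obtain ⟨D1, hD1⟩ := rat_der_tr htr
  let D1' : Derivation ℂ M M := D1.restrictScalars ℂ
  have hD1' : D1' (y j0) = 1 := hD1
  have hD1τ : ∀ a : k, D1' (τ a) = 0 := fun a => D1.map_algebraMap a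
  obtain ⟨d, hdT, hd⟩ := rat_d hT
  have hτT : Transcendental ℂ (τ T) := by
    intro h
    exact hT.tr ((isAlgebraic_algHom_iff τ τ.injective).1 h)
  obtain ⟨D0, hD0⟩ := rat_der_tr hτT
  set D : Derivation ℂ M M := D0 - D0 (y j0) • D1' with hD
  have hDT : D (τ T) = 1 := by
    rw [hD, Derivation.sub_apply, Derivation.smul_apply, hD1τ, smul_zero, sub_zero, hD0]
  have hDj : D (y j0) = 0 := by
    rw [hD, Derivation.sub_apply, Derivation.smul_apply, hD1', smul_eq_mul, mul_one, sub_self]
  -- `D` restricts to `d`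
  have hdD : ∀ a, D (τ a) = τ (d a) := by
    intro a
    let δ : Derivation ℂ k M := D.compAlgebraMap k - (Algebra.linearMap k M).compDer d
    have h1 : ∀ b, δ b = D (τ b) - τ (d b) := fun b => rfl
    have h2 := rat_der_zero hT δ (by rw [h1, hDT, hdT, map_one, sub_self]) a
    rw [h1] at h2
    exact sub_eq_zero.1 h2
  -- `D` kills all coordinates
  have hyD : ∀ l, D (y l) = 0 := by
    intro l
    by_contra hl0
    refine hg ⟨i0, j0, l, hi0, ?_⟩
    have h1 : ![z j0 / z i0, z l / z i0] = ![y j0, y l] := rfl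
    rw [h1]
    refine Pool.Agent.Campana.algIndep_of_der ![y j0, y l]
      ![D1' - (D1' (y l) / D (y l)) • D, D] ?_ ?_
    · intro i j hij
      fin_cases i <;> fin_cases j
      · exact absurd rfl hij
      · change (D1' - (D1' (y l) / D (y l)) • D) (y l) = 0
        rw [Derivation.sub_apply, Derivation.smul_apply, smul_eq_mul, div_mul_cancel₀ _ hl0, sub_self]
      · exact hDj
      · exact absurd rfl hij
    · intro i
      fin_cases i
      · change (D1' - (D1' (y l) / D (y l)) • D) (y j0) ≠ 0
        rw [Derivation.sub_apply, Derivation.smul_apply, hDj, smul_zero, sub_zero, hD1']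
        exact one_ne_zero
      · exact hl0
  -- the equation of the plane
  obtain ⟨u, hu0, hu⟩ : ∃ u : Fin 4 → k, u ≠ 0 ∧ ∀ i, ∑ j, u j * e i j = 0 := by
    let φ : (Fin 4 → k) →ₗ[k] (Fin 3 → k) := Matrix.mulVecLin (Matrix.of e)
    have h1 : LinearMap.ker φ ≠ ⊥ := LinearMap.ker_ne_bot_of_finrank_lt (by simp)
    obtain ⟨u, hu, hu0⟩ := Submodule.exists_mem_ne_zero_of_ne_bot h1
    refine ⟨u, hu0, fun i => ?_⟩
    have h2 := congrFun (LinearMap.mem_ker.1 hu) i
    change ∑ j, e i j * u j = 0 at h2
    rw [← h2]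
    exact Finset.sum_congr rfl fun j _ => mul_comm _ _
  have hunot : ∀ (l : k) (c : Fin 4 → ℂ), ¬ ∀ j, u j = l * algebraMap ℂ k (c j) := by
    intro l c h
    have hl0 : l ≠ 0 := by
      rintro rfl
      exact hu0 (funext fun j => by rw [h j, zero_mul]; rfl)
    have hc : c = 0 := hm c fun i => by
      have h1 := hu i
      have h2 : ∀ j, u j * e i j = l * (algebraMap ℂ k (c j) * e i j) := by
        intro j
        rw [h j]
        ring
      rw [Finset.sum_congr rfl fun j _ => h2 j, ← Finset.mul_sum] at h1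
      exact (mul_eq_zero.1 h1).resolve_left hl0
    exact hu0 (funext fun j => by rw [h j, hc]; simp)
  have hr : ∑ j, τ (u j) * y j = 0 := by
    have h1 : ∀ j, τ (u j) * y j = (z i0)⁻¹ * ∑ i, p i * τ (u j * e i j) := by
      intro j
      rw [hy]
      simp only [map_mul]
      rw [hz j, div_eq_mul_inv, Finset.sum_mul, Finset.mul_sum, Finset.mul_sum]
      refine Finset.sum_congr rfl fun i _ => ?_
      ring
    rw [Finset.sum_congr rfl fun j _ => h1 j, ← Finset.mul_sum, Finset.sum_comm]
    rw [Finset.sum_eq_zero, mul_zero]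
    intro i _
    rw [← Finset.mul_sum, ← map_sum, hu i, map_zero, mul_zero]
  obtain ⟨i, j, c, c', hij, h1, h2, h3, h4, h5, h6⟩ := rat_two τ d D hdD hd y hyD u hu0 hunot hr
  obtain ⟨l, m, a, b, hab, hpar⟩ := rat_param y i j c c' hij h1 h2 h3 h4 h5 h6
  have hFy : aeval y F = 0 := by
    have h7 := Pool.Agent.QX.rat_scale (F := F) hF (z i0)⁻¹ z
    rw [hFz, mul_zero] at h7
    rw [← h7]
    congr 2
    funext n
    rw [hy]
    simp only
    rw [div_eq_mul_inv, mul_comm]
  by_cases hcl : ∃ s t : ℂ, aeval (fun j => s * a j + t * b j) F ≠ 0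
  swap
  · push Not at hcl
    have hsum : ∀ v : Fin 4 → ℂ, τ (∑ n, u n * algebraMap ℂ k (v n)) = ∑ n, τ (u n) * algebraMap ℂ M (v n) := by
      intro v
      rw [map_sum]
      refine Finset.sum_congr rfl fun n _ => ?_
      rw [map_mul, AlgHom.commutes]
    have hrel : τ (∑ n, u n * algebraMap ℂ k (a n)) * y l + τ (∑ n, u n * algebraMap ℂ k (b n)) * y m = 0 := by
      rw [hsum, hsum, Finset.sum_mul, Finset.sum_mul, ← Finset.sum_add_distrib, ← hr]
      refine Finset.sum_congr rfl fun n _ => ?_
      rw [hpar n]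
      ring
    have hk : LinearIndependent k ![fun n => algebraMap ℂ k (a n), fun n => algebraMap ℂ k (b n)] :=
      rat1_ind hab
    have hfin : ∀ (g : M) (x : Fin 4 → k), (∀ n, y n = g * τ (x n)) → False := by
      intro g x hgx
      have h7 := hgx i0
      rw [hyi] at h7
      have hx0 : τ (x i0) ≠ 0 := by
        intro h
        rw [h, mul_zero] at h7
        exact one_ne_zero h7
      refine hj0 (x j0 / x i0) ?_
      rw [hgx j0, map_div₀]
      field_simp
      linear_combination -(τ (x j0)) * h7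
    by_cases ha : ∑ n, u n * algebraMap ℂ k (a n) = 0
    · by_cases hb : ∑ n, u n * algebraMap ℂ k (b n) = 0
      · obtain ⟨s, t, hst⟩ := hn _ _ hk (rat1_mem e he u hu0 hu _ ha) (rat1_mem e he u hu0 hu _ hb)
        apply hst
        have h8 := aeval_algebraMap_apply k (fun j => s * a j + t * b j) F
        rw [hcl s t, map_zero] at h8
        rw [← h8]
        congr 2
        funext j
        simp only [Function.comp_apply, map_add, map_mul]
      · rw [ha, map_zero, zero_mul, zero_add] at hrel
        have hb' : τ (∑ n, u n * algebraMap ℂ k (b n)) ≠ 0 := (map_ne_zero τ).2 hb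
        have hym : y m = 0 := (mul_eq_zero.1 hrel).resolve_left hb'
        refine hfin (y l) (fun n => algebraMap ℂ k (a n)) fun n => ?_
        rw [hpar n, hym, zero_mul, add_zero, AlgHom.commutes]
    · have ha' : τ (∑ n, u n * algebraMap ℂ k (a n)) ≠ 0 := (map_ne_zero τ).2 ha
      have hyl : y l = - (τ (∑ n, u n * algebraMap ℂ k (b n)) / τ (∑ n, u n * algebraMap ℂ k (a n))) * y m := by
        field_simp
        linear_combination hrel
      refine hfin (y m) (fun n => algebraMap ℂ k (b n) - (∑ n, u n * algebraMap ℂ k (b n)) /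
        (∑ n, u n * algebraMap ℂ k (a n)) * algebraMap ℂ k (a n)) fun n => ?_
      rw [hpar n, hyl, map_sub, map_mul, map_div₀, AlgHom.commutes, AlgHom.commutes]
      ring
  have hline := rat_noline1 (M := M) hF a b hcl (y l) (y m) (by
    rw [← hFy]
    congr 2
    funext n
    exact (hpar n).symm)
  -- all coordinates would be complex
  have hcpx : ∃ (g : M) (w : Fin 4 → ℂ), ∀ n, y n = g * algebraMap ℂ M (w n) := by
    rcases hline with h | ⟨r, hr⟩
    · exact ⟨y l, a, fun n => by rw [hpar n, h, zero_mul, add_zero]⟩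
    · refine ⟨y m, fun n => r * a n + b n, fun n => ?_⟩
      rw [hpar n, hr, map_add, map_mul]
      ring
  obtain ⟨g, w, hgw⟩ := hcpx
  have h7 := hgw i0
  rw [hyi] at h7
  have hw : algebraMap ℂ M (w i0) ≠ 0 := by
    intro h
    rw [h, mul_zero] at h7
    exact one_ne_zero h7
  refine hj0 (algebraMap ℂ k (w j0 / w i0)) ?_
  rw [AlgHom.commutes, hgw j0, map_div₀]
  field_simp
  linear_combination -(algebraMap ℂ M (w j0)) * h7

end Pool.Agent.QX
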