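import Pool.Agent.Lib_MP_1209e6_ql.Fam1
import Pool.Agent.Lib_MP_1209e6_ql.Nok
import Pool.Agent.Lib_MP_1209e6_ql.Rat1
import Pool.Agent.Lib_MP_1209e6_ql.Cover1
import Pool.Agent.Lib_MP_1209e6_ql.Pencil1
import Pool.Agent.Lib_MP_1209e6_qx.Main

/-! PIECE MAIN1: smooth quartic surfaces with exactly one line. -/

set_option autoImplicit false

open MvPolynomial Pool.Agent.Campana Pool.Agent.CampanaFlow

noncomputable section

namespace Pool.Agent.QX

/-- a covering family -/
structure M1Fam (K : Type) [Field K] [Algebra ℂ K] where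
  L : Type
  [fL : Field L]
  [aC : Algebra ℂ L]
  [aK : Algebra K L]
  [tw : IsScalarTower ℂ K L]
  [fin : FiniteDimensional K L]
  k : IntermediateField ℂ L
  N : ℕ
  x : Fin (N + 1) → L
  ah : AlmostHomogeneous k x

attribute [instance] M1Fam.fL M1Fam.aC M1Fam.aK M1Fam.tw M1Fam.fin

/-- two families without a common first integral -/
theorem m1_two {n : ℕ} (P : Ideal (MvPolynomial (Fin (n + 1)) ℂ)) [P.IsPrime] (hP : IsVariety P)
    (A B : M1Fam (FunField P))
    (hc : ∀ u : FunField P, IsAlgebraic A.k (algebraMap (FunField P) A.L u) →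
      IsAlgebraic B.k (algebraMap (FunField P) B.L u) → ∃ c : ℂ, u = algebraMap ℂ (FunField P) c) :
    SpecialField (FunField P) ∧ BrodySpecial P := by
  obtain ⟨F, hA, hB⟩ : ∃ F : Fin 2 → M1Fam (FunField P), F 0 = A ∧ F 1 = B := ⟨![A, B], rfl, rfl⟩
  have hc' : ∀ u : FunField P, (∀ i, IsAlgebraic (F i).k (algebraMap (FunField P) (F i).L u)) →
      ∃ c : ℂ, u = algebraMap ℂ (FunField P) c := by
    intro u hu
    subst hA hB
    exact hc u (hu 0) (hu 1)
  exact ⟨Pool.Agent.K3.special_covers (funField_fg P) (fun i => (F i).L) (fun i => (F i).k)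
      (fun i => (F i).N) (fun i => (F i).x) (fun i => (F i).ah) hc',
    Pool.Agent.CampanaNT.brody_covers P hP (fun i => (F i).L) (fun i => (F i).k)
      (fun i => (F i).N) (fun i => (F i).x) (fun i => (F i).ah) hc'⟩

/-- the kernel of a form which vanishes on three independent vectors is their span -/
theorem m1_span {k : Type} [Field k] (e : Fin 3 → Fin 4 → k) (he : LinearIndependent k e) (w : Fin 4 → k)
    (i₀ : Fin 4) (hw0 : w i₀ ≠ 0) (hw : ∀ i, ∑ j, w j * e i j = 0) (v : Fin 4 → k)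
    (hv : ∑ j, w j * v j = 0) : v ∈ Submodule.span k (Set.range e) := by
  classical
  by_contra hvn
  have h1 : LinearIndependent k (Fin.cons v e : Fin 4 → Fin 4 → k) :=
    linearIndependent_finCons.2 ⟨he, hvn⟩
  have h2 : Submodule.span k (Set.range (Fin.cons v e : Fin 4 → Fin 4 → k)) = ⊤ :=
    h1.span_eq_top_of_card_eq_finrank (by simp)
  obtain ⟨f, hf⟩ : ∃ f : (Fin 4 → k) →ₗ[k] k, ∀ x, f x = ∑ j, w j * x j :=
    ⟨∑ j, w j • LinearMap.proj j, fun x => by simp⟩
  have h3 : Submodule.span k (Set.range (Fin.cons v e : Fin 4 → Fin 4 → k)) ≤ LinearMap.ker f := by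
    rw [Submodule.span_le]
    rintro _ ⟨i, rfl⟩
    show f _ = 0
    rw [hf]
    refine Fin.cases ?_ (fun i => ?_) i
    · exact hv
    · exact hw i
  have h4 : Pi.single i₀ (1 : k) ∈ LinearMap.ker f := h3 (by rw [h2]; trivial)
  have h5 : f (Pi.single i₀ (1 : k)) = 0 := h4
  rw [hf, Finset.sum_eq_single i₀] at h5
  · rw [Pi.single_eq_same, mul_one] at h5
    exact hw0 h5
  · intro j _ hj
    rw [Pi.single_eq_of_ne hj, mul_zero]
  · intro h
    exact absurd (Finset.mem_univ _) h

/-- dual functionals -/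
theorem m1_dual {k : Type} [Field k] (e : Fin 3 → Fin 4 → k) (he : LinearIndependent k e) :
    ∃ u : Fin 3 → Fin 4 → k, ∀ l i, ∑ j, u l j * e i j = if l = i then 1 else 0 := by
  classical
  have h1 : LinearMap.ker (Fintype.linearCombination k e) = ⊥ := he.fintypeLinearCombination_injective |>
    LinearMap.ker_eq_bot.2
  obtain ⟨g, hg⟩ := LinearMap.exists_leftInverse_of_injective _ h1
  refine ⟨fun l j => g (fun m => if j = m then 1 else 0) l, fun l i => ?_⟩
  have h2 : g (e i) = Pi.single i 1 := by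
    have h3 := LinearMap.congr_fun hg (Pi.single i 1)
    rw [LinearMap.comp_apply, Fintype.linearCombination_apply_single, one_smul] at h3
    exact h3
  have h4 := congrFun (LinearMap.pi_apply_eq_sum_univ g (e i)) l
  rw [h2] at h4
  rw [Finset.sum_apply] at h4
  simp only [Pi.smul_apply, smul_eq_mul] at h4
  rw [Pi.single_apply] at h4
  rw [h4]
  exact Finset.sum_congr rfl fun j _ => mul_comm _ _

/-- a generic point of the section -/
theorem m1_point {F : MvPolynomial (Fin 4) ℂ} (hF : F.IsHomogeneous 4) {k M : Type} [Field k] [Algebra ℂ k]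
    [Field M] [Algebra ℂ M] [IsAlgClosed M] (τ : k →ₐ[ℂ] M) (ξ : M) (hξ : ξ ∉ Set.range τ)
    (e : Fin 3 → Fin 4 → k) (he : LinearIndependent k e) (hn : NoLineIn F e) :
    ∃ (z : Fin 4 → M) (p : Fin 3 → M), (∀ j, z j = ∑ i, p i * τ (e i j)) ∧ aeval z F = 0 ∧
      ∀ (c : M) (x : Fin 4 → k), ¬ ∀ j, z j = c * τ (x j) := by
  classical
  have h01 : LinearIndependent k ![e 0, e 1] := by
    have h1 := he.comp ![0, 1] (by
      intro a b hab
      fin_cases a <;> fin_cases b <;> simp_all)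
    have h2 : e ∘ ![0, 1] = ![e 0, e 1] := by
      funext a
      fin_cases a <;> rfl
    rwa [h2] at h1
  obtain ⟨s, t, hst⟩ := hn (e 0) (e 1) h01 (Submodule.subset_span ⟨0, rfl⟩)
    (Submodule.subset_span ⟨1, rfl⟩)
  obtain ⟨δ, ε, hδ⟩ : ∃ δ ε : ℂ, t * δ - s * ε ≠ 0 := by
    by_cases hs : s = 0
    · refine ⟨1, 0, fun h => hst ?_⟩
      have ht : t = 0 := by simpa using h
      rw [hs, ht]
      have h3 : (fun j => algebraMap ℂ k 0 * e 0 j + algebraMap ℂ k 0 * e 1 j) =
          fun j => (0 : k) * (0 : Fin 4 → k) j := by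
        funext j
        simp
      rw [h3, main_smul hF]
      simp
    · exact ⟨0, 1, by simpa using hs⟩
  obtain ⟨x, hx⟩ : ∃ x : M, aeval (fun j => x * τ (algebraMap ℂ k s * e 0 j + algebraMap ℂ k t * e 1 j) +
      (algebraMap ℂ M δ * τ (e 0 j) + algebraMap ℂ M ε * τ (e 1 j) + ξ * τ (e 2 j))) F = 0 := by
    by_contra hcon
    push Not at hcon
    have h1 := (ln_four hF (fun j => τ (algebraMap ℂ k s * e 0 j + algebraMap ℂ k t * e 1 j))
      (fun j => algebraMap ℂ M δ * τ (e 0 j) + algebraMap ℂ M ε * τ (e 1 j) + ξ * τ (e 2 j)) hcon).1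
    have h2 : aeval (fun j => τ (algebraMap ℂ k s * e 0 j + algebraMap ℂ k t * e 1 j)) F =
        τ (aeval (fun j => algebraMap ℂ k s * e 0 j + algebraMap ℂ k t * e 1 j) F) := by
      rw [MvPolynomial.comp_aeval_apply]
    rw [h2] at h1
    exact hst ((map_eq_zero τ).1 h1)
  obtain ⟨p, hp⟩ : ∃ p : Fin 3 → M, p = ![x * algebraMap ℂ M s + algebraMap ℂ M δ,
      x * algebraMap ℂ M t + algebraMap ℂ M ε, ξ] := ⟨_, rfl⟩
  have hzp : ∀ j, x * τ (algebraMap ℂ k s * e 0 j + algebraMap ℂ k t * e 1 j) +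
      (algebraMap ℂ M δ * τ (e 0 j) + algebraMap ℂ M ε * τ (e 1 j) + ξ * τ (e 2 j)) =
      ∑ i, p i * τ (e i j) := by
    intro j
    rw [Fin.sum_univ_three, hp]
    simp only [Matrix.cons_val_zero, Matrix.cons_val_one, Matrix.cons_val_two, Matrix.head_cons,
      Matrix.tail_cons, map_add, map_mul, AlgHom.commutes]
    ring
  refine ⟨_, p, hzp, hx, ?_⟩
  intro c y hy
  obtain ⟨u, hu⟩ := m1_dual e he
  have hcoord : ∀ l, p l = c * τ (∑ j, u l j * y j) := by
    intro l
    have h1 : ∑ j, τ (u l j) * ∑ i, p i * τ (e i j) = p l := by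
      have h2 : ∀ i, ∑ j, τ (u l j) * τ (e i j) = if l = i then 1 else 0 := by
        intro i
        have h3 := congrArg τ (hu l i)
        rw [map_sum] at h3
        simp only [map_mul] at h3
        rw [h3]
        split_ifs <;> simp
      calc ∑ j, τ (u l j) * ∑ i, p i * τ (e i j) = ∑ j, ∑ i, p i * (τ (u l j) * τ (e i j)) := by
            refine Finset.sum_congr rfl fun j _ => ?_
            rw [Finset.mul_sum]
            refine Finset.sum_congr rfl fun i _ => ?_
            ring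
        _ = ∑ i, p i * ∑ j, τ (u l j) * τ (e i j) := by
            rw [Finset.sum_comm]
            refine Finset.sum_congr rfl fun i _ => ?_
            rw [Finset.mul_sum]
        _ = p l := by
            simp only [h2]
            rw [Finset.sum_eq_single l]
            · simp
            · intro i _ hi
              rw [if_neg (Ne.symm hi), mul_zero]
            · intro h
              exact absurd (Finset.mem_univ _) h
    rw [← h1, map_sum, Finset.mul_sum]
    refine Finset.sum_congr rfl fun j _ => ?_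
    rw [← hzp j]
    rw [hy j, map_mul]
    ring
  have h0 := hcoord 0
  have h1 := hcoord 1
  have h2 := hcoord 2
  have hp0 : p 0 = x * algebraMap ℂ M s + algebraMap ℂ M δ := by rw [hp]; rfl
  have hp1 : p 1 = x * algebraMap ℂ M t + algebraMap ℂ M ε := by rw [hp]; rfl
  have hp2 : p 2 = ξ := by rw [hp]; rfl
  rw [hp0] at h0
  rw [hp1] at h1
  rw [hp2] at h2
  obtain ⟨a0, ha0⟩ : ∃ a0, a0 = ∑ j, u 0 j * y j := ⟨_, rfl⟩
  obtain ⟨a1, ha1⟩ : ∃ a1, a1 = ∑ j, u 1 j * y j := ⟨_, rfl⟩
  obtain ⟨a2, ha2⟩ : ∃ a2, a2 = ∑ j, u 2 j * y j := ⟨_, rfl⟩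
  rw [← ha0] at h0
  rw [← ha1] at h1
  rw [← ha2] at h2
  have h3 : algebraMap ℂ M (t * δ - s * ε) = c * τ (algebraMap ℂ k t * a0 - algebraMap ℂ k s * a1) := by
    rw [map_sub, map_mul, map_mul, map_sub, map_mul, map_mul, AlgHom.commutes, AlgHom.commutes]
    linear_combination algebraMap ℂ M t * h0 - algebraMap ℂ M s * h1
  have h4 : τ (algebraMap ℂ k t * a0 - algebraMap ℂ k s * a1) ≠ 0 := by
    intro h5
    rw [h5, mul_zero] at h3
    exact hδ ((map_eq_zero _).1 h3)
  apply hξ
  refine ⟨algebraMap ℂ k (t * δ - s * ε) / (algebraMap ℂ k t * a0 - algebraMap ℂ k s * a1) * a2, ?_⟩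
  rw [h2, map_mul, map_div₀, AlgHom.commutes, h3, mul_div_assoc, div_self h4, mul_one]

/-- an element of `K` whose algebraic relation with `t` is over `ℂ`: exchange -/
theorem m1_exchange {K : Type} [Field K] [Algebra ℂ K] (t u : K)
    (h : IsAlgebraic (IntermediateField.adjoin ℂ {t}) u) (hu : ¬ ∃ c : ℂ, u = algebraMap ℂ K c) :
    IsAlgebraic (IntermediateField.adjoin ℂ {u}) t := by
  rw [IntermediateField.isAlgebraic_adjoin_iff] at h ⊢
  have h1 : u ∈ (AlgebraicIndependent.matroid ℂ K).closure (insert t ∅) := by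
    rw [AlgebraicIndependent.matroid_closure_eq]
    refine (Subalgebra.mem_algebraicClosure _ _).2 ?_
    rw [insert_empty_eq]
    exact h
  have h2 : u ∉ (AlgebraicIndependent.matroid ℂ K).closure ∅ := by
    intro h3
    rw [AlgebraicIndependent.matroid_closure_eq] at h3
    have h5 : IsAlgebraic (Algebra.adjoin ℂ (∅ : Set K)) u := (Subalgebra.mem_algebraicClosure _ _).1 h3
    have hb : Algebra.IsAlgebraic ℂ (Algebra.adjoin ℂ (∅ : Set K)) := by
      rw [← Subalgebra.isAlgebraic_iff]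
      intro y hy
      rw [Algebra.adjoin_empty, Algebra.mem_bot] at hy
      obtain ⟨r, rfl⟩ := hy
      exact isAlgebraic_algebraMap r
    have h6 : IsAlgebraic ℂ u := IsAlgebraic.restrictScalars ℂ h5
    have h7 := IsAlgClosed.degree_eq_one_of_irreducible ℂ (minpoly.irreducible h6.isIntegral)
    obtain ⟨r, hr⟩ := minpoly.mem_range_of_degree_eq_one ℂ u h7
    exact hu ⟨r, hr.symm⟩
  have h3 := (Matroid.closure_exchange (M := AlgebraicIndependent.matroid ℂ K) ⟨h1, h2⟩).1
  rw [AlgebraicIndependent.matroid_closure_eq] at h3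
  have h4 := (Subalgebra.mem_algebraicClosure _ _).1 h3
  rw [insert_empty_eq] at h4
  exact h4

/-- the first integrals of the two families -/
theorem m1_integral {F : MvPolynomial (Fin 4) ℂ} (hF : F.IsHomogeneous 4) (h1 : OneLine F)
    {k M K : Type} [Field k] [Algebra ℂ k] [IsAlgClosed k] [Field M] [Algebra ℂ M] [Field K] [Algebra ℂ K]
    (φ : K →ₐ[ℂ] M) (z : Fin 3 → K) (hz1 : z 1 ≠ 0) (w : Fin 3 → M) (hφ : ∀ i, φ (z i) = w i)
    (τ : k →ₐ[ℂ] M) (e : Fin 3 → Fin 4 → k) (he : LinearIndependent k e) (hn : NoLineIn F e)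
    (hFw : aeval (Fin.cons 1 w : Fin 4 → M) F = 0) (p : Fin 3 → M)
    (hp : ∀ j, (Fin.cons 1 w : Fin 4 → M) j = ∑ i, p i * τ (e i j))
    (hnk : ∀ (c : M) (x : Fin 4 → k), ¬ ∀ j, (Fin.cons 1 w : Fin 4 → M) j = c * τ (x j))
    (u : K) (hu : φ u ∈ Set.range τ) (hut : IsAlgebraic (IntermediateField.adjoin ℂ {z 2 / z 1}) u) :
    ∃ c : ℂ, u = algebraMap ℂ K c := by
  classical
  by_contra hcon
  have h2 := m1_exchange _ _ hut hcon
  let _ : Algebra K M := φ.toRingHom.toAlgebra
  have h3 : φ (z 2 / z 1) ∈ Set.range τ := by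
    refine main_mem (τ : k →+* M) (IntermediateField.adjoin ℂ {u}) ?_ (z 2 / z 1) h2
    intro v hv
    show φ v ∈ Set.range τ
    induction hv using IntermediateField.adjoin_induction with
    | mem x hx =>
      rw [Set.mem_singleton_iff.1 hx]
      exact hu
    | algebraMap r => exact ⟨algebraMap ℂ k r, by rw [AlgHom.commutes, AlgHom.commutes]⟩
    | add x y _ _ h1 h2 =>
      obtain ⟨a, ha⟩ := h1
      obtain ⟨b, hb⟩ := h2
      exact ⟨a + b, by rw [map_add, map_add, ha, hb]⟩
    | inv x _ h1 =>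
      obtain ⟨a, ha⟩ := h1
      exact ⟨a⁻¹, by rw [map_inv₀, map_inv₀, ha]⟩
    | mul x y _ _ h1 h2 =>
      obtain ⟨a, ha⟩ := h1
      obtain ⟨b, hb⟩ := h2
      exact ⟨a * b, by rw [map_mul, map_mul, ha, hb]⟩
  obtain ⟨b, hb⟩ := h3
  rw [map_div₀, hφ, hφ] at hb
  have hw1 : w 1 ≠ 0 := by
    rw [← hφ]
    exact (map_ne_zero φ).2 hz1
  have hrel : w 2 = τ b * w 1 := by
    rw [hb, div_mul_cancel₀ _ hw1]
  obtain ⟨v, hv⟩ : ∃ v : Fin 4 → k, v = ![0, 0, -b, 1] := ⟨_, rfl⟩
  have hvz : ∑ j, τ (v j) * (Fin.cons 1 w : Fin 4 → M) j = 0 := by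
    have h4 : (Fin.cons 1 w : Fin 4 → M) 2 = w 1 := rfl
    have h5 : (Fin.cons 1 w : Fin 4 → M) 3 = w 2 := rfl
    rw [Fin.sum_univ_four, h4, h5, hv, hrel]
    simp
  by_cases hve : ∃ i, ∑ j, v j * e i j ≠ 0
  · obtain ⟨c, x, hx⟩ := rel_point1 hF τ e he hn (Fin.cons 1 w) hFw p hp v hve hvz
    exact hnk c x hx
  · push Not at hve
    have hspan := m1_span e he v 3 (by rw [hv]; simp) hve
    obtain ⟨s, t, hst⟩ := hn (Pi.single 0 1) (Pi.single 1 1) (by
      rw [LinearIndependent.pair_iff]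
      intro s t h
      have h4 := congrFun h 0
      have h5 := congrFun h 1
      simp at h4 h5
      exact ⟨h4, h5⟩) (hspan _ (by rw [Fin.sum_univ_four, hv]; simp))
      (hspan _ (by rw [Fin.sum_univ_four, hv]; simp))
    apply hst
    have h4 := h1.on (fun j => s * (Pi.single 0 1 : Fin 4 → ℂ) j + t * (Pi.single 1 1 : Fin 4 → ℂ) j)
      (by simp) (by simp)
    have h5 := congrArg (Algebra.ofId ℂ k) h4
    rw [MvPolynomial.comp_aeval_apply, map_zero] at h5
    rw [← h5]
    refine congrArg (fun y => aeval y F) ?_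
    funext j
    rw [map_add, map_mul, map_mul]
    show algebraMap ℂ k s * _ + algebraMap ℂ k t * _ =
      algebraMap ℂ k s * algebraMap ℂ k _ + algebraMap ℂ k t * algebraMap ℂ k _
    fin_cases j <;> simp

/-- `k` the algebraic closure of `ℂ(T)`, `M` an algebraically closed extension of `k` of transcendence degree one
(`exists_copies`, only `τ 0` is used); `w` a point of the section in the moving plane over `M`, transcendental over `k`
(a zero of `F` on a line of the plane with a transcendental coefficient); `Gen w` by `rat1`; `K → M` by `norm_gen`,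
`exists_emb`; `exists_cover1`. The second field is `ℂ(t)`, `t = z 2 / z 1`, `L = K` (`pencil_ah`). If `u ∈ K` is
algebraic over both fields and not constant then `t` is algebraic over `ℂ(u)`, so `t ∈ τ k`, and the generic point
satisfies `X₃ = t X₂`, a plane over `τ k` which is not the moving plane (the moving plane does not contain the line
by `NoLineIn`): `rel_point1`, against the transcendence degree. Then `brody_covers` and the special counterpart as in
`quartic`. -/
theorem quartic_one {F : MvPolynomial (Fin 4) ℂ} (hF : F.IsHomogeneous 4) (hs : Pool.Agent.DS.Smooth F)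
    (h1 : OneLine F) {n : ℕ} (P : Ideal (MvPolynomial (Fin (n + 1)) ℂ)) [P.IsPrime] (hP : IsVariety P)
    (hK : IsQuartic (FunField P) F) : SpecialField (FunField P) ∧ BrodySpecial P := by
  obtain ⟨z, hFz, htr, hgen⟩ := hK
  obtain ⟨k, M, _, _, _, _, T, τ, hk, hM, hT, hai, halg, hτ⟩ := exists_copies
  obtain ⟨e, c, g, b, A, hS, hm, hoff⟩ := exists_family1 hF hs h1 k T hT.tr
  have hn := no_line_in hF hs h1 e c g b A hS hm hoff
  have hξ : τ 1 T ∉ Set.range (τ 0) := by
    rintro ⟨a, ha⟩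
    obtain ⟨r, hr⟩ := hτ a T ha
    rw [hr, AlgHom.commutes] at ha
    have h2 : T = algebraMap ℂ k r := (τ 1).toRingHom.injective (by
      show τ 1 T = τ 1 (algebraMap ℂ k r)
      rw [← ha, AlgHom.commutes])
    exact hT.tr (h2 ▸ isAlgebraic_algebraMap r)
  obtain ⟨y, q, hyq, hFy, hny⟩ := m1_point hF (τ 0) (τ 1 T) hξ e hS.ind hn
  have hy0 : y ≠ 0 := by
    intro h2
    exact hny 0 0 fun j => by rw [h2, zero_mul, Pi.zero_apply]
  have hg : Gen y := by
    by_contra hg
    obtain ⟨c', x, _, hx⟩ := rat1 hF h1 T hT (τ 0) e hS.ind hm hn y hy0 q hyq hFy hg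
    exact hny c' x hx
  obtain ⟨hz0, i₀, j₀, hij⟩ := norm_gen hF hs y hFy hg
  obtain ⟨w, hw⟩ : ∃ w : Fin 3 → M, w = fun i => y i.succ / y 0 := ⟨_, rfl⟩
  have hcons : (Fin.cons 1 w : Fin 4 → M) = fun j => (y 0)⁻¹ * y j := by
    funext j
    refine Fin.cases ?_ (fun i => ?_) j
    · rw [Fin.cons_zero, inv_mul_cancel₀ hz0]
    · rw [Fin.cons_succ, hw]
      exact div_eq_inv_mul _ _
  have hFw : aeval (Fin.cons 1 w : Fin 4 → M) F = 0 := by
    rw [hcons, main_smul hF, hFy, mul_zero]
  have hp : ∀ j, (Fin.cons 1 w : Fin 4 → M) j = ∑ i, (y 0)⁻¹ * q i * τ 0 (e i j) := by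
    intro j
    rw [hcons]
    show (y 0)⁻¹ * y j = _
    rw [hyq j, Finset.mul_sum]
    refine Finset.sum_congr rfl fun i _ => ?_
    ring
  have hnk : ∀ (c : M) (x : Fin 4 → k), ¬ ∀ j, (Fin.cons 1 w : Fin 4 → M) j = c * τ 0 (x j) := by
    intro c x hx
    refine hny (y 0 * c) x fun j => ?_
    have h2 := hx j
    rw [hcons] at h2
    rw [mul_assoc, ← h2, ← mul_assoc, mul_inv_cancel₀ hz0, one_mul]
  have hij' : AlgebraicIndependent ℂ ![w i₀, w j₀] := by
    rw [hw]
    exact hij
  obtain ⟨φ, hφ⟩ := exists_emb hF hs z w hgen hFz hFw htr ⟨i₀, j₀, hij'⟩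
  let _ : Algebra (FunField P) M := φ.toRingHom.toAlgebra
  have hmap : ∀ u, algebraMap (FunField P) M u = φ u := fun _ => rfl
  have htow : IsScalarTower ℂ (FunField P) M :=
    IsScalarTower.of_algebraMap_eq fun r => (φ.commutes r).symm
  have hKM : Algebra.IsAlgebraic (FunField P) M := by
    refine alg_of_two (fun i => τ i T) hai halg ![z i₀, z j₀] ?_
    have : (fun i => algebraMap (FunField P) M (![z i₀, z j₀] i)) = ![w i₀, w j₀] := by
      funext i
      fin_cases i
      · exact hφ i₀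
      · exact hφ j₀
    rw [this]
    exact hij'
  obtain ⟨L, k', N, x, hfin, hx, hk'⟩ := exists_cover1 hF z hgen hFz htr T hT (τ 0) e hn c g b A hS
    (fun i => (y 0)⁻¹ * q i) (by
      intro j
      rw [← hp j]
      congr 1
      funext i
      exact hφ i)
  obtain ⟨hz1, hzt, N', x', hx'⟩ := pencil_ah hF hs h1.on z hgen hFz htr
  refine m1_two P hP (M1Fam.mk L k' N x hx)
    (M1Fam.mk (FunField P) (IntermediateField.adjoin ℂ {z 2 / z 1}) N' x' hx') ?_
  intro u hu hu'
  have h2 : φ u ∈ Set.range (τ 0) := by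
    have h2 := main_mem (τ 0 : k →+* M) k' hk' (algebraMap (FunField P) L u) hu
    have h3 : algebraMap L M (algebraMap (FunField P) L u) = φ u := rfl
    rw [h3] at h2
    exact h2
  exact m1_integral hF h1 φ z hz1 w hφ (τ 0) e hS.ind hn hFw _ hp hnk u h2 hu'

end Pool.Agent.QX
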