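import Mathlib

/-! Local lemma at a point of the line (for `exists_node`). -/

set_option autoImplicit false

open IsLocalRing

namespace Pool.Agent.QX.N96

variable {V : Type} [CommRing V] [IsDomain V] [ValuationRing V] [Algebra ℂ V]

theorem unit_add {u m : V} (hu : IsUnit u) (hm : m ∈ maximalIdeal V) : IsUnit (u + m) := by
  by_contra h
  have h1 : u + m ∈ maximalIdeal V := (mem_maximalIdeal _).mpr h
  have h2 : u ∈ maximalIdeal V := by
    have := Ideal.sub_mem _ h1 hm
    simpa using this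
  exact (mem_maximalIdeal _).mp h2 hu

theorem unit_c {z : ℂ} (hz : z ≠ 0) : IsUnit (algebraMap ℂ V z) :=
  (IsUnit.mk0 z hz).map (algebraMap ℂ V)

theorem cub_root (k0 k1 k2 k3 : ℂ) : ∃ l m : ℂ, (l ≠ 0 ∨ m ≠ 0) ∧
    k0 * l ^ 3 + k1 * l ^ 2 * m + k2 * l * m ^ 2 + k3 * m ^ 3 = 0 := by
  by_cases h : k0 = 0
  · exact ⟨1, 0, Or.inl one_ne_zero, by simp [h]⟩
  · set P : Polynomial ℂ := Polynomial.C k0 * Polynomial.X ^ 3 + Polynomial.C k1 * Polynomial.X ^ 2 +
      Polynomial.C k2 * Polynomial.X + Polynomial.C k3 with hP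
    have hd : P.degree = 3 := Polynomial.degree_cubic h
    obtain ⟨l, hl⟩ := IsAlgClosed.exists_root P (by rw [hd]; decide)
    refine ⟨l, 1, Or.inr one_ne_zero, ?_⟩
    have h2 : Polynomial.eval l P = 0 := hl
    rw [hP] at h2
    simp only [Polynomial.eval_add, Polynomial.eval_mul, Polynomial.eval_C, Polynomial.eval_pow,
      Polynomial.eval_X] at h2
    linear_combination h2

theorem local_dvd (b p q r k0 k1 k2 k3 : ℂ) (x s w β0 β1 γ : V) (hx : x ∈ maximalIdeal V)
    (hs : s ∈ maximalIdeal V) (hw : w ∈ maximalIdeal V) (hs0 : s ≠ 0) (hβ : IsUnit β1)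
    (e1 : 2 * algebraMap ℂ V p * x + algebraMap ℂ V q * s + 3 * algebraMap ℂ V k0 * x ^ 2 +
      2 * algebraMap ℂ V k1 * x * s + algebraMap ℂ V k2 * s ^ 2 + w * β0 = 0)
    (e2 : 2 * algebraMap ℂ V b * s + algebraMap ℂ V p * x ^ 2 + algebraMap ℂ V q * x * s +
      algebraMap ℂ V r * s ^ 2 + w * β1 = 0)
    (H : ∀ l m : ℂ, b * m = 0 → p * l ^ 2 + q * l * m + r * m ^ 2 = 0 →
      k0 * l ^ 3 + k1 * l ^ 2 * m + k2 * l * m ^ 2 + k3 * m ^ 3 = 0 → l = 0 ∧ m = 0) :
    (algebraMap ℂ V b + algebraMap ℂ V q * x + 2 * algebraMap ℂ V r * s + algebraMap ℂ V k1 * x ^ 2 +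
      2 * algebraMap ℂ V k2 * x * s + 3 * algebraMap ℂ V k3 * s ^ 2 + w * γ) ∣ s ^ 2 := by
  by_cases hb : b = 0
  swap
  · apply IsUnit.dvd
    have h1 := unit_add (unit_c (V := V) hb) (m := algebraMap ℂ V q * x + 2 * algebraMap ℂ V r * s +
      algebraMap ℂ V k1 * x ^ 2 + 2 * algebraMap ℂ V k2 * x * s + 3 * algebraMap ℂ V k3 * s ^ 2 + w * γ)
      (by
        refine Ideal.add_mem _ (Ideal.add_mem _ (Ideal.add_mem _ (Ideal.add_mem _ (Ideal.add_mem _
          (Ideal.mul_mem_left _ _ hx) (Ideal.mul_mem_left _ _ hs)) ?_) ?_) ?_)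
          (Ideal.mul_mem_right _ _ hw)
        · exact Ideal.mul_mem_left _ _ (Ideal.pow_mem_of_mem _ hx 2 (by norm_num))
        · exact Ideal.mul_mem_left _ _ hs
        · exact Ideal.mul_mem_left _ _ (Ideal.pow_mem_of_mem _ hs 2 (by norm_num)))
    convert h1 using 1
    ring
  subst hb
  obtain ⟨β', hβ'⟩ := hβ.exists_right_inv
  have hw' : w = -(β' * (algebraMap ℂ V p * x ^ 2 + algebraMap ℂ V q * x * s +
      algebraMap ℂ V r * s ^ 2)) := by
    rw [map_zero] at e2
    linear_combination β' * e2 - w * hβ'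
  rw [map_zero]
  clear e2 hw
  subst hw'
  by_cases hD : q ^ 2 - 4 * p * r = 0
  swap
  · -- nondegenerate
    have hDu := unit_c (V := V) hD
    rw [map_sub, map_mul, map_mul, map_pow, map_ofNat] at hDu
    rcases ValuationRing.dvd_total s x with ⟨x', rfl⟩ | ⟨s', rfl⟩
    · have f1 : 2 * algebraMap ℂ V p * x' + algebraMap ℂ V q = -(s * (3 * algebraMap ℂ V k0 * x' ^ 2 +
          2 * algebraMap ℂ V k1 * x' + algebraMap ℂ V k2 - β' * (algebraMap ℂ V p * x' ^ 2 +
          algebraMap ℂ V q * x' + algebraMap ℂ V r) * β0)) := by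
        apply mul_left_cancel₀ hs0
        linear_combination e1
      have hU : IsUnit (algebraMap ℂ V q * x' + 2 * algebraMap ℂ V r + s * (algebraMap ℂ V k1 * x' ^ 2 +
          2 * algebraMap ℂ V k2 * x' + 3 * algebraMap ℂ V k3 - β' * (algebraMap ℂ V p * x' ^ 2 +
          algebraMap ℂ V q * x' + algebraMap ℂ V r) * γ)) := by
        by_contra hn
        have h1 := (mem_maximalIdeal _).mpr hn
        have h2 : 2 * algebraMap ℂ V p * x' + algebraMap ℂ V q ∈ maximalIdeal V := by
          rw [f1]; exact Ideal.neg_mem_iff _ |>.mpr (Ideal.mul_mem_right _ _ hs)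
        have h3 : algebraMap ℂ V q ^ 2 - 4 * algebraMap ℂ V p * algebraMap ℂ V r ∈ maximalIdeal V := by
          have h4 := Ideal.sub_mem _ (Ideal.mul_mem_left _ (algebraMap ℂ V q) h2)
            (Ideal.mul_mem_left _ (2 * algebraMap ℂ V p) h1)
          have h5 := Ideal.add_mem _ h4 (Ideal.mul_mem_right (2 * algebraMap ℂ V p *
            (algebraMap ℂ V k1 * x' ^ 2 +
            2 * algebraMap ℂ V k2 * x' + 3 * algebraMap ℂ V k3 - β' * (algebraMap ℂ V p * x' ^ 2 +
            algebraMap ℂ V q * x' + algebraMap ℂ V r) * γ)) _ hs)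
          convert h5 using 1
          ring
        exact (mem_maximalIdeal _).mp h3 hDu
      have h6 := mul_dvd_mul_left s (hU.dvd (a := s))
      convert h6 using 1 <;> ring
    · have hx0 : x ≠ 0 := by rintro rfl; exact hs0 (zero_mul _)
      have f1 : 2 * algebraMap ℂ V p + algebraMap ℂ V q * s' = -(x * (3 * algebraMap ℂ V k0 +
          2 * algebraMap ℂ V k1 * s' + algebraMap ℂ V k2 * s' ^ 2 - β' * (algebraMap ℂ V p +
          algebraMap ℂ V q * s' + algebraMap ℂ V r * s' ^ 2) * β0)) := by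
        apply mul_left_cancel₀ hx0
        linear_combination e1
      have hU : IsUnit (algebraMap ℂ V q + 2 * algebraMap ℂ V r * s' + x * (algebraMap ℂ V k1 +
          2 * algebraMap ℂ V k2 * s' + 3 * algebraMap ℂ V k3 * s' ^ 2 - β' * (algebraMap ℂ V p +
          algebraMap ℂ V q * s' + algebraMap ℂ V r * s' ^ 2) * γ)) := by
        by_contra hn
        have h1 := (mem_maximalIdeal _).mpr hn
        have h2 : 2 * algebraMap ℂ V p + algebraMap ℂ V q * s' ∈ maximalIdeal V := by
          rw [f1]; exact Ideal.neg_mem_iff _ |>.mpr (Ideal.mul_mem_right _ _ hx)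
        have h3 : algebraMap ℂ V q ^ 2 - 4 * algebraMap ℂ V p * algebraMap ℂ V r ∈ maximalIdeal V := by
          have h4 := Ideal.sub_mem _ (Ideal.mul_mem_left _ (algebraMap ℂ V q) h1)
            (Ideal.mul_mem_left _ (2 * algebraMap ℂ V r) h2)
          have h5 := Ideal.sub_mem _ h4 (Ideal.mul_mem_right (algebraMap ℂ V q *
            (algebraMap ℂ V k1 +
            2 * algebraMap ℂ V k2 * s' + 3 * algebraMap ℂ V k3 * s' ^ 2 - β' * (algebraMap ℂ V p +
            algebraMap ℂ V q * s' + algebraMap ℂ V r * s' ^ 2) * γ)) _ hx)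
          convert h5 using 1
          ring
        exact (mem_maximalIdeal _).mp h3 hDu
      have h6 : x * (algebraMap ℂ V q + 2 * algebraMap ℂ V r * s' + x * (algebraMap ℂ V k1 +
          2 * algebraMap ℂ V k2 * s' + 3 * algebraMap ℂ V k3 * s' ^ 2 - β' * (algebraMap ℂ V p +
          algebraMap ℂ V q * s' + algebraMap ℂ V r * s' ^ 2) * γ)) ∣ x * (s' * (x * s')) :=
        mul_dvd_mul_left x hU.dvd
      convert h6 using 1 <;> ring
  · by_cases hp : p = 0
    swap
    · -- `q = p (x - ρ s) ^ 2`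
      set ρ : ℂ := -q / (2 * p) with hρ
      have hq : q = -2 * p * ρ := by rw [hρ]; field_simp
      have hr : r = p * ρ ^ 2 := by
        rw [hρ]; field_simp; linear_combination -hD
      have hκ : k0 * ρ ^ 3 + k1 * ρ ^ 2 + k2 * ρ + k3 ≠ 0 := by
        intro h0
        have := (H ρ 1 (by ring) (by rw [hq, hr]; ring) (by linear_combination h0)).2
        exact one_ne_zero this
      clear_value ρ
      subst hq
      subst hr
      simp only [map_mul, map_neg, map_ofNat, map_pow] at e1 ⊢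
      obtain ⟨y, rfl⟩ : ∃ y, x = y + algebraMap ℂ V ρ * s := ⟨x - algebraMap ℂ V ρ * s, by ring⟩
      have hy : y ∈ maximalIdeal V := by
        have := Ideal.sub_mem _ hx (Ideal.mul_mem_left _ (algebraMap ℂ V ρ) hs)
        simpa using this
      have hp2 : IsUnit (2 * algebraMap ℂ V p) := by
        have := unit_c (V := V) (mul_ne_zero two_ne_zero hp)
        rwa [map_mul, map_ofNat] at this
      have hU := unit_add hp2 (m := 3 * algebraMap ℂ V k0 * y + (6 * algebraMap ℂ V k0 *
        algebraMap ℂ V ρ + 2 * algebraMap ℂ V k1) * s - β' * algebraMap ℂ V p * β0 * y)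
        (Ideal.sub_mem _ (Ideal.add_mem _ (Ideal.mul_mem_left _ _ hy) (Ideal.mul_mem_left _ _ hs))
          (Ideal.mul_mem_left _ _ hy))
      obtain ⟨u, hu⟩ := hU.exists_right_inv
      have hyv : y = s ^ 2 * (-(u * (3 * algebraMap ℂ V k0 * algebraMap ℂ V ρ ^ 2 +
          2 * algebraMap ℂ V k1 * algebraMap ℂ V ρ + algebraMap ℂ V k2))) := by
        linear_combination u * e1 - y * hu
      obtain ⟨v, hv⟩ : ∃ v, v = -(u * (3 * algebraMap ℂ V k0 * algebraMap ℂ V ρ ^ 2 +
          2 * algebraMap ℂ V k1 * algebraMap ℂ V ρ + algebraMap ℂ V k2)) := ⟨_, rfl⟩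
      rw [← hv] at hyv
      have hκ3 : IsUnit (3 * (algebraMap ℂ V k0 * algebraMap ℂ V ρ ^ 3 + algebraMap ℂ V k1 *
          algebraMap ℂ V ρ ^ 2 + algebraMap ℂ V k2 * algebraMap ℂ V ρ + algebraMap ℂ V k3)) := by
        have := unit_c (V := V) (mul_ne_zero three_ne_zero hκ)
        simpa only [map_mul, map_add, map_ofNat, map_pow] using this
      have hW := unit_add hκ3 (m := v * (y * (algebraMap ℂ V k1 + 3 * algebraMap ℂ V k0 *
        algebraMap ℂ V ρ) + s * (2 * algebraMap ℂ V ρ * (algebraMap ℂ V k1 + 3 * algebraMap ℂ V k0 *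
        algebraMap ℂ V ρ) + 2 * algebraMap ℂ V k2 + 2 * algebraMap ℂ V k1 * algebraMap ℂ V ρ)) -
        β' * algebraMap ℂ V p * v * (γ + algebraMap ℂ V ρ * β0) * y)
        (Ideal.sub_mem _ (Ideal.mul_mem_left _ _ (Ideal.add_mem _ (Ideal.mul_mem_right _ _ hy)
          (Ideal.mul_mem_right _ _ hs))) (Ideal.mul_mem_left _ _ hy))
      have h6 := mul_dvd_mul_left (s ^ 2) (hW.dvd (a := 1))
      rw [mul_one] at h6
      convert h6 using 1
      linear_combination -(algebraMap ℂ V ρ) * e1 + ((y * (algebraMap ℂ V k1 + 3 * algebraMap ℂ V k0 *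
        algebraMap ℂ V ρ) + s * (2 * algebraMap ℂ V ρ * (algebraMap ℂ V k1 + 3 * algebraMap ℂ V k0 *
        algebraMap ℂ V ρ) + 2 * algebraMap ℂ V k2 + 2 * algebraMap ℂ V k1 * algebraMap ℂ V ρ)) -
        β' * algebraMap ℂ V p * (γ + algebraMap ℂ V ρ * β0) * y) * hyv
    · subst hp
      have hq : q = 0 := by
        have : q ^ 2 = 0 := by linear_combination hD
        exact pow_eq_zero_iff (two_ne_zero) |>.mp this
      subst hq
      by_cases hr : r = 0
      · subst hr
        exfalso
        obtain ⟨l, m, hlm, h⟩ := cub_root k0 k1 k2 k3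
        have := H l m (by ring) (by ring) h
        rcases hlm with h1 | h1
        · exact h1 this.1
        · exact h1 this.2
      have hk0 : k0 ≠ 0 := by
        intro h0
        have := (H 1 0 (by ring) (by ring) (by rw [h0]; ring)).1
        exact one_ne_zero this
      simp only [map_zero] at e1 ⊢
      have key : s ∣ x → (0 + 0 * x + 2 * algebraMap ℂ V r * s + algebraMap ℂ V k1 * x ^ 2 +
          2 * algebraMap ℂ V k2 * x * s + 3 * algebraMap ℂ V k3 * s ^ 2 + -(β' * (0 * x ^ 2 + 0 * x * s +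
          algebraMap ℂ V r * s ^ 2)) * γ) ∣ s ^ 2 := by
        rintro ⟨x', rfl⟩
        have h2r : IsUnit (2 * algebraMap ℂ V r) := by
          have := unit_c (V := V) (mul_ne_zero two_ne_zero hr)
          rwa [map_mul, map_ofNat] at this
        have hU := unit_add h2r (m := (algebraMap ℂ V k1 * x' ^ 2 + 2 * algebraMap ℂ V k2 * x' +
          3 * algebraMap ℂ V k3 - β' * algebraMap ℂ V r * γ) * s) (Ideal.mul_mem_left _ _ hs)
        have h6 := mul_dvd_mul_left s (hU.dvd (a := s))
        convert h6 using 1 <;> ring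
      rcases ValuationRing.dvd_total s x with h | ⟨s', hs'⟩
      · exact key h
      · by_cases hu : IsUnit s'
        · apply key
          obtain ⟨t, ht⟩ := hu.exists_right_inv
          exact ⟨t, by linear_combination -t * hs' - x * ht⟩
        · exfalso
          have hm := (mem_maximalIdeal _).mpr hu
          have h3 : IsUnit (3 * algebraMap ℂ V k0) := by
            have := unit_c (V := V) (mul_ne_zero three_ne_zero hk0)
            rwa [map_mul, map_ofNat] at this
          have hU := unit_add h3 (m := (2 * algebraMap ℂ V k1 + algebraMap ℂ V k2 * s' -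
            β' * algebraMap ℂ V r * s' * β0) * s') (Ideal.mul_mem_left _ _ hm)
          have h4 : x ^ 2 * (3 * algebraMap ℂ V k0 + (2 * algebraMap ℂ V k1 + algebraMap ℂ V k2 * s' -
            β' * algebraMap ℂ V r * s' * β0) * s') = 0 := by
            rw [hs'] at e1
            linear_combination e1
          rcases mul_eq_zero.mp h4 with h5 | h5
          · have : x = 0 := pow_eq_zero_iff (two_ne_zero) |>.mp h5
            exact hs0 (by rw [hs', this, zero_mul])
          · exact hU.ne_zero h5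

end Pool.Agent.QX.N96
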