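import Mathlib

/-! Explicit shape of a quartic form which vanishes on the line (for `exists_node`). -/

set_option autoImplicit false

open MvPolynomial

noncomputable section

namespace Pool.Agent.QX.N96

theorem mono_cases {n : ℕ} (i : Fin 4) (d : Fin 4 →₀ ℕ) (hd : d.degree = n + 1) (hi : d i ≠ 0) (c : ℂ) :
    ∃ ψ : MvPolynomial (Fin 4) ℂ, ψ.IsHomogeneous n ∧ monomial d c = X i * ψ := by
  obtain ⟨e, he⟩ : ∃ e : Fin 4 →₀ ℕ, d = Finsupp.single i 1 + e :=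
    ⟨d - Finsupp.single i 1, by
      rw [add_comm, tsub_add_cancel_of_le]
      rw [Finsupp.single_le_iff]
      omega⟩
  refine ⟨monomial e c, ?_, ?_⟩
  · apply isHomogeneous_monomial
    rw [he, map_add, Finsupp.degree_single] at hd
    omega
  · rw [he, X, monomial_mul, one_mul]

theorem exp_one {n : ℕ} {φ : MvPolynomial (Fin 4) ℂ} (h : φ.IsHomogeneous (n + 1)) :
    ∃ (c : ℂ) (ψ0 ψ2 ψ3 : MvPolynomial (Fin 4) ℂ), ψ0.IsHomogeneous n ∧ ψ2.IsHomogeneous n ∧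
      ψ3.IsHomogeneous n ∧ φ = C c * X 1 ^ (n + 1) + X 0 * ψ0 + X 2 * ψ2 + X 3 * ψ3 := by
  classical
  rw [φ.as_sum]
  apply Finset.sum_induction _ (fun φ => ∃ (c : ℂ) (ψ0 ψ2 ψ3 : MvPolynomial (Fin 4) ℂ),
    ψ0.IsHomogeneous n ∧ ψ2.IsHomogeneous n ∧
      ψ3.IsHomogeneous n ∧ φ = C c * X 1 ^ (n + 1) + X 0 * ψ0 + X 2 * ψ2 + X 3 * ψ3)
  · rintro _ _ ⟨c, a0, a2, a3, h0, h2, h3, rfl⟩ ⟨c', b0, b2, b3, g0, g2, g3, rfl⟩
    refine ⟨c + c', a0 + b0, a2 + b2, a3 + b3, h0.add g0, h2.add g2, h3.add g3, ?_⟩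
    rw [C_add]; ring
  · exact ⟨0, 0, 0, 0, isHomogeneous_zero _ _ _, isHomogeneous_zero _ _ _, isHomogeneous_zero _ _ _,
      by simp⟩
  · intro d hd
    have hdd : d.degree = n + 1 := by
      have h1 := h (mem_support_iff.mp hd)
      rw [Finsupp.degree_eq_weight_one]
      exact h1
    by_cases h0 : d 0 = 0
    · by_cases h2 : d 2 = 0
      · by_cases h3 : d 3 = 0
        · have he : d = Finsupp.single 1 (n + 1) := by
            rw [Finsupp.degree_eq_sum, Fin.sum_univ_four] at hdd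
            ext i
            fin_cases i
            · simp [h0]
            · simp; omega
            · simp [h2]
            · simp [h3]
          refine ⟨coeff d φ, 0, 0, 0, isHomogeneous_zero _ _ _, isHomogeneous_zero _ _ _,
            isHomogeneous_zero _ _ _, ?_⟩
          conv_lhs => rw [he]
          rw [← C_mul_X_pow_eq_monomial, ← he]
          ring
        · obtain ⟨ψ, hψ, he⟩ := mono_cases 3 d hdd h3 (coeff d φ)
          exact ⟨0, 0, 0, ψ, isHomogeneous_zero _ _ _, isHomogeneous_zero _ _ _, hψ, by rw [he]; simp⟩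
      · obtain ⟨ψ, hψ, he⟩ := mono_cases 2 d hdd h2 (coeff d φ)
        exact ⟨0, 0, ψ, 0, isHomogeneous_zero _ _ _, hψ, isHomogeneous_zero _ _ _, by rw [he]; simp⟩
    · obtain ⟨ψ, hψ, he⟩ := mono_cases 0 d hdd h0 (coeff d φ)
      exact ⟨0, ψ, 0, 0, hψ, isHomogeneous_zero _ _ _, isHomogeneous_zero _ _ _, by rw [he]; simp⟩

theorem exp_zero {φ : MvPolynomial (Fin 4) ℂ} (h : φ.IsHomogeneous 0) : ∃ c : ℂ, φ = C c :=
  ⟨_, totalDegree_eq_zero_iff_eq_C.mp (Nat.le_zero.mp h.totalDegree_le)⟩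

/-- a form which vanishes on the line is in `(X₂, X₃)` -/
theorem line_split {n : ℕ} {φ : MvPolynomial (Fin 4) ℂ} (h : φ.IsHomogeneous (n + 1))
    (hon : ∀ a : Fin 4 → ℂ, a 2 = 0 → a 3 = 0 → aeval a φ = 0) :
    ∃ A B : MvPolynomial (Fin 4) ℂ, A.IsHomogeneous n ∧ B.IsHomogeneous n ∧ φ = X 2 * A + X 3 * B := by
  classical
  have key : ∃ A B : MvPolynomial (Fin 4) ℂ, A.IsHomogeneous n ∧ B.IsHomogeneous n ∧
      φ = aeval (![X 0, X 1, 0, 0] : Fin 4 → MvPolynomial (Fin 4) ℂ) φ + X 2 * A + X 3 * B := by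
    conv => enter [1, A, 1, B, 2, 2]; rw [φ.as_sum]
    apply Finset.sum_induction _ (fun φ => ∃ A B : MvPolynomial (Fin 4) ℂ, A.IsHomogeneous n ∧
      B.IsHomogeneous n ∧
      φ = aeval (![X 0, X 1, 0, 0] : Fin 4 → MvPolynomial (Fin 4) ℂ) φ + X 2 * A + X 3 * B)
    · rintro a b ⟨A, B, hA, hB, he⟩ ⟨A', B', hA', hB', he'⟩
      refine ⟨A + A', B + B', hA.add hA', hB.add hB', ?_⟩
      rw [map_add]
      linear_combination he + he'
    · exact ⟨0, 0, isHomogeneous_zero _ _ _, isHomogeneous_zero _ _ _, by simp⟩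
    · intro d hd
      have hdd : d.degree = n + 1 := by
        have h1 := h (mem_support_iff.mp hd)
        rw [Finsupp.degree_eq_weight_one]
        exact h1
      by_cases h2 : d 2 = 0
      · by_cases h3 : d 3 = 0
        · refine ⟨0, 0, isHomogeneous_zero _ _ _, isHomogeneous_zero _ _ _, ?_⟩
          rw [aeval_monomial, Finsupp.prod_fintype _ _ (by simp), Fin.prod_univ_four, monomial_eq,
            Finsupp.prod_fintype _ _ (by simp), Fin.prod_univ_four]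
          simp [h2, h3]
        · obtain ⟨ψ, hψ, he⟩ := mono_cases 3 d hdd h3 (coeff d φ)
          refine ⟨0, ψ, isHomogeneous_zero _ _ _, hψ, ?_⟩
          rw [he]; simp
      · obtain ⟨ψ, hψ, he⟩ := mono_cases 2 d hdd h2 (coeff d φ)
        refine ⟨ψ, 0, hψ, isHomogeneous_zero _ _ _, ?_⟩
        rw [he]; simp
  obtain ⟨A, B, hA, hB, he⟩ := key
  refine ⟨A, B, hA, hB, ?_⟩
  have h0 : aeval (![X 0, X 1, 0, 0] : Fin 4 → MvPolynomial (Fin 4) ℂ) φ = 0 := by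
    apply MvPolynomial.funext
    intro x
    have h1 := hon ![x 0, x 1, 0, 0] rfl rfl
    rw [map_zero, ← h1]
    have h2 := MvPolynomial.comp_aeval_apply (R := ℂ) (![X 0, X 1, 0, 0] : Fin 4 → MvPolynomial (Fin 4) ℂ)
      (MvPolynomial.aeval x : MvPolynomial (Fin 4) ℂ →ₐ[ℂ] ℂ) φ
    rw [← MvPolynomial.aeval_eq_eval, h2]
    congr 2
    funext i
    fin_cases i <;> simp
  rw [h0, zero_add] at he
  exact he

/-- explicit form -/
theorem shape {F : MvPolynomial (Fin 4) ℂ} (hF : F.IsHomogeneous 4)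
    (hon : ∀ a : Fin 4 → ℂ, a 2 = 0 → a 3 = 0 → aeval a F = 0) :
    ∃ (c d b p q r k0 k1 k2 k3 : ℂ) (B : MvPolynomial (Fin 4) ℂ), B.IsHomogeneous 3 ∧
      F = X 2 * (C c * X 1 ^ 3 + C d * X 1 ^ 2 * X 0 + C b * X 1 ^ 2 * X 2 + X 1 * (C p * X 0 ^ 2 +
        C q * X 0 * X 2 + C r * X 2 ^ 2) + (C k0 * X 0 ^ 3 + C k1 * X 0 ^ 2 * X 2 + C k2 * X 0 * X 2 ^ 2 +
        C k3 * X 2 ^ 3)) + X 3 * B := by
  obtain ⟨A, B, hA, hB, rfl⟩ := line_split hF hon
  obtain ⟨c, A0, A2, A3, h0, h2, h3, rfl⟩ := exp_one hA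
  obtain ⟨d, A00, A02, A03, h00, h02, h03, rfl⟩ := exp_one h0
  obtain ⟨b, A20, A22, A23, h20, h22, h23, rfl⟩ := exp_one h2
  obtain ⟨p, A000, A002, A003, h000, h002, h003, rfl⟩ := exp_one h00
  obtain ⟨q, A020, A022, A023, h020, h022, h023, rfl⟩ := exp_one h02
  obtain ⟨q', A200, A202, A203, h200, h202, h203, rfl⟩ := exp_one h20
  obtain ⟨r, A220, A222, A223, h220, h222, h223, rfl⟩ := exp_one h22
  obtain ⟨a1, rfl⟩ := exp_zero h000
  obtain ⟨a2, rfl⟩ := exp_zero h002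
  obtain ⟨a3, rfl⟩ := exp_zero h020
  obtain ⟨a4, rfl⟩ := exp_zero h022
  obtain ⟨a5, rfl⟩ := exp_zero h200
  obtain ⟨a6, rfl⟩ := exp_zero h202
  obtain ⟨a7, rfl⟩ := exp_zero h220
  obtain ⟨a8, rfl⟩ := exp_zero h222
  have hx : ∀ i : Fin 4, (X i : MvPolynomial (Fin 4) ℂ).IsHomogeneous 1 := fun i => isHomogeneous_X ℂ i
  refine ⟨c, d, b, p, q + q', r, a1, a2 + a3 + a5, a4 + a6 + a7, a8,
    B + X 2 * (A3 + X 0 * (A03 + X 0 * A003 + X 2 * A023) + X 2 * (A23 + X 0 * A203 + X 2 * A223)), ?_, ?_⟩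
  · have e1 : (X 0 * A003 + X 2 * A023 : MvPolynomial (Fin 4) ℂ).IsHomogeneous 1 := by
      have := ((hx 0).mul h003).add ((hx 2).mul h023)
      simpa using this
    have e2 : (X 0 * A203 + X 2 * A223 : MvPolynomial (Fin 4) ℂ).IsHomogeneous 1 := by
      have := ((hx 0).mul h203).add ((hx 2).mul h223)
      simpa using this
    have e3 : (X 0 * (A03 + X 0 * A003 + X 2 * A023) : MvPolynomial (Fin 4) ℂ).IsHomogeneous 2 := by
      have := (hx 0).mul (h03.add e1)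
      rw [← add_assoc] at this
      exact this
    have e4 : (X 2 * (A23 + X 0 * A203 + X 2 * A223) : MvPolynomial (Fin 4) ℂ).IsHomogeneous 2 := by
      have := (hx 2).mul (h23.add e2)
      rw [← add_assoc] at this
      exact this
    exact hB.add ((hx 2).mul ((h3.add e3).add e4))
  · simp only [C_add]
    ring

end Pool.Agent.QX.N96
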