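import Pool.Agent.Lib_MP_1209e6_ql.N96a
import Pool.Agent.Lib_MP_1209e6_ql.N96b
import Pool.Agent.Lib_MP_1209e6_ql.Defs
import Pool.Agent.Lib_MP_1209e6_ds.KrullZero

/-! The local theorem at a point of the line, for a quartic form. -/

set_option autoImplicit false

open MvPolynomial IsLocalRing

noncomputable section

namespace Pool.Agent.QX.N96

theorem shape_eval {c d b p q r k0 k1 k2 k3 : ℂ} {B F : MvPolynomial (Fin 4) ℂ}
    (hF : F = X 2 * (C c * X 1 ^ 3 + C d * X 1 ^ 2 * X 0 + C b * X 1 ^ 2 * X 2 + X 1 * (C p * X 0 ^ 2 +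
        C q * X 0 * X 2 + C r * X 2 ^ 2) + (C k0 * X 0 ^ 3 + C k1 * X 0 ^ 2 * X 2 + C k2 * X 0 * X 2 ^ 2 +
        C k3 * X 2 ^ 3)) + X 3 * B) {R : Type} [CommRing R] [Algebra ℂ R] (P : Fin 4 → R) :
    aeval P F = P 2 * (algebraMap ℂ R c * P 1 ^ 3 + algebraMap ℂ R d * P 1 ^ 2 * P 0 +
      algebraMap ℂ R b * P 1 ^ 2 * P 2 + P 1 * (algebraMap ℂ R p * P 0 ^ 2 +
      algebraMap ℂ R q * P 0 * P 2 + algebraMap ℂ R r * P 2 ^ 2) + (algebraMap ℂ R k0 * P 0 ^ 3 +
      algebraMap ℂ R k1 * P 0 ^ 2 * P 2 + algebraMap ℂ R k2 * P 0 * P 2 ^ 2 +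
      algebraMap ℂ R k3 * P 2 ^ 3)) + P 3 * aeval P B ∧
    aeval P (pderiv 0 F) = P 2 * (algebraMap ℂ R d * P 1 ^ 2 + P 1 * (2 * algebraMap ℂ R p * P 0 +
      algebraMap ℂ R q * P 2) + (3 * algebraMap ℂ R k0 * P 0 ^ 2 + 2 * algebraMap ℂ R k1 * P 0 * P 2 +
      algebraMap ℂ R k2 * P 2 ^ 2)) + P 3 * aeval P (pderiv 0 B) ∧
    aeval P (pderiv 1 F) = P 2 * (3 * algebraMap ℂ R c * P 1 ^ 2 + 2 * algebraMap ℂ R d * P 1 * P 0 +
      2 * algebraMap ℂ R b * P 1 * P 2 + (algebraMap ℂ R p * P 0 ^ 2 +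
      algebraMap ℂ R q * P 0 * P 2 + algebraMap ℂ R r * P 2 ^ 2)) + P 3 * aeval P (pderiv 1 B) ∧
    aeval P (pderiv 2 F) = (algebraMap ℂ R c * P 1 ^ 3 + algebraMap ℂ R d * P 1 ^ 2 * P 0 +
      algebraMap ℂ R b * P 1 ^ 2 * P 2 + P 1 * (algebraMap ℂ R p * P 0 ^ 2 +
      algebraMap ℂ R q * P 0 * P 2 + algebraMap ℂ R r * P 2 ^ 2) + (algebraMap ℂ R k0 * P 0 ^ 3 +
      algebraMap ℂ R k1 * P 0 ^ 2 * P 2 + algebraMap ℂ R k2 * P 0 * P 2 ^ 2 +
      algebraMap ℂ R k3 * P 2 ^ 3)) + P 2 * (algebraMap ℂ R b * P 1 ^ 2 +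
      P 1 * (algebraMap ℂ R q * P 0 + 2 * algebraMap ℂ R r * P 2) + (algebraMap ℂ R k1 * P 0 ^ 2 +
      2 * algebraMap ℂ R k2 * P 0 * P 2 + 3 * algebraMap ℂ R k3 * P 2 ^ 2)) +
      P 3 * aeval P (pderiv 2 B) ∧
    aeval P (pderiv 3 F) = aeval P B + P 3 * aeval P (pderiv 3 B) := by
  subst hF
  refine ⟨?_, ?_, ?_, ?_, ?_⟩
  · simp
  all_goals
    simp only [map_add, Derivation.leibniz, Derivation.leibniz_pow, pderiv_C, pderiv_X, smul_eq_mul,
      Pi.single_apply, map_mul, map_pow, aeval_X, aeval_C, nsmul_eq_mul, map_natCast]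
    simp
    ring

theorem res_mem {V : Type} [CommRing V] [IsLocalRing V] [Algebra ℂ V] (G : MvPolynomial (Fin 4) ℂ)
    (P : Fin 4 → V) (a : Fin 4 → ℂ) (h : ∀ j, P j - algebraMap ℂ V (a j) ∈ maximalIdeal V) :
    aeval P G - algebraMap ℂ V (aeval a G) ∈ maximalIdeal V := by
  induction G using MvPolynomial.induction_on with
  | C r => simp
  | add g₁ g₂ h₁ h₂ =>
    have := Ideal.add_mem _ h₁ h₂
    rw [map_add, map_add, map_add]
    convert this using 1
    ring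
  | mul_X g j hg =>
    have := Ideal.add_mem _ (Ideal.mul_mem_right (P j) _ hg)
      (Ideal.mul_mem_left _ (algebraMap ℂ V (aeval a g)) (h j))
    rw [map_mul, map_mul, map_mul, aeval_X, aeval_X]
    convert this using 1
    ring

variable {V : Type} [CommRing V] [IsDomain V] [ValuationRing V] [Algebra ℂ V]

theorem local_F {F : MvPolynomial (Fin 4) ℂ} (hF : F.IsHomogeneous 4) (hs : Pool.Agent.DS.Smooth F)
    (h1 : OneLine F) (x s w : V) (hx : x ∈ maximalIdeal V) (hss : s ∈ maximalIdeal V)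
    (hw : w ∈ maximalIdeal V) (hs0 : s ≠ 0)
    (f0 : aeval (![x, 1, s, w * s] : Fin 4 → V) (pderiv 0 F) = 0)
    (f1 : aeval (![x, 1, s, w * s] : Fin 4 → V) (pderiv 1 F) = 0) :
    aeval (![x, 1, s, w * s] : Fin 4 → V) F ∣ s ^ 4 := by
  classical
  obtain ⟨c, d, b, p, q, r, k0, k1, k2, k3, B, hB, hFe⟩ := shape hF h1.on
  have hE := congrArg (aeval (![x, 1, s, w * s] : Fin 4 → V)) hF.sum_X_mul_pderiv
  rw [map_sum, Fin.sum_univ_four] at hE
  simp only [map_mul, aeval_X, map_nsmul] at hE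
  obtain ⟨v, v0, v1, v2, v3⟩ := shape_eval hFe (![x, 1, s, w * s] : Fin 4 → V)
  have z0 : (![x, 1, s, w * s] : Fin 4 → V) 0 = x := rfl
  have z1 : (![x, 1, s, w * s] : Fin 4 → V) 1 = 1 := rfl
  have z2 : (![x, 1, s, w * s] : Fin 4 → V) 2 = s := rfl
  have z3 : (![x, 1, s, w * s] : Fin 4 → V) 3 = w * s := rfl
  have hrP : ∀ j, (![x, 1, s, w * s] : Fin 4 → V) j - algebraMap ℂ V ((![0, 1, 0, 0] : Fin 4 → ℂ) j) ∈
      maximalIdeal V := by
    intro j
    fin_cases j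
    · simpa using hx
    · simp
    · simpa using hss
    · simpa using Ideal.mul_mem_left _ w hss
  simp only [z0, z1, z2, z3] at hE v v0 v1 v2 v3
  rw [f0] at v0 hE
  rw [f1] at v1 hE
  have hβu := res_mem (pderiv 1 B) _ _ hrP
  obtain ⟨β0, hβ0⟩ : ∃ β0, β0 = aeval (![x, 1, s, w * s] : Fin 4 → V) (pderiv 0 B) := ⟨_, rfl⟩
  obtain ⟨β1, hβ1⟩ : ∃ β1, β1 = aeval (![x, 1, s, w * s] : Fin 4 → V) (pderiv 1 B) := ⟨_, rfl⟩
  obtain ⟨β2, hβ2⟩ : ∃ β2, β2 = aeval (![x, 1, s, w * s] : Fin 4 → V) (pderiv 2 B) := ⟨_, rfl⟩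
  obtain ⟨β3, hβ3⟩ : ∃ β3, β3 = aeval (![x, 1, s, w * s] : Fin 4 → V) (pderiv 3 B) := ⟨_, rfl⟩
  rw [← hβ0] at v0
  rw [← hβ1] at v1 hβu
  rw [← hβ2] at v2
  rw [← hβ3] at v3
  -- `d = 0`
  have g0 : algebraMap ℂ V d + (2 * algebraMap ℂ V p * x + algebraMap ℂ V q * s +
      (3 * algebraMap ℂ V k0 * x * x + 2 * algebraMap ℂ V k1 * s * x + algebraMap ℂ V k2 * s * s) +
      β0 * w) = 0 := by
    apply mul_left_cancel₀ hs0
    linear_combination -v0
  have hd : d = 0 := by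
    by_contra hd
    refine (unit_add (unit_c (V := V) hd) ?_).ne_zero g0
    exact Ideal.add_mem _ (Ideal.add_mem _ (Ideal.add_mem _ (Ideal.mul_mem_left _ _ hx)
      (Ideal.mul_mem_left _ _ hss)) (Ideal.add_mem _ (Ideal.add_mem _ (Ideal.mul_mem_left _ _ hx)
      (Ideal.mul_mem_left _ _ hx)) (Ideal.mul_mem_left _ _ hss))) (Ideal.mul_mem_left _ _ hw)
  subst hd
  have g1 : algebraMap ℂ V (3 * c) + ((2 * algebraMap ℂ V b * s + (algebraMap ℂ V p * x * x +
      algebraMap ℂ V q * s * x + algebraMap ℂ V r * s * s)) + β1 * w) = 0 := by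
    apply mul_left_cancel₀ hs0
    rw [map_mul, map_ofNat]
    rw [map_zero] at v1
    linear_combination -v1
  have hc : c = 0 := by
    by_contra hc
    refine (unit_add (unit_c (V := V) (mul_ne_zero three_ne_zero hc)) ?_).ne_zero g1
    exact Ideal.add_mem _ (Ideal.add_mem _ (Ideal.mul_mem_left _ _ hss)
      (Ideal.add_mem _ (Ideal.add_mem _ (Ideal.mul_mem_left _ _ hx)
      (Ideal.mul_mem_left _ _ hx)) (Ideal.mul_mem_left _ _ hss))) (Ideal.mul_mem_left _ _ hw)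
  subst hc
  -- `B` does not vanish at the point
  have hBne : aeval (![0, 1, 0, 0] : Fin 4 → ℂ) B ≠ 0 := by
    intro h0
    obtain ⟨u, u0, u1, u2, u3⟩ := shape_eval hFe (![0, 1, 0, 0] : Fin 4 → ℂ)
    have := hs (![0, 1, 0, 0] : Fin 4 → ℂ) (by
      intro j
      fin_cases j
      · show aeval (![0, 1, 0, 0] : Fin 4 → ℂ) (pderiv 0 F) = 0
        rw [u0]; simp
      · show aeval (![0, 1, 0, 0] : Fin 4 → ℂ) (pderiv 1 F) = 0
        rw [u1]; simp
      · show aeval (![0, 1, 0, 0] : Fin 4 → ℂ) (pderiv 2 F) = 0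
        rw [u2]; simp
      · show aeval (![0, 1, 0, 0] : Fin 4 → ℂ) (pderiv 3 F) = 0
        rw [u3, h0]; simp)
    have h2 := congrFun this 1
    simp at h2
  have hB1 : aeval (![0, 1, 0, 0] : Fin 4 → ℂ) (pderiv 1 B) ≠ 0 := by
    have h3 := congrArg (aeval (![0, 1, 0, 0] : Fin 4 → ℂ)) hB.sum_X_mul_pderiv
    rw [map_sum, Fin.sum_univ_four] at h3
    simp only [map_mul, aeval_X, map_nsmul] at h3
    have y0 : (![0, 1, 0, 0] : Fin 4 → ℂ) 0 = 0 := rfl
    have y1 : (![0, 1, 0, 0] : Fin 4 → ℂ) 1 = 1 := rfl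
    have y2 : (![0, 1, 0, 0] : Fin 4 → ℂ) 2 = 0 := rfl
    have y3 : (![0, 1, 0, 0] : Fin 4 → ℂ) 3 = 0 := rfl
    simp only [y0, y1, y2, y3] at h3
    intro h4
    rw [h4] at h3
    simp only [zero_mul, mul_zero, add_zero, nsmul_eq_mul] at h3
    rcases mul_eq_zero.mp h3.symm with h5 | h5
    · norm_num at h5
    · exact hBne h5
  have hβ1u : IsUnit β1 := by
    have := unit_add (unit_c (V := V) hB1) hβu
    convert this using 1
    ring
  -- no line through the point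
  have H : ∀ l m : ℂ, b * m = 0 → p * l ^ 2 + q * l * m + r * m ^ 2 = 0 →
      k0 * l ^ 3 + k1 * l ^ 2 * m + k2 * l * m ^ 2 + k3 * m ^ 3 = 0 → l = 0 ∧ m = 0 := by
    intro l m hbm hQ hK
    by_cases hm : m = 0
    · subst hm
      refine ⟨?_, rfl⟩
      by_contra hl
      have hp : p = 0 := by
        have : p * l ^ 2 = 0 := by linear_combination hQ
        exact (mul_eq_zero.mp this).resolve_right (pow_ne_zero _ hl)
      have hk : k0 = 0 := by
        have : k0 * l ^ 3 = 0 := by linear_combination hK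
        exact (mul_eq_zero.mp this).resolve_right (pow_ne_zero _ hl)
      subst hp
      subst hk
      obtain ⟨y, hy0, hy⟩ := MP_1209e6.KrullZero.exists_common_zero (Ω := ℂ) (J := Fin 4)
        (![X 2, X 3, B] : Fin 3 → MvPolynomial (Fin 4) ℂ) (by
          intro i
          fin_cases i
          · simp
          · simp
          · show aeval (0 : Fin 4 → ℂ) B = 0
            rw [MvPolynomial.aeval_zero, MvPolynomial.constantCoeff_eq, hB.coeff_eq_zero (by simp),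
              map_zero]) (by simp)
      have y2 : y 2 = 0 := by simpa using hy 0
      have y3 : y 3 = 0 := by simpa using hy 1
      have yB : aeval y B = 0 := by simpa using hy 2
      obtain ⟨u, u0, u1, u2, u3⟩ := shape_eval hFe y
      apply hy0
      apply hs
      intro j
      fin_cases j
      · show aeval y (pderiv 0 F) = 0
        rw [u0, y2, y3]; simp
      · show aeval y (pderiv 1 F) = 0
        rw [u1, y2, y3]; simp
      · show aeval y (pderiv 2 F) = 0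
        rw [u2, y2, y3]; simp
      · show aeval y (pderiv 3 F) = 0
        rw [u3, yB, y3]; simp
    · exfalso
      have hb : b = 0 := (mul_eq_zero.mp hbm).resolve_right hm
      subst hb
      have hli : LinearIndependent ℂ ![(![0, 1, 0, 0] : Fin 4 → ℂ), ![l, 0, m, 0]] := by
        rw [LinearIndependent.pair_iff]
        intro s' t' hst
        have a1 := congrFun hst 1
        have a2 := congrFun hst 2
        simp at a1 a2
        exact ⟨a1, a2.resolve_right hm⟩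
      have := h1.only _ _ hli (by
        intro s' t'
        obtain ⟨u, -⟩ := shape_eval hFe (fun j => s' * (![0, 1, 0, 0] : Fin 4 → ℂ) j +
          t' * (![l, 0, m, 0] : Fin 4 → ℂ) j)
        rw [u]
        simp
        right
        linear_combination s' * t' ^ 2 * hQ + t' ^ 3 * hK)
      exact hm this.2.2.1
  have hD := local_dvd b p q r k0 k1 k2 k3 x s w β0 β1 (β2 + w * β3) hx hss hw hs0 hβ1u
    (by rw [map_zero] at g0; linear_combination g0)
    (by rw [mul_zero, map_zero] at g1; linear_combination g1) H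
  have h3u : IsUnit (algebraMap ℂ V 3) := unit_c three_ne_zero
  have h3F : algebraMap ℂ V 3 * aeval (![x, 1, s, w * s] : Fin 4 → V) F = s ^ 2 *
      (algebraMap ℂ V b + algebraMap ℂ V q * x + 2 * algebraMap ℂ V r * s + algebraMap ℂ V k1 * x ^ 2 +
      2 * algebraMap ℂ V k2 * x * s + 3 * algebraMap ℂ V k3 * s ^ 2 + w * (β2 + w * β3)) := by
    rw [map_ofNat]
    simp only [nsmul_eq_mul, Nat.cast_ofNat] at hE
    simp only [map_zero] at v v2
    linear_combination -hE + s * v2 + w * s * v3 - v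
  have h4 : algebraMap ℂ V 3 * aeval (![x, 1, s, w * s] : Fin 4 → V) F ∣ s ^ 2 * s ^ 2 := by
    rw [h3F]
    exact mul_dvd_mul_left _ hD
  have h5 := (h3u.dvd_mul_left (a := aeval (![x, 1, s, w * s] : Fin 4 → V) F)
    (b := s ^ 4)).mpr
  have h6 := dvd_trans (Dvd.intro_left _ rfl) h4
  rw [← pow_add] at h6
  exact h6

end Pool.Agent.QX.N96
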