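import Pool.Agent.Lib_MP_1209e6_ql.N96c
import Pool.Agent.Lib_MP_1209e6_ds.Coef

/-! Change of coordinates preserving the line, and the local theorem at any point of the line. -/

set_option autoImplicit false

open MvPolynomial IsLocalRing

noncomputable section

namespace Pool.Agent.QX.N96

/-- the change of coordinates -/
def mc {R : Type} [CommRing R] [Algebra ℂ R] (p0 p1 q0 q1 r2 r3 s2 s3 : ℂ) (Y : Fin 4 → R) : Fin 4 → R :=
  ![algebraMap ℂ R p0 * Y 0 + algebraMap ℂ R q0 * Y 1, algebraMap ℂ R p1 * Y 0 + algebraMap ℂ R q1 * Y 1,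
    algebraMap ℂ R r2 * Y 2 + algebraMap ℂ R s2 * Y 3, algebraMap ℂ R r3 * Y 2 + algebraMap ℂ R s3 * Y 3]

/-- the form in the new coordinates -/
def nf (p0 p1 q0 q1 r2 r3 s2 s3 : ℂ) (F : MvPolynomial (Fin 4) ℂ) : MvPolynomial (Fin 4) ℂ :=
  aeval (mc p0 p1 q0 q1 r2 r3 s2 s3 (X : Fin 4 → MvPolynomial (Fin 4) ℂ)) F

variable {p0 p1 q0 q1 r2 r3 s2 s3 : ℂ}

theorem nf_eval (F : MvPolynomial (Fin 4) ℂ) {R : Type} [CommRing R] [Algebra ℂ R] (Y : Fin 4 → R) :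
    aeval Y (nf p0 p1 q0 q1 r2 r3 s2 s3 F) = aeval (mc p0 p1 q0 q1 r2 r3 s2 s3 Y) F := by
  rw [nf, MvPolynomial.comp_aeval_apply]
  congr 2
  funext j
  fin_cases j <;> simp [mc]

theorem nf_der (F : MvPolynomial (Fin 4) ℂ) {R : Type} [CommRing R] [Algebra ℂ R] (Y : Fin 4 → R) :
    aeval Y (pderiv 0 (nf p0 p1 q0 q1 r2 r3 s2 s3 F)) =
      algebraMap ℂ R p0 * aeval (mc p0 p1 q0 q1 r2 r3 s2 s3 Y) (pderiv 0 F) +
      algebraMap ℂ R p1 * aeval (mc p0 p1 q0 q1 r2 r3 s2 s3 Y) (pderiv 1 F) ∧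
    aeval Y (pderiv 1 (nf p0 p1 q0 q1 r2 r3 s2 s3 F)) =
      algebraMap ℂ R q0 * aeval (mc p0 p1 q0 q1 r2 r3 s2 s3 Y) (pderiv 0 F) +
      algebraMap ℂ R q1 * aeval (mc p0 p1 q0 q1 r2 r3 s2 s3 Y) (pderiv 1 F) ∧
    aeval Y (pderiv 2 (nf p0 p1 q0 q1 r2 r3 s2 s3 F)) =
      algebraMap ℂ R r2 * aeval (mc p0 p1 q0 q1 r2 r3 s2 s3 Y) (pderiv 2 F) +
      algebraMap ℂ R r3 * aeval (mc p0 p1 q0 q1 r2 r3 s2 s3 Y) (pderiv 3 F) ∧
    aeval Y (pderiv 3 (nf p0 p1 q0 q1 r2 r3 s2 s3 F)) =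
      algebraMap ℂ R s2 * aeval (mc p0 p1 q0 q1 r2 r3 s2 s3 Y) (pderiv 2 F) +
      algebraMap ℂ R s3 * aeval (mc p0 p1 q0 q1 r2 r3 s2 s3 Y) (pderiv 3 F) := by
  have h : ∀ i : Fin 4, aeval Y (pderiv i (nf p0 p1 q0 q1 r2 r3 s2 s3 F)) =
      ∑ j, aeval Y (pderiv i (mc p0 p1 q0 q1 r2 r3 s2 s3 (X : Fin 4 → MvPolynomial (Fin 4) ℂ) j)) *
        aeval (mc p0 p1 q0 q1 r2 r3 s2 s3 Y) (pderiv j F) := by
    intro i
    rw [nf, Pool.Agent.DS.chain, map_sum]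
    apply Finset.sum_congr rfl
    intro j _
    rw [map_mul]
    congr 1
    exact nf_eval (pderiv j F) Y
  refine ⟨?_, ?_, ?_, ?_⟩
  all_goals
    rw [h, Fin.sum_univ_four]
    simp [mc, pderiv_X, Pi.single_apply, algebraMap_eq]

theorem mc_hom (j : Fin 4) :
    (mc p0 p1 q0 q1 r2 r3 s2 s3 (X : Fin 4 → MvPolynomial (Fin 4) ℂ) j).IsHomogeneous 1 := by
  have h : ∀ (a b : ℂ) (i l : Fin 4), (algebraMap ℂ (MvPolynomial (Fin 4) ℂ) a * X i +
      algebraMap ℂ (MvPolynomial (Fin 4) ℂ) b * X l : MvPolynomial (Fin 4) ℂ).IsHomogeneous 1 := by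
    intro a b i l
    rw [algebraMap_eq]
    exact (by simpa using (isHomogeneous_C (Fin 4) a).mul (isHomogeneous_X ℂ i) :
      (C a * X i : MvPolynomial (Fin 4) ℂ).IsHomogeneous 1).add
      (by simpa using (isHomogeneous_C (Fin 4) b).mul (isHomogeneous_X ℂ l))
  fin_cases j
  · exact h p0 q0 0 1
  · exact h p1 q1 0 1
  · exact h r2 s2 2 3
  · exact h r3 s3 2 3

theorem nf_hom {F : MvPolynomial (Fin 4) ℂ} (hF : F.IsHomogeneous 4) :
    (nf p0 p1 q0 q1 r2 r3 s2 s3 F).IsHomogeneous 4 := by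
  have := hF.aeval (mc p0 p1 q0 q1 r2 r3 s2 s3 (X : Fin 4 → MvPolynomial (Fin 4) ℂ)) (fun j => mc_hom j)
  rw [nf]
  simpa only [one_mul, mul_one] using this

theorem mc_inj (hpq : p0 * q1 - p1 * q0 ≠ 0) (hrs : r2 * s3 - r3 * s2 ≠ 0) (Y : Fin 4 → ℂ) :
    (mc p0 p1 q0 q1 r2 r3 s2 s3 Y 0 = 0 → mc p0 p1 q0 q1 r2 r3 s2 s3 Y 1 = 0 → Y 0 = 0 ∧ Y 1 = 0) ∧
    (mc p0 p1 q0 q1 r2 r3 s2 s3 Y 2 = 0 → mc p0 p1 q0 q1 r2 r3 s2 s3 Y 3 = 0 → Y 2 = 0 ∧ Y 3 = 0) := by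
  constructor
  · intro h0 h1
    have e0 : p0 * Y 0 + q0 * Y 1 = 0 := h0
    have e1 : p1 * Y 0 + q1 * Y 1 = 0 := h1
    constructor
    · apply (mul_eq_zero.mp (show (p0 * q1 - p1 * q0) * Y 0 = 0 by
        linear_combination q1 * e0 - q0 * e1)).resolve_left hpq
    · apply (mul_eq_zero.mp (show (p0 * q1 - p1 * q0) * Y 1 = 0 by
        linear_combination p0 * e1 - p1 * e0)).resolve_left hpq
  · intro h0 h1
    have e0 : r2 * Y 2 + s2 * Y 3 = 0 := h0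
    have e1 : r3 * Y 2 + s3 * Y 3 = 0 := h1
    constructor
    · apply (mul_eq_zero.mp (show (r2 * s3 - r3 * s2) * Y 2 = 0 by
        linear_combination s3 * e0 - s2 * e1)).resolve_left hrs
    · apply (mul_eq_zero.mp (show (r2 * s3 - r3 * s2) * Y 3 = 0 by
        linear_combination r2 * e1 - r3 * e0)).resolve_left hrs

theorem nf_smooth (hpq : p0 * q1 - p1 * q0 ≠ 0) (hrs : r2 * s3 - r3 * s2 ≠ 0)
    {F : MvPolynomial (Fin 4) ℂ} (hs : Pool.Agent.DS.Smooth F) :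
    Pool.Agent.DS.Smooth (nf p0 p1 q0 q1 r2 r3 s2 s3 F) := by
  intro Y hY
  obtain ⟨d0, d1, d2, d3⟩ := nf_der (p0 := p0) (p1 := p1) (q0 := q0) (q1 := q1) (r2 := r2) (r3 := r3)
    (s2 := s2) (s3 := s3) F Y
  rw [hY 0] at d0
  rw [hY 1] at d1
  rw [hY 2] at d2
  rw [hY 3] at d3
  simp only [Algebra.algebraMap_self, RingHom.id_apply] at d0 d1 d2 d3
  have h := hs (mc p0 p1 q0 q1 r2 r3 s2 s3 Y) (by
    intro j
    fin_cases j
    · apply (mul_eq_zero.mp (show (p0 * q1 - p1 * q0) *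
        aeval (mc p0 p1 q0 q1 r2 r3 s2 s3 Y) (pderiv 0 F) = 0 by
        linear_combination -q1 * d0 + p1 * d1)).resolve_left hpq
    · apply (mul_eq_zero.mp (show (p0 * q1 - p1 * q0) *
        aeval (mc p0 p1 q0 q1 r2 r3 s2 s3 Y) (pderiv 1 F) = 0 by
        linear_combination q0 * d0 - p0 * d1)).resolve_left hpq
    · apply (mul_eq_zero.mp (show (r2 * s3 - r3 * s2) *
        aeval (mc p0 p1 q0 q1 r2 r3 s2 s3 Y) (pderiv 2 F) = 0 by
        linear_combination -s3 * d2 + r3 * d3)).resolve_left hrs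
    · apply (mul_eq_zero.mp (show (r2 * s3 - r3 * s2) *
        aeval (mc p0 p1 q0 q1 r2 r3 s2 s3 Y) (pderiv 3 F) = 0 by
        linear_combination s2 * d2 - r2 * d3)).resolve_left hrs)
  obtain ⟨i1, i2⟩ := mc_inj hpq hrs Y
  have j1 := i1 (congrFun h 0) (congrFun h 1)
  have j2 := i2 (congrFun h 2) (congrFun h 3)
  funext j
  fin_cases j
  · exact j1.1
  · exact j1.2
  · exact j2.1
  · exact j2.2

theorem nf_one (hpq : p0 * q1 - p1 * q0 ≠ 0) (hrs : r2 * s3 - r3 * s2 ≠ 0)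
    {F : MvPolynomial (Fin 4) ℂ} (h1 : OneLine F) : OneLine (nf p0 p1 q0 q1 r2 r3 s2 s3 F) := by
  constructor
  · intro a a2 a3
    rw [nf_eval]
    apply h1.on
    · simp [mc, a2, a3]
    · simp [mc, a2, a3]
  · intro a b hab hl
    have hli : LinearIndependent ℂ ![mc p0 p1 q0 q1 r2 r3 s2 s3 a, mc p0 p1 q0 q1 r2 r3 s2 s3 b] := by
      rw [LinearIndependent.pair_iff] at hab ⊢
      intro s t hst
      apply hab
      obtain ⟨i1, i2⟩ := mc_inj hpq hrs (s • a + t • b)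
      have e0 := congrFun hst 0
      have e1 := congrFun hst 1
      have e2 := congrFun hst 2
      have e3 := congrFun hst 3
      simp [mc] at e0 e1 e2 e3
      have j1 := i1 (by simp [mc]; linear_combination e0) (by simp [mc]; linear_combination e1)
      have j2 := i2 (by simp [mc]; linear_combination e2) (by simp [mc]; linear_combination e3)
      funext j
      fin_cases j
      · exact j1.1
      · exact j1.2
      · exact j2.1
      · exact j2.2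
    have h := h1.only _ _ hli (by
      intro s t
      have := hl s t
      rw [nf_eval] at this
      rw [← this]
      congr 2
      funext j
      fin_cases j <;> simp [mc] <;> ring)
    obtain ⟨ia, ja⟩ := mc_inj hpq hrs a
    obtain ⟨ib, jb⟩ := mc_inj hpq hrs b
    have k1 := ja h.1 h.2.1
    have k2 := jb h.2.2.1 h.2.2.2
    exact ⟨k1.1, k1.2, k2.1, k2.2⟩

theorem sc {R : Type} [CommRing R] [Algebra ℂ R] {n d : ℕ} {F : MvPolynomial (Fin n) ℂ}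
    (hF : F.IsHomogeneous d) (t : R) (p : Fin n → R) :
    aeval (fun i => t * p i) F = t ^ d * aeval p F := by
  rw [MvPolynomial.aeval_def, MvPolynomial.aeval_def, MvPolynomial.eval₂_eq', MvPolynomial.eval₂_eq',
    Finset.mul_sum]
  apply Finset.sum_congr rfl
  intro a ha
  have h1 : ∑ i, a i = d := by
    have := hF (MvPolynomial.mem_support_iff.mp ha)
    rw [← this, Finsupp.weight_apply, Finsupp.sum_fintype]
    · simp
    · intro i; simp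
  simp only [mul_pow, Finset.prod_mul_distrib]
  rw [Finset.prod_pow_eq_pow_sum, h1]
  ring

variable {V : Type} [CommRing V] [IsDomain V] [ValuationRing V] [Algebra ℂ V]

theorem local_any {F : MvPolynomial (Fin 4) ℂ} (hF : F.IsHomogeneous 4) (hs : Pool.Agent.DS.Smooth F)
    (h1 : OneLine F) (hpq : p0 * q1 - p1 * q0 ≠ 0) (hrs : r2 * s3 - r3 * s2 ≠ 0) (Y0 Y1 S w : V)
    (hY0 : Y0 ∈ maximalIdeal V) (hY1 : IsUnit Y1) (hS : S ∈ maximalIdeal V) (hw : w ∈ maximalIdeal V)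
    (hS0 : S ≠ 0)
    (f0 : aeval (mc p0 p1 q0 q1 r2 r3 s2 s3 (![Y0, Y1, S, w * S] : Fin 4 → V)) (pderiv 0 F) = 0)
    (f1 : aeval (mc p0 p1 q0 q1 r2 r3 s2 s3 (![Y0, Y1, S, w * S] : Fin 4 → V)) (pderiv 1 F) = 0) :
    aeval (mc p0 p1 q0 q1 r2 r3 s2 s3 (![Y0, Y1, S, w * S] : Fin 4 → V)) F ∣ S ^ 4 := by
  obtain ⟨u, hu⟩ := hY1.exists_right_inv
  have huu : IsUnit u := IsUnit.of_mul_eq_one_right Y1 hu
  have hm : mc p0 p1 q0 q1 r2 r3 s2 s3 (![u * Y0, 1, u * S, w * (u * S)] : Fin 4 → V) =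
      fun i => u * mc p0 p1 q0 q1 r2 r3 s2 s3 (![Y0, Y1, S, w * S] : Fin 4 → V) i := by
    funext j
    fin_cases j
    · simp [mc]; linear_combination -(algebraMap ℂ V q0) * hu
    · simp [mc]; linear_combination -(algebraMap ℂ V q1) * hu
    · simp [mc]; ring
    · simp [mc]; ring
  have hp0 : aeval (mc p0 p1 q0 q1 r2 r3 s2 s3 (![u * Y0, 1, u * S, w * (u * S)] : Fin 4 → V))
      (pderiv 0 F) = 0 := by
    rw [hm, sc (hF.pderiv (i := 0)), f0, mul_zero]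
  have hp1 : aeval (mc p0 p1 q0 q1 r2 r3 s2 s3 (![u * Y0, 1, u * S, w * (u * S)] : Fin 4 → V))
      (pderiv 1 F) = 0 := by
    rw [hm, sc (hF.pderiv (i := 1)), f1, mul_zero]
  obtain ⟨d0, d1, d2, d3⟩ := nf_der (p0 := p0) (p1 := p1) (q0 := q0) (q1 := q1) (r2 := r2) (r3 := r3)
    (s2 := s2) (s3 := s3) F (![u * Y0, 1, u * S, w * (u * S)] : Fin 4 → V)
  rw [hp0, hp1, mul_zero, mul_zero, add_zero] at d0 d1
  have h := local_F (nf_hom hF) (nf_smooth hpq hrs hs) (nf_one hpq hrs h1) (u * Y0) (u * S) w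
    (Ideal.mul_mem_left _ _ hY0) (Ideal.mul_mem_left _ _ hS) hw (mul_ne_zero huu.ne_zero hS0) d0 d1
  rw [nf_eval, hm, sc hF, mul_pow] at h
  exact (mul_dvd_mul_iff_left (pow_ne_zero 4 huu.ne_zero)).mp h

end Pool.Agent.QX.N96
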