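import Pool.Agent.Lib_MP_1209e6_qx.Defs

/-! Valuation rings of an algebraic extension of `ℂ(T)` with residue field `ℂ`. -/

set_option autoImplicit false

open MvPolynomial

noncomputable section

namespace Pool.Agent.QX.N96

theorem alg_range {k : Type} [Field k] [Algebra ℂ k] {u : k} (h : IsAlgebraic ℂ u) :
    ∃ c : ℂ, u = algebraMap ℂ k c := by
  have h4 := IsAlgClosed.degree_eq_one_of_irreducible ℂ (minpoly.irreducible h.isIntegral)
  obtain ⟨c, hc⟩ := minpoly.mem_range_of_degree_eq_one ℂ u h4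
  exact ⟨c, hc.symm⟩

theorem exists_val_one {k : Type} [Field k] [Algebra ℂ k] (g : k) (hg : ∀ c : ℂ, g ≠ algebraMap ℂ k c) :
    ∃ V : ValuationSubring k, (∀ c : ℂ, algebraMap ℂ k c ∈ V) ∧ g ∉ V := by
  by_contra hcon
  push Not at hcon
  have h1 := iInf_valuationSubring_superset (s := Set.range (algebraMap ℂ k))
  have h2 : g ∈ (⨅ V : {V : ValuationSubring k // Set.range (algebraMap ℂ k) ⊆ V.toSubring},
      V.1.toSubring) := by
    rw [Subring.mem_iInf]
    rintro ⟨V, hV⟩
    exact hcon V fun c => hV ⟨c, rfl⟩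
  rw [h1] at h2
  have h3 : IsIntegral (Subring.closure (Set.range (algebraMap ℂ k))) g := h2
  obtain ⟨p, hp, hp0⟩ := h3
  set P : Polynomial k := p.map (Subring.closure (Set.range (algebraMap ℂ k))).subtype with hP
  have hcl : Subring.closure (Set.range (algebraMap ℂ k)) ≤ (algebraMap ℂ k).range := by
    rw [Subring.closure_le]
    rintro _ ⟨c, rfl⟩
    exact ⟨c, rfl⟩
  have hl : P ∈ Polynomial.lifts (algebraMap ℂ k) := by
    rw [Polynomial.lifts_iff_coeff_lifts]
    intro n
    rw [hP, Polynomial.coeff_map]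
    exact hcl (p.coeff n).2
  obtain ⟨q, hq, -, hqm⟩ := Polynomial.lifts_and_natDegree_eq_and_monic hl (hp.map _)
  have h5 : IsIntegral ℂ g := by
    refine ⟨q, hqm, ?_⟩
    rw [Polynomial.eval₂_eq_eval_map, hq, hP, Polynomial.eval_map]
    exact hp0
  obtain ⟨c, hc⟩ := alg_range h5.isAlgebraic
  exact hg c hc

theorem inv_mem {k : Type} [Field k] [Algebra ℂ k] (V : ValuationSubring k) (hV : ∀ c : ℂ, algebraMap ℂ k c ∈ V)
    (u : k) (h : ∀ c : ℂ, (u - algebraMap ℂ k c)⁻¹ ∈ V) :
    ∀ (n : ℕ) (s : Polynomial ℂ), s.natDegree = n → (Polynomial.aeval u s)⁻¹ ∈ V := by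
  intro n
  induction n with
  | zero =>
    intro s hs
    rw [Polynomial.eq_C_of_natDegree_eq_zero hs, Polynomial.aeval_C, ← map_inv₀]
    exact hV _
  | succ n ih =>
    intro s hs
    have hs0 : s ≠ 0 := by rintro rfl; simp at hs
    obtain ⟨c, hc⟩ := IsAlgClosed.exists_root s (by
      intro h0
      rw [Polynomial.degree_eq_natDegree hs0, hs] at h0
      exact absurd h0 (by norm_cast))
    obtain ⟨s', rfl⟩ := Polynomial.dvd_iff_isRoot.mpr hc
    have hs' : s' ≠ 0 := right_ne_zero_of_mul hs0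
    rw [Polynomial.natDegree_mul (Polynomial.X_sub_C_ne_zero c) hs', Polynomial.natDegree_X_sub_C] at hs
    rw [map_mul, mul_inv]
    refine V.mul_mem _ _ ?_ (ih s' (by omega))
    have := h c
    simpa using this

theorem exists_val {k : Type} [Field k] [Algebra ℂ k] {T : k} (hT : Base T) (g : k)
    (hg : ∀ c : ℂ, g ≠ algebraMap ℂ k c) :
    ∃ V : ValuationSubring k, (∀ c : ℂ, algebraMap ℂ k c ∈ V) ∧ g ∉ V ∧
      ∀ u ∈ V, ∃ c : ℂ, V.valuation (u - algebraMap ℂ k c) < 1 := by
  obtain ⟨V, hV, hgV⟩ := exists_val_one g hg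
  refine ⟨V, hV, hgV, ?_⟩
  intro u hu
  by_contra hcon
  push Not at hcon
  have hinv : ∀ c : ℂ, (u - algebraMap ℂ k c)⁻¹ ∈ V := by
    intro c
    rw [← ValuationSubring.valuation_le_one_iff, map_inv₀]
    exact inv_le_one_of_one_le₀ (hcon c)
  have htr : Transcendental ℂ u := by
    intro halg
    obtain ⟨c, hc⟩ := alg_range halg
    have := hcon c
    rw [hc, sub_self, map_zero] at this
    exact absurd this (by simp)
  have hx : AlgebraicIndependent ℂ (fun _ : Unit => T) :=
    (algebraicIndependent_unique_type_iff (ι := Unit)).2 hT.tr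
  have hy : AlgebraicIndependent ℂ (fun _ : Unit => u) :=
    (algebraicIndependent_unique_type_iff (ι := Unit)).2 htr
  have hrx : Set.range (fun _ : Unit => T) = {T} := Set.range_const
  have hru : Set.range (fun _ : Unit => u) = {u} := Set.range_const
  have h1 : IsTranscendenceBasis ℂ (fun _ : Unit => T) := hx.isTranscendenceBasis_iff_isAlgebraic.2
    ⟨fun a => IntermediateField.isAlgebraic_adjoin_iff.1 (by rw [hrx]; exact hT.alg a)⟩
  have h2 : IsTranscendenceBasis ℂ (fun _ : Unit => u) :=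
    hy.isTranscendenceBasis_of_trdeg_le_of_finite h1.cardinalMk_eq_trdeg.ge
  have h3 := h2.isAlgebraic_field
  rw [hru] at h3
  have hE : ∀ z ∈ IntermediateField.adjoin ℂ {u}, z ∈ V := by
    intro z hz
    rw [IntermediateField.mem_adjoin_simple_iff] at hz
    obtain ⟨r, s, rfl⟩ := hz
    rw [div_eq_mul_inv]
    refine V.mul_mem _ _ ?_ (inv_mem V hV u hinv _ s rfl)
    rw [Polynomial.aeval_eq_sum_range]
    refine sum_mem fun i _ => ?_
    rw [Algebra.smul_def]
    exact V.mul_mem _ _ (hV _) (pow_mem hu i)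
  obtain ⟨p, hp, hp0⟩ := (h3.isAlgebraic g).isIntegral
  let ι : IntermediateField.adjoin ℂ {u} →+* V :=
    { toFun := fun z => ⟨z.1, hE z.1 z.2⟩
      map_one' := rfl
      map_mul' := fun _ _ => rfl
      map_zero' := rfl
      map_add' := fun _ _ => rfl }
  have h5 : IsIntegral V g := by
    refine ⟨p.map ι, hp.map _, ?_⟩
    rw [Polynomial.eval₂_map]
    exact hp0
  obtain ⟨y, hy⟩ := IsIntegrallyClosed.isIntegral_iff.mp h5
  apply hgV
  rw [← hy]
  exact y.2

end Pool.Agent.QX.N96
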