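import Pool.Agent.Lib_MP_1209e6_ql.N96d
import Pool.Agent.Lib_MP_1209e6_ql.N96e
import Pool.Agent.Lib_MP_1209e6_ql.GenSmooth
import Pool.Agent.Lib_MP_1209e6_qx.Copies

/-! A singular point of a residual cubic off the line. -/

set_option autoImplicit false

open MvPolynomial IsLocalRing

noncomputable section

namespace Pool.Agent.QX.N96

theorem hom_zero {R : Type} [CommRing R] [Algebra ℂ R] {n : ℕ} {G : MvPolynomial (Fin 4) ℂ}
    (hG : G.IsHomogeneous (n + 1)) : aeval (0 : Fin 4 → R) G = 0 := by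
  rw [MvPolynomial.aeval_zero, MvPolynomial.constantCoeff_eq, hG.coeff_eq_zero (by simp), map_zero]

theorem gen_point {F : MvPolynomial (Fin 4) ℂ} (hF : F.IsHomogeneous 4) (hs : Pool.Agent.DS.Smooth F)
    (hon : ∀ a : Fin 4 → ℂ, a 2 = 0 → a 3 = 0 → aeval a F = 0)
    {k : Type} [Field k] [Algebra ℂ k] [IsAlgClosed k] (t : k) (ht : Transcendental ℂ t) :
    ∃ y : Fin 4 → k, y 2 ≠ 0 ∧ y 3 = t * y 2 ∧ aeval y (pderiv 0 F) = 0 ∧ aeval y (pderiv 1 F) = 0 ∧
      aeval y F ≠ 0 := by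
  obtain ⟨A, B, hA, hB, hFe⟩ := line_split hF hon
  have d0 : ∀ y : Fin 4 → k, aeval y (pderiv 0 F) = y 2 * aeval y (pderiv 0 A) +
      y 3 * aeval y (pderiv 0 B) := by
    intro y; rw [hFe]; simp [pderiv_X]
  have d1 : ∀ y : Fin 4 → k, aeval y (pderiv 1 F) = y 2 * aeval y (pderiv 1 A) +
      y 3 * aeval y (pderiv 1 B) := by
    intro y; rw [hFe]; simp [pderiv_X]
  have d02 : ∀ y : Fin 4 → k, aeval y (pderiv 0 (pderiv 2 F)) = aeval y (pderiv 0 A) +
      y 2 * aeval y (pderiv 0 (pderiv 2 A)) + y 3 * aeval y (pderiv 0 (pderiv 2 B)) := by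
    intro y; rw [hFe]; simp [pderiv_X]; ring
  have d03 : ∀ y : Fin 4 → k, aeval y (pderiv 0 (pderiv 3 F)) = aeval y (pderiv 0 B) +
      y 2 * aeval y (pderiv 0 (pderiv 3 A)) + y 3 * aeval y (pderiv 0 (pderiv 3 B)) := by
    intro y; rw [hFe]; simp [pderiv_X]; ring
  have d12 : ∀ y : Fin 4 → k, aeval y (pderiv 1 (pderiv 2 F)) = aeval y (pderiv 1 A) +
      y 2 * aeval y (pderiv 1 (pderiv 2 A)) + y 3 * aeval y (pderiv 1 (pderiv 2 B)) := by
    intro y; rw [hFe]; simp [pderiv_X]; ring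
  have d13 : ∀ y : Fin 4 → k, aeval y (pderiv 1 (pderiv 3 F)) = aeval y (pderiv 1 B) +
      y 2 * aeval y (pderiv 1 (pderiv 3 A)) + y 3 * aeval y (pderiv 1 (pderiv 3 B)) := by
    intro y; rw [hFe]; simp [pderiv_X]; ring
  obtain ⟨y, hy0, hy⟩ := MP_1209e6.KrullZero.exists_common_zero (Ω := k) (J := Fin 4)
    (![X 3 - C t * X 2, map (algebraMap ℂ k) (pderiv 0 A) + C t * map (algebraMap ℂ k) (pderiv 0 B),
      map (algebraMap ℂ k) (pderiv 1 A) + C t * map (algebraMap ℂ k) (pderiv 1 B)] :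
      Fin 3 → MvPolynomial (Fin 4) k) (by
      intro i
      fin_cases i
      · simp
      · show aeval (0 : Fin 4 → k) (map (algebraMap ℂ k) (pderiv 0 A) +
          C t * map (algebraMap ℂ k) (pderiv 0 B)) = 0
        rw [map_add, map_mul, aeval_map_algebraMap, aeval_map_algebraMap,
          hom_zero (n := 1) (hA.pderiv (i := 0)), hom_zero (n := 1) (hB.pderiv (i := 0)), mul_zero,
          add_zero]
      · show aeval (0 : Fin 4 → k) (map (algebraMap ℂ k) (pderiv 1 A) +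
          C t * map (algebraMap ℂ k) (pderiv 1 B)) = 0
        rw [map_add, map_mul, aeval_map_algebraMap, aeval_map_algebraMap,
          hom_zero (n := 1) (hA.pderiv (i := 1)), hom_zero (n := 1) (hB.pderiv (i := 1)), mul_zero,
          add_zero]) (by simp)
  have y3 : y 3 = t * y 2 := by
    have := hy 0
    simp at this
    linear_combination this
  have e0 : aeval y (pderiv 0 A) + t * aeval y (pderiv 0 B) = 0 := by
    have h : aeval y (map (algebraMap ℂ k) (pderiv 0 A) +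
          C t * map (algebraMap ℂ k) (pderiv 0 B)) = 0 := hy 1
    rwa [map_add, map_mul, aeval_map_algebraMap, aeval_map_algebraMap, aeval_C,
      Algebra.algebraMap_self, RingHom.id_apply] at h
  have e1 : aeval y (pderiv 1 A) + t * aeval y (pderiv 1 B) = 0 := by
    have h : aeval y (map (algebraMap ℂ k) (pderiv 1 A) +
          C t * map (algebraMap ℂ k) (pderiv 1 B)) = 0 := hy 2
    rwa [map_add, map_mul, aeval_map_algebraMap, aeval_map_algebraMap, aeval_C,
      Algebra.algebraMap_self, RingHom.id_apply] at h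
  have y2 : y 2 ≠ 0 := by
    intro h2
    have h3 : y 3 = 0 := by rw [y3, h2, mul_zero]
    refine gen_on hF hs hon t ht y hy0 h2 h3 ?_ ?_
    · rw [d02, d03, h2, h3]; linear_combination e0
    · rw [d12, d13, h2, h3]; linear_combination e1
  have f0 : aeval y (pderiv 0 F) = 0 := by rw [d0, y3]; linear_combination y 2 * e0
  have f1 : aeval y (pderiv 1 F) = 0 := by rw [d1, y3]; linear_combination y 2 * e1
  exact ⟨y, y2, y3, f0, f1, gen_off hF hs t ht y y2 y3 f0 f1⟩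

theorem endgame {V : Type} [CommRing V] [IsDomain V] [ValuationRing V] [Algebra ℂ V]
    (hlift : ∀ u : V, ∃ c : ℂ, u - algebraMap ℂ V c ∈ maximalIdeal V)
    {F : MvPolynomial (Fin 4) ℂ} (hF : F.IsHomogeneous 4) (hs : Pool.Agent.DS.Smooth F)
    (h1 : OneLine F) (P : Fin 4 → V) (a : Fin 4 → ℂ)
    (hr : ∀ j, P j - algebraMap ℂ V (a j) ∈ maximalIdeal V) (ha : a 0 ≠ 0 ∨ a 1 ≠ 0) (ha2 : a 2 = 0)
    (ha3 : a 3 = 0) (hP2 : P 2 ≠ 0) (f0 : aeval P (pderiv 0 F) = 0) (f1 : aeval P (pderiv 1 F) = 0) :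
    aeval P F ∣ P 2 ^ 4 ∧ aeval P F ∣ P 3 ^ 4 := by
  have h2 : P 2 ∈ maximalIdeal V := by simpa [ha2] using hr 2
  have h3 : P 3 ∈ maximalIdeal V := by simpa [ha3] using hr 3
  obtain ⟨r2, r3, s2, s3, S, w, hrs, hS, hS0, hw, eP2, eP3, hd2, hd3⟩ : ∃ (r2 r3 s2 s3 : ℂ) (S w : V),
      r2 * s3 - r3 * s2 ≠ 0 ∧ S ∈ maximalIdeal V ∧ S ≠ 0 ∧ w ∈ maximalIdeal V ∧
      P 2 = algebraMap ℂ V r2 * S + algebraMap ℂ V s2 * (w * S) ∧
      P 3 = algebraMap ℂ V r3 * S + algebraMap ℂ V s3 * (w * S) ∧ S ∣ P 2 ∧ S ∣ P 3 := by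
    rcases ValuationRing.dvd_total (P 2) (P 3) with ⟨t, ht⟩ | ⟨t, ht⟩
    · obtain ⟨c, hc⟩ := hlift t
      refine ⟨1, c, 0, 1, P 2, t - algebraMap ℂ V c, by simp, h2, hP2, hc, by simp, ?_, dvd_rfl, ⟨t, ht⟩⟩
      rw [ht, map_one]; ring
    · obtain ⟨c, hc⟩ := hlift t
      have hP3 : P 3 ≠ 0 := by
        intro h0
        exact hP2 (by rw [ht, h0, zero_mul])
      refine ⟨c, 1, 1, 0, P 3, t - algebraMap ℂ V c, by simp, h3, hP3, hc, ?_, by simp, ⟨t, ht⟩, dvd_rfl⟩
      rw [ht, map_one]; ring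
  obtain ⟨p0, p1, q0, q1, Y0, Y1, hpq, hY0, hY1, eP0, eP1⟩ : ∃ (p0 p1 q0 q1 : ℂ) (Y0 Y1 : V),
      p0 * q1 - p1 * q0 ≠ 0 ∧ Y0 ∈ maximalIdeal V ∧ IsUnit Y1 ∧
      P 0 = algebraMap ℂ V p0 * Y0 + algebraMap ℂ V q0 * Y1 ∧
      P 1 = algebraMap ℂ V p1 * Y0 + algebraMap ℂ V q1 * Y1 := by
    by_cases ha1 : a 1 = 0
    · have ha0 : a 0 ≠ 0 := by
        rcases ha with h | h
        · exact h
        · exact absurd ha1 h
      have hu0 : IsUnit (P 0) := by
        have := unit_add (unit_c (V := V) ha0) (hr 0)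
        convert this using 1
        ring
      have hi : algebraMap ℂ V (a 0) * algebraMap ℂ V (a 0)⁻¹ = 1 := by
        rw [← map_mul, mul_inv_cancel₀ ha0, map_one]
      refine ⟨0, 1, a 0, 0, P 1, algebraMap ℂ V (a 0)⁻¹ * P 0, by simpa using ha0,
        by simpa [ha1] using hr 1, (unit_c (inv_ne_zero ha0)).mul hu0, ?_, by simp⟩
      rw [map_zero]; linear_combination -(P 0) * hi
    · have hu1 : IsUnit (P 1) := by
        have := unit_add (unit_c (V := V) ha1) (hr 1)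
        convert this using 1
        ring
      have hi : algebraMap ℂ V (a 1) * algebraMap ℂ V (a 1)⁻¹ = 1 := by
        rw [← map_mul, mul_inv_cancel₀ ha1, map_one]
      refine ⟨1, 0, a 0, a 1, P 0 - algebraMap ℂ V (a 0) * (algebraMap ℂ V (a 1)⁻¹ * P 1),
        algebraMap ℂ V (a 1)⁻¹ * P 1, by simpa using ha1, ?_, (unit_c (inv_ne_zero ha1)).mul hu1, ?_, ?_⟩
      · have := Ideal.sub_mem _ (hr 0) (Ideal.mul_mem_left _
          (algebraMap ℂ V (a 0) * algebraMap ℂ V (a 1)⁻¹) (hr 1))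
        convert this using 1
        linear_combination -(algebraMap ℂ V (a 0)) * hi
      · rw [map_one]; ring
      · rw [map_zero]; linear_combination -(P 1) * hi
  have hP : P = mc p0 p1 q0 q1 r2 r3 s2 s3 (![Y0, Y1, S, w * S] : Fin 4 → V) := by
    funext j
    fin_cases j
    · exact eP0
    · exact eP1
    · exact eP2
    · exact eP3
  rw [hP] at f0 f1
  have h := local_any hF hs h1 hpq hrs Y0 Y1 S w hY0 hY1 hS hw hS0 f0 f1
  rw [← hP] at h
  exact ⟨h.trans (pow_dvd_pow_of_dvd hd2 4), h.trans (pow_dvd_pow_of_dvd hd3 4)⟩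

theorem node {F : MvPolynomial (Fin 4) ℂ} (hF : F.IsHomogeneous 4) (hs : Pool.Agent.DS.Smooth F)
    (h1 : OneLine F) : ∃ X : Fin 4 → ℂ, (X 2 ≠ 0 ∨ X 3 ≠ 0) ∧ aeval X F = 0 ∧
      aeval X (pderiv 0 F) = 0 ∧ aeval X (pderiv 1 F) = 0 := by
  classical
  by_contra hcon
  push Not at hcon
  obtain ⟨k, M, _, _, _, _, T, τ, hk, hM, hT, -, -, -⟩ := exists_copies
  obtain ⟨y, y2, y3, f0, f1, hG⟩ := gen_point hF hs h1.on T hT.tr
  obtain ⟨j, hj, hg⟩ : ∃ j : Fin 4, (j = 2 ∨ j = 3) ∧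
      ∀ c : ℂ, y j ^ 4 / aeval y F ≠ algebraMap ℂ k c := by
    by_contra hn
    push Not at hn
    obtain ⟨c1, hc1⟩ := hn 2 (Or.inl rfl)
    obtain ⟨c2, hc2⟩ := hn 3 (Or.inr rfl)
    rw [div_eq_iff hG] at hc1 hc2
    have hc10 : c1 ≠ 0 := by
      rintro rfl
      rw [map_zero, zero_mul] at hc1
      exact pow_ne_zero 4 y2 hc1
    have h4 : T ^ 4 = algebraMap ℂ k (c2 / c1) := by
      have h5 : T ^ 4 * algebraMap ℂ k c1 = algebraMap ℂ k c2 := by
        apply mul_right_cancel₀ hG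
        rw [y3] at hc2
        linear_combination -T ^ 4 * hc1 + hc2
      rw [map_div₀, eq_div_iff ((map_ne_zero _).mpr hc10)]
      exact h5
    apply hT.tr
    refine ⟨Polynomial.X ^ 4 - Polynomial.C (c2 / c1), Polynomial.X_pow_sub_C_ne_zero (by norm_num) _, ?_⟩
    rw [map_sub, map_pow, Polynomial.aeval_X, Polynomial.aeval_C, h4, sub_self]
  obtain ⟨V, hcV, hgV, hres⟩ := exists_val hT _ hg
  obtain ⟨i0, hi0⟩ := Finite.exists_max (fun i => V.valuation (y i))
  have hy0 : y i0 ≠ 0 := by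
    intro h0
    have := hi0 2
    simp only [h0, map_zero] at this
    exact y2 ((map_eq_zero V.valuation).mp (le_antisymm this zero_le))
  have hmem : ∀ i, (y i0)⁻¹ * y i ∈ V := by
    intro i
    rw [← ValuationSubring.valuation_le_one_iff, map_mul, map_inv₀, mul_comm, ← div_eq_mul_inv]
    exact div_le_one_of_le₀ (hi0 i) zero_le
  let φ : ℂ →+* V :=
    { toFun := fun c => ⟨algebraMap ℂ k c, hcV c⟩
      map_one' := Subtype.ext (map_one _)
      map_mul' := fun a b => Subtype.ext (map_mul _ a b)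
      map_zero' := Subtype.ext (map_zero _)
      map_add' := fun a b => Subtype.ext (map_add _ a b) }
  let _ : Algebra ℂ V := φ.toAlgebra
  have : IsScalarTower ℂ V k := IsScalarTower.of_algebraMap_eq (fun c => rfl)
  have hinj : Function.Injective (algebraMap V k) := Subtype.val_injective
  set P : Fin 4 → V := fun i => ⟨(y i0)⁻¹ * y i, hmem i⟩ with hP
  have hcoe : ∀ {d : ℕ} (G : MvPolynomial (Fin 4) ℂ), G.IsHomogeneous d →
      algebraMap V k (aeval P G) = (y i0)⁻¹ ^ d * aeval y G := by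
    intro d G hGd
    rw [← sc hGd, ← MvPolynomial.aeval_algebraMap_apply]
    rfl
  have hP0 : aeval P (pderiv 0 F) = 0 := by
    apply hinj
    rw [hcoe _ (hF.pderiv (i := 0)), f0, mul_zero, map_zero]
  have hP1 : aeval P (pderiv 1 F) = 0 := by
    apply hinj
    rw [hcoe _ (hF.pderiv (i := 1)), f1, mul_zero, map_zero]
  have hPF := hcoe F hF
  have hnd : ¬ (aeval P F ∣ P j ^ 4) := by
    rintro ⟨z, hz⟩
    apply hgV
    have h5 := congrArg (algebraMap V k) hz
    rw [map_mul, hPF, map_pow] at h5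
    have h6 : algebraMap V k (P j) = (y i0)⁻¹ * y j := rfl
    rw [h6, mul_pow, mul_assoc] at h5
    have h7 := mul_left_cancel₀ (pow_ne_zero 4 (inv_ne_zero hy0)) h5
    have h8 : y j ^ 4 / aeval y F = algebraMap V k z := by
      rw [div_eq_iff hG, h7]; ring
    rw [h8]
    exact z.2
  have hlift : ∀ u : V, ∃ c : ℂ, u - algebraMap ℂ V c ∈ maximalIdeal V := by
    intro u
    obtain ⟨c, hc⟩ := hres u.1 u.2
    exact ⟨c, (V.valuation_lt_one_iff _).mpr hc⟩
  choose a ha using fun i => hlift (P i)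
  have hcm : ∀ c : ℂ, algebraMap ℂ V c ∈ maximalIdeal V → c = 0 := by
    intro c hc
    by_contra hc0
    exact (mem_maximalIdeal _).mp hc (unit_c hc0)
  have ev : ∀ G : MvPolynomial (Fin 4) ℂ, aeval P G ∈ maximalIdeal V → aeval a G = 0 := by
    intro G hG'
    apply hcm
    have := Ideal.sub_mem _ hG' (res_mem G P a ha)
    simpa using this
  have hFm : aeval P F ∈ maximalIdeal V := by
    rw [mem_maximalIdeal]
    intro hu
    exact hnd hu.dvd
  have h0 := ev F hFm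
  have h2 := ev (pderiv 0 F) (by rw [hP0]; exact Ideal.zero_mem _)
  have h3 := ev (pderiv 1 F) (by rw [hP1]; exact Ideal.zero_mem _)
  have ha23 : a 2 = 0 ∧ a 3 = 0 := by
    by_contra hn
    exact hcon a (by
      by_contra hn2
      push Not at hn2
      exact hn hn2) h0 h2 h3
  have hi0' : a i0 ≠ 0 := by
    intro h
    have h5 := ha i0
    have h6 : P i0 = 1 := Subtype.ext (inv_mul_cancel₀ hy0)
    rw [h6, h, map_zero, sub_zero] at h5
    exact (mem_maximalIdeal _).mp h5 isUnit_one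
  have ha01 : a 0 ≠ 0 ∨ a 1 ≠ 0 := by
    by_contra hn
    push Not at hn
    apply hi0'
    fin_cases i0
    · exact hn.1
    · exact hn.2
    · exact ha23.1
    · exact ha23.2
  have hP2 : P 2 ≠ 0 := by
    intro h
    have h5 : (y i0)⁻¹ * y 2 = 0 := congrArg Subtype.val h
    exact mul_ne_zero (inv_ne_zero hy0) y2 h5
  have hend := endgame hlift hF hs h1 P a ha ha01 ha23.1 ha23.2 hP2 hP0 hP1
  rcases hj with rfl | rfl
  · exact hnd hend.1
  · exact hnd hend.2

end Pool.Agent.QX.N96
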