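import Pool.Agent.Lib_MP_1209e6_qx.Defs

import Pool.Agent.Lib_MP_1209e6_ds.Coef

/-! The plane of a member of the family does not contain the line (helper65). -/

set_option autoImplicit false

open MvPolynomial

noncomputable section

namespace Pool.Agent.QX

variable {k : Type} [Field k] [Algebra ℂ k]

theorem nk_eval (F : MvPolynomial (Fin 4) ℂ) (e : Fin 3 → Fin 4 → k) (v : Fin 3 → k) :
    eval v (sec F e) = aeval (fun j => ∑ i, e i j * v i) F := by
  have h := MvPolynomial.comp_aeval_apply (R := ℂ) (fun j => ∑ i, C (e i j) * X i)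
    ((MvPolynomial.aeval v : MvPolynomial (Fin 3) k →ₐ[k] k).restrictScalars ℂ) F
  have h2 : ∀ p : MvPolynomial (Fin 3) k,
      ((MvPolynomial.aeval v : MvPolynomial (Fin 3) k →ₐ[k] k).restrictScalars ℂ) p = eval v p := by
    intro p
    rw [AlgHom.restrictScalars_apply, MvPolynomial.aeval_eq_eval]
  rw [h2] at h
  rw [sec, h]
  simp only [h2, map_sum, map_mul, eval_C, eval_X]

/-- the derivative of the section -/
theorem nk_pderiv_sec (F : MvPolynomial (Fin 4) ℂ) (e : Fin 3 → Fin 4 → k) (i : Fin 3) :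
    pderiv i (sec F e) = ∑ j, C (e i j) * sec (pderiv j F) e := by
  classical
  have h := Pool.Agent.DS.chain ((pderiv i : Derivation k (MvPolynomial (Fin 3) k)
    (MvPolynomial (Fin 3) k)).restrictScalars ℂ) (fun j => ∑ i, C (e i j) * X i) F
  have h2 : ∀ p : MvPolynomial (Fin 3) k, ((pderiv i : Derivation k (MvPolynomial (Fin 3) k)
    (MvPolynomial (Fin 3) k)).restrictScalars ℂ) p = pderiv i p := fun p => rfl
  rw [h2] at h
  rw [sec, h]
  apply Finset.sum_congr rfl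
  intro j _
  rw [h2]
  congr 1
  rw [map_sum, Finset.sum_eq_single i]
  · rw [pderiv_mul, pderiv_C, pderiv_X_self]
    simp
  · intro l _ hl
    rw [pderiv_mul, pderiv_C, pderiv_X_of_ne hl]
    simp
  · intro hi
    exact absurd (Finset.mem_univ i) hi

/-- the second derivatives of the section -/
theorem nk_hess (F : MvPolynomial (Fin 4) ℂ) (e : Fin 3 → Fin 4 → k) (v : Fin 3 → k) (i l : Fin 3) :
    eval v (pderiv i (pderiv l (sec F e))) =
      ∑ j, e l j * ∑ m, e i m * aeval (fun j => ∑ i, e i j * v i) (pderiv m (pderiv j F)) := by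
  rw [nk_pderiv_sec, map_sum, map_sum]
  refine Finset.sum_congr rfl fun j _ => ?_
  rw [pderiv_C_mul, map_mul, eval_C, nk_pderiv_sec, map_sum]
  congr 1
  refine Finset.sum_congr rfl fun m _ => ?_
  rw [map_mul, eval_C, nk_eval]

omit [Algebra ℂ k] in
theorem nk_rhs (D₁ D₂ : Derivation k (MvPolynomial (Fin 3) k) (MvPolynomial (Fin 3) k)) (v : Fin 3 → k)
    (Q L A : MvPolynomial (Fin 3) k) (g : k) (hQ : eval v Q = 0) (hQ1 : eval v (D₁ Q) = 0)
    (hQ2 : eval v (D₂ Q) = 0) (hv : v 2 = 0) :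
    eval v (D₁ (D₂ (C g * Q ^ 2 + X 2 * L * Q + X 2 ^ 2 * A))) =
      2 * eval v (D₁ (X 2)) * eval v (D₂ (X 2)) * eval v A := by
  simp only [map_add, Derivation.leibniz, Derivation.leibniz_pow, smul_eq_mul, map_mul,
    nsmul_eq_mul, map_pow, eval_X, hQ, hQ1, hQ2, hv]
  simp [hQ, hQ1, hQ2, hv]
  ring

omit [Algebra ℂ k] in
theorem nk_X2 (v : Fin 3 → k) (i : Fin 3) :
    eval v (pderiv i (X 2 : MvPolynomial (Fin 3) k)) = if i = 2 then 1 else 0 := by
  classical
  by_cases h : i = 2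
  · rw [if_pos h, h, pderiv_X_self, map_one]
  · rw [if_neg h, pderiv_X_of_ne (Ne.symm h), map_zero]

omit [Algebra ℂ k] in
theorem nk_quad (c : Fin 3 → k) (r : k) (h0 : c 0 = r ^ 2) (h1 : c 1 = - 2 * r) (h2 : c 2 = 1) (i : Fin 3) :
    eval ![1, r, 0] (pderiv i (quad c)) = 0 := by
  unfold quad
  fin_cases i <;>
    simp [pderiv_mul, pderiv_pow, pderiv_X_of_ne, h0, h1, h2] <;> ring

/-- the parametrisation of the line `X₂ = X₃ = 0` -/
def nkf : Fin 4 → MvPolynomial (Fin 2) ℂ := ![X 0, X 1, 0, 0]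

theorem nk_step {G : MvPolynomial (Fin 4) ℂ} (h : aeval nkf G = 0) (i : Fin 4) (hi : i = 0 ∨ i = 1) :
    aeval nkf (pderiv i G) = 0 := by
  rcases hi with rfl | rfl
  · have h1 := Pool.Agent.DS.chain (pderiv (0 : Fin 2) : Derivation ℂ (MvPolynomial (Fin 2) ℂ)
      (MvPolynomial (Fin 2) ℂ)) nkf G
    rw [h, map_zero, Fin.sum_univ_four] at h1
    have e0 : pderiv (0 : Fin 2) (nkf 0) = 1 := pderiv_X_self 0
    have e1 : pderiv (0 : Fin 2) (nkf 1) = 0 := pderiv_X_of_ne (by decide)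
    have e2 : pderiv (0 : Fin 2) (nkf 2) = 0 := map_zero _
    have e3 : pderiv (0 : Fin 2) (nkf 3) = 0 := map_zero _
    rw [e0, e1, e2, e3] at h1
    linear_combination -h1
  · have h1 := Pool.Agent.DS.chain (pderiv (1 : Fin 2) : Derivation ℂ (MvPolynomial (Fin 2) ℂ)
      (MvPolynomial (Fin 2) ℂ)) nkf G
    rw [h, map_zero, Fin.sum_univ_four] at h1
    have e0 : pderiv (1 : Fin 2) (nkf 0) = 0 := pderiv_X_of_ne (by decide)
    have e1 : pderiv (1 : Fin 2) (nkf 1) = 1 := pderiv_X_self 1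
    have e2 : pderiv (1 : Fin 2) (nkf 2) = 0 := map_zero _
    have e3 : pderiv (1 : Fin 2) (nkf 3) = 0 := map_zero _
    rw [e0, e1, e2, e3] at h1
    linear_combination -h1

theorem nk_comp (G : MvPolynomial (Fin 4) ℂ) {R : Type} [CommRing R] [Algebra ℂ R] (P : Fin 4 → R)
    (h2 : P 2 = 0) (h3 : P 3 = 0) : aeval P G = aeval ![P 0, P 1] (aeval nkf G) := by
  rw [MvPolynomial.comp_aeval_apply]
  congr 1
  congr 1
  funext j
  fin_cases j
  · simp [nkf]
  · simp [nkf]
  · simp [nkf, h2]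
  · simp [nkf, h3]

/-- second derivatives vanish along the line -/
theorem nk_line {F : MvPolynomial (Fin 4) ℂ} (hon : ∀ a : Fin 4 → ℂ, a 2 = 0 → a 3 = 0 → aeval a F = 0)
    (P : Fin 4 → k) (h2 : P 2 = 0) (h3 : P 3 = 0) (i j : Fin 4) (hi : i = 0 ∨ i = 1) (hj : j = 0 ∨ j = 1) :
    aeval P (pderiv i (pderiv j F)) = 0 := by
  have h0 : aeval nkf F = 0 := by
    apply MvPolynomial.funext
    intro x
    have h4 := nk_comp F (R := ℂ) ![x 0, x 1, 0, 0] rfl rfl
    rw [hon _ rfl rfl] at h4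
    rw [map_zero, ← MvPolynomial.aeval_eq_eval, h4]
    congr 1
    congr 1
    funext j
    fin_cases j <;> rfl
  rw [nk_comp _ P h2 h3, nk_step (nk_step h0 j hj) i hi, map_zero]

end Pool.Agent.QX
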