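import Pool.Agent.Lib_MP_1209e6_ql.Defs

/-! QX-D, node off the line: places of the closure of `ℂ(T)` (helper23). -/

set_option autoImplicit false

open MvPolynomial

noncomputable section

namespace Pool.Agent.QX

variable {k : Type} [Field k] [Algebra ℂ k]

/-- an element which is algebraic over `ℂ` is complex -/
theorem sf_const {a : k} (h : IsAlgebraic ℂ a) : ∃ c : ℂ, a = algebraMap ℂ k c := by
  obtain ⟨c, hc⟩ := minpoly.mem_range_of_degree_eq_one ℂ a
    (IsAlgClosed.degree_eq_one_of_irreducible ℂ (minpoly.irreducible h.isIntegral))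
  exact ⟨c, hc.symm⟩

/-- elements of all valuation rings over `ℂ` are complex -/
theorem sf_all {a : k} (h : ∀ O : ValuationSubring k, (∀ c : ℂ, algebraMap ℂ k c ∈ O) → a ∈ O) :
    ∃ c : ℂ, a = algebraMap ℂ k c := by
  apply sf_const
  have h1 : a ∈ (⨅ V : {V : ValuationSubring k // (Set.range (algebraMap ℂ k)) ⊆ V.toSubring},
      V.1.toSubring) := by
    rw [Subring.mem_iInf]
    rintro ⟨V, hV⟩
    exact h V fun c => hV ⟨c, rfl⟩
  rw [iInf_valuationSubring_superset] at h1
  have h2 : IsIntegral (Subring.closure (Set.range (algebraMap ℂ k))) a := h1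
  obtain ⟨p, hp, hpa⟩ := h2
  have h3 : (Subring.closure (Set.range (algebraMap ℂ k))) = (algebraMap ℂ k).range := by
    rw [← RingHom.coe_range, Subring.closure_eq]
  have h4 : ∀ b : (Subring.closure (Set.range (algebraMap ℂ k))), ∃ c : ℂ, algebraMap ℂ k c = b := by
    rintro ⟨b, hb⟩
    rw [h3] at hb
    exact hb
  have h5 : IsIntegral ℂ a := by
    have h6 : IsIntegral (algebraMap ℂ k).range a := by
      rw [← h3]
      exact ⟨p, hp, hpa⟩
    obtain ⟨q, hq, hqa⟩ := h6
    have hsurj : Function.Surjective (algebraMap ℂ k).rangeRestrict := (algebraMap ℂ k).rangeRestrict_surjective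
    obtain ⟨r, hr, hdeg, hrm⟩ := Polynomial.lifts_and_natDegree_eq_and_monic
      (f := (algebraMap ℂ k).rangeRestrict) (p := q)
      ((Polynomial.mem_lifts _).2 (Polynomial.map_surjective _ hsurj q)) hq
    refine ⟨r, hrm, ?_⟩
    rw [← hqa, ← hr, Polynomial.eval₂_map]
    rfl
  exact h5.isAlgebraic

/-- `k` is algebraic over `ℂ(b)` for every `b` which is not complex -/
theorem sf_alg {T : k} (hT : Base T) {b : k} (hb : Transcendental ℂ b) :
    Algebra.IsAlgebraic (IntermediateField.adjoin ℂ (Set.range fun _ : Fin 1 => b)) k := by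
  have hx : AlgebraicIndependent ℂ (fun _ : Fin 1 => T) := (algebraicIndependent_unique_type_iff).2 hT.tr
  have hy : AlgebraicIndependent ℂ (fun _ : Fin 1 => b) := (algebraicIndependent_unique_type_iff).2 hb
  have hr : Set.range (fun _ : Fin 1 => T) = {T} := Set.range_const
  have h1 : IsTranscendenceBasis ℂ (fun _ : Fin 1 => T) := hx.isTranscendenceBasis_iff_isAlgebraic.2
    ⟨fun a => IntermediateField.isAlgebraic_adjoin_iff.1 (by rw [hr]; exact hT.alg a)⟩
  have h2 : IsTranscendenceBasis ℂ fun _ : Fin 1 => b :=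
    hy.isTranscendenceBasis_of_trdeg_le_of_finite h1.cardinalMk_eq_trdeg.ge
  exact h2.isAlgebraic_field

/-- the residue field is `ℂ` -/
theorem sf_res {T : k} (hT : Base T) (O : ValuationSubring k) (hC : ∀ c : ℂ, algebraMap ℂ k c ∈ O)
    (hne : ∃ a, a ∉ O) (b : k) (hb : b ∈ O) : ∃ c : ℂ, O.valuation (b - algebraMap ℂ k c) < 1 := by
  by_contra hcon
  push Not at hcon
  obtain ⟨a, ha⟩ := hne
  have h1 : ∀ c : ℂ, O.valuation (b - algebraMap ℂ k c) = 1 := fun c =>
    le_antisymm ((O.valuation_le_one_iff _).2 (sub_mem hb (hC c))) (hcon c)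
  have htr : Transcendental ℂ b := by
    intro h
    obtain ⟨c, hc⟩ := sf_const h
    have h2 := h1 c
    rw [hc, sub_self, map_zero] at h2
    exact zero_ne_one h2
  -- polynomials in `b`
  have hpol : ∀ p : Polynomial ℂ, p ≠ 0 → O.valuation (Polynomial.aeval b p) = 1 := by
    intro p hp
    have hc : ∀ c : ℂ, c ≠ 0 → O.valuation (algebraMap ℂ k c) = 1 := by
      intro c hc0
      refine le_antisymm ((O.valuation_le_one_iff _).2 (hC c)) ?_
      have h3 := (O.valuation_le_one_iff _).2 (hC c⁻¹)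
      rw [map_inv₀, map_inv₀] at h3
      have h4 : O.valuation (algebraMap ℂ k c) ≠ 0 := by
        rw [Ne, map_eq_zero, map_eq_zero]
        exact hc0
      exact (inv_le_one₀ (zero_lt_iff.2 h4)).1 h3
    have hs := IsAlgClosed.splits p
    rw [hs.eq_prod_roots, map_mul, Polynomial.aeval_C, map_mul, hc _ (Polynomial.leadingCoeff_ne_zero.2 hp),
      one_mul]
    generalize p.roots = m
    induction m using Multiset.induction_on with
    | empty => simp
    | cons r m ih =>
      rw [Multiset.map_cons, Multiset.prod_cons, map_mul, map_mul, ih, mul_one, map_sub,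
        Polynomial.aeval_X, Polynomial.aeval_C, h1]
  have hsub : ∀ z ∈ IntermediateField.adjoin ℂ (Set.range fun _ : Fin 1 => b), z ∈ O := by
    intro z hz
    rw [Set.range_const, IntermediateField.mem_adjoin_simple_iff] at hz
    obtain ⟨r, s, rfl⟩ := hz
    rw [← O.valuation_le_one_iff, map_div₀]
    by_cases hs : s = 0
    · rw [hs, map_zero, map_zero, div_zero]
      exact zero_le_one
    · rw [hpol s hs, div_one]
      by_cases hr : r = 0
      · rw [hr, map_zero, map_zero]
        exact zero_le_one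
      · rw [hpol r hr]
  apply ha
  have h2 := (sf_alg hT htr).isAlgebraic a
  have h3 : IsIntegral (IntermediateField.adjoin ℂ (Set.range fun _ : Fin 1 => b)) a := h2.isIntegral
  obtain ⟨p, hp, hpa⟩ := h3
  have h4 : IsIntegral O a := by
    let j : IntermediateField.adjoin ℂ (Set.range fun _ : Fin 1 => b) →+* O :=
      { toFun := fun z => ⟨z, hsub z z.2⟩
        map_one' := rfl
        map_mul' := fun _ _ => rfl
        map_zero' := rfl
        map_add' := fun _ _ => rfl }
    refine ⟨p.map j, hp.map j, ?_⟩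
    rw [Polynomial.eval₂_map]
    exact hpa
  obtain ⟨y, hy⟩ := IsIntegrallyClosed.isIntegral_iff.1 h4
  rw [← hy]
  exact y.2

theorem exists_place1' {k : Type} [Field k] [Algebra ℂ k] (T : k) (hT : Base T) (a : k) (ha : a ≠ 0) :
    ∃ O : ValuationSubring k, (∀ c : ℂ, algebraMap ℂ k c ∈ O) ∧
      (∀ b ∈ O, ∃ c : ℂ, O.valuation (b - algebraMap ℂ k c) < 1) ∧ (a⁻¹ ∉ O ∨ T * a⁻¹ ∉ O) := by
  by_contra hcon
  have h1 : ∀ O : ValuationSubring k, (∀ c : ℂ, algebraMap ℂ k c ∈ O) → a⁻¹ ∈ O ∧ T * a⁻¹ ∈ O := by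
    intro O hC
    by_contra h
    rw [not_and_or] at h
    exact hcon ⟨O, hC, sf_res hT O hC (h.elim (fun h => ⟨_, h⟩) fun h => ⟨_, h⟩), h⟩
  obtain ⟨c1, hc1⟩ := sf_all fun O hC => (h1 O hC).1
  obtain ⟨c2, hc2⟩ := sf_all fun O hC => (h1 O hC).2
  apply hT.tr
  have h2 : T = algebraMap ℂ k (c2 / c1) := by
    rw [map_div₀, ← hc1, ← hc2]
    field_simp
  rw [h2]
  exact isAlgebraic_algebraMap _

end Pool.Agent.QX
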