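import Mathlib

/-! PIECE PRIM (helper47): a primitive representative of a point at a place. -/

set_option autoImplicit false

open MvPolynomial

noncomputable section

namespace Pool.Agent.QX

theorem x47_scale {k : Type} [Field k] [Algebra ℂ k] {n d : ℕ} {F : MvPolynomial (Fin n) ℂ}
    (hF : F.IsHomogeneous d) (s : k) (p : Fin n → k) :
    aeval (fun i => s * p i) F = s ^ d * aeval p F := by
  rw [aeval_def, eval₂_eq', aeval_def, eval₂_eq', Finset.mul_sum]
  refine Finset.sum_congr rfl fun t ht => ?_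
  have h2 : ∑ i, t i = d := by
    have h3 := hF (mem_support_iff.1 ht)
    rw [Finsupp.weight_apply, Finsupp.sum_fintype _ _ (by simp)] at h3
    simpa using h3
  rw [← h2, ← Finset.prod_pow_eq_pow_sum]
  simp only [mul_pow, Finset.prod_mul_distrib]
  ring

/-- `exists_prim` of `Places.lean` (without the hypothesis `hC`, which is not needed) -/
theorem x47_exists_prim {k : Type} [Field k] [Algebra ℂ k] (O : ValuationSubring k)
    {F : MvPolynomial (Fin 4) ℂ} (hF : F.IsHomogeneous 4) (P : Fin 4 → k)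
    (hP2 : P 2 = 1) (h0 : aeval P F ≠ 0) (hv : (aeval P F)⁻¹ ∉ O ∨ P 3 * (aeval P F)⁻¹ ∉ O) :
    ∃ (Q : Fin 4 → k) (d u : k), d ≠ 0 ∧ (∀ j, Q j = d * P j) ∧ (∀ j, O.valuation (Q j) ≤ 1) ∧ (∃ j, Q j = 1) ∧
      u ≠ 0 ∧ (u = Q 2 ∨ u = Q 3) ∧ O.valuation (Q 2) ≤ O.valuation u ∧ O.valuation (Q 3) ≤ O.valuation u ∧
      O.valuation (aeval Q F) < O.valuation u ^ 4 := by
  obtain ⟨j, hj⟩ : ∃ j, ∀ i, O.valuation (P i) ≤ O.valuation (P j) := by
    obtain ⟨j, -, hj⟩ := Finset.exists_max_image (Finset.univ : Finset (Fin 4))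
      (fun i => O.valuation (P i)) Finset.univ_nonempty
    exact ⟨j, fun i => hj i (Finset.mem_univ i)⟩
  obtain ⟨l, hl, hl2, hl3⟩ : ∃ l : Fin 4, (l = 2 ∨ l = 3) ∧ O.valuation (P 2) ≤ O.valuation (P l) ∧
      O.valuation (P 3) ≤ O.valuation (P l) := by
    rcases le_total (O.valuation (P 2)) (O.valuation (P 3)) with h | h
    · exact ⟨3, Or.inr rfl, h, le_rfl⟩
    · exact ⟨2, Or.inl rfl, le_rfl, h⟩
  have hl1 : 1 ≤ O.valuation (P l) := by
    rw [hP2, map_one] at hl2
    exact hl2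
  have hPj : P j ≠ 0 := by
    intro h
    have h1 := hj 2
    rw [hP2, h, map_one, map_zero] at h1
    exact absurd h1 (not_le.2 zero_lt_one)
  have hPl : P l ≠ 0 := by
    intro h
    rw [h, map_zero] at hl1
    exact absurd hl1 (not_le.2 zero_lt_one)
  have hvj : O.valuation (P j) ≠ 0 := (Valuation.ne_zero_iff _).2 hPj
  have hvF : O.valuation (aeval P F) ≠ 0 := (Valuation.ne_zero_iff _).2 h0
  have key : O.valuation (aeval P F) < O.valuation (P l) ^ 4 := by
    rcases hv with h | h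
    · rw [← ValuationSubring.valuation_le_one_iff, not_le, map_inv₀, one_lt_inv₀ (zero_lt_iff.2 hvF)] at h
      exact h.trans_le (one_le_pow₀ hl1)
    · rw [← ValuationSubring.valuation_le_one_iff, not_le, map_mul, map_inv₀, ← div_eq_mul_inv,
        one_lt_div₀ (zero_lt_iff.2 hvF)] at h
      exact (h.trans_le hl3).trans_le (le_self_pow₀ hl1 (by norm_num))
  have hinv : (P j)⁻¹ ≠ 0 := inv_ne_zero hPj
  refine ⟨fun i => (P j)⁻¹ * P i, (P j)⁻¹, (P j)⁻¹ * P l, hinv, fun i => rfl, fun i => ?_,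
    ⟨j, inv_mul_cancel₀ hPj⟩, mul_ne_zero hinv hPl, ?_, ?_, ?_, ?_⟩
  · show O.valuation ((P j)⁻¹ * P i) ≤ 1
    rw [map_mul, map_inv₀, mul_comm, ← div_eq_mul_inv]
    exact div_le_one_of_le₀ (hj i) zero_le
  · rcases hl with rfl | rfl
    · exact Or.inl rfl
    · exact Or.inr rfl
  · show O.valuation ((P j)⁻¹ * P 2) ≤ O.valuation ((P j)⁻¹ * P l)
    rw [map_mul, map_mul]
    exact mul_le_mul_right hl2 _
  · show O.valuation ((P j)⁻¹ * P 3) ≤ O.valuation ((P j)⁻¹ * P l)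
    rw [map_mul, map_mul]
    exact mul_le_mul_right hl3 _
  · rw [x47_scale hF, map_mul, map_mul, map_pow, mul_pow]
    have h1 : (0 : O.ValueGroup) < O.valuation (P j)⁻¹ ^ 4 :=
      zero_lt_iff.2 (pow_ne_zero _ ((Valuation.ne_zero_iff _).2 hinv))
    exact mul_lt_mul_of_pos_left key h1

end Pool.Agent.QX
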