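import Pool.Agent.Lib_MP_1209e6_ql.Defs
import Pool.Agent.Lib_MP_1209e6_ql.SfP23
import Pool.Agent.Lib_MP_1209e6_ql.X47

/-! PIECE PLACES (helper23, helper47): a place of a field of transcendence degree one. -/

set_option autoImplicit false

open MvPolynomial

noncomputable section

namespace Pool.Agent.QX

/-- If `a⁻¹` and `T a⁻¹` are in all valuation rings which contain `ℂ` then they are integral over `ℂ`, so complex, and
`T` is complex. So one of them is not in some `O`. If `b ∈ O` and `b - c` is a unit for all `c ∈ ℂ` then `b` is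
transcendental, `ℂ(b) ⊆ O`, and everything is algebraic over `ℂ(b)`, so in `O` (integrally closed). -/
theorem exists_place1 {k : Type} [Field k] [Algebra ℂ k] (T : k) (hT : Base T) (a : k) (ha : a ≠ 0) :
    ∃ O : ValuationSubring k, (∀ c : ℂ, algebraMap ℂ k c ∈ O) ∧
      (∀ b ∈ O, ∃ c : ℂ, O.valuation (b - algebraMap ℂ k c) < 1) ∧ (a⁻¹ ∉ O ∨ T * a⁻¹ ∉ O) :=
  exists_place1' T hT a ha

/-- `Q = P / P_j`, `P_j` of maximal value, `u` the larger of `Q 2`, `Q 3`. If `v T ≤ 1` then `v (F (P)) < 1`, if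
`v T > 1` then `v (F (P)) < v T` or `< 1`, in both cases `v (F (P)) < max (1, v T) ^ 4`. -/
theorem exists_prim {k : Type} [Field k] [Algebra ℂ k] (O : ValuationSubring k)
    (hC : ∀ c : ℂ, algebraMap ℂ k c ∈ O) {F : MvPolynomial (Fin 4) ℂ} (hF : F.IsHomogeneous 4) (P : Fin 4 → k)
    (hP2 : P 2 = 1) (h0 : aeval P F ≠ 0) (hv : (aeval P F)⁻¹ ∉ O ∨ P 3 * (aeval P F)⁻¹ ∉ O) :
    ∃ (Q : Fin 4 → k) (d u : k), d ≠ 0 ∧ (∀ j, Q j = d * P j) ∧ (∀ j, O.valuation (Q j) ≤ 1) ∧ (∃ j, Q j = 1) ∧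
      u ≠ 0 ∧ (u = Q 2 ∨ u = Q 3) ∧ O.valuation (Q 2) ≤ O.valuation u ∧ O.valuation (Q 3) ≤ O.valuation u ∧
      O.valuation (aeval Q F) < O.valuation u ^ 4 := by
  exact x47_exists_prim O hF P hP2 h0 hv

end Pool.Agent.QX
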