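import Pool.Agent.Lib_MP_1209e6_ql.GenSmooth
import Pool.Agent.Lib_MP_1209e6_ds.Krull20
import Pool.Agent.Lib_MP_1209e6_ds.Family
import Pool.Agent.Lib_MP_1209e6_qx.Tac

/-! PIECE POLAR (helper84, helper59): the polar curve. -/

set_option autoImplicit false

open MvPolynomial

noncomputable section

namespace Pool.Agent.QX

/-- a polynomial which vanishes on `X₂ = 0` is divisible by `X₂` -/
theorem polar_dvd {k : Type} [Field k] [Infinite k] (h : MvPolynomial (Fin 3) k)
    (h0 : ∀ x : Fin 3 → k, x 2 = 0 → aeval x h = 0) : X 2 ∣ h := by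
  classical
  let ψ : MvPolynomial (Fin 3) k →ₐ[k] MvPolynomial (Fin 3) k := aeval fun i => if i = 2 then 0 else X i
  have h1 : ∀ p : MvPolynomial (Fin 3) k, X 2 ∣ p - ψ p := by
    intro p
    induction p using MvPolynomial.induction_on with
    | C a =>
      have : ψ (C a) = C a := by
        show aeval _ (C a) = C a
        rw [aeval_C]
        rfl
      rw [this, sub_self]
      exact dvd_zero _
    | add p q hp hq =>
      rw [map_add]
      have : p + q - (ψ p + ψ q) = (p - ψ p) + (q - ψ q) := by ring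
      rw [this]
      exact dvd_add hp hq
    | mul_X p i hp =>
      rw [map_mul]
      have hi : ψ (X i) = if i = 2 then 0 else X i := aeval_X _ i
      rw [hi]
      split_ifs with h2
      · rw [h2, mul_zero, sub_zero]
        exact Dvd.intro_left _ rfl
      · rw [← sub_mul]
        exact Dvd.dvd.mul_right hp _
  have h2 : ψ h = 0 := by
    apply MvPolynomial.funext
    intro x
    rw [map_zero]
    have h3 := MvPolynomial.comp_aeval_apply (R := k) (fun i : Fin 3 => if i = 2 then (0 : MvPolynomial (Fin 3) k)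
      else X i) (aeval x : MvPolynomial (Fin 3) k →ₐ[k] k) h
    have h4 : (aeval x : MvPolynomial (Fin 3) k →ₐ[k] k) (ψ h) = eval x (ψ h) := by
      rw [MvPolynomial.aeval_eq_eval]
    rw [← h4]
    show (aeval x : MvPolynomial (Fin 3) k →ₐ[k] k) (aeval _ h) = 0
    rw [h3]
    exact h0 _ (by simp)
  have h3 := h1 h
  rw [h2, sub_zero] at h3
  exact h3

/-- `F₀ (X₀, X₁, X₂, T X₂) = X₂ q₀`, `F₁ (X₀, X₁, X₂, T X₂) = X₂ q₁`, two quadratic forms in three variables over `k` have a
common zero `w ≠ 0` (`Pool.Agent.DS.exists_common_zero`). `w 2 ≠ 0`: on `X₂ = 0` the form `q_i` is `∂_i ∂₂ F + T ∂_i ∂₃ F`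
(`gen_on`). Divide by `w 2`. -/
theorem exists_polar {F : MvPolynomial (Fin 4) ℂ} (hF : F.IsHomogeneous 4) (hs : Pool.Agent.DS.Smooth F)
    (hon : ∀ a : Fin 4 → ℂ, a 2 = 0 → a 3 = 0 → aeval a F = 0) {k : Type} [Field k] [Algebra ℂ k] [IsAlgClosed k]
    (T : k) (hT : Transcendental ℂ T) :
    ∃ P : Fin 4 → k, P 2 = 1 ∧ P 3 = T ∧ aeval P (pderiv 0 F) = 0 ∧ aeval P (pderiv 1 F) = 0 := by
  classical
  haveI : CharZero k := charZero_of_injective_algebraMap (algebraMap ℂ k).injective
  haveI : Infinite k := inferInstance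
  let p : Fin 4 → MvPolynomial (Fin 3) k := ![X 0, X 1, X 2, C T * X 2]
  have hpe : ∀ (x : Fin 3 → k) (G : MvPolynomial (Fin 4) ℂ),
      aeval x (aeval p G) = aeval (![x 0, x 1, x 2, T * x 2] : Fin 4 → k) G := by
    intro x G
    have h1 := MvPolynomial.comp_aeval_apply (R := ℂ) p
      ((aeval x : MvPolynomial (Fin 3) k →ₐ[k] k).restrictScalars ℂ) G
    have h2 : (aeval x : MvPolynomial (Fin 3) k →ₐ[k] k) (aeval p G) =
        ((aeval x : MvPolynomial (Fin 3) k →ₐ[k] k).restrictScalars ℂ) (aeval p G) := rfl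
    rw [h2, h1]
    congr 2
    funext j
    fin_cases j
    · exact aeval_X _ _
    · exact aeval_X _ _
    · exact aeval_X _ _
    · show aeval x (C T * X 2) = T * x 2
      rw [map_mul, aeval_C, aeval_X]
      rfl
  -- the forms
  have hdiv : ∀ i : Fin 2, X 2 ∣ aeval p (pderiv (Fin.castLE (by decide) i : Fin 4) F) := by
    intro i
    refine polar_dvd _ fun x hx => ?_
    rw [hpe]
    exact gs_line hon _ hx (by show T * x 2 = 0; rw [hx, mul_zero]) i
  choose q hq using hdiv
  have hhom : ∀ i : Fin 2, (aeval p (pderiv (Fin.castLE (by decide) i : Fin 4) F) :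
      MvPolynomial (Fin 3) k).IsHomogeneous 3 := by
    intro i
    have h1 := (show (pderiv (Fin.castLE (by decide) i : Fin 4) F).IsHomogeneous 3 from
      hF.pderiv).eval₂ (n := 1) (algebraMap ℂ (MvPolynomial (Fin 3) k)) p (fun r => isHomogeneous_C _ _)
      (fun j => by
        fin_cases j
        · exact isHomogeneous_X _ _
        · exact isHomogeneous_X _ _
        · exact isHomogeneous_X _ _
        · show (C T * X 2 : MvPolynomial (Fin 3) k).IsHomogeneous 1
          simpa using (isHomogeneous_C (Fin 3) T).mul (isHomogeneous_X k (2 : Fin 3)))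
    rw [one_mul] at h1
    exact h1
  have hq0 : ∀ i : Fin 2, aeval (0 : Fin 3 → k) (q i) = 0 := by
    intro i
    rw [aeval_zero, constantCoeff_eq]
    have h1 : coeff (Finsupp.single 2 1 + 0) (X 2 * q i) = coeff 0 (q i) := coeff_X_mul _ _ _
    rw [← h1, ← hq i, (hhom i).coeff_eq_zero (by simp), map_zero]
  obtain ⟨w, hw0, hw⟩ := Pool.Agent.DS.exists_common_zero q hq0 (by simp)
  -- the derivative
  have hder : ∀ i : Fin 2, w 2 = 0 → aeval (![w 0, w 1, w 2, T * w 2] : Fin 4 → k)
      (pderiv 2 (pderiv (Fin.castLE (by decide) i : Fin 4) F)) +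
      T * aeval (![w 0, w 1, w 2, T * w 2] : Fin 4 → k)
        (pderiv 3 (pderiv (Fin.castLE (by decide) i : Fin 4) F)) = 0 := by
    intro i hw2
    have h1 := Pool.Agent.DS.chain ((pderiv (2 : Fin 3) : Derivation k (MvPolynomial (Fin 3) k)
      (MvPolynomial (Fin 3) k)).restrictScalars ℂ) p (pderiv (Fin.castLE (by decide) i : Fin 4) F)
    rw [hq i, Fin.sum_univ_four] at h1
    have e0 : (pderiv (2 : Fin 3)) (X 0 : MvPolynomial (Fin 3) k) = 0 := pderiv_X_of_ne (by decide)
    have e1 : (pderiv (2 : Fin 3)) (X 1 : MvPolynomial (Fin 3) k) = 0 := pderiv_X_of_ne (by decide)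
    have e2 : (pderiv (2 : Fin 3)) (X 2 : MvPolynomial (Fin 3) k) = 1 := pderiv_X_self 2
    have e3 : (pderiv (2 : Fin 3)) (C T * X 2 : MvPolynomial (Fin 3) k) = C T := by
      rw [pderiv_C_mul, e2, mul_one]
    have h3 : (pderiv (2 : Fin 3)) (X 2 * q i) = (pderiv (2 : Fin 3)) (X 0) * aeval p
        (pderiv 0 (pderiv (Fin.castLE (by decide) i : Fin 4) F)) + (pderiv (2 : Fin 3)) (X 1) * aeval p
        (pderiv 1 (pderiv (Fin.castLE (by decide) i : Fin 4) F)) + (pderiv (2 : Fin 3)) (X 2) * aeval p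
        (pderiv 2 (pderiv (Fin.castLE (by decide) i : Fin 4) F)) + (pderiv (2 : Fin 3)) (C T * X 2) * aeval p
        (pderiv 3 (pderiv (Fin.castLE (by decide) i : Fin 4) F)) := h1
    rw [e0, e1, e2, e3, Derivation.leibniz, e2] at h3
    have h2 := congrArg (aeval w) h3
    simp only [map_add, map_mul, zero_mul, zero_add, one_mul, smul_eq_mul, aeval_X, map_one, mul_one,
      aeval_C, Algebra.algebraMap_self, RingHom.id_apply] at h2
    rw [hw i, hw2, zero_mul, zero_add, hpe, hpe, hw2] at h2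
    rw [hw2]
    exact h2.symm
  have hw2 : w 2 ≠ 0 := by
    intro h2
    refine gen_on hF hs hon T hT ![w 0, w 1, w 2, T * w 2] ?_ h2 (by show T * w 2 = 0; rw [h2, mul_zero]) ?_ ?_
    · intro h3
      apply hw0
      funext j
      fin_cases j
      · exact congrFun h3 0
      · exact congrFun h3 1
      · exact congrFun h3 2
    · have h3 := hder 0 h2
      rw [Pool.Agent.QX.pd_comm 0 2, Pool.Agent.QX.pd_comm 0 3]
      exact h3
    · have h3 := hder 1 h2
      rw [Pool.Agent.QX.pd_comm 1 2, Pool.Agent.QX.pd_comm 1 3]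
      exact h3
  have hval : ∀ i : Fin 2, aeval (![w 0 / w 2, w 1 / w 2, 1, T] : Fin 4 → k)
      (pderiv (Fin.castLE (by decide) i : Fin 4) F) = 0 := by
    intro i
    have h1 : aeval (![w 0, w 1, w 2, T * w 2] : Fin 4 → k)
        (pderiv (Fin.castLE (by decide) i : Fin 4) F) = 0 := by
      rw [← hpe, hq i, map_mul, hw i, mul_zero]
    have h2 : (![w 0, w 1, w 2, T * w 2] : Fin 4 → k) =
        fun l => w 2 * (![w 0 / w 2, w 1 / w 2, 1, T] : Fin 4 → k) l := by
      funext l
      fin_cases l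
      · show w 0 = w 2 * (w 0 / w 2)
        field_simp
      · show w 1 = w 2 * (w 1 / w 2)
        field_simp
      · show w 2 = w 2 * 1
        rw [mul_one]
      · show T * w 2 = w 2 * T
        rw [mul_comm]
    rw [h2, Pool.Agent.DS.aeval_mul_point (show (pderiv (Fin.castLE (by decide) i : Fin 4) F).IsHomogeneous 3
      from hF.pderiv)] at h1
    exact (mul_eq_zero.1 h1).resolve_left (pow_ne_zero 3 hw2)
  exact ⟨![w 0 / w 2, w 1 / w 2, 1, T], rfl, rfl, hval 0, hval 1⟩

end Pool.Agent.QX
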