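import Mathlib

set_option autoImplicit false

namespace Pool.Agent.QX

/-- the residue map -/
theorem exists_res {k : Type} [Field k] [Algebra ℂ k] (O : ValuationSubring k)
    (hC : ∀ c : ℂ, algebraMap ℂ k c ∈ O)
    (hres : ∀ a ∈ O, ∃ c : ℂ, O.valuation (a - algebraMap ℂ k c) < 1) :
    ∃ (ι : ℂ →+* O) (ρ : O →+* ℂ), (∀ c, (ι c : k) = algebraMap ℂ k c) ∧ (∀ c, ρ (ι c) = c) ∧
      (∀ a, ρ a ≠ 0 → IsUnit a) ∧ ∀ a : O, ρ a = 0 ↔ O.valuation a < 1 := by
  let ι : ℂ →+* O := (algebraMap ℂ k).codRestrict O.toSubring hC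
  have hι : ∀ c, (ι c : k) = algebraMap ℂ k c := fun c => rfl
  let π : O →+* IsLocalRing.ResidueField O := IsLocalRing.residue O
  have hπ : ∀ a : O, π a = 0 ↔ O.valuation a < 1 := by
    intro a
    rw [IsLocalRing.residue_eq_zero_iff, ValuationSubring.valuation_lt_one_iff]
  have hbij : Function.Bijective (π.comp ι) := by
    refine ⟨(π.comp ι).injective, ?_⟩
    intro y
    obtain ⟨a, rfl⟩ := IsLocalRing.residue_surjective y
    obtain ⟨c, hc⟩ := hres a a.2
    refine ⟨c, ?_⟩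
    have h1 : π (a - ι c) = 0 := (hπ _).2 hc
    rw [map_sub, sub_eq_zero] at h1
    exact h1.symm
  let e := RingEquiv.ofBijective _ hbij
  refine ⟨ι, (e.symm : _ →+* ℂ).comp π, hι, ?_, ?_, ?_⟩
  · intro c
    show e.symm (π (ι c)) = c
    exact e.symm_apply_apply c
  · intro a ha
    by_contra hu
    apply ha
    show e.symm (π a) = 0
    have h1 : π a = 0 := by
      rw [IsLocalRing.residue_eq_zero_iff]
      exact (IsLocalRing.mem_maximalIdeal a).2 hu
    rw [h1, map_zero]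
  · intro a
    rw [← hπ]
    show e.symm (π a) = 0 ↔ π a = 0
    exact map_eq_zero_iff _ e.symm.injective

end Pool.Agent.QX
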