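import Pool.Agent.Lib_MP_1209e6_ql.Sf92

/-! PIECE SF (helper92): a singular point of a residual cubic off the line. -/

set_option autoImplicit false

open MvPolynomial

noncomputable section

namespace Pool.Agent.QX

theorem exists_node {F : MvPolynomial (Fin 4) ℂ} (hF : F.IsHomogeneous 4) (hs : Pool.Agent.DS.Smooth F)
    (h1 : OneLine F) : ∃ X : Fin 4 → ℂ, (X 2 ≠ 0 ∨ X 3 ≠ 0) ∧ aeval X F = 0 ∧
      aeval X (pderiv 0 F) = 0 ∧ aeval X (pderiv 1 F) = 0 :=
  exists_node92 hF hs h1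

end Pool.Agent.QX
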