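import Pool.Agent.Lib_MP_1209e6_ds.Defs
import Pool.Agent.Lib_MP_1209e6_ds.Krull20
import Pool.Agent.Lib_MP_1209e6_ql.Local
import Pool.Agent.Lib_MP_1209e6_ql.Decomp

/-! PIECE SF, the case of a centre on the line (helper2). -/

set_option autoImplicit false

open MvPolynomial

noncomputable section

namespace Pool.Agent.QX

theorem nc_mem {k : Type} [Field k] [Algebra ℂ k] (O : ValuationSubring k)
    (hC : ∀ c : ℂ, algebraMap ℂ k c ∈ O) (Q : Fin 4 → k) (hQ : ∀ j, O.valuation (Q j) ≤ 1)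
    (g : MvPolynomial (Fin 4) ℂ) : O.valuation (aeval Q g) ≤ 1 := by
  induction g using MvPolynomial.induction_on with
  | C a =>
    rw [aeval_C]
    exact (O.valuation_le_one_iff _).2 (hC a)
  | add p q hp hq =>
    rw [map_add]
    exact (O.valuation.map_add _ _).trans (max_le hp hq)
  | mul_X p i hp =>
    rw [map_mul, aeval_X, map_mul]
    exact mul_le_one' hp (hQ i)

theorem nc_red {k : Type} [Field k] [Algebra ℂ k] (O : ValuationSubring k)
    (hC : ∀ c : ℂ, algebraMap ℂ k c ∈ O) (Q : Fin 4 → k) (X : Fin 4 → ℂ)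
    (hQX : ∀ j, O.valuation (Q j - algebraMap ℂ k (X j)) < 1) (g : MvPolynomial (Fin 4) ℂ) :
    O.valuation (aeval Q g - algebraMap ℂ k (aeval X g)) < 1 := by
  have hQ : ∀ j, O.valuation (Q j) ≤ 1 := by
    intro j
    have h1 : Q j = (Q j - algebraMap ℂ k (X j)) + algebraMap ℂ k (X j) := by ring
    rw [h1]
    exact (O.valuation.map_add _ _).trans (max_le (hQX j).le ((O.valuation_le_one_iff _).2 (hC _)))
  induction g using MvPolynomial.induction_on with
  | C a =>
    rw [aeval_C, aeval_C]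
    simp
  | add p q hp hq =>
    have h1 : aeval Q (p + q) - algebraMap ℂ k (aeval X (p + q)) =
        (aeval Q p - algebraMap ℂ k (aeval X p)) + (aeval Q q - algebraMap ℂ k (aeval X q)) := by
      rw [map_add, map_add, map_add]
      ring
    rw [h1]
    exact O.valuation.map_add_lt hp hq
  | mul_X p i hp =>
    have h1 : aeval Q (p * MvPolynomial.X i) - algebraMap ℂ k (aeval X (p * MvPolynomial.X i)) =
        (aeval Q p - algebraMap ℂ k (aeval X p)) * Q i +
          algebraMap ℂ k (aeval X p) * (Q i - algebraMap ℂ k (X i)) := by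
      rw [map_mul, map_mul, map_mul, aeval_X, aeval_X]
      ring
    rw [h1]
    refine O.valuation.map_add_lt ?_ ?_
    · rw [map_mul]
      exact mul_lt_one_of_lt_of_le hp (hQ i)
    · rw [map_mul, mul_comm]
      exact mul_lt_one_of_lt_of_le (hQX i) ((O.valuation_le_one_iff _).2 (hC _))

theorem nc_cub {R : Type} [CommRing R] [Algebra ℂ R] (b : Fin 10 → ℂ) (Q : Fin 4 → R) :
    aeval Q (cubB b) = algebraMap ℂ R (b 0) * Q 0 ^ 3 + algebraMap ℂ R (b 1) * Q 0 ^ 2 * Q 1 +
      algebraMap ℂ R (b 2) * Q 0 ^ 2 * Q 2 + algebraMap ℂ R (b 3) * Q 0 * Q 1 ^ 2 +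
      algebraMap ℂ R (b 4) * Q 0 * Q 1 * Q 2 + algebraMap ℂ R (b 5) * Q 0 * Q 2 ^ 2 +
      algebraMap ℂ R (b 6) * Q 1 ^ 3 + algebraMap ℂ R (b 7) * Q 1 ^ 2 * Q 2 +
      algebraMap ℂ R (b 8) * Q 1 * Q 2 ^ 2 + algebraMap ℂ R (b 9) * Q 2 ^ 3 := by
  simp only [cubB, map_add, map_mul, map_pow, aeval_C, aeval_X]

theorem nc_cub0 {R : Type} [CommRing R] [Algebra ℂ R] (b : Fin 10 → ℂ) (Q : Fin 4 → R) :
    aeval Q (pderiv 0 (cubB b)) = 3 * algebraMap ℂ R (b 0) * Q 0 ^ 2 +
      2 * algebraMap ℂ R (b 1) * Q 0 * Q 1 +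
      2 * algebraMap ℂ R (b 2) * Q 0 * Q 2 + algebraMap ℂ R (b 3) * Q 1 ^ 2 +
      algebraMap ℂ R (b 4) * Q 1 * Q 2 + algebraMap ℂ R (b 5) * Q 2 ^ 2 := by
  simp only [cubB, map_add, map_mul, map_pow, aeval_C, aeval_X, Derivation.leibniz,
    Derivation.leibniz_pow, pderiv_C, pderiv_X, smul_eq_mul, nsmul_eq_mul, Pi.single_apply]
  simp
  ring

theorem nc_cub1 {R : Type} [CommRing R] [Algebra ℂ R] (b : Fin 10 → ℂ) (Q : Fin 4 → R) :
    aeval Q (pderiv 1 (cubB b)) = algebraMap ℂ R (b 1) * Q 0 ^ 2 +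
      2 * algebraMap ℂ R (b 3) * Q 0 * Q 1 +
      algebraMap ℂ R (b 4) * Q 0 * Q 2 +
      3 * algebraMap ℂ R (b 6) * Q 1 ^ 2 + 2 * algebraMap ℂ R (b 7) * Q 1 * Q 2 +
      algebraMap ℂ R (b 8) * Q 2 ^ 2 := by
  simp only [cubB, map_add, map_mul, map_pow, aeval_C, aeval_X, Derivation.leibniz,
    Derivation.leibniz_pow, pderiv_C, pderiv_X, smul_eq_mul, nsmul_eq_mul, Pi.single_apply]
  simp
  ring

/-- a centre on the line is impossible -/
theorem node_core {F : MvPolynomial (Fin 4) ℂ} (hF : F.IsHomogeneous 4)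
    (hs : Pool.Agent.DS.Smooth F) (hon : ∀ a : Fin 4 → ℂ, a 2 = 0 → a 3 = 0 → aeval a F = 0)
    (honly : ∀ a b : Fin 4 → ℂ, LinearIndependent ℂ ![a, b] →
      (∀ s t : ℂ, aeval (fun j => s * a j + t * b j) F = 0) →
      a 2 = 0 ∧ a 3 = 0 ∧ b 2 = 0 ∧ b 3 = 0)
    {k : Type} [Field k] [Algebra ℂ k] (O : ValuationSubring k)
    (hC : ∀ c : ℂ, algebraMap ℂ k c ∈ O)
    (hres : ∀ a ∈ O, ∃ c : ℂ, O.valuation (a - algebraMap ℂ k c) < 1)
    (x u t : k) (hx : O.valuation x < 1) (hu : O.valuation u < 1) (hu0 : u ≠ 0)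
    (ht : O.valuation t < 1)
    (hv : O.valuation (aeval (![1, x, u, u * t] : Fin 4 → k) F) < O.valuation u ^ 4)
    (h0 : aeval (![1, x, u, u * t] : Fin 4 → k) (pderiv 0 F) = 0)
    (h1 : aeval (![1, x, u, u * t] : Fin 4 → k) (pderiv 1 F) = 0) : False := by
  obtain ⟨b, G, hG, hFG⟩ := decomp hF hon
  have d0 : ∀ {R : Type} [CommRing R] [Algebra ℂ R] (Q : Fin 4 → R), aeval Q (pderiv 0 F) =
      Q 2 * aeval Q (pderiv 0 (cubB b)) + Q 3 * aeval Q (pderiv 0 G) := by
    intro R _ _ Q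
    rw [hFG]
    simp only [map_add, map_mul, Derivation.leibniz, smul_eq_mul, aeval_X]
    rw [pderiv_X_of_ne (by decide), pderiv_X_of_ne (by decide)]
    simp
  have d1 : ∀ {R : Type} [CommRing R] [Algebra ℂ R] (Q : Fin 4 → R), aeval Q (pderiv 1 F) =
      Q 2 * aeval Q (pderiv 1 (cubB b)) + Q 3 * aeval Q (pderiv 1 G) := by
    intro R _ _ Q
    rw [hFG]
    simp only [map_add, map_mul, Derivation.leibniz, smul_eq_mul, aeval_X]
    rw [pderiv_X_of_ne (by decide), pderiv_X_of_ne (by decide)]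
    simp
  have d2 : ∀ {R : Type} [CommRing R] [Algebra ℂ R] (Q : Fin 4 → R), aeval Q (pderiv 2 F) =
      Q 2 * aeval Q (pderiv 2 (cubB b)) + aeval Q (cubB b) + Q 3 * aeval Q (pderiv 2 G) := by
    intro R _ _ Q
    rw [hFG]
    simp only [map_add, map_mul, Derivation.leibniz, smul_eq_mul, aeval_X]
    rw [pderiv_X_self, pderiv_X_of_ne (by decide)]
    simp
  have d3 : ∀ {R : Type} [CommRing R] [Algebra ℂ R] (Q : Fin 4 → R), aeval Q (pderiv 3 F) =
      Q 2 * aeval Q (pderiv 3 (cubB b)) + Q 3 * aeval Q (pderiv 3 G) + aeval Q G := by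
    intro R _ _ Q
    rw [hFG]
    simp only [map_add, map_mul, Derivation.leibniz, smul_eq_mul, aeval_X]
    rw [pderiv_X_self, pderiv_X_of_ne (by decide)]
    simp
    ring
  set Q : Fin 4 → k := ![1, x, u, u * t] with hQ
  have q0 : Q 0 = 1 := rfl
  have q1 : Q 1 = x := rfl
  have q2 : Q 2 = u := rfl
  have q3 : Q 3 = u * t := rfl
  have hQle : ∀ j, O.valuation (Q j) ≤ 1 := by
    intro j
    fin_cases j
    · show O.valuation (1 : k) ≤ 1
      rw [map_one]
    · exact hx.le
    · exact hu.le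
    · show O.valuation (u * t) ≤ 1
      rw [map_mul]
      exact mul_le_one' hu.le ht.le
  set p : k := aeval Q G with hp
  set g0 : k := aeval Q (pderiv 0 G) with hg0
  set g1 : k := aeval Q (pderiv 1 G) with hg1
  set g2 : k := aeval Q (pderiv 2 G) with hg2
  set g3 : k := aeval Q (pderiv 3 G) with hg3
  have hcub := nc_cub b Q
  have hcub0 := nc_cub0 b Q
  have hcub1 := nc_cub1 b Q
  rw [q0, q1, q2] at hcub hcub0 hcub1
  have eF : aeval Q F = u * aeval Q (cubB b) + u * t * p := by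
    rw [hFG, map_add, map_mul, map_mul, aeval_X, aeval_X, q2, q3]
  have e0 : aeval Q (pderiv 0 (cubB b)) + t * g0 = 0 := by
    have h := d0 Q
    rw [h0, q2, q3] at h
    have h' : u * (aeval Q (pderiv 0 (cubB b)) + t * g0) = 0 := by
      rw [hg0]
      linear_combination -h
    exact (mul_eq_zero.1 h').resolve_left hu0
  have e1 : aeval Q (pderiv 1 (cubB b)) + t * g1 = 0 := by
    have h := d1 Q
    rw [h1, q2, q3] at h
    have h' : u * (aeval Q (pderiv 1 (cubB b)) + t * g1) = 0 := by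
      rw [hg1]
      linear_combination -h
    exact (mul_eq_zero.1 h').resolve_left hu0
  have eG : g0 + x * g1 + u * g2 + u * t * g3 = 3 * p := by
    have h := congrArg (aeval Q) hG.sum_X_mul_pderiv
    rw [map_sum, Fin.sum_univ_four] at h
    simp only [map_mul, aeval_X, q0, q1, q2, q3, nsmul_eq_mul] at h
    push_cast at h
    rw [map_ofNat] at h
    rw [hg0, hg1, hg2, hg3, hp]
    linear_combination h
  set f : k := (aeval Q (cubB b) + t * p) / u ^ 3 with hf
  have hf3 : aeval Q (cubB b) + t * p = u ^ 3 * f := by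
    rw [hf]
    field_simp
  have hvf : O.valuation f < 1 := by
    by_contra hcon
    rw [not_lt] at hcon
    have h2 : aeval Q F = u ^ 4 * f := by
      rw [eF]
      linear_combination u * hf3
    rw [h2, map_mul, map_pow] at hv
    exact absurd hv (not_lt.2 (le_mul_of_one_le_right' hcon))
  have hred : O.valuation (p - algebraMap ℂ k (aeval (![1, 0, 0, 0] : Fin 4 → ℂ) G)) < 1 := by
    refine nc_red O hC Q ![1, 0, 0, 0] ?_ G
    intro j
    fin_cases j
    · show O.valuation ((1 : k) - algebraMap ℂ k 1) < 1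
      rw [map_one, sub_self, map_zero]
      exact zero_lt_one
    · show O.valuation (x - algebraMap ℂ k 0) < 1
      rw [map_zero, sub_zero]
      exact hx
    · show O.valuation (u - algebraMap ℂ k 0) < 1
      rw [map_zero, sub_zero]
      exact hu
    · show O.valuation (u * t - algebraMap ℂ k 0) < 1
      rw [map_zero, sub_zero, map_mul]
      exact mul_lt_one_of_lt_of_le hu ht.le
  have hpone : b 0 = 0 → b 1 = 0 → b 2 = 0 → O.valuation p = 1 := by
    intro hb0 hb1 hb2
    have hne : aeval (![1, 0, 0, 0] : Fin 4 → ℂ) G ≠ 0 := by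
      intro hzero
      have hsing := hs ![1, 0, 0, 0] (fun j => by
        fin_cases j
        · show aeval _ (pderiv 0 F) = 0
          rw [d0]
          simp
        · show aeval _ (pderiv 1 F) = 0
          rw [d1]
          simp
        · show aeval _ (pderiv 2 F) = 0
          rw [d2, nc_cub]
          simp [hb0]
        · show aeval _ (pderiv 3 F) = 0
          rw [d3, hzero]
          simp)
      have := congrFun hsing 0
      simp at this
    have h2 : O.valuation (algebraMap ℂ k (aeval (![1, 0, 0, 0] : Fin 4 → ℂ) G)) = 1 := by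
      set g := aeval (![1, 0, 0, 0] : Fin 4 → ℂ) G with hg
      have a1 := (O.valuation_le_one_iff _).2 (hC g)
      have a2 := (O.valuation_le_one_iff _).2 (hC g⁻¹)
      rw [map_inv₀, map_inv₀] at a2
      have hgk : algebraMap ℂ k g ≠ 0 := by
        rw [Ne, map_eq_zero]
        exact hne
      have a3 : O.valuation (algebraMap ℂ k g) ≠ 0 := by
        rw [Ne, map_eq_zero]
        exact hgk
      refine le_antisymm a1 ?_
      by_contra hlt
      rw [not_le] at hlt
      exact absurd a2 (not_le.2 ((one_lt_inv₀ (zero_lt_iff.2 a3)).2 hlt))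
    have h3 : p = algebraMap ℂ k (aeval (![1, 0, 0, 0] : Fin 4 → ℂ) G) +
        (p - algebraMap ℂ k (aeval (![1, 0, 0, 0] : Fin 4 → ℂ) G)) := by ring
    rw [h3, Valuation.map_add_eq_of_lt_left _ (by rw [h2]; exact hred), h2]
  have E1 : algebraMap ℂ k (b 0) + algebraMap ℂ k (b 1) * x + algebraMap ℂ k (b 2) * u +
      algebraMap ℂ k (b 3) * x ^ 2 + algebraMap ℂ k (b 4) * x * u + algebraMap ℂ k (b 5) * u ^ 2 +
      algebraMap ℂ k (b 6) * x ^ 3 + algebraMap ℂ k (b 7) * x ^ 2 * u +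
      algebraMap ℂ k (b 8) * x * u ^ 2 + algebraMap ℂ k (b 9) * u ^ 3 + t * p = u ^ 3 * f := by
    rw [← hf3, hcub]
    ring
  have E2 : algebraMap ℂ k (b 1) + 2 * algebraMap ℂ k (b 3) * x + algebraMap ℂ k (b 4) * u +
      3 * algebraMap ℂ k (b 6) * x ^ 2 + 2 * algebraMap ℂ k (b 7) * x * u +
      algebraMap ℂ k (b 8) * u ^ 2 + t * g1 = 0 := by
    rw [hcub1] at e1
    linear_combination e1
  have E3 : algebraMap ℂ k (b 2) + algebraMap ℂ k (b 4) * x + 2 * algebraMap ℂ k (b 5) * u +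
      algebraMap ℂ k (b 7) * x ^ 2 + 2 * algebraMap ℂ k (b 8) * x * u +
      3 * algebraMap ℂ k (b 9) * u ^ 2 + t * (g2 + t * g3) = 3 * u ^ 2 * f := by
    rw [hcub0] at e0
    have h' : u * (algebraMap ℂ k (b 2) + algebraMap ℂ k (b 4) * x + 2 * algebraMap ℂ k (b 5) * u +
      algebraMap ℂ k (b 7) * x ^ 2 + 2 * algebraMap ℂ k (b 8) * x * u +
      3 * algebraMap ℂ k (b 9) * u ^ 2 + t * (g2 + t * g3) - 3 * u ^ 2 * f) = 0 := by
      linear_combination 3 * E1 - e0 - x * E2 + t * eG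
    have := (mul_eq_zero.1 h').resolve_left hu0
    linear_combination this
  have hle : ∀ g : MvPolynomial (Fin 4) ℂ, O.valuation (aeval Q g) ≤ 1 := nc_mem O hC Q hQle
  have hle3 : O.valuation (g2 + t * g3) ≤ 1 := by
    refine (O.valuation.map_add _ _).trans (max_le (hle _) ?_)
    rw [map_mul]
    exact mul_le_one' ht.le (hle _)
  obtain ⟨hb0, hb1, hb2, X, U, hXU, hq, hc⟩ := local_line O hC hres (b 0) (b 1) (b 2) (b 3) (b 4)
    (b 5) (b 6) (b 7) (b 8) (b 9) x u t f p g1 (g2 + t * g3) hx hu hu0 ht hvf (hle _) (hle _) hle3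
    hpone E1 E2 E3
  have hli : LinearIndependent ℂ ![(![1, 0, 0, 0] : Fin 4 → ℂ), ![0, X, U, 0]] := by
    rw [LinearIndependent.pair_iff]
    intro s r hsr
    have a0 := congrFun hsr 0
    have a1 := congrFun hsr 1
    have a2 := congrFun hsr 2
    simp at a0 a1 a2
    refine ⟨a0, ?_⟩
    rcases hXU with h | h
    · exact a1.resolve_right h
    · exact a2.resolve_right h
  have hline := honly _ _ hli (fun s r => by
    rw [hFG, map_add, map_mul, map_mul, aeval_X, aeval_X, nc_cub, hb0, hb1, hb2]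
    simp
    right
    linear_combination (s * r ^ 2) * hq + r ^ 3 * hc)
  have hU : U = 0 := hline.2.2.1
  have hX : X ≠ 0 := by
    rcases hXU with h | h
    · exact h
    · exact absurd hU h
  rw [hU] at hq hc
  have hb3 : b 3 = 0 := by
    have h2 : b 3 * X ^ 2 = 0 := by linear_combination hq
    exact (mul_eq_zero.1 h2).resolve_right (pow_ne_zero _ hX)
  have hb6 : b 6 = 0 := by
    have h2 : b 6 * X ^ 3 = 0 := by linear_combination hc
    exact (mul_eq_zero.1 h2).resolve_right (pow_ne_zero _ hX)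
  have hG0 : aeval (0 : Fin 4 → ℂ) G = 0 := by
    have h2 := congrArg (aeval (0 : Fin 4 → ℂ)) hG.sum_X_mul_pderiv
    rw [map_sum] at h2
    simp only [map_mul, aeval_X, Pi.zero_apply, zero_mul, Finset.sum_const_zero, map_nsmul] at h2
    simpa using h2.symm
  obtain ⟨y, hy0, hy⟩ := Pool.Agent.DS.exists_common_zero (Ω := ℂ)
    (![MvPolynomial.X 2, MvPolynomial.X 3, G] : Fin 3 → MvPolynomial (Fin 4) ℂ) (by
      intro i
      fin_cases i
      · show aeval _ (MvPolynomial.X 2) = _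
        simp
      · show aeval _ (MvPolynomial.X 3) = _
        simp
      · exact hG0) (by simp)
  have y2 : y 2 = 0 := by
    have := hy 0
    simpa using this
  have y3 : y 3 = 0 := by
    have := hy 1
    simpa using this
  have yG : aeval y G = 0 := hy 2
  refine hy0 (hs y fun j => ?_)
  fin_cases j
  · show aeval y (pderiv 0 F) = 0
    rw [d0, y2, y3]
    simp
  · show aeval y (pderiv 1 F) = 0
    rw [d1, y2, y3]
    simp
  · show aeval y (pderiv 2 F) = 0
    rw [d2, nc_cub, hb0, hb1, hb3, hb6, y2, y3]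
    simp
  · show aeval y (pderiv 3 F) = 0
    rw [d3, yG, y2, y3]
    simp

end Pool.Agent.QX
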