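import Pool.Agent.Lib_MP_1209e6_ql.Local
import Pool.Agent.Lib_MP_1209e6_ql.Places
import Pool.Agent.Lib_MP_1209e6_ql.Polar
import Pool.Agent.Lib_MP_1209e6_ql.Decomp
import Pool.Agent.Lib_MP_1209e6_ql.X85
import Pool.Agent.Lib_MP_1209e6_ql.X13
import Pool.Agent.Lib_MP_1209e6_ql.X2n
import Pool.Agent.Lib_MP_1209e6_qx.Copies

/-! PIECE SF (helper92): a singular point of a residual cubic off the line. -/

set_option autoImplicit false

open MvPolynomial

noncomputable section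

namespace Pool.Agent.QX

theorem sg92_mul {Γ : Type} [LinearOrderedCommGroupWithZero Γ] {a b : Γ} (ha : a < 1) (hb : b ≤ 1) :
    a * b < 1 :=
  lt_of_le_of_lt ((mul_le_mul_right hb a).trans_eq (mul_one a)) ha

section val

variable {k : Type} [Field k] [Algebra ℂ k] (O : ValuationSubring k)

theorem sg92_le (hC : ∀ c : ℂ, algebraMap ℂ k c ∈ O) {n : ℕ} (y : Fin n → k)
    (hy : ∀ j, O.valuation (y j) ≤ 1) (G : MvPolynomial (Fin n) ℂ) : O.valuation (aeval y G) ≤ 1 := by
  induction G using MvPolynomial.induction_on with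
  | C a => rw [aeval_C]; exact (O.valuation_le_one_iff _).2 (hC a)
  | add p q hp hq => rw [map_add]; exact (Valuation.map_add _ _ _).trans (max_le hp hq)
  | mul_X p j hp => rw [map_mul, aeval_X, map_mul]; exact mul_le_one' hp (hy j)

theorem sg92_const (hC : ∀ c : ℂ, algebraMap ℂ k c ∈ O) (c : ℂ) (h : O.valuation (algebraMap ℂ k c) < 1) :
    c = 0 := by
  by_contra hc
  have h1 : O.valuation (algebraMap ℂ k c⁻¹) ≤ 1 := (O.valuation_le_one_iff _).2 (hC _)
  have h2 : O.valuation (algebraMap ℂ k c) * O.valuation (algebraMap ℂ k c⁻¹) = 1 := by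
    rw [← map_mul, ← map_mul, mul_inv_cancel₀ hc, map_one, map_one]
  have h3 : O.valuation (algebraMap ℂ k c) * O.valuation (algebraMap ℂ k c⁻¹) < 1 :=
    sg92_mul h h1
  exact h3.ne h2

theorem sg92_red (hC : ∀ c : ℂ, algebraMap ℂ k c ∈ O) (a : k) (c : ℂ) (ha : O.valuation a < 1)
    (h : O.valuation (a - algebraMap ℂ k c) < 1) : c = 0 := by
  apply sg92_const O hC
  have h1 : algebraMap ℂ k c = a - (a - algebraMap ℂ k c) := by ring
  rw [h1]
  exact (Valuation.map_sub _ _ _).trans_lt (max_lt ha h)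

theorem sg92_lt (hC : ∀ c : ℂ, algebraMap ℂ k c ∈ O) {n : ℕ} (y : Fin n → k)
    (hy : ∀ j, O.valuation (y j) ≤ 1) (c : Fin n → ℂ)
    (hc : ∀ j, O.valuation (y j - algebraMap ℂ k (c j)) < 1) (G : MvPolynomial (Fin n) ℂ) :
    O.valuation (aeval y G - algebraMap ℂ k (aeval c G)) < 1 := by
  induction G using MvPolynomial.induction_on with
  | C a =>
    rw [aeval_C, aeval_C, Algebra.algebraMap_self, RingHom.id_apply, sub_self, map_zero]
    exact zero_lt_one
  | add p q hp hq =>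
    rw [map_add, map_add, map_add, add_sub_add_comm]
    exact (Valuation.map_add _ _ _).trans_lt (max_lt hp hq)
  | mul_X p j hp =>
    have h1 : aeval y (p * X j) - algebraMap ℂ k (aeval c (p * X j)) =
        (aeval y p - algebraMap ℂ k (aeval c p)) * y j +
          algebraMap ℂ k (aeval c p) * (y j - algebraMap ℂ k (c j)) := by
      rw [map_mul, map_mul, aeval_X, aeval_X, map_mul]
      ring
    rw [h1]
    refine (Valuation.map_add _ _ _).trans_lt (max_lt ?_ ?_)
    · rw [map_mul]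
      exact sg92_mul hp (hy j)
    · rw [map_mul, mul_comm]
      exact sg92_mul (hc j) ((O.valuation_le_one_iff _).2 (hC _))

theorem sg92_eq_zero (hC : ∀ c : ℂ, algebraMap ℂ k c ∈ O) {n : ℕ} (y : Fin n → k)
    (hy : ∀ j, O.valuation (y j) ≤ 1) (c : Fin n → ℂ)
    (hc : ∀ j, O.valuation (y j - algebraMap ℂ k (c j)) < 1) (G : MvPolynomial (Fin n) ℂ)
    (h : O.valuation (aeval y G) < 1) : aeval c G = 0 :=
  sg92_red O hC _ _ h (sg92_lt O hC y hy c hc G)

theorem sg92_unit {a : k} (h : O.valuation (a - 1) < 1) : O.valuation a = 1 := by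
  have h1 : O.valuation (1 + (a - 1)) = O.valuation 1 :=
    Valuation.map_add_eq_of_lt_left _ (by rw [map_one]; exact h)
  rw [map_one] at h1
  rw [← h1]
  congr 1
  ring

end val

theorem sg92_unimod (a b : ℂ) (h : a ≠ 0 ∨ b ≠ 0) : ∃ c d : ℂ, a * d - b * c = 1 := by
  by_cases ha : a = 0
  · have hb := h.resolve_left fun h => h ha
    exact ⟨-b⁻¹, 0, by rw [ha]; field_simp; ring⟩
  · exact ⟨0, a⁻¹, by field_simp; ring⟩

theorem sg92_scale {k : Type} [Field k] [Algebra ℂ k] {n D : ℕ} {G : MvPolynomial (Fin n) ℂ}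
    (hG : G.IsHomogeneous D) (x : Fin n → k) (s : k) :
    aeval (fun j => s * x j) G = s ^ D * aeval x G := by
  rw [aeval_def, aeval_def, eval₂_eq, eval₂_eq, Finset.mul_sum]
  refine Finset.sum_congr rfl fun d hd => ?_
  have h1 : d.degree = D := by
    have h2 := hG (mem_support_iff.1 hd)
    rw [← h2, Finsupp.degree_eq_weight_one]
    rfl
  have h3 : ∏ i ∈ d.support, (s * x i) ^ d i = s ^ D * ∏ i ∈ d.support, x i ^ d i := by
    simp only [mul_pow]
    rw [Finset.prod_mul_distrib, Finset.prod_pow_eq_pow_sum, ← h1]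
    rfl
  rw [h3]
  ring

theorem sg92_pd (E : Fin 4 → Fin 4 → ℂ) (i j : Fin 4) :
    pderiv i (∑ i', C (E i' j) * (X i' : MvPolynomial (Fin 4) ℂ)) = C (E i j) := by
  classical
  rw [map_sum, Finset.sum_eq_single i]
  · rw [pderiv_C_mul, pderiv_X_self, mul_one]
  · intro l _ hl
    rw [pderiv_C_mul, pderiv_X_of_ne hl, mul_zero]
  · intro h
    exact absurd (Finset.mem_univ i) h

/-- the reduction is not on the line -/
theorem sg92_core {F : MvPolynomial (Fin 4) ℂ} (hF : F.IsHomogeneous 4) (hs : Pool.Agent.DS.Smooth F)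
    (h1 : OneLine F) {k : Type} [Field k] [Algebra ℂ k] (O : ValuationSubring k)
    (hC : ∀ c : ℂ, algebraMap ℂ k c ∈ O)
    (hres : ∀ a ∈ O, ∃ c : ℂ, O.valuation (a - algebraMap ℂ k c) < 1)
    (Q : Fin 4 → k) (c : Fin 4 → ℂ) (u : k) (hQ1 : ∀ j, O.valuation (Q j) ≤ 1) (j₁ : Fin 4) (hj₁ : Q j₁ = 1)
    (hu0 : u ≠ 0) (hu : u = Q 2 ∨ u = Q 3) (hu2 : O.valuation (Q 2) ≤ O.valuation u)
    (hu3 : O.valuation (Q 3) ≤ O.valuation u) (hlt : O.valuation (aeval Q F) < O.valuation u ^ 4)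
    (hQ0 : aeval Q (pderiv 0 F) = 0) (hQ1' : aeval Q (pderiv 1 F) = 0)
    (hc : ∀ j, O.valuation (Q j - algebraMap ℂ k (c j)) < 1) (hu1 : O.valuation u < 1) : False := by
  classical
  have hC' : ∀ z : ℂ, O.valuation (algebraMap ℂ k z) ≤ 1 := fun z => (O.valuation_le_one_iff _).2 (hC z)
  have hc2 : c 2 = 0 := sg92_red O hC (Q 2) (c 2) (hu2.trans_lt hu1) (hc 2)
  have hc3 : c 3 = 0 := sg92_red O hC (Q 3) (c 3) (hu3.trans_lt hu1) (hc 3)
  have hc01 : c 0 ≠ 0 ∨ c 1 ≠ 0 := by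
    by_contra hcon
    push Not at hcon
    have h3 : ∀ j, c j = 0 := by
      intro j
      fin_cases j
      exacts [hcon.1, hcon.2, hc2, hc3]
    have h2 := hc j₁
    rw [hj₁, h3, map_zero, sub_zero, map_one] at h2
    exact lt_irrefl _ h2
  have hs1 : O.valuation (Q 2 / u) ≤ 1 := by
    rw [map_div₀]
    exact div_le_one_of_le₀ hu2 zero_le'
  have hr1 : O.valuation (Q 3 / u) ≤ 1 := by
    rw [map_div₀]
    exact div_le_one_of_le₀ hu3 zero_le'
  obtain ⟨σ, hσ⟩ := hres (Q 2 / u) ((O.valuation_le_one_iff _).1 hs1)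
  obtain ⟨r, hr⟩ := hres (Q 3 / u) ((O.valuation_le_one_iff _).1 hr1)
  have hσr : σ ≠ 0 ∨ r ≠ 0 := by
    by_contra hcon
    push Not at hcon
    rcases hu with h | h
    · have h2 : Q 2 / u = 1 := by rw [← h, div_self hu0]
      rw [h2, hcon.1, map_zero, sub_zero, map_one] at hσ
      exact lt_irrefl _ hσ
    · have h2 : Q 3 / u = 1 := by rw [← h, div_self hu0]
      rw [h2, hcon.2, map_zero, sub_zero, map_one] at hr
      exact lt_irrefl _ hr
  obtain ⟨d0, d1, hdd⟩ := sg92_unimod (c 0) (c 1) hc01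
  obtain ⟨s', r', hss⟩ := sg92_unimod σ r hσr
  have hddk : algebraMap ℂ k (c 0) * algebraMap ℂ k d1 - algebraMap ℂ k (c 1) * algebraMap ℂ k d0 = 1 := by
    rw [← map_mul, ← map_mul, ← map_sub, hdd, map_one]
  have hssk : algebraMap ℂ k σ * algebraMap ℂ k r' - algebraMap ℂ k r * algebraMap ℂ k s' = 1 := by
    rw [← map_mul, ← map_mul, ← map_sub, hss, map_one]
  have hsm : ∀ (z : ℂ) (a : k), O.valuation a < 1 → O.valuation (a * algebraMap ℂ k z) < 1 := by
    intro z a ha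
    rw [map_mul]
    exact sg92_mul ha (hC' z)
  have hsb : ∀ a b : k, O.valuation a < 1 → O.valuation b < 1 → O.valuation (a - b) < 1 := fun a b ha hb =>
    (Valuation.map_sub _ _ _).trans_lt (max_lt ha hb)
  set ξ0 : k := Q 0 * algebraMap ℂ k d1 - Q 1 * algebraMap ℂ k d0 with hξ0d
  set ξ1 : k := Q 1 * algebraMap ℂ k (c 0) - Q 0 * algebraMap ℂ k (c 1) with hξ1d
  set η2 : k := (Q 2 / u) * algebraMap ℂ k r' - (Q 3 / u) * algebraMap ℂ k s' with hη2d
  set η3 : k := (Q 3 / u) * algebraMap ℂ k σ - (Q 2 / u) * algebraMap ℂ k r with hη3d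
  have hξ0 : O.valuation ξ0 = 1 := by
    apply sg92_unit
    have h2 : ξ0 - 1 = (Q 0 - algebraMap ℂ k (c 0)) * algebraMap ℂ k d1 -
        (Q 1 - algebraMap ℂ k (c 1)) * algebraMap ℂ k d0 := by
      rw [hξ0d]
      linear_combination hddk
    rw [h2]
    exact hsb _ _ (hsm _ _ (hc 0)) (hsm _ _ (hc 1))
  have hξ1 : O.valuation ξ1 < 1 := by
    have h2 : ξ1 = (Q 1 - algebraMap ℂ k (c 1)) * algebraMap ℂ k (c 0) -
        (Q 0 - algebraMap ℂ k (c 0)) * algebraMap ℂ k (c 1) := by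
      rw [hξ1d]
      ring
    rw [h2]
    exact hsb _ _ (hsm _ _ (hc 1)) (hsm _ _ (hc 0))
  have hη2 : O.valuation η2 = 1 := by
    apply sg92_unit
    have h2 : η2 - 1 = (Q 2 / u - algebraMap ℂ k σ) * algebraMap ℂ k r' -
        (Q 3 / u - algebraMap ℂ k r) * algebraMap ℂ k s' := by
      rw [hη2d]
      linear_combination hssk
    rw [h2]
    exact hsb _ _ (hsm _ _ hσ) (hsm _ _ hr)
  have hη3 : O.valuation η3 < 1 := by
    have h2 : η3 = (Q 3 / u - algebraMap ℂ k r) * algebraMap ℂ k σ -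
        (Q 2 / u - algebraMap ℂ k σ) * algebraMap ℂ k r := by
      rw [hη3d]
      ring
    rw [h2]
    exact hsb _ _ (hsm _ _ hr) (hsm _ _ hσ)
  have hx0 : ξ0 ≠ 0 := by
    intro h
    rw [h, map_zero] at hξ0
    exact zero_ne_one hξ0
  have hy2 : η2 ≠ 0 := by
    intro h
    rw [h, map_zero] at hη2
    exact zero_ne_one hη2
  -- the basis
  set E : Fin 4 → Fin 4 → ℂ := ![![c 0, c 1, 0, 0], ![d0, d1, 0, 0], ![0, 0, σ, r], ![0, 0, s', r']] with hE'
  have hE : LinearIndependent ℂ E := by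
    rw [Fintype.linearIndependent_iff]
    intro g hg
    have g0 := congrFun hg 0
    have g1 := congrFun hg 1
    have g2 := congrFun hg 2
    have g3 := congrFun hg 3
    simp only [hE', Fin.sum_univ_four, Pi.add_apply, Pi.smul_apply, smul_eq_mul, Matrix.cons_val_zero,
      Matrix.cons_val_one, Matrix.cons_val, Pi.zero_apply, mul_zero, add_zero, zero_add] at g0 g1 g2 g3
    intro i
    fin_cases i
    · show g 0 = 0
      linear_combination d1 * g0 - d0 * g1 - g 0 * hdd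
    · show g 1 = 0
      linear_combination c 0 * g1 - c 1 * g0 - g 1 * hdd
    · show g 2 = 0
      linear_combination r' * g2 - s' * g3 - g 2 * hss
    · show g 3 = 0
      linear_combination σ * g3 - r * g2 - g 3 * hss
  set F' : MvPolynomial (Fin 4) ℂ := aeval (fun j => ∑ i, C (E i j) * (X i : MvPolynomial (Fin 4) ℂ)) F with hF'd
  have hF' : F'.IsHomogeneous 4 := by
    have h2 := hF.aeval (fun j => ∑ i, C (E i j) * (X i : MvPolynomial (Fin 4) ℂ)) (n := 1) (fun j =>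
      IsHomogeneous.sum _ _ _ fun i _ => by
        simpa using (isHomogeneous_C _ (E i j)).mul (isHomogeneous_X ℂ i))
    rw [one_mul] at h2
    exact h2
  have hs' : Pool.Agent.DS.Smooth F' := x85_smooth_comp hs E hE
  have h1' : OneLine F' := by
    refine oneLine_comp13 ![c 0, c 1, 0, 0] ![d0, d1, 0, 0] ![0, 0, σ, r] ![0, 0, s', r'] hE ?_ ?_
    · intro s t
      apply h1.on
      · simp
      · simp
    · intro a' b' hab hl
      obtain ⟨ha2, ha3, hb2, hb3⟩ := h1.only a' b' hab hl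
      have key : ∀ a' : Fin 4 → ℂ, a' 2 = 0 → a' 3 = 0 →
          a' ∈ Submodule.span ℂ {![c 0, c 1, 0, 0], ![d0, d1, 0, 0]} := by
        intro a' h2 h3
        refine Submodule.mem_span_pair.2 ⟨a' 0 * d1 - a' 1 * d0, c 0 * a' 1 - c 1 * a' 0, ?_⟩
        funext j
        fin_cases j
        · simp
          linear_combination a' 0 * hdd
        · simp
          linear_combination a' 1 * hdd
        · simp [h2]
        · simp [h3]
      exact ⟨key a' ha2 ha3, key b' hb2 hb3⟩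
  set y : Fin 4 → k := ![1, ξ1 / ξ0, u * η2 / ξ0, u * η2 / ξ0 * (η3 / η2)] with hy
  have h3 : u * η2 / ξ0 * (η3 / η2) = u * η3 / ξ0 := by
    field_simp
  have hyE : (fun j => ∑ i, algebraMap ℂ k (E i j) * y i) = fun j => ξ0⁻¹ * Q j := by
    funext j
    fin_cases j
    · simp [hE', hy, Fin.sum_univ_four]
      field_simp
      rw [hξ0d, hξ1d]
      linear_combination Q 0 * hddk
    · simp [hE', hy, Fin.sum_univ_four]
      field_simp
      rw [hξ0d, hξ1d]
      linear_combination Q 1 * hddk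
    · have h2 : algebraMap ℂ k σ * η2 + algebraMap ℂ k s' * η3 = Q 2 / u := by
        rw [hη2d, hη3d]
        linear_combination (Q 2 / u) * hssk
      have h4 : ∑ i, algebraMap ℂ k (E i 2) * y i = algebraMap ℂ k σ * (u * η2 / ξ0) +
          algebraMap ℂ k s' * (u * η2 / ξ0 * (η3 / η2)) := by
        simp [hE', hy, Fin.sum_univ_four]
      show ∑ i, algebraMap ℂ k (E i 2) * y i = ξ0⁻¹ * Q 2
      rw [h4, h3]
      have h5 : algebraMap ℂ k σ * (u * η2 / ξ0) + algebraMap ℂ k s' * (u * η3 / ξ0) =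
          u / ξ0 * (algebraMap ℂ k σ * η2 + algebraMap ℂ k s' * η3) := by ring
      rw [h5, h2]
      field_simp
    · have h2 : algebraMap ℂ k r * η2 + algebraMap ℂ k r' * η3 = Q 3 / u := by
        rw [hη2d, hη3d]
        linear_combination (Q 3 / u) * hssk
      have h4 : ∑ i, algebraMap ℂ k (E i 3) * y i = algebraMap ℂ k r * (u * η2 / ξ0) +
          algebraMap ℂ k r' * (u * η2 / ξ0 * (η3 / η2)) := by
        simp [hE', hy, Fin.sum_univ_four]
      show ∑ i, algebraMap ℂ k (E i 3) * y i = ξ0⁻¹ * Q 3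
      rw [h4, h3]
      have h5 : algebraMap ℂ k r * (u * η2 / ξ0) + algebraMap ℂ k r' * (u * η3 / ξ0) =
          u / ξ0 * (algebraMap ℂ k r * η2 + algebraMap ℂ k r' * η3) := by ring
      rw [h5, h2]
      field_simp
  have hev : ∀ G : MvPolynomial (Fin 4) ℂ, aeval y (aeval (fun j => ∑ i, C (E i j) *
      (X i : MvPolynomial (Fin 4) ℂ)) G) = aeval (fun j => ξ0⁻¹ * Q j) G := by
    intro G
    rw [comp_eval13, hyE]
  have hpd : ∀ i, aeval y (pderiv i F') = ξ0⁻¹ ^ 3 * ∑ j, aeval Q (pderiv j F) * algebraMap ℂ k (E i j) := by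
    intro i
    rw [hF'd, x85_chain, map_sum, Finset.mul_sum]
    refine Finset.sum_congr rfl fun j _ => ?_
    rw [map_mul, hev, sg92_pd, aeval_C, sg92_scale hF.pderiv]
    ring
  have hw0 : u * η2 / ξ0 ≠ 0 := div_ne_zero (mul_ne_zero hu0 hy2) hx0
  have hvw : O.valuation (u * η2 / ξ0) = O.valuation u := by
    rw [map_div₀, map_mul, hξ0, hη2, mul_one, div_one]
  refine node_core hF' hs' h1'.on h1'.only O hC hres (ξ1 / ξ0) (u * η2 / ξ0) (η3 / η2) ?_ ?_ hw0 ?_ ?_ ?_ ?_
  · rw [map_div₀, hξ0, div_one]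
    exact hξ1
  · rw [hvw]
    exact hu1
  · rw [map_div₀, hη2, div_one]
    exact hη3
  · rw [hvw]
    show O.valuation (aeval y F') < _
    rw [hF'd, hev, sg92_scale hF, map_mul, map_pow, map_inv₀, hξ0, inv_one, one_pow, one_mul]
    exact hlt
  · show aeval y (pderiv 0 F') = 0
    rw [hpd, Fin.sum_univ_four, hQ0, hQ1']
    simp [hE']
  · show aeval y (pderiv 1 F') = 0
    rw [hpd, Fin.sum_univ_four, hQ0, hQ1']
    simp [hE']


theorem exists_node92 {F : MvPolynomial (Fin 4) ℂ} (hF : F.IsHomogeneous 4) (hs : Pool.Agent.DS.Smooth F)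
    (h1 : OneLine F) : ∃ X : Fin 4 → ℂ, (X 2 ≠ 0 ∨ X 3 ≠ 0) ∧ aeval X F = 0 ∧
      aeval X (pderiv 0 F) = 0 ∧ aeval X (pderiv 1 F) = 0 := by
  classical
  obtain ⟨k, -, _, -, _, -, T, -, hk, -, hT, -⟩ := exists_copies
  obtain ⟨P, hP2, hP3, hP0', hP1'⟩ := exists_polar hF hs h1.on T hT.tr
  have hκ : aeval P F ≠ 0 := gen_off hF hs T hT.tr P (by rw [hP2]; exact one_ne_zero)
    (by rw [hP3, hP2, mul_one]) hP0' hP1'
  obtain ⟨O, hC, hres, hv⟩ := exists_place1 T hT (aeval P F) hκ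
  obtain ⟨Q, d, u, hd, hQ, hQ1, ⟨j₁, hj₁⟩, hu0, hu, hu2, hu3, hlt⟩ :=
    exists_prim O hC hF P hP2 hκ (by rw [hP3]; exact hv)
  have hQe : Q = fun j => d * P j := funext hQ
  have hQ0 : aeval Q (pderiv 0 F) = 0 := by
    rw [hQe, sg92_scale hF.pderiv, hP0', mul_zero]
  have hQ1' : aeval Q (pderiv 1 F) = 0 := by
    rw [hQe, sg92_scale hF.pderiv, hP1', mul_zero]
  choose c hc using fun j => hres (Q j) ((O.valuation_le_one_iff _).1 (hQ1 j))
  have hule : O.valuation u ≤ 1 := by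
    rcases hu with h | h
    · rw [h]; exact hQ1 2
    · rw [h]; exact hQ1 3
  have hFQ : O.valuation (aeval Q F) < 1 := by
    refine hlt.trans_le ?_
    rw [← map_pow]
    exact (O.valuation_le_one_iff _).2 (pow_mem ((O.valuation_le_one_iff _).1 hule) 4)
  rcases lt_or_eq_of_le hule with hu1 | hu1
  · exact (sg92_core hF hs h1 O hC hres Q c u hQ1 j₁ hj₁ hu0 hu hu2 hu3 hlt hQ0 hQ1' hc hu1).elim
  · refine ⟨c, ?_, sg92_eq_zero O hC Q hQ1 c hc F hFQ, ?_, ?_⟩
    · by_contra hcon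
      push Not at hcon
      rcases hu with h | h
      · have h2 := hc 2
        rw [hcon.1, map_zero, sub_zero, ← h, hu1] at h2
        exact lt_irrefl _ h2
      · have h2 := hc 3
        rw [hcon.2, map_zero, sub_zero, ← h, hu1] at h2
        exact lt_irrefl _ h2
    · exact sg92_eq_zero O hC Q hQ1 c hc _ (by rw [hQ0, map_zero]; exact zero_lt_one)
    · exact sg92_eq_zero O hC Q hQ1 c hc _ (by rw [hQ1', map_zero]; exact zero_lt_one)

end Pool.Agent.QX
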