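import Pool.Agent.Lib_MP_1209e6_ds.Defs

/-!
# Smoothness is invariant under linear changes of coordinates
-/

set_option autoImplicit false

open MvPolynomial

noncomputable section

namespace Pool.Agent.QX

/-- the chain rule -/
theorem pderiv_aeval25 {N : ℕ} (L : Fin N → MvPolynomial (Fin N) ℂ) (F : MvPolynomial (Fin N) ℂ) (i : Fin N) :
    pderiv i (aeval L F) = ∑ j, aeval L (pderiv j F) * pderiv i (L j) := by
  induction F using MvPolynomial.induction_on with
  | C a => simp
  | add p q hp hq =>
    rw [map_add, map_add, hp, hq, ← Finset.sum_add_distrib]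
    refine Finset.sum_congr rfl fun j _ => ?_
    rw [map_add, map_add, add_mul]
  | mul_X p n hp =>
    rw [map_mul, aeval_X, Derivation.leibniz, hp, smul_eq_mul, smul_eq_mul]
    have h1 : ∀ j, aeval L (pderiv j (p * X n)) * pderiv i (L j) =
        aeval L p * (if n = j then pderiv i (L j) else 0) + L n * (aeval L (pderiv j p) * pderiv i (L j)) := by
      intro j
      rw [Derivation.leibniz, smul_eq_mul, smul_eq_mul, map_add, map_mul, map_mul, aeval_X]
      by_cases h : n = j
      · subst h
        rw [pderiv_X_self, map_one, if_pos rfl]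
        ring
      · rw [pderiv_X_of_ne h, map_zero, if_neg h]
        ring
    rw [Finset.sum_congr rfl fun j _ => h1 j, Finset.sum_add_distrib, ← Finset.mul_sum, ← Finset.mul_sum,
      Finset.sum_ite_eq]
    simp

/-- smoothness is invariant -/
theorem smooth_comp25 {F : MvPolynomial (Fin 4) ℂ}
    (hs : Pool.Agent.DS.Smooth F) (E : Fin 4 → Fin 4 → ℂ) (hE : LinearIndependent ℂ E) :
    Pool.Agent.DS.Smooth (aeval (fun j => ∑ i, C (E i j) * (X i : MvPolynomial (Fin 4) ℂ)) F) := by
  intro p hp
  have hL : ∀ i j, pderiv i (∑ i', C (E i' j) * (X i' : MvPolynomial (Fin 4) ℂ)) = C (E i j) := by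
    intro i j
    rw [map_sum]
    have : ∀ i', pderiv i (C (E i' j) * (X i' : MvPolynomial (Fin 4) ℂ)) = if i' = i then C (E i j) else 0 := by
      intro i'
      rw [pderiv_C_mul]
      by_cases h : i' = i
      · subst h
        rw [pderiv_X_self, if_pos rfl, mul_one]
      · rw [pderiv_X_of_ne h, if_neg h, mul_zero]
    rw [Finset.sum_congr rfl fun i' _ => this i', Finset.sum_ite_eq']
    simp
  set p' : Fin 4 → ℂ := fun j => ∑ i, E i j * p i with hp'
  have hev : ∀ g : MvPolynomial (Fin 4) ℂ,
      aeval p (aeval (fun j => ∑ i, C (E i j) * (X i : MvPolynomial (Fin 4) ℂ)) g) = aeval p' g := by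
    intro g
    rw [← AlgHom.comp_apply]
    refine congrArg (fun f : MvPolynomial (Fin 4) ℂ →ₐ[ℂ] ℂ => f g) ?_
    refine MvPolynomial.algHom_ext fun j => ?_
    rw [AlgHom.comp_apply, aeval_X, aeval_X, map_sum]
    refine Finset.sum_congr rfl fun i _ => ?_
    rw [map_mul, aeval_X, aeval_C]
    rfl
  have hM : IsUnit (Matrix.of E) := by
    rw [← Matrix.linearIndependent_rows_iff_isUnit]
    exact hE
  have h1 : ∀ i, ∑ j, aeval p' (pderiv j F) * E i j = 0 := by
    intro i
    have := hp i
    rw [pderiv_aeval25, map_sum] at this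
    rw [← this]
    refine Finset.sum_congr rfl fun j _ => ?_
    rw [map_mul, hev, hL, aeval_C]
    rfl
  have h2 : (fun j => aeval p' (pderiv j F)) = 0 := by
    have hi := Matrix.mulVec_injective_iff_isUnit.2 hM
    refine hi ?_
    rw [Matrix.mulVec_zero]
    funext i
    rw [Pi.zero_apply, ← h1 i]
    simp only [Matrix.mulVec, dotProduct, Matrix.of_apply]
    exact Finset.sum_congr rfl fun j _ => mul_comm _ _
  have h3 : p' = 0 := hs p' fun j => congrFun h2 j
  have hi := Matrix.vecMul_injective_iff_isUnit.2 hM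
  refine hi ?_
  change Matrix.vecMul p (Matrix.of E) = Matrix.vecMul 0 (Matrix.of E)
  rw [Matrix.zero_vecMul]
  funext j
  have h4 : p' j = 0 := congrFun h3 j
  rw [Pi.zero_apply, ← h4, hp']
  simp only [Matrix.vecMul, dotProduct, Matrix.of_apply]
  exact Finset.sum_congr rfl fun i _ => mul_comm _ _

end Pool.Agent.QX
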