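import Pool.Agent.Lib_MP_1209e6_ql.GenSmooth
import Pool.Agent.Lib_MP_1209e6_qx.Rigid

/-! `no_line_in` from `line_k`, `gen_off`, `gen_on`. -/

set_option autoImplicit false

open MvPolynomial

noncomputable section

namespace Pool.Agent.QX

variable {k : Type} [Field k] [Algebra ℂ k]

/-- chain rule -/
theorem x76_chain {σ : Type} {N : ℕ} (Φ : Fin N → MvPolynomial σ k) (p : MvPolynomial (Fin N) ℂ) (i : σ) :
    pderiv i (aeval Φ p) = ∑ j, aeval Φ (pderiv j p) * pderiv i (Φ j) := by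
  classical
  induction p using MvPolynomial.induction_on with
  | C a =>
    have h1 : aeval Φ (C a) = (C (algebraMap ℂ k a) : MvPolynomial σ k) := by
      rw [aeval_C]; rfl
    rw [h1, pderiv_C]
    simp
  | add p q hp hq => simp only [map_add, hp, hq, add_mul, Finset.sum_add_distrib]
  | mul_X p n hp =>
    rw [map_mul, Derivation.leibniz, hp, aeval_X]
    simp only [Derivation.leibniz, pderiv_X, map_add, smul_eq_mul, map_mul, aeval_X, add_mul,
      Finset.sum_add_distrib, Pi.single_apply]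
    congr 1
    · rw [Finset.sum_eq_single n]
      · simp
      · intro b _ hb
        simp [Ne.symm hb]
      · simp
    · rw [Finset.mul_sum]
      exact Finset.sum_congr rfl fun j _ => by ring

theorem x76_der_sec (F : MvPolynomial (Fin 4) ℂ) (e : Fin 3 → Fin 4 → k) (i : Fin 3) :
    pderiv i (sec F e) = ∑ j, sec (pderiv j F) e * C (e i j) := by
  classical
  rw [sec, x76_chain]
  refine Finset.sum_congr rfl fun j _ => ?_
  congr 1
  rw [map_sum, Finset.sum_eq_single i]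
  · simp [Derivation.leibniz, pderiv_X]
  · intro b _ hb
    simp [Derivation.leibniz, pderiv_X, Ne.symm hb, Pi.single_apply, hb]
  · simp

theorem x76_eval_der (F : MvPolynomial (Fin 4) ℂ) (e : Fin 3 → Fin 4 → k) (q : Fin 3 → k) (i : Fin 3) :
    eval q (pderiv i (sec F e)) = ∑ j, aeval (fun j => ∑ i, q i * e i j) (pderiv j F) * e i j := by
  rw [x76_der_sec, map_sum]
  exact Finset.sum_congr rfl fun j _ => by rw [map_mul, eval_sec, eval_C]

theorem x76_eval_der2 (F : MvPolynomial (Fin 4) ℂ) (e : Fin 3 → Fin 4 → k) (q : Fin 3 → k) (i l : Fin 3) :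
    eval q (pderiv l (pderiv i (sec F e))) =
      ∑ j, (∑ m, aeval (fun j => ∑ i, q i * e i j) (pderiv m (pderiv j F)) * e l m) * e i j := by
  rw [x76_der_sec, map_sum, map_sum]
  refine Finset.sum_congr rfl fun j _ => ?_
  rw [Derivation.leibniz, pderiv_C, smul_zero, zero_add, smul_eq_mul, map_mul, eval_C, x76_eval_der,
    mul_comm]

/-- vanishing on the line `X₂ = X₃ = 0` -/
def x76Van (F : MvPolynomial (Fin 4) ℂ) : Prop :=
  aeval (![X 0, X 1, 0, 0] : Fin 4 → MvPolynomial (Fin 2) ℂ) F = 0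

theorem x76_van {F : MvPolynomial (Fin 4) ℂ} (hon : ∀ a : Fin 4 → ℂ, a 2 = 0 → a 3 = 0 → aeval a F = 0) :
    x76Van F := by
  refine MvPolynomial.funext fun x => ?_
  rw [map_zero]
  have h := comp_aeval_apply (f := (![X 0, X 1, 0, 0] : Fin 4 → MvPolynomial (Fin 2) ℂ))
    (aeval x : MvPolynomial (Fin 2) ℂ →ₐ[ℂ] ℂ) F
  rw [← coe_aeval_eq_eval]
  show (aeval x) ((aeval _) F) = 0
  rw [h]
  refine hon _ ?_ ?_
  · simp
  · simp

theorem x76Van.der {F : MvPolynomial (Fin 4) ℂ} (h : x76Van F) :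
    x76Van (pderiv 0 F) ∧ x76Van (pderiv 1 F) := by
  classical
  constructor
  · have h1 := x76_chain (k := ℂ) (![X 0, X 1, 0, 0] : Fin 4 → MvPolynomial (Fin 2) ℂ) F 0
    rw [h, map_zero, Fin.sum_univ_four] at h1
    simpa [pderiv_X, x76Van] using h1.symm
  · have h1 := x76_chain (k := ℂ) (![X 0, X 1, 0, 0] : Fin 4 → MvPolynomial (Fin 2) ℂ) F 1
    rw [h, map_zero, Fin.sum_univ_four] at h1
    simpa [pderiv_X, x76Van] using h1.symm

theorem x76Van.eval {F : MvPolynomial (Fin 4) ℂ} (h : x76Van F) (z : Fin 4 → k) (h2 : z 2 = 0)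
    (h3 : z 3 = 0) : aeval z F = 0 := by
  have h1 := comp_aeval_apply (f := (![X 0, X 1, 0, 0] : Fin 4 → MvPolynomial (Fin 2) ℂ))
    (aeval ![z 0, z 1] : MvPolynomial (Fin 2) ℂ →ₐ[ℂ] k) F
  rw [show aeval (![X 0, X 1, 0, 0] : Fin 4 → MvPolynomial (Fin 2) ℂ) F = 0 from h, map_zero] at h1
  rw [h1]
  congr 2
  funext j
  fin_cases j
  · simp
  · simp
  · simpa using h2
  · simpa using h3

theorem x76_prod {σ : Type} (q : σ → k) (l : σ) (P Q R : MvPolynomial σ k) (hP : eval q P = 0)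
    (hQ : eval q Q = 0) : eval q (pderiv l (P * Q * R)) = 0 := by
  rw [Derivation.leibniz, Derivation.leibniz]
  simp only [smul_eq_mul, map_add, map_mul, hP, hQ, zero_mul, mul_zero, add_zero]

/-- `no_line_in`, the statement `line_k` as a hypothesis on the two vectors -/
theorem x76_core {F : MvPolynomial (Fin 4) ℂ} (hF : F.IsHomogeneous 4) (hs : Pool.Agent.DS.Smooth F)
    (h1 : OneLine F) [IsAlgClosed k] (e : Fin 3 → Fin 4 → k) (c : Fin 3 → k) (g : k) (b : Fin 2 → k)
    (A : MvPolynomial (Fin 3) k) (hS : Sect F e c g b A) (hm : Moving e) (hoff : e 0 2 ≠ 0 ∨ e 0 3 ≠ 0)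
    (u v : Fin 4 → k) (huv : LinearIndependent k ![u, v]) (hu : u ∈ Submodule.span k (Set.range e))
    (hv : v ∈ Submodule.span k (Set.range e)) (hu2 : u 2 = 0) (hu3 : u 3 = 0) (hv2 : v 2 = 0)
    (hv3 : v 3 = 0) : False := by
  classical
  have : CharZero k := charZero_of_injective_algebraMap (algebraMap ℂ k).injective
  have h20 : (2 : k) ≠ 0 := two_ne_zero
  -- the minor
  have hΔ : u 0 * v 1 - u 1 * v 0 ≠ 0 := by
    intro h0
    obtain ⟨i, l, hil⟩ := exists_minor u v huv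
    apply hil
    fin_cases i <;> fin_cases l <;> simp [hu2, hu3, hv2, hv3] <;>
      first
      | linear_combination h0
      | linear_combination -h0
      | ring
  set Δ := u 0 * v 1 - u 1 * v 0 with hΔ'
  rw [Submodule.mem_span_range_iff_exists_fun] at hu hv
  obtain ⟨u', hu'⟩ := hu
  obtain ⟨v', hv'⟩ := hv
  have huj : ∀ j, ∑ i, u' i * e i j = u j := by
    intro j
    rw [← hu', Finset.sum_apply]
    rfl
  have hvj : ∀ j, ∑ i, v' i * e i j = v j := by
    intro j
    rw [← hv', Finset.sum_apply]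
    rfl
  simp only [Fin.sum_univ_three] at huj hvj
  -- `p`, `r`: coordinates of the unit vectors
  set p : Fin 3 → k := fun i => (v 1 * u' i - u 1 * v' i) / Δ with hp
  set r : Fin 3 → k := fun i => (u 0 * v' i - v 0 * u' i) / Δ with hr
  have hpj : ∀ j, p 0 * e 0 j + p 1 * e 1 j + p 2 * e 2 j = (v 1 * u j - u 1 * v j) / Δ := by
    intro j
    rw [← huj j, ← hvj j, hp]
    field_simp
    ring
  have hrj : ∀ j, r 0 * e 0 j + r 1 * e 1 j + r 2 * e 2 j = (u 0 * v j - v 0 * u j) / Δ := by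
    intro j
    rw [← huj j, ← hvj j, hr]
    field_simp
    ring
  have hp0 : p 0 * e 0 0 + p 1 * e 1 0 + p 2 * e 2 0 = 1 := by
    rw [hpj, hΔ']
    rw [hΔ'] at hΔ
    rw [div_eq_one_iff_eq hΔ]
    ring
  have hp1 : p 0 * e 0 1 + p 1 * e 1 1 + p 2 * e 2 1 = 0 := by
    rw [hpj, div_eq_zero_iff]
    left; ring
  have hp2 : p 0 * e 0 2 + p 1 * e 1 2 + p 2 * e 2 2 = 0 := by
    rw [hpj, hu2, hv2]; simp
  have hp3 : p 0 * e 0 3 + p 1 * e 1 3 + p 2 * e 2 3 = 0 := by
    rw [hpj, hu3, hv3]; simp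
  have hr0 : r 0 * e 0 0 + r 1 * e 1 0 + r 2 * e 2 0 = 0 := by
    rw [hrj, div_eq_zero_iff]
    left; ring
  have hr1 : r 0 * e 0 1 + r 1 * e 1 1 + r 2 * e 2 1 = 1 := by
    rw [hrj, hΔ']
    rw [hΔ'] at hΔ
    rw [div_eq_one_iff_eq hΔ]
    ring
  have hr2 : r 0 * e 0 2 + r 1 * e 1 2 + r 2 * e 2 2 = 0 := by
    rw [hrj, hu2, hv2]; simp
  have hr3 : r 0 * e 0 3 + r 1 * e 1 3 + r 2 * e 2 3 = 0 := by
    rw [hrj, hu3, hv3]; simp
  clear_value p r
  -- the cross product
  set n : Fin 3 → k := ![p 1 * r 2 - p 2 * r 1, p 2 * r 0 - p 0 * r 2, p 0 * r 1 - p 1 * r 0] with hn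
  have hn0 : ∃ i, n i ≠ 0 := by
    by_contra hcon
    push Not at hcon
    have a0 := hcon 0
    have a1 := hcon 1
    have a2 := hcon 2
    simp only [hn, Matrix.cons_val_zero, Matrix.cons_val_one, Matrix.cons_val] at a0 a1 a2
    have h3 : (1 : k) = 0 := by
      calc (1 : k) = (p 0 * e 0 0 + p 1 * e 1 0 + p 2 * e 2 0) * (r 0 * e 0 1 + r 1 * e 1 1 + r 2 * e 2 1) -
          (p 0 * e 0 1 + p 1 * e 1 1 + p 2 * e 2 1) * (r 0 * e 0 0 + r 1 * e 1 0 + r 2 * e 2 0) := by
            rw [hp0, hp1, hr0, hr1]; ring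
        _ = 0 := by
          linear_combination (e 1 0 * e 2 1 - e 2 0 * e 1 1) * a0 + (e 2 0 * e 0 1 - e 0 0 * e 2 1) * a1 +
            (e 0 0 * e 1 1 - e 1 0 * e 0 1) * a2
    exact one_ne_zero h3
  obtain ⟨i₀, hi₀⟩ := hn0
  have hE : ∀ j : Fin 4, (j = 2 ∨ j = 3) → ∀ i l, e i j * n l = e l j * n i := by
    intro j hj
    have b1 : p 0 * e 0 j + p 1 * e 1 j + p 2 * e 2 j = 0 := by
      rcases hj with rfl | rfl
      · exact hp2
      · exact hp3
    have b2 : r 0 * e 0 j + r 1 * e 1 j + r 2 * e 2 j = 0 := by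
      rcases hj with rfl | rfl
      · exact hr2
      · exact hr3
    have c01 : e 0 j * n 1 = e 1 j * n 0 := by
      simp only [hn, Matrix.cons_val_zero, Matrix.cons_val_one]
      linear_combination p 2 * b2 - r 2 * b1
    have c02 : e 0 j * n 2 = e 2 j * n 0 := by
      simp only [hn, Matrix.cons_val_zero, Matrix.cons_val]
      linear_combination r 1 * b1 - p 1 * b2
    have c12 : e 1 j * n 2 = e 2 j * n 1 := by
      simp only [hn, Matrix.cons_val_one, Matrix.cons_val]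
      linear_combination p 0 * b2 - r 0 * b1
    intro i l
    fin_cases i <;> fin_cases l <;> simp only [Fin.mk_zero, Fin.mk_one, Fin.reduceFinMk, Fin.zero_eta]
    · exact c01
    · exact c02
    · exact c01.symm
    · exact c12
    · exact c02.symm
    · exact c12.symm
  set lam := e i₀ 2 / n i₀ with hlam
  set mu := e i₀ 3 / n i₀ with hmu
  have he2 : ∀ i, e i 2 = lam * n i := by
    intro i
    rw [hlam, div_mul_eq_mul_div, eq_div_iff hi₀]
    exact hE 2 (Or.inl rfl) i i₀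
  have he3 : ∀ i, e i 3 = mu * n i := by
    intro i
    rw [hmu, div_mul_eq_mul_div, eq_div_iff hi₀]
    exact hE 3 (Or.inr rfl) i i₀
  have hlam0 : lam ≠ 0 := by
    intro h0
    have h3 := hm ![0, 0, 1, 0] (by
      intro i
      rw [Fin.sum_univ_four]
      simp [he2, h0])
    have h4 := congrFun h3 2
    simp at h4
  have ht : Transcendental ℂ (mu / lam) := by
    intro halg
    obtain ⟨w, hw⟩ := rg_alg _ halg
    have h3 := hm ![0, 0, -w, 1] (by
      intro i
      rw [Fin.sum_univ_four]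
      simp only [Matrix.cons_val_zero, Matrix.cons_val_one, Matrix.cons_val, map_zero, zero_mul, map_neg,
        map_one, one_mul, zero_add, he2, he3, hw]
      field_simp
      ring)
    have h4 := congrFun h3 3
    simp at h4
  set t := mu / lam with htdef
  have het : ∀ i, e i 3 = t * e i 2 := by
    intro i
    rw [he2, he3, htdef]
    field_simp
  have he02 : e 0 2 ≠ 0 := by
    intro h0
    rcases hoff with h | h
    · exact h h0
    · exact h (by rw [het, h0, mul_zero])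
  -- roots
  obtain ⟨d, hd⟩ := IsAlgClosed.exists_pow_nat_eq (c 1 ^ 2 - 4 * c 0) (n := 2) (by norm_num)
  have hroot : ∀ s : k, c 0 + c 1 * s + s ^ 2 = 0 →
      e 0 2 + s * e 1 2 = 0 := by
    intro s hsq
    set q : Fin 3 → k := ![1, s, 0] with hq
    have hzj : ∀ j, ∑ i, q i * e i j = e 0 j + s * e 1 j := by
      intro j
      rw [Fin.sum_univ_three, hq]
      simp
    have hQ : eval q (quad c) = 0 := by
      rw [hq, rg_quad_eval, hS.c_two]
      linear_combination hsq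
    have hz0 : aeval (fun j => ∑ i, q i * e i j) F = 0 := by
      rw [← eval_sec, hS.eq]
      simp only [map_add, map_mul, map_pow, hQ]
      simp [hq]
    have hder : ∀ i, ∑ j, aeval (fun j => ∑ i, q i * e i j) (pderiv j F) * e i j = 0 := by
      intro i
      rw [← x76_eval_der, hS.eq, rg_rhs _ _ _ _ _ (by rw [hq]; rfl), hQ]
      simp
    simp only [Fin.sum_univ_four] at hder
    have hF0 : aeval (fun j => ∑ i, q i * e i j) (pderiv 0 F) = 0 := by
      linear_combination p 0 * hder 0 + p 1 * hder 1 + p 2 * hder 2 -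
        aeval (fun j => ∑ i, q i * e i j) (pderiv 0 F) * hp0 -
        aeval (fun j => ∑ i, q i * e i j) (pderiv 1 F) * hp1 -
        aeval (fun j => ∑ i, q i * e i j) (pderiv 2 F) * hp2 -
        aeval (fun j => ∑ i, q i * e i j) (pderiv 3 F) * hp3
    have hF1 : aeval (fun j => ∑ i, q i * e i j) (pderiv 1 F) = 0 := by
      linear_combination r 0 * hder 0 + r 1 * hder 1 + r 2 * hder 2 -
        aeval (fun j => ∑ i, q i * e i j) (pderiv 0 F) * hr0 -
        aeval (fun j => ∑ i, q i * e i j) (pderiv 1 F) * hr1 -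
        aeval (fun j => ∑ i, q i * e i j) (pderiv 2 F) * hr2 -
        aeval (fun j => ∑ i, q i * e i j) (pderiv 3 F) * hr3
    by_contra hne
    refine gen_off hF hs t ht (fun j => ∑ i, q i * e i j) ?_ ?_ hF0 hF1 hz0
    · show ∑ i, q i * e i 2 ≠ 0
      rw [hzj]
      exact hne
    · show ∑ i, q i * e i 3 = t * ∑ i, q i * e i 2
      rw [hzj, hzj, het, het]
      ring
  have hs1 := hroot ((-c 1 + d) / 2) (by field_simp; linear_combination hd)
  have hs2 := hroot ((-c 1 - d) / 2) (by field_simp; linear_combination hd)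
  have hd0 : d = 0 := by
    by_contra hd0
    have h3 : d * e 1 2 = 0 := by linear_combination hs1 - hs2
    have h4 := (mul_eq_zero.1 h3).resolve_left hd0
    rw [h4, mul_zero, add_zero] at hs1
    exact he02 hs1
  set s : k := -c 1 / 2 with hsdef
  have hc1 : c 1 = -2 * s := by rw [hsdef]; field_simp
  have hc0 : c 0 = s ^ 2 := by
    rw [hd0] at hd
    have h4 : (4 : k) ≠ 0 := by norm_num
    have h5 : 2 * s = -c 1 := by rw [hsdef]; field_simp
    have h3 : (4 : k) * c 0 = 4 * s ^ 2 := by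
      linear_combination hd - (2 * s - c 1) * h5
    exact mul_left_cancel₀ h4 h3
  have hz2 : e 0 2 + s * e 1 2 = 0 := by
    rw [hd0, add_zero] at hs1
    exact hs1
  have hz3 : e 0 3 + s * e 1 3 = 0 := by
    rw [het, het]
    linear_combination t * hz2
  clear_value s
  set q : Fin 3 → k := ![1, s, 0] with hq
  set z : Fin 4 → k := fun j => ∑ i, q i * e i j with hz
  have hzj : ∀ j, z j = e 0 j + s * e 1 j := by
    intro j
    rw [hz]
    show ∑ i, q i * e i j = _
    rw [Fin.sum_univ_three, hq]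
    simp
  have hz2' : z 2 = 0 := by rw [hzj]; exact hz2
  have hz3' : z 3 = 0 := by rw [hzj]; exact hz3
  have hzne : z ≠ 0 := by
    intro h0
    have h3 := hS.ind
    rw [Fintype.linearIndependent_iff] at h3
    have h4 := h3 q (by
      funext j
      have := congrFun h0 j
      rw [Finset.sum_apply]
      exact this) 0
    rw [hq] at h4
    simp at h4
  -- the Hessian
  set Y : MvPolynomial (Fin 3) k := X 1 - C s * X 0 with hY
  have hYq : eval q Y = 0 := by
    rw [hY, hq]; simp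
  have hXq : eval q (X 2 : MvPolynomial (Fin 3) k) = 0 := by
    rw [hq]; simp
  have hquad : quad c = Y ^ 2 := by
    rw [quad, hS.c_two, hc0, hc1, hY]
    simp only [map_pow, map_mul, map_neg, map_one]
    rw [show (C (2 : k) : MvPolynomial (Fin 3) k) = 2 from map_ofNat C 2]
    ring
  have hX2 : pderiv 0 (X 2 : MvPolynomial (Fin 3) k) = 0 := by
    rw [pderiv_X, Pi.single_apply]
    simp
  have hhess : ∀ l, eval q (pderiv l (pderiv 0 (sec F e))) = 0 := by
    intro l
    have h3 : pderiv 0 (sec F e) = Y * Y * (4 * C g * Y * pderiv 0 Y) +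
        X 2 * Y * (pderiv 0 (lin b) * Y + 2 * lin b * pderiv 0 Y) + X 2 * X 2 * pderiv 0 A := by
      rw [hS.eq, hquad]
      simp only [pow_two, map_add, Derivation.leibniz, smul_eq_mul, pderiv_C, hX2]
      ring
    rw [h3, map_add, map_add, map_add, map_add, x76_prod q l _ _ _ hYq hYq,
      x76_prod q l _ _ _ hXq hYq, x76_prod q l _ _ _ hXq hXq, add_zero, add_zero]
  have hV := x76_van h1.on
  have hV00 := hV.der.1.der.1.eval z hz2' hz3'
  have hV01 := hV.der.1.der.2.eval z hz2' hz3'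
  have hV10 := hV.der.2.der.1.eval z hz2' hz3'
  have hV11 := hV.der.2.der.2.eval z hz2' hz3'
  have hH : ∀ l, ∑ j, (∑ m, aeval z (pderiv m (pderiv j F)) * e l m) * e 0 j = 0 := by
    intro l
    rw [← hhess l, x76_eval_der2]
  simp only [Fin.sum_univ_four] at hH
  have hG0 : e 0 2 * (aeval z (pderiv 0 (pderiv 2 F)) + t * aeval z (pderiv 0 (pderiv 3 F))) = 0 := by
    linear_combination p 0 * hH 0 + p 1 * hH 1 + p 2 * hH 2 -
      (aeval z (pderiv 0 (pderiv 0 F)) * e 0 0 + aeval z (pderiv 0 (pderiv 1 F)) * e 0 1 + aeval z (pderiv 0 (pderiv 2 F)) * e 0 2 + aeval z (pderiv 0 (pderiv 3 F)) * e 0 3) * hp0 -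
      (aeval z (pderiv 1 (pderiv 0 F)) * e 0 0 + aeval z (pderiv 1 (pderiv 1 F)) * e 0 1 + aeval z (pderiv 1 (pderiv 2 F)) * e 0 2 + aeval z (pderiv 1 (pderiv 3 F)) * e 0 3) * hp1 -
      (aeval z (pderiv 2 (pderiv 0 F)) * e 0 0 + aeval z (pderiv 2 (pderiv 1 F)) * e 0 1 + aeval z (pderiv 2 (pderiv 2 F)) * e 0 2 + aeval z (pderiv 2 (pderiv 3 F)) * e 0 3) * hp2 -
      (aeval z (pderiv 3 (pderiv 0 F)) * e 0 0 + aeval z (pderiv 3 (pderiv 1 F)) * e 0 1 + aeval z (pderiv 3 (pderiv 2 F)) * e 0 2 + aeval z (pderiv 3 (pderiv 3 F)) * e 0 3) * hp3 -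
      e 0 0 * hV00 - e 0 1 * hV10 - aeval z (pderiv 0 (pderiv 3 F)) * het 0
  have hG1 : e 0 2 * (aeval z (pderiv 1 (pderiv 2 F)) + t * aeval z (pderiv 1 (pderiv 3 F))) = 0 := by
    linear_combination r 0 * hH 0 + r 1 * hH 1 + r 2 * hH 2 -
      (aeval z (pderiv 0 (pderiv 0 F)) * e 0 0 + aeval z (pderiv 0 (pderiv 1 F)) * e 0 1 + aeval z (pderiv 0 (pderiv 2 F)) * e 0 2 + aeval z (pderiv 0 (pderiv 3 F)) * e 0 3) * hr0 -
      (aeval z (pderiv 1 (pderiv 0 F)) * e 0 0 + aeval z (pderiv 1 (pderiv 1 F)) * e 0 1 + aeval z (pderiv 1 (pderiv 2 F)) * e 0 2 + aeval z (pderiv 1 (pderiv 3 F)) * e 0 3) * hr1 -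
      (aeval z (pderiv 2 (pderiv 0 F)) * e 0 0 + aeval z (pderiv 2 (pderiv 1 F)) * e 0 1 + aeval z (pderiv 2 (pderiv 2 F)) * e 0 2 + aeval z (pderiv 2 (pderiv 3 F)) * e 0 3) * hr2 -
      (aeval z (pderiv 3 (pderiv 0 F)) * e 0 0 + aeval z (pderiv 3 (pderiv 1 F)) * e 0 1 + aeval z (pderiv 3 (pderiv 2 F)) * e 0 2 + aeval z (pderiv 3 (pderiv 3 F)) * e 0 3) * hr3 -
      e 0 0 * hV01 - e 0 1 * hV11 - aeval z (pderiv 1 (pderiv 3 F)) * het 0
  exact gen_on hF hs h1.on t ht z hzne hz2' hz3' ((mul_eq_zero.1 hG0).resolve_left he02)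
    ((mul_eq_zero.1 hG1).resolve_left he02)

/-- `no_line_in` from `line_k` -/
theorem x76_no_line_in {F : MvPolynomial (Fin 4) ℂ} (hF : F.IsHomogeneous 4) (hs : Pool.Agent.DS.Smooth F)
    (h1 : OneLine F) [IsAlgClosed k] (e : Fin 3 → Fin 4 → k) (c : Fin 3 → k) (g : k) (b : Fin 2 → k)
    (A : MvPolynomial (Fin 3) k) (hS : Sect F e c g b A) (hm : Moving e) (hoff : e 0 2 ≠ 0 ∨ e 0 3 ≠ 0)
    (hline : ∀ a b : Fin 4 → k, LinearIndependent k ![a, b] →
      (∀ s t : ℂ, aeval (fun j => algebraMap ℂ k s * a j + algebraMap ℂ k t * b j) F = 0) →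
      a 2 = 0 ∧ a 3 = 0 ∧ b 2 = 0 ∧ b 3 = 0) :
    NoLineIn F e := by
  intro u v huv hu hv
  by_contra hcon
  push Not at hcon
  obtain ⟨a1, a2, a3, a4⟩ := hline u v huv hcon
  exact x76_core hF hs h1 e c g b A hS hm hoff u v huv hu hv a1 a2 a3 a4

end Pool.Agent.QX
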